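import Mathlib
import Pool.Agent.Lib_MP_112ba8_s.Defs

/-!
Definitions for the lower bounds of the moments of zeta with radial real polynomials of general
powers (fourth library; the vertex types of `Lib_MP_112ba8_s` are generalised).
-/

namespace Pool.Agent.GenMoment

open Filter Topology MeasureTheory
open Pool.Agent.EvenMoment (cl Wgt Adm Ed cut hat)
open Pool.Agent.SixthMoment (QQ ln fr osc QS TT ob sepa oy xe JZ fc chi)

/-- Vertex types: multiplicative coefficients on fractions, `c p n` is the value at `p^n` and at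
`p^(-n)`; `al` is the exponent (the polynomial imitates `|ζ|^(2 al)`). -/
structure VT where
  /-- local coefficient -/
  c : ℕ → ℕ → ℝ
  /-- exponent -/
  al : ℝ
  al_pos : 0 < al
  zero_eq : ∀ p, 2 ≤ p → c p 0 = 1
  nonneg : ∀ p, 2 ≤ p → ∀ n, 0 ≤ c p n
  bound : ∃ K : ℝ, 0 < K ∧ ∀ p, 2 ≤ p →
    (∀ n, c p n ≤ K * (5 / 4 : ℝ) ^ n) ∧ |c p 1 - al| ≤ K / p

/-- vertex weight -/
noncomputable def vw (v : VT) (q : QQ) : ℝ := q.prod fun p j => v.c (p : ℕ) j.natAbs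

/-- weight of a tuple -/
noncomputable def wt {r : ℕ} (h : Fin r → VT) (f : TT r) : ℝ :=
  (∏ i, vw (h i) (f.1 i)) * Real.exp (-((∑ i, ln (f.1 i)) / 2))

/-- the discrete functional -/
noncomputable def DS {r m : ℕ} (h : Fin r → VT) (S : Fin m → Finset (Fin r))
    (G : (Fin m → ℝ) → ℝ) (L : ℝ) : ℝ :=
  ∑' f : TT r, wt h f * G (fun κ => ob S f κ / L)

/-- exponent of an edge -/
noncomputable def ke {r : ℕ} (h : Fin r → VT) (e : Ed r) : ℝ := 2 * (h e.1.1).al * (h e.1.2).al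

/-- sum of the exponents of all edges -/
noncomputable def kk {r : ℕ} (h : Fin r → VT) : ℝ := ∑ e : Ed r, ke h e

/-- density of the limit measure -/
noncomputable def dens {r : ℕ} (h : Fin r → VT) (y : Ed r → ℝ) : ℝ :=
  ∏ e : Ed r, (y e ^ (ke h e - 1) / Real.Gamma (ke h e))

/-- the limit functional -/
noncomputable def LS {r m : ℕ} (h : Fin r → VT) (S : Fin m → Finset (Fin r))
    (G : (Fin m → ℝ) → ℝ) : ℝ :=
  ∫ y in {y : Ed r → ℝ | ∀ e, 0 < y e}, dens h y * G (oy S y)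

/-- term of the local factor -/
noncomputable def lterm {r m : ℕ} (h : Fin r → VT) (S : Fin m → Finset (Fin r)) (p : ℕ)
    (x : Fin m → ℝ) (j : JZ r) : ℝ :=
  (∏ i, (h i).c p (j.1 i).natAbs) *
    (p : ℝ) ^ (-((∑ i, |(j.1 i : ℝ)|) / 2 + ∑ κ, x κ * |∑ i ∈ S κ, (j.1 i : ℝ)|))

/-- local factor -/
noncomputable def Fl {r m : ℕ} (h : Fin r → VT) (S : Fin m → Finset (Fin r)) (p : ℕ)
    (x : Fin m → ℝ) : ℝ := ∑' j : JZ r, lterm h S p x j

/-- local factor at `x = 0` -/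
noncomputable def F0 {r : ℕ} (h : Fin r → VT) (p : ℕ) : ℝ :=
  ∑' j : JZ r, (∏ i, (h i).c p (j.1 i).natAbs) * (p : ℝ) ^ (-((∑ i, |(j.1 i : ℝ)|) / 2))

/-- the arithmetic constant -/
noncomputable def AR {r : ℕ} (h : Fin r → VT) : ℝ :=
  Real.exp (∑' p : Nat.Primes, (Real.log (F0 h p) + kk h * Real.log (1 - 1 / ((p : ℕ) : ℝ))))

/-! ### powers -/

/-- `d_c(p^n) = ∏_{i < n} (c + i) / (i + 1)` -/
noncomputable def Dc (c : ℝ) (n : ℕ) : ℝ := ∏ i ∈ Finset.range n, (c + i) / ((i : ℝ) + 1)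

/-- `u_j(p) = ∑_g d_c(p^(g+j)) d_c(p^g) p^(-g)` -/
noncomputable def uu (c : ℝ) (p j : ℕ) : ℝ := ∑' g : ℕ, Dc c (g + j) * Dc c g / (p : ℝ) ^ g

/-- local coefficient `u_j(p) / u_0(p)` -/
noncomputable def cc (c : ℝ) (p j : ℕ) : ℝ := uu c p j / uu c p 0

/-- the arithmetic factor of a real power: `A(c) = ∏_p (1 - 1/p)^(c^2) ∑_N d_c(p^N)^2 p^(-N)` -/
noncomputable def AA (c : ℝ) : ℝ :=
  Real.exp (∑' p : Nat.Primes, (Real.log (uu c p 0) + c ^ 2 * Real.log (1 - 1 / ((p : ℕ) : ℝ))))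

/-! ### polynomials and observables -/

/-- coefficient of a radial polynomial -/
noncomputable def PC (v : VT) (ω : ℝ → ℝ) (L : ℝ) (q : QQ) : ℝ :=
  vw v q * (ω (ln q / L) * Real.exp (-(ln q / 2)))

/-- the radial polynomial of type `v` with weight `ω` and length `θ` -/
noncomputable def PP (v : VT) (ω : ℝ → ℝ) (θ L t : ℝ) : ℂ :=
  ∑ q ∈ QS (θ * L), ((PC v ω L q : ℝ) : ℂ) * osc q t

/-- all one-element sets -/
def SI (r : ℕ) : Fin r → Finset (Fin r) := fun i => {i}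

end Pool.Agent.GenMoment
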