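import Mathlib
import Pool.Agent.Lib_MP_112ba8_g.Defs
import Pool.Agent.Lib_MP_112ba8_s.Limit

/-!
Piece COEF (helper44): the vertex types of real powers.

`Dc c n = ∏_{i<n} (c+i)/(i+1)` grows polynomially: `Dc c n ≤ K (5/4)^n`.  Hence `uu_summable` by
comparison with a geometric series, `cc c p j ≤ K (5/4)^j` (as `uu c p 0 ≥ 1`), and
`uu c p 1 - c uu c p 0 = ∑_{g ≥ 1} (...) p^{-g} = O(1/p)` (the term `g = 0` vanishes).
-/

namespace Pool.Agent.GenMoment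

open Filter Topology MeasureTheory
open Pool.Agent.EvenMoment (cl Wgt Adm Ed cut hat)
open Pool.Agent.SixthMoment (QQ ln fr osc QS TT ob sepa oy xe JZ fc chi)

theorem Dc_zero (c : ℝ) : Dc c 0 = 1 := by simp [Dc]

theorem Dc_succ (c : ℝ) (n : ℕ) : Dc c (n + 1) = Dc c n * ((c + n) / (n + 1)) := by
  rw [Dc, Finset.prod_range_succ, ← Dc]

theorem Dc_rec (c : ℝ) (n : ℕ) : ((n : ℝ) + 1) * Dc c (n + 1) = (c + n) * Dc c n := by
  rw [Dc_succ]
  have : (n : ℝ) + 1 ≠ 0 := by positivity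
  field_simp

theorem Dc_one (c : ℝ) : Dc c 1 = c := by simp [Dc]

theorem Dc_pos {c : ℝ} (hc : 0 < c) (n : ℕ) : 0 < Dc c n := by
  unfold Dc
  exact Finset.prod_pos fun i _ => by positivity

theorem Dc_nonneg {c : ℝ} (hc : 0 ≤ c) (n : ℕ) : 0 ≤ Dc c n := by
  unfold Dc
  exact Finset.prod_nonneg fun i _ => by positivity

theorem Dc_zero_succ (n : ℕ) : Dc 0 (n + 1) = 0 := by
  unfold Dc
  refine Finset.prod_eq_zero (Finset.mem_range.mpr (Nat.succ_pos n)) ?_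
  simp

/-- `(1 - x)^(-1)` has all coefficients equal to one -/
theorem Dc_one_left (n : ℕ) : Dc 1 n = 1 := by
  induction n with
  | zero => exact Dc_zero 1
  | succ n ih =>
    rw [Dc_succ, ih, add_comm (1 : ℝ) (n : ℝ), div_self (by positivity), one_mul]

/-- integer exponents -/
theorem Dc_natCast (k n : ℕ) : Dc (k : ℝ) n = ((n + k - 1).choose n : ℝ) := by
  rcases Nat.eq_zero_or_pos k with rfl | hk
  · cases n with
    | zero => simp [Dc_zero]
    | succ n =>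
      rw [Nat.cast_zero, Dc_zero_succ]
      rw [Nat.choose_eq_zero_of_lt (by omega)]
      simp
  · induction n with
    | zero => simp [Dc_zero]
    | succ n ih =>
      have h1 := Dc_rec (k : ℝ) n
      have h2 : (n + 1) * ((n + 1 + k - 1).choose (n + 1)) = (k + n) * ((n + k - 1).choose n) := by
        obtain ⟨m, rfl⟩ : ∃ m, k = m + 1 := ⟨k - 1, by omega⟩
        have e1 : n + 1 + (m + 1) - 1 = (n + m) + 1 := by omega
        have e2 : n + (m + 1) - 1 = n + m := by omega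
        rw [e1, e2]
        have := Nat.add_one_mul_choose_eq (n + m) n
        nlinarith [this]
      have h3 : ((n : ℝ) + 1) * ((n + 1 + k - 1).choose (n + 1) : ℝ) =
          ((k : ℝ) + n) * ((n + k - 1).choose n : ℝ) := by exact_mod_cast h2
      have h4 : ((n : ℝ) + 1) ≠ 0 := by positivity
      refine mul_left_cancel₀ h4 ?_
      rw [h1, ih, h3]

/-- exponential bound for the coefficients -/
theorem Dc_bound {c : ℝ} (hc : 0 ≤ c) :
    ∃ K : ℝ, 1 ≤ K ∧ ∀ n : ℕ, Dc c n ≤ K * (5 / 4) ^ n := by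
  obtain ⟨N, hN⟩ := exists_nat_ge (4 * c)
  have hpos : ∀ n, 0 ≤ Dc c n / (5 / 4) ^ n := fun n => div_nonneg (Dc_nonneg hc n) (by positivity)
  set K : ℝ := ∑ i ∈ Finset.range (N + 1), Dc c i / (5 / 4) ^ i with hK
  have hle : ∀ n ≤ N, Dc c n / (5 / 4) ^ n ≤ K := fun n hn =>
    Finset.single_le_sum (f := fun i => Dc c i / (5 / 4) ^ i) (fun i _ => hpos i)
      (Finset.mem_range.mpr (by omega))
  have hall : ∀ n, Dc c n / (5 / 4) ^ n ≤ K := by
    intro n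
    induction n with
    | zero => exact hle 0 (Nat.zero_le _)
    | succ n ih =>
      rcases Nat.lt_or_ge N (n + 1) with h | h
      · refine le_trans ?_ ih
        rw [Dc_succ, pow_succ, ← div_mul_div_comm]
        refine mul_le_of_le_one_right (hpos n) ?_
        have h1 : (N : ℝ) ≤ n := by exact_mod_cast (Nat.lt_succ_iff.mp h)
        rw [div_div, div_le_one (by positivity)]
        linarith
      · exact hle _ h
  refine ⟨K, ?_, fun n => ?_⟩
  · have := hle 0 (Nat.zero_le _)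
    simpa [Dc_zero] using this
  · have := hall n
    rwa [div_le_iff₀ (by positivity)] at this

theorem term_nonneg {c : ℝ} (hc : 0 ≤ c) (p j g : ℕ) :
    0 ≤ Dc c (g + j) * Dc c g / (p : ℝ) ^ g := by
  have h1 := Dc_nonneg hc (g + j)
  have h2 := Dc_nonneg hc g
  positivity

theorem term_le {c : ℝ} (hc : 0 ≤ c) {K : ℝ} (hK : 1 ≤ K)
    (hb : ∀ n : ℕ, Dc c n ≤ K * (5 / 4) ^ n) {p : ℕ} (hp : 2 ≤ p) (j g : ℕ) :
    Dc c (g + j) * Dc c g / (p : ℝ) ^ g ≤ K ^ 2 * (5 / 4) ^ j * (25 / 16 / (p : ℝ)) ^ g := by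
  have hp' : (2 : ℝ) ≤ p := by exact_mod_cast hp
  rw [div_pow (25 / 16 : ℝ) (p : ℝ) g, ← mul_div_assoc]
  refine div_le_div_of_nonneg_right ?_ (by positivity)
  have h1 := hb (g + j)
  have h2 := hb g
  have h3 : (25 / 16 : ℝ) ^ g = (5 / 4) ^ g * (5 / 4) ^ g := by
    rw [← mul_pow]; norm_num
  calc Dc c (g + j) * Dc c g ≤ (K * (5 / 4) ^ (g + j)) * (K * (5 / 4) ^ g) :=
        mul_le_mul h1 h2 (Dc_nonneg hc _) (by positivity)
    _ = K ^ 2 * (5 / 4) ^ j * (25 / 16) ^ g := by rw [h3, pow_add]; ring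

theorem geo_summable {p : ℕ} (hp : 2 ≤ p) : Summable fun g : ℕ => (25 / 16 / (p : ℝ)) ^ g := by
  have h : (2 : ℝ) ≤ p := by exact_mod_cast hp
  refine summable_geometric_of_lt_one (by positivity) ?_
  rw [div_lt_one (by linarith)]
  linarith

theorem geo_le {p : ℕ} (hp : 2 ≤ p) : ∑' g : ℕ, (25 / 16 / (p : ℝ)) ^ g ≤ 5 := by
  have h : (2 : ℝ) ≤ p := by exact_mod_cast hp
  have h1 : 25 / 16 / (p : ℝ) ≤ 25 / 32 := by
    rw [div_le_iff₀ (by linarith)]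
    linarith
  rw [tsum_geometric_of_lt_one (by positivity) (by linarith), inv_le_comm₀ (by linarith)
    (by norm_num)]
  linarith

theorem uu_summable' {c : ℝ} (hc : 0 ≤ c) {p : ℕ} (hp : 2 ≤ p) (j : ℕ) :
    Summable fun g : ℕ => Dc c (g + j) * Dc c g / (p : ℝ) ^ g := by
  obtain ⟨K, hK, hb⟩ := Dc_bound hc
  exact Summable.of_nonneg_of_le (term_nonneg hc p j) (term_le hc hK hb hp j)
    ((geo_summable hp).mul_left _)

theorem uu_nonneg {c : ℝ} (hc : 0 ≤ c) (p j : ℕ) : 0 ≤ uu c p j :=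
  tsum_nonneg (term_nonneg hc p j)

theorem one_le_uu' {c : ℝ} (hc : 0 ≤ c) {p : ℕ} (hp : 2 ≤ p) : 1 ≤ uu c p 0 := by
  have h := (uu_summable' hc hp 0).le_tsum 0 (fun g _ => term_nonneg hc p 0 g)
  simpa [Dc_zero, uu] using h

theorem uu_zero_pos {c : ℝ} (hc : 0 ≤ c) {p : ℕ} (hp : 2 ≤ p) : 0 < uu c p 0 :=
  one_pos.trans_le (one_le_uu' hc hp)

theorem uu_le {c : ℝ} (hc : 0 ≤ c) :
    ∃ K : ℝ, 0 < K ∧ ∀ p : ℕ, 2 ≤ p → ∀ j : ℕ, uu c p j ≤ K * (5 / 4) ^ j := by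
  obtain ⟨K, hK, hb⟩ := Dc_bound hc
  refine ⟨5 * K ^ 2, by positivity, fun p hp j => ?_⟩
  have h1 := (uu_summable' hc hp j).tsum_le_tsum (term_le hc hK hb hp j)
    ((geo_summable hp).mul_left _)
  refine h1.trans ?_
  rw [tsum_mul_left]
  have h2 := geo_le hp
  have h3 : 0 ≤ K ^ 2 * (5 / 4 : ℝ) ^ j := by positivity
  calc K ^ 2 * (5 / 4) ^ j * ∑' g : ℕ, (25 / 16 / (p : ℝ)) ^ g ≤ K ^ 2 * (5 / 4) ^ j * 5 :=
        mul_le_mul_of_nonneg_left h2 h3
    _ = 5 * K ^ 2 * (5 / 4) ^ j := by ring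

theorem cc_zero' {c : ℝ} (hc : 0 ≤ c) {p : ℕ} (hp : 2 ≤ p) : cc c p 0 = 1 :=
  div_self (uu_zero_pos hc hp).ne'

theorem cc_nonneg' {c : ℝ} (hc : 0 ≤ c) (p j : ℕ) : 0 ≤ cc c p j :=
  div_nonneg (uu_nonneg hc p j) (uu_nonneg hc p 0)

theorem cc_bound' {c : ℝ} (hc : 0 ≤ c) :
    ∃ K : ℝ, 0 < K ∧ ∀ p : ℕ, 2 ≤ p → ∀ j : ℕ, cc c p j ≤ K * (5 / 4) ^ j := by
  obtain ⟨K, hK, hb⟩ := uu_le hc
  refine ⟨K, hK, fun p hp j => ?_⟩
  refine le_trans ?_ (hb p hp j)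
  exact div_le_self (uu_nonneg hc p j) (one_le_uu' hc hp)

/-- tail of a geometric-type series from `g = m` on -/
theorem tail_le {p : ℕ} (hp : 2 ≤ p) (m : ℕ) :
    ∑' g : ℕ, (25 / 16 / (p : ℝ)) ^ (g + m) ≤ 5 * (25 / 16) ^ m / (p : ℝ) ^ m := by
  have h : (2 : ℝ) ≤ p := by exact_mod_cast hp
  simp_rw [pow_add]
  rw [tsum_mul_right, div_pow, mul_div_assoc]
  exact mul_le_mul_of_nonneg_right (geo_le hp) (by positivity)

theorem cc_one_bound {c : ℝ} (hc : 0 ≤ c) :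
    ∃ K : ℝ, 0 < K ∧ ∀ p : ℕ, 2 ≤ p → |cc c p 1 - c| ≤ K / p := by
  obtain ⟨K, hK, hb⟩ := Dc_bound hc
  refine ⟨(K ^ 2 * (5 / 4) + c * K ^ 2) * (5 * (25 / 16)), by positivity, fun p hp => ?_⟩
  have hp' : (2 : ℝ) ≤ p := by exact_mod_cast hp
  have h0 := one_le_uu' hc hp
  have h1 : cc c p 1 - c = (uu c p 1 - c * uu c p 0) / uu c p 0 := by
    unfold cc
    have := (uu_zero_pos hc hp).ne'
    field_simp
  have h2 : |uu c p 1 - c * uu c p 0| ≤
      (K ^ 2 * (5 / 4) + c * K ^ 2) * (5 * (25 / 16)) / p := by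
    have hs1 := uu_summable' hc hp 1
    have hs0 := (uu_summable' hc hp 0).mul_left c
    have h3 : uu c p 1 - c * uu c p 0 = ∑' g : ℕ, (Dc c (g + 1) * Dc c g / (p : ℝ) ^ g -
        c * (Dc c (g + 0) * Dc c g / (p : ℝ) ^ g)) := by
      rw [hs1.tsum_sub hs0, tsum_mul_left]
      rfl
    have hs := hs1.sub hs0
    rw [h3, hs.tsum_eq_zero_add]
    have h4 : Dc c (0 + 1) * Dc c 0 / (p : ℝ) ^ 0 - c * (Dc c (0 + 0) * Dc c 0 / (p : ℝ) ^ 0) = 0 := by
      simp [Dc_zero, Dc_one]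
    rw [h4, zero_add]
    have h5 : Summable fun g : ℕ => (K ^ 2 * (5 / 4) + c * K ^ 2) * (25 / 16 / (p : ℝ)) ^ (g + 1) :=
      ((summable_nat_add_iff 1).2 (geo_summable hp)).mul_left _
    have h6 : ∀ g : ℕ, ‖Dc c (g + 1 + 1) * Dc c (g + 1) / (p : ℝ) ^ (g + 1) -
        c * (Dc c (g + 1 + 0) * Dc c (g + 1) / (p : ℝ) ^ (g + 1))‖ ≤
        (K ^ 2 * (5 / 4) + c * K ^ 2) * (25 / 16 / (p : ℝ)) ^ (g + 1) := by
      intro g
      have a1 := term_nonneg hc p 1 (g + 1)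
      have a2 := term_le hc hK hb hp 1 (g + 1)
      have b1 := mul_nonneg hc (term_nonneg hc p 0 (g + 1))
      have b2 := mul_le_mul_of_nonneg_left (term_le hc hK hb hp 0 (g + 1)) hc
      rw [pow_one] at a2
      rw [pow_zero, mul_one] at b2
      have q0 : 0 ≤ (25 / 16 / (p : ℝ)) ^ (g + 1) := by positivity
      have q1 : 0 ≤ c * (K ^ 2 * (25 / 16 / (p : ℝ)) ^ (g + 1)) := by positivity
      have q2 : 0 ≤ K ^ 2 * (5 / 4) * (25 / 16 / (p : ℝ)) ^ (g + 1) := by positivity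
      rw [Real.norm_eq_abs, abs_le]
      constructor <;> nlinarith
    have h7 := tsum_of_norm_bounded h5.hasSum h6
    rw [Real.norm_eq_abs] at h7
    refine h7.trans ?_
    rw [tsum_mul_left, mul_div_assoc]
    have h8 := tail_le hp 1
    rw [pow_one, pow_one] at h8
    exact mul_le_mul_of_nonneg_left h8 (by positivity)
  rw [h1, abs_div, abs_of_pos (uu_zero_pos hc hp), div_le_iff₀ (uu_zero_pos hc hp)]
  have h11 : (0 : ℝ) ≤ (K ^ 2 * (5 / 4) + c * K ^ 2) * (5 * (25 / 16)) / p := by positivity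
  nlinarith

/-- second order expansion of `u_0` -/
theorem uu_zero_expand {c : ℝ} (hc : 0 ≤ c) :
    ∃ K : ℝ, 0 < K ∧ ∀ p : ℕ, 2 ≤ p → |uu c p 0 - 1 - c ^ 2 / p| ≤ K / (p : ℝ) ^ 2 := by
  obtain ⟨K, hK, hb⟩ := Dc_bound hc
  refine ⟨K ^ 2 * (5 * (25 / 16) ^ 2), by positivity, fun p hp => ?_⟩
  have hp' : (2 : ℝ) ≤ p := by exact_mod_cast hp
  have hs := uu_summable' hc hp 0
  have h1 := hs.sum_add_tsum_nat_add 2
  have h2 : uu c p 0 - 1 - c ^ 2 / p =
      ∑' g : ℕ, Dc c (g + 2 + 0) * Dc c (g + 2) / (p : ℝ) ^ (g + 2) := by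
    rw [uu, ← h1, Finset.sum_range_succ, Finset.sum_range_one]
    simp only [Nat.add_zero, Dc_zero, Dc_one, pow_zero, pow_one]
    ring
  rw [h2, abs_of_nonneg (tsum_nonneg fun g => term_nonneg hc p 0 (g + 2))]
  have h3 := ((summable_nat_add_iff 2).2 hs).tsum_le_tsum (fun g => term_le hc hK hb hp 0 (g + 2))
    (((summable_nat_add_iff 2).2 (geo_summable hp)).mul_left _)
  refine h3.trans ?_
  rw [tsum_mul_left, pow_zero, mul_one, mul_div_assoc]
  refine mul_le_mul_of_nonneg_left (tail_le hp 2) (by positivity)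

/-- the logarithm of `u_0(p) (1 - 1/p)^(c^2)` -/
noncomputable def lA (c : ℝ) (p : ℕ) : ℝ :=
  Real.log (uu c p 0) + c ^ 2 * Real.log (1 - 1 / (p : ℝ))

theorem lA_bound {c : ℝ} (hc : 0 ≤ c) :
    ∃ K : ℝ, 0 < K ∧ ∀ p : ℕ, 2 ≤ p → |lA c p| ≤ K * (1 / (p : ℝ) ^ 2) := by
  obtain ⟨K, hK, h⟩ := uu_zero_expand hc
  refine ⟨(c ^ 2 + K) ^ 2 + K + c ^ 2, by positivity, fun p hp => ?_⟩
  have hp' : (2 : ℝ) ≤ p := by exact_mod_cast hp
  have hp0 : (0 : ℝ) < p := by linarith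
  have h1 := h p hp
  set y := uu c p 0 - 1 with hy
  have hy0 : 0 ≤ y := by
    have := one_le_uu' hc hp
    linarith
  have hx : (0 : ℝ) < 1 / (p : ℝ) := by positivity
  have hx2 : 1 / (p : ℝ) ≤ 1 / 2 := one_div_le_one_div_of_le two_pos hp'
  set x : ℝ := 1 / (p : ℝ) with hxd
  have e1 : c ^ 2 / (p : ℝ) = c ^ 2 * x := by rw [hxd]; ring
  have e2 : K / (p : ℝ) ^ 2 = K * x ^ 2 := by rw [hxd]; ring
  have e3 : (1 : ℝ) / (p : ℝ) ^ 2 = x ^ 2 := by rw [hxd]; ring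
  rw [e1, e2] at h1
  rw [e3]
  have h2 := Pool.Agent.SixthMoment.a6_log hy0
  have e4 : (1 : ℝ) + y = uu c p 0 := by rw [hy]; ring
  rw [e4] at h2
  have h3 : y ≤ (c ^ 2 + K) * x := by
    have h10 := (abs_le.mp h1).2
    have h11 : 0 ≤ K * (x * (1 - x)) :=
      mul_nonneg hK.le (mul_nonneg hx.le (by linarith))
    nlinarith
  have h4 : y ^ 2 ≤ (c ^ 2 + K) ^ 2 * x ^ 2 := by
    rw [← mul_pow]
    exact pow_le_pow_left₀ hy0 h3 2
  have h5 : |Real.log (1 - x) + x| ≤ x ^ 2 := by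
    have hu := Real.log_le_sub_one_of_pos (show 0 < 1 - x by linarith)
    rw [abs_le]
    constructor
    · -- lower bound: log(1-x) ≥ -x - x^2 for 0 ≤ x ≤ 1/2
      have key : -x - x ^ 2 ≤ Real.log (1 - x) := by
        have hpos : 0 < 1 - x := by linarith
        rw [Real.le_log_iff_exp_le hpos]
        have hb1 : Real.exp (-x - x ^ 2) ≤ 1 / (1 + (x + x ^ 2) + (x + x ^ 2) ^ 2 / 2) := by
          have e5 : -x - x ^ 2 = -(x + x ^ 2) := by ring
          rw [e5, Real.exp_neg, one_div]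
          refine inv_anti₀ (by positivity) ?_
          have := Real.quadratic_le_exp_of_nonneg (show 0 ≤ x + x ^ 2 by positivity)
          linarith
        refine hb1.trans ?_
        rw [div_le_iff₀ (by positivity)]
        have hx1 : 0 ≤ x := hx.le
        have : 0 ≤ x ^ 2 * (1 / 2 - x) := by
          have : 0 ≤ 1 / 2 - x := by linarith
          positivity
        nlinarith [pow_nonneg hx1 3, pow_nonneg hx1 4, pow_nonneg hx1 5, mul_nonneg (pow_nonneg hx1 3)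
          (show (0:ℝ) ≤ 1 / 2 - x by linarith), mul_nonneg (pow_nonneg hx1 4)
          (show (0:ℝ) ≤ 1 / 2 - x by linarith)]
      linarith
    · linarith [sq_nonneg x]
  have e6 : lA c p = (Real.log (uu c p 0) - y) + (y - c ^ 2 * x) +
      c ^ 2 * (Real.log (1 - x) + x) := by
    rw [lA, ← hxd]
    ring
  rw [e6]
  have h7 : |c ^ 2 * (Real.log (1 - x) + x)| ≤ c ^ 2 * x ^ 2 := by
    rw [abs_mul, abs_of_nonneg (sq_nonneg c)]
    exact mul_le_mul_of_nonneg_left h5 (sq_nonneg c)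
  have h8 := abs_add_le ((Real.log (uu c p 0) - y) + (y - c ^ 2 * x))
    (c ^ 2 * (Real.log (1 - x) + x))
  have h9 := abs_add_le (Real.log (uu c p 0) - y) (y - c ^ 2 * x)
  nlinarith

theorem lA_summable {c : ℝ} (hc : 0 ≤ c) : Summable fun p : Nat.Primes => lA c (p : ℕ) := by
  obtain ⟨K, hK, h⟩ := lA_bound hc
  have h1 : Summable fun p : Nat.Primes => K * (1 / ((p : ℕ) : ℝ) ^ 2) := by
    have h2 : Summable fun p : Nat.Primes => (1 / ((p : ℕ) : ℝ) ^ 2) := by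
      have := (Real.summable_one_div_nat_pow (p := 2)).mpr one_lt_two
      exact this.comp_injective (i := fun p : Nat.Primes => (p : ℕ)) (fun a b hab => Subtype.ext hab)
    exact h2.mul_left K
  refine Summable.of_norm_bounded h1 fun p => ?_
  rw [Real.norm_eq_abs]
  exact h _ p.2.two_le

theorem uu_summable {c : ℝ} (hc : 0 < c) {p : ℕ} (hp : 2 ≤ p) (j : ℕ) :
    Summable fun g : ℕ => Dc c (g + j) * Dc c g / (p : ℝ) ^ g := uu_summable' hc.le hp j

theorem one_le_uu {c : ℝ} (hc : 0 < c) {p : ℕ} (hp : 2 ≤ p) : 1 ≤ uu c p 0 := one_le_uu' hc.le hp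

theorem cc_zero {c : ℝ} (hc : 0 < c) {p : ℕ} (hp : 2 ≤ p) : cc c p 0 = 1 := cc_zero' hc.le hp

theorem cc_nonneg {c : ℝ} (hc : 0 < c) {p : ℕ} (_ : 2 ≤ p) (j : ℕ) : 0 ≤ cc c p j :=
  cc_nonneg' hc.le p j

theorem cc_bound {c : ℝ} (hc : 0 < c) : ∃ K : ℝ, 0 < K ∧ ∀ p, 2 ≤ p →
    (∀ n, cc c p n ≤ K * (5 / 4 : ℝ) ^ n) ∧ |cc c p 1 - c| ≤ K / p := by
  obtain ⟨K, hK, h⟩ := cc_bound' hc.le
  obtain ⟨K', hK', h'⟩ := cc_one_bound hc.le
  refine ⟨max K K', lt_max_of_lt_left hK, fun p hp => ⟨fun n => (h p hp n).trans ?_,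
    (h' p hp).trans ?_⟩⟩
  · exact mul_le_mul_of_nonneg_right (le_max_left _ _) (by positivity)
  · exact div_le_div_of_nonneg_right (le_max_right _ _) (Nat.cast_nonneg p)

/-- the vertex type of a real power `c > 0` -/
noncomputable def pw (c : ℝ) (hc : 0 < c) : VT where
  c := cc c
  al := c
  al_pos := hc
  zero_eq := fun _ hp => cc_zero hc hp
  nonneg := fun _ hp n => cc_nonneg hc hp n
  bound := cc_bound hc

@[simp] theorem pw_al (c : ℝ) (hc : 0 < c) : (pw c hc).al = c := rfl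

theorem cc_one {p : ℕ} (hp : 2 ≤ p) (n : ℕ) : cc 1 p n = 1 := by
  have h : uu 1 p n = uu 1 p 0 := by
    unfold uu
    refine tsum_congr fun g => ?_
    rw [Dc_one_left, Dc_one_left, Dc_one_left]
  rw [cc, h]
  exact div_self (uu_zero_pos zero_le_one hp).ne'

end Pool.Agent.GenMoment
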