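import Mathlib
import Pool.Agent.Lib_MP_112ba8_g.Defs
import Pool.Agent.Lib_MP_112ba8_g.Coef

/-!
Second part of the definitions: natural powers, test functions, explicit integrals.
-/

namespace Pool.Agent.GenMoment

open Filter Topology MeasureTheory
open Pool.Agent.EvenMoment (cl Wgt Adm Ed cut hat)
open Pool.Agent.SixthMoment (QQ ln fr osc QS TT ob sepa oy xe JZ fc chi)

/-- the vertex type of a natural power `a ≥ 1` (for `a = 0` it is the type of the power `1`) -/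
noncomputable def pn (a : ℕ) : VT :=
  pw (max 1 (a : ℝ)) (lt_of_lt_of_le one_pos (le_max_left _ _))

theorem pn_al {a : ℕ} (ha : 0 < a) : (pn a).al = a := by
  unfold pn
  rw [pw_al]
  exact max_eq_right (by exact_mod_cast ha)

/-- add the vertex `|ζ|^2` (power one) as vertex `0` -/
noncomputable def hX {n : ℕ} (h : Fin n → VT) : Fin (n + 1) → VT := Fin.cons (pn 1) h

/-- product test function -/
noncomputable def G0 {n : ℕ} (ω : Fin n → ℝ → ℝ) (s : Fin n → ℝ) : ℝ := ∏ i, ω i (s i)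

/-- product test function with the vertex `0` -/
noncomputable def GX {n : ℕ} (φ : ℝ → ℝ) (ω : Fin n → ℝ → ℝ) (s : Fin (n + 1) → ℝ) : ℝ :=
  φ (s 0) * ∏ i, ω i (s i.succ)

/-- weight of the polynomial `R`: `c - s` cut off at `ρ` -/
noncomputable def gR (c ρ η s : ℝ) : ℝ := (c - s) * chi ρ η s

/-- autocorrelation of the hat function -/
noncomputable def Psi (θ δ z : ℝ) : ENNReal :=
  ∫⁻ x : ℝ, ENNReal.ofReal (hat θ δ x) * ENNReal.ofReal (hat θ δ (x + z))

/-- positive part -/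
noncomputable def pp (x : ℝ) : ℝ := max 0 x

/-- kernel of a `2 × 2` block with the weight `∏ entries ^ m`: total `u`, difference of the row
sums `a`, difference of the column sums `b`; the entries are
`p, (u+a)/2-p` (first row) and `(u+b)/2-p, p-(a+b)/2` (second row). -/
noncomputable def BK (m : ℕ) (u a b : ℝ) : ENNReal :=
  ENNReal.ofReal (1 / 4) * ∫⁻ p : ℝ, ENNReal.ofReal
    ((pp p * pp ((u + a) / 2 - p) * pp ((u + b) / 2 - p) * pp (p - (a + b) / 2)) ^ m)

/-- the constant in the Hilbert-Schmidt norm of the block kernel -/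
noncomputable def be2 (m : ℕ) : ℝ :=
  1 / (4 * (Nat.factorial (8 * m + 4) : ℝ)) * ∑ i ∈ Finset.range (m + 1),
    ∑ j ∈ Finset.range (m + 1), ∑ k ∈ Finset.range (m + 1), ∑ l ∈ Finset.range (m + 1),
      (Nat.factorial (i + j + k + l) : ℝ) / 2 ^ (i + j + k + l) *
        ((m.choose i * Nat.factorial (2 * m - i)) * (m.choose j * Nat.factorial (2 * m - j)) *
          (m.choose k * Nat.factorial (2 * m - k)) * (m.choose l * Nat.factorial (2 * m - l)))

/-- the integral over the three block totals -/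
noncomputable def TI (m : ℕ) (θ : ℝ) : ENNReal :=
  ∫⁻ u in Set.Ioi (0 : ℝ), ∫⁻ v in Set.Ioi (0 : ℝ), ∫⁻ w in Set.Ioi (0 : ℝ),
    ENNReal.ofReal ((u * v * w) ^ (4 * m + 2) *
      (pp (θ - (u + v) / 2) * pp (θ - (u + w) / 2) * pp (θ - (v + w) / 2)) ^ m)

/-- lower bound integral, three vertices -/
noncomputable def NN3 (E B Z : ℕ) (θ lam r c : ℝ) : ℝ :=
  ∫ b in (0 : ℝ)..lam, ∫ e in (0 : ℝ)..(r - b),
    b ^ B * (lam - b) ^ Z * (e ^ E * ((1 - (θ - b) - e) * (c - b - e)))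

/-- lower bound integral, four vertices -/
noncomputable def NN4 (E B₁ B₂ Z₁ Z₂ A : ℕ) (θ₁ θ₂ lam₁ lam₂ a₀ r c : ℝ) : ℝ :=
  ∫ a in a₀..lam₂, ∫ b₁ in (0 : ℝ)..(lam₁ - a), ∫ b₂ in (0 : ℝ)..(lam₂ - a),
    ∫ e in (0 : ℝ)..(r - b₁ - b₂),
      a ^ A * (b₁ ^ B₁ * (lam₁ - a - b₁) ^ Z₁) * (b₂ ^ B₂ * (lam₂ - a - b₂) ^ Z₂) *
        (e ^ E * ((1 - (θ₁ - a - b₁) - (θ₂ - a - b₂) - e) * (c - b₁ - b₂ - e)))

end Pool.Agent.GenMoment
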