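import Mathlib
import Pool.Agent.Lib_MP_112ba8_g.DefsB

/-!
Piece AMGM: the pointwise inequality and the sum of the edge exponents.

`amgm`: weighted AM-GM (`Real.inner_le_nnorm_mul_nnorm`/`Real.geom_mean_le_arith_mean_weighted`) with
the weights `1/k` for `x^k` and `a i / k = 1/(2 m i)` for `(y i)^(2 m i) = |y i|^(2 m i)`, sum one.
`kk_eq`: `∑_{i<j} 2 x_i x_j = (∑ x_i)^2 - ∑ x_i^2`.
-/

namespace Pool.Agent.GenMoment

open Filter Topology MeasureTheory
open Pool.Agent.EvenMoment (cl Wgt Adm Ed cut hat)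
open Pool.Agent.SixthMoment (QQ ln fr osc QS TT ob sepa oy xe JZ fc chi)

theorem amgm {n : ℕ} (a m : Fin n → ℕ) {k : ℕ} (hm : ∀ i, 0 < m i)
    (hk : ∀ i, a i * (2 * m i) = k) (hsum : ∑ i, a i + 1 = k) {x : ℝ} (hx : 0 ≤ x)
    (y : Fin n → ℝ) :
    (k : ℝ) * (x * ∏ i, y i) - ∑ i, (a i : ℝ) * y i ^ (2 * m i) ≤ x ^ k := by
  have _ := hm
  have hk0 : k ≠ 0 := by omega
  have hkR : (0 : ℝ) < k := by exact_mod_cast Nat.pos_of_ne_zero hk0
  have h1 := Real.geom_mean_le_arith_mean_weighted (Finset.univ : Finset (Fin (n + 1)))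
    (Fin.cons (1 / (k : ℝ)) (fun i => (a i : ℝ) / k)) (Fin.cons (x ^ k) (fun i => |y i| ^ (2 * m i)))
    (by
      intro i _
      refine Fin.cases ?_ (fun j => ?_) i
      · simp only [Fin.cons_zero]
        positivity
      · simp only [Fin.cons_succ]
        positivity)
    (by
      rw [Fin.sum_univ_succ]
      simp only [Fin.cons_zero, Fin.cons_succ]
      rw [← Finset.sum_div, ← add_div, div_eq_one_iff_eq hkR.ne']
      have h2 : ((∑ i, a i + 1 : ℕ) : ℝ) = (k : ℝ) := by rw [hsum]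
      push_cast at h2
      linarith)
    (by
      intro i _
      refine Fin.cases ?_ (fun j => ?_) i
      · simp only [Fin.cons_zero]
        positivity
      · simp only [Fin.cons_succ]
        positivity)
  rw [Fin.prod_univ_succ, Fin.sum_univ_succ] at h1
  simp only [Fin.cons_zero, Fin.cons_succ] at h1
  have h3 : (x ^ k) ^ (1 / (k : ℝ)) = x := by
    rw [one_div]
    exact Real.pow_rpow_inv_natCast hx hk0
  have h4 : ∀ i, (|y i| ^ (2 * m i)) ^ ((a i : ℝ) / k) = |y i| := by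
    intro i
    rw [← Real.rpow_natCast, ← Real.rpow_mul (abs_nonneg _)]
    have h5 : ((2 * m i : ℕ) : ℝ) * ((a i : ℝ) / k) = 1 := by
      rw [← mul_div_assoc, div_eq_one_iff_eq hkR.ne']
      have h6 : ((a i * (2 * m i) : ℕ) : ℝ) = (k : ℝ) := by rw [hk i]
      rw [← h6]
      push_cast
      ring
    rw [h5, Real.rpow_one]
  rw [h3, Finset.prod_congr rfl fun i _ => h4 i] at h1
  have h7 : ∀ i, |y i| ^ (2 * m i) = y i ^ (2 * m i) := by
    intro i
    rw [pow_mul, pow_mul, sq_abs]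
  have h8 : ∏ i, y i ≤ ∏ i, |y i| := by
    refine (le_abs_self _).trans ?_
    rw [Finset.abs_prod]
  have h9 : x * ∏ i, y i ≤ 1 / (k : ℝ) * x ^ k + ∑ i, (a i : ℝ) / k * |y i| ^ (2 * m i) :=
    (mul_le_mul_of_nonneg_left h8 hx).trans h1
  have h10 := mul_le_mul_of_nonneg_left h9 hkR.le
  have h11 : (k : ℝ) * (1 / (k : ℝ) * x ^ k + ∑ i, (a i : ℝ) / k * |y i| ^ (2 * m i)) =
      x ^ k + ∑ i, (a i : ℝ) * y i ^ (2 * m i) := by
    rw [mul_add, ← mul_assoc, mul_one_div_cancel hkR.ne', one_mul, Finset.mul_sum]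
    congr 1
    refine Finset.sum_congr rfl fun i _ => ?_
    rw [h7, ← mul_assoc, mul_div_cancel₀ _ hkR.ne']
  rw [h11] at h10
  linarith

theorem kk_eq {r : ℕ} (h : Fin r → VT) : kk h = (∑ i, (h i).al) ^ 2 - ∑ i, (h i).al ^ 2 := by
  classical
  set x : Fin r → ℝ := fun i => (h i).al with hx
  have h1 : kk h = ∑ p ∈ (Finset.univ : Finset (Fin r × Fin r)).filter (fun p => p.1 < p.2),
      2 * x p.1 * x p.2 := by
    unfold kk ke
    exact (Finset.sum_subtype _ (by simp) fun p : Fin r × Fin r => 2 * x p.1 * x p.2).symm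
  have h2 : (∑ i, x i) ^ 2 = ∑ p : Fin r × Fin r, x p.1 * x p.2 := by
    rw [sq, Finset.sum_mul_sum, Fintype.sum_prod_type]
  have h3 : ∑ i, x i ^ 2 = ∑ p : Fin r × Fin r, if p.1 = p.2 then x p.1 * x p.2 else 0 := by
    rw [Fintype.sum_prod_type]
    refine Finset.sum_congr rfl fun i _ => ?_
    rw [Finset.sum_ite_eq]
    simp [sq]
  have h4 : ∑ p : Fin r × Fin r, (if p.1 < p.2 then x p.1 * x p.2 else 0) =
      ∑ p : Fin r × Fin r, (if p.2 < p.1 then x p.1 * x p.2 else 0) := by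
    refine Fintype.sum_equiv (Equiv.prodComm _ _) _ _ fun p => ?_
    simp only [Equiv.prodComm_apply, Prod.fst_swap, Prod.snd_swap, mul_comm]
  have h5 : ∑ p : Fin r × Fin r, x p.1 * x p.2 =
      ∑ p : Fin r × Fin r, (if p.1 < p.2 then x p.1 * x p.2 else 0) +
      ∑ p : Fin r × Fin r, (if p.2 < p.1 then x p.1 * x p.2 else 0) +
      ∑ p : Fin r × Fin r, (if p.1 = p.2 then x p.1 * x p.2 else 0) := by
    rw [← Finset.sum_add_distrib, ← Finset.sum_add_distrib]
    refine Finset.sum_congr rfl fun p _ => ?_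
    rcases lt_trichotomy p.1 p.2 with h6 | h6 | h6
    · simp [h6, h6.ne, h6.not_gt]
    · simp [h6]
    · simp [h6, h6.ne', h6.not_gt]
  rw [h1, Finset.sum_filter, h2, h3, h5, ← h4]
  have h6 : ∑ p : Fin r × Fin r, (if p.1 < p.2 then 2 * x p.1 * x p.2 else 0) =
      2 * ∑ p : Fin r × Fin r, (if p.1 < p.2 then x p.1 * x p.2 else 0) := by
    rw [Finset.mul_sum]
    refine Finset.sum_congr rfl fun p _ => ?_
    split_ifs
    · ring
    · ring
  rw [h6]
  ring

end Pool.Agent.GenMoment
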