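import Mathlib
import Pool.Agent.Lib_MP_112ba8_g.DefsB

/-!
Piece BLOCK: change of variables in a 2 x 2 block.

`block_cov`: the entries are `y11 = p`, `y12 = (u+a)/2 - p`, `y21 = (u+b)/2 - p`,
`y22 = p - (a+b)/2`.  Write the left side as a fourfold integral over `ℝ` of
`ofReal ((pp y11 pp y12 pp y21 pp y22)^m) * F (..)` (`m ≥ 1`: the integrand vanishes if some entry is
`≤ 0`; `lintegral_indicator`).  Integrate in the order `y22` (innermost, translation
`u = y22 + (y11+y12+y21)`), then interchange (Tonelli) and substitute `y12 = (u+a)/2 - y11`,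
`y21 = (u+b)/2 - y11` (translations, reflections and a scaling by `1/2` each: the factor `1/4`;
`lintegral_comp_mul_left` type lemmas or `MeasureTheory.Measure.lintegral_comp_smul`...).
`BK_meas`: `Measurable.lintegral_prod_right`.
-/

namespace Pool.Agent.GenMoment

open Filter Topology MeasureTheory
open Pool.Agent.EvenMoment (cl Wgt Adm Ed cut hat)
open Pool.Agent.SixthMoment (QQ ln fr osc QS TT ob sepa oy xe JZ fc chi)

private theorem Block_pp_meas : Measurable pp := by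
  unfold pp
  exact measurable_const.max measurable_id

/-- the weight -/
private noncomputable def Block_W (m : ℕ) (x : ℝ × ℝ × ℝ × ℝ) : ENNReal :=
  ENNReal.ofReal ((pp x.1 * pp x.2.1 * pp x.2.2.1 * pp x.2.2.2) ^ m)

private theorem Block_W_meas (m : ℕ) : Measurable (Block_W m) := by
  unfold Block_W
  have h1 : Measurable fun x : ℝ × ℝ × ℝ × ℝ => pp x.1 := Block_pp_meas.comp measurable_fst
  have h2 : Measurable fun x : ℝ × ℝ × ℝ × ℝ => pp x.2.1 :=
    Block_pp_meas.comp (measurable_fst.comp measurable_snd)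
  have h3 : Measurable fun x : ℝ × ℝ × ℝ × ℝ => pp x.2.2.1 :=
    Block_pp_meas.comp (measurable_fst.comp (measurable_snd.comp measurable_snd))
  have h4 : Measurable fun x : ℝ × ℝ × ℝ × ℝ => pp x.2.2.2 :=
    Block_pp_meas.comp (measurable_snd.comp (measurable_snd.comp measurable_snd))
  exact ENNReal.measurable_ofReal.comp ((((h1.mul h2).mul h3).mul h4).pow_const m)

theorem BK_meas (m : ℕ) : Measurable fun x : ℝ × ℝ × ℝ => BK m x.1 x.2.1 x.2.2 := by
  unfold BK
  refine Measurable.const_mul ?_ _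
  have h : Measurable fun x : (ℝ × ℝ × ℝ) × ℝ => Block_W m
      (x.2, (x.1.1 + x.1.2.1) / 2 - x.2, (x.1.1 + x.1.2.2) / 2 - x.2,
        x.2 - (x.1.2.1 + x.1.2.2) / 2) := by
    refine (Block_W_meas m).comp ?_
    fun_prop
  exact Measurable.lintegral_prod_right' h

/-- swap of two integrals -/
private theorem Block_swap {f : ℝ → ℝ → ENNReal} (hf : Measurable fun x : ℝ × ℝ => f x.1 x.2) :
    ∫⁻ x : ℝ, ∫⁻ y : ℝ, f x y = ∫⁻ y : ℝ, ∫⁻ x : ℝ, f x y :=
  lintegral_lintegral_swap (f := f) hf.aemeasurable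

/-- affine substitution with the factor `1/2` -/
private theorem Block_aff {f : ℝ → ENNReal} (hf : Measurable f) (u p : ℝ) :
    ∫⁻ r : ℝ, f r = ∫⁻ b : ℝ, ENNReal.ofReal (1 / 2) * f ((u + b) / 2 - p) := by
  have hm : Measurable fun x : ℝ => f (x + (u / 2 - p)) := hf.comp (by fun_prop)
  have h1 : ∫⁻ b : ℝ, f ((u + b) / 2 - p) = ENNReal.ofReal 2 * ∫⁻ r : ℝ, f r := by
    have e : ∀ b : ℝ, f ((u + b) / 2 - p) = (fun x : ℝ => f (x + (u / 2 - p))) ((1 / 2) * b) := by
      intro b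
      dsimp only
      congr 1
      ring
    rw [lintegral_congr e, ← lintegral_map hm (measurable_const_mul (1 / 2 : ℝ)),
      Real.map_volume_mul_left (by norm_num : (1 / 2 : ℝ) ≠ 0), lintegral_smul_measure,
      lintegral_add_right_eq_self]
    norm_num
  have hm2 : Measurable fun b : ℝ => f ((u + b) / 2 - p) := hf.comp (by fun_prop)
  rw [lintegral_const_mul _ hm2, h1, ← mul_assoc, ← ENNReal.ofReal_mul (by norm_num)]
  norm_num

private theorem Block_lin {G : ℝ × ℝ × ℝ × ℝ → ENNReal} (hG : Measurable G) :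
    ∫⁻ p : ℝ, ∫⁻ q : ℝ, ∫⁻ r : ℝ, ∫⁻ s : ℝ, G (p, q, r, s) =
      ∫⁻ u : ℝ, ∫⁻ a : ℝ, ∫⁻ b : ℝ, ∫⁻ p : ℝ, ENNReal.ofReal (1 / 2) * (ENNReal.ofReal (1 / 2) *
        G (p, (u + a) / 2 - p, (u + b) / 2 - p, p - (a + b) / 2)) := by
  -- the first translation
  have s1 : ∀ p q r : ℝ, ∫⁻ s : ℝ, G (p, q, r, s) = ∫⁻ u : ℝ, G (p, q, r, u - p - q - r) := by
    intro p q r
    have := lintegral_sub_right_eq_self (μ := (volume : Measure ℝ))
      (fun s : ℝ => G (p, q, r, s)) (p + q + r)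
    rw [← this]
    refine lintegral_congr fun u => ?_
    congr 4
    ring
  have s2 : ∀ p q : ℝ, ∫⁻ r : ℝ, ∫⁻ u : ℝ, G (p, q, r, u - p - q - r) =
      ∫⁻ u : ℝ, ∫⁻ b : ℝ, ENNReal.ofReal (1 / 2) *
        G (p, q, (u + b) / 2 - p, u - p - q - ((u + b) / 2 - p)) := by
    intro p q
    rw [Block_swap (f := fun r u => G (p, q, r, u - p - q - r)) (hG.comp (by fun_prop))]
    refine lintegral_congr fun u => ?_
    exact Block_aff (f := fun r => G (p, q, r, u - p - q - r)) (hG.comp (by fun_prop)) u p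
  have s3 : ∀ p : ℝ, ∫⁻ q : ℝ, ∫⁻ u : ℝ, ∫⁻ b : ℝ, ENNReal.ofReal (1 / 2) *
        G (p, q, (u + b) / 2 - p, u - p - q - ((u + b) / 2 - p)) =
      ∫⁻ u : ℝ, ∫⁻ b : ℝ, ∫⁻ a : ℝ, ENNReal.ofReal (1 / 2) * (ENNReal.ofReal (1 / 2) *
        G (p, (u + a) / 2 - p, (u + b) / 2 - p, p - (a + b) / 2)) := by
    intro p
    rw [Block_swap (f := fun q u => ∫⁻ b : ℝ, ENNReal.ofReal (1 / 2) *
        G (p, q, (u + b) / 2 - p, u - p - q - ((u + b) / 2 - p)))]
    · refine lintegral_congr fun u => ?_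
      rw [Block_swap (f := fun q b => ENNReal.ofReal (1 / 2) *
        G (p, q, (u + b) / 2 - p, u - p - q - ((u + b) / 2 - p)))
        ((hG.comp (by fun_prop)).const_mul _)]
      refine lintegral_congr fun b => ?_
      rw [Block_aff (f := fun q => ENNReal.ofReal (1 / 2) *
        G (p, q, (u + b) / 2 - p, u - p - q - ((u + b) / 2 - p)))
        ((hG.comp (by fun_prop)).const_mul _) u p]
      refine lintegral_congr fun a => ?_
      congr 6
      ring
    · have h : Measurable fun x : (ℝ × ℝ) × ℝ => ENNReal.ofReal (1 / 2) *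
          G (p, x.1.1, (x.1.2 + x.2) / 2 - p, x.1.2 - p - x.1.1 - ((x.1.2 + x.2) / 2 - p)) :=
        (hG.comp (by fun_prop)).const_mul _
      exact Measurable.lintegral_prod_right' h
  rw [lintegral_congr fun p => by
    rw [lintegral_congr fun q => by
      rw [lintegral_congr fun r => s1 p q r, s2 p q], s3 p]]
  rw [Block_swap (f := fun p u => ∫⁻ b : ℝ, ∫⁻ a : ℝ, ENNReal.ofReal (1 / 2) *
    (ENNReal.ofReal (1 / 2) * G (p, (u + a) / 2 - p, (u + b) / 2 - p, p - (a + b) / 2)))]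
  · refine lintegral_congr fun u => ?_
    have e1 : ∀ p : ℝ, ∫⁻ b : ℝ, ∫⁻ a : ℝ, ENNReal.ofReal (1 / 2) *
        (ENNReal.ofReal (1 / 2) * G (p, (u + a) / 2 - p, (u + b) / 2 - p, p - (a + b) / 2)) =
        ∫⁻ a : ℝ, ∫⁻ b : ℝ, ENNReal.ofReal (1 / 2) *
        (ENNReal.ofReal (1 / 2) * G (p, (u + a) / 2 - p, (u + b) / 2 - p, p - (a + b) / 2)) := by
      intro p
      exact Block_swap (f := fun b a => ENNReal.ofReal (1 / 2) *
        (ENNReal.ofReal (1 / 2) * G (p, (u + a) / 2 - p, (u + b) / 2 - p, p - (a + b) / 2)))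
        (((hG.comp (by fun_prop)).const_mul _).const_mul _)
    rw [lintegral_congr e1, Block_swap (f := fun p a => ∫⁻ b : ℝ, ENNReal.ofReal (1 / 2) *
        (ENNReal.ofReal (1 / 2) * G (p, (u + a) / 2 - p, (u + b) / 2 - p, p - (a + b) / 2)))]
    · refine lintegral_congr fun a => ?_
      exact Block_swap (f := fun p b => ENNReal.ofReal (1 / 2) *
        (ENNReal.ofReal (1 / 2) * G (p, (u + a) / 2 - p, (u + b) / 2 - p, p - (a + b) / 2)))
        (((hG.comp (by fun_prop)).const_mul _).const_mul _)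
    · have h : Measurable fun x : (ℝ × ℝ) × ℝ => ENNReal.ofReal (1 / 2) *
          (ENNReal.ofReal (1 / 2) *
          G (x.1.1, (u + x.1.2) / 2 - x.1.1, (u + x.2) / 2 - x.1.1, x.1.1 - (x.1.2 + x.2) / 2)) :=
        ((hG.comp (by fun_prop)).const_mul _).const_mul _
      exact Measurable.lintegral_prod_right' h
  · have h : Measurable fun x : ((ℝ × ℝ) × ℝ) × ℝ => ENNReal.ofReal (1 / 2) *
        (ENNReal.ofReal (1 / 2) *
        G (x.1.1.1, (x.1.1.2 + x.2) / 2 - x.1.1.1, (x.1.1.2 + x.1.2) / 2 - x.1.1.1,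
          x.1.1.1 - (x.2 + x.1.2) / 2)) :=
      ((hG.comp (by fun_prop)).const_mul _).const_mul _
    have h2 := Measurable.lintegral_prod_right' (ν := (volume : Measure ℝ)) h
    exact Measurable.lintegral_prod_right' (ν := (volume : Measure ℝ)) h2

private theorem Block_set {f : ℝ → ENNReal} (h : ∀ x ≤ 0, f x = 0) :
    ∫⁻ x in Set.Ioi (0 : ℝ), f x = ∫⁻ x : ℝ, f x := by
  rw [← lintegral_indicator measurableSet_Ioi]
  congr 1
  rw [Set.indicator_eq_self]
  intro x hx
  by_contra hn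
  exact hx (h x (not_lt.mp hn))

theorem block_cov {m : ℕ} (hm : 0 < m) {F : ℝ × ℝ × ℝ → ENNReal} (hF : Measurable F) :
    ∫⁻ y11 in Set.Ioi (0 : ℝ), ∫⁻ y12 in Set.Ioi (0 : ℝ), ∫⁻ y21 in Set.Ioi (0 : ℝ),
      ∫⁻ y22 in Set.Ioi (0 : ℝ), ENNReal.ofReal ((y11 * y12 * y21 * y22) ^ m) *
        F (y11 + y12 + y21 + y22, y11 + y12 - y21 - y22, y11 + y21 - y12 - y22) =
      ∫⁻ u : ℝ, ∫⁻ a : ℝ, ∫⁻ b : ℝ, BK m u a b * F (u, a, b) := by
  have hpp : ∀ x : ℝ, x ≤ 0 → pp x = 0 := fun x hx => max_eq_left hx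
  have hpp' : ∀ x : ℝ, 0 < x → pp x = x := fun x hx => max_eq_right hx.le
  have hm0 : m ≠ 0 := hm.ne'
  have hz : ∀ p q r s : ℝ, (p ≤ 0 ∨ q ≤ 0 ∨ r ≤ 0 ∨ s ≤ 0) → Block_W m (p, q, r, s) = 0 := by
    intro p q r s h
    unfold Block_W
    have : pp p * pp q * pp r * pp s = 0 := by
      rcases h with h | h | h | h <;> rw [hpp _ h] <;> ring
    dsimp only
    rw [this, zero_pow hm0, ENNReal.ofReal_zero]
  have hGm : Measurable fun x : ℝ × ℝ × ℝ × ℝ => Block_W m x *
      F (x.1 + x.2.1 + x.2.2.1 + x.2.2.2, x.1 + x.2.1 - x.2.2.1 - x.2.2.2,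
        x.1 + x.2.2.1 - x.2.1 - x.2.2.2) :=
    (Block_W_meas m).mul (hF.comp (by fun_prop))
  have hlin := Block_lin hGm
  dsimp only at hlin
  have hL : ∫⁻ y11 in Set.Ioi (0 : ℝ), ∫⁻ y12 in Set.Ioi (0 : ℝ), ∫⁻ y21 in Set.Ioi (0 : ℝ),
      ∫⁻ y22 in Set.Ioi (0 : ℝ), ENNReal.ofReal ((y11 * y12 * y21 * y22) ^ m) *
        F (y11 + y12 + y21 + y22, y11 + y12 - y21 - y22, y11 + y21 - y12 - y22) =
      ∫⁻ p : ℝ, ∫⁻ q : ℝ, ∫⁻ r : ℝ, ∫⁻ s : ℝ, Block_W m (p, q, r, s) *
        F (p + q + r + s, p + q - r - s, p + r - q - s) := by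
    rw [← Block_set]
    · refine setLIntegral_congr_fun measurableSet_Ioi fun p hp => ?_
      rw [← Block_set]
      · refine setLIntegral_congr_fun measurableSet_Ioi fun q hq => ?_
        rw [← Block_set]
        · refine setLIntegral_congr_fun measurableSet_Ioi fun r hr => ?_
          rw [← Block_set]
          · refine setLIntegral_congr_fun measurableSet_Ioi fun s hs => ?_
            unfold Block_W
            dsimp only
            rw [hpp' p hp, hpp' q hq, hpp' r hr, hpp' s hs]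
          · intro s hs
            rw [hz _ _ _ _ (Or.inr (Or.inr (Or.inr hs))), zero_mul]
        · intro r hr
          simp only [hz _ _ _ _ (Or.inr (Or.inr (Or.inl hr))), zero_mul, lintegral_zero]
      · intro q hq
        simp only [hz _ _ _ _ (Or.inr (Or.inl hq)), zero_mul, lintegral_zero]
    · intro p hp
      simp only [hz _ _ _ _ (Or.inl hp), zero_mul, lintegral_zero]
  rw [hL, hlin]
  refine lintegral_congr fun u => lintegral_congr fun a => lintegral_congr fun b => ?_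
  have e : ∀ p : ℝ, ENNReal.ofReal (1 / 2) * (ENNReal.ofReal (1 / 2) *
      (Block_W m (p, (u + a) / 2 - p, (u + b) / 2 - p, p - (a + b) / 2) *
        F (p + ((u + a) / 2 - p) + ((u + b) / 2 - p) + (p - (a + b) / 2),
          p + ((u + a) / 2 - p) - ((u + b) / 2 - p) - (p - (a + b) / 2),
          p + ((u + b) / 2 - p) - ((u + a) / 2 - p) - (p - (a + b) / 2)))) =
      (ENNReal.ofReal (1 / 4) *
        Block_W m (p, (u + a) / 2 - p, (u + b) / 2 - p, p - (a + b) / 2)) * F (u, a, b) := by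
    intro p
    have e1 : p + ((u + a) / 2 - p) + ((u + b) / 2 - p) + (p - (a + b) / 2) = u := by ring
    have e2 : p + ((u + a) / 2 - p) - ((u + b) / 2 - p) - (p - (a + b) / 2) = a := by ring
    have e3 : p + ((u + b) / 2 - p) - ((u + a) / 2 - p) - (p - (a + b) / 2) = b := by ring
    rw [e1, e2, e3, ← mul_assoc, ← ENNReal.ofReal_mul (by norm_num), ← mul_assoc]
    norm_num
  have hWm : Measurable fun p : ℝ =>
      Block_W m (p, (u + a) / 2 - p, (u + b) / 2 - p, p - (a + b) / 2) :=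
    (Block_W_meas m).comp (by fun_prop)
  rw [lintegral_congr e, lintegral_mul_const _ (hWm.const_mul _), lintegral_const_mul _ hWm]
  rfl

end Pool.Agent.GenMoment
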