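import Mathlib
import Pool.Agent.Lib_MP_112ba8_g.DefsB
import Pool.Agent.Lib_MP_112ba8_g.Block

/-!
Piece BKBOUND: two bounds for the block kernel.

`BK_nonpos`: for `u ≤ 0` the four entries (sum `u`) cannot all be positive.
`BK_sup`: with `w = 4p - u - (a+b)` the entries are `(u ± a ± b ± w)/4` and
`y11 y22 = ((u+w)^2 - (a+b)^2)/16 ≤ ((u+w)/4)^2`, `y12 y21 ≤ ((u-w)/4)^2`, so the integrand is at most
`(x (u/2 - x))^(2m)` with `x = (u+w)/4 = p - (a+b)/4 ∈ (0, u/2)` (translate), and
`∫_0^{u/2} (x (u/2-x))^(2m) dx = (u/2)^(4m+1) (2m)!^2/(4m+1)!` (Beta integral).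
-/

namespace Pool.Agent.GenMoment

open Filter Topology MeasureTheory
open Pool.Agent.EvenMoment (cl Wgt Adm Ed cut hat)
open Pool.Agent.SixthMoment (QQ ln fr osc QS TT ob sepa oy xe JZ fc chi)

theorem BK_nonpos {m : ℕ} (hm : 0 < m) {u : ℝ} (hu : u ≤ 0) (a b : ℝ) : BK m u a b = 0 := by
  have h1 : ∀ p : ℝ, (pp p * pp ((u + a) / 2 - p) * pp ((u + b) / 2 - p) *
      pp (p - (a + b) / 2)) ^ m = 0 := by
    intro p
    apply pow_eq_zero_iff hm.ne' |>.2
    unfold pp
    rcases le_total p 0 with h1 | h1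
    · rw [max_eq_left h1]
      ring
    rcases le_total ((u + a) / 2 - p) 0 with h2 | h2
    · rw [max_eq_left h2]
      ring
    rcases le_total ((u + b) / 2 - p) 0 with h3 | h3
    · rw [max_eq_left h3]
      ring
    have h4 : p - (a + b) / 2 ≤ 0 := by linarith
    rw [max_eq_left h4]
    ring
  unfold BK
  simp only [h1, ENNReal.ofReal_zero, lintegral_zero, mul_zero]

/-- Beta integral with natural exponents -/
theorem beta_nat (p q : ℕ) {L : ℝ} (hL : 0 ≤ L) :
    ∫ x in (0 : ℝ)..L, x ^ p * (L - x) ^ q =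
      L ^ (p + q + 1) * ((p.factorial : ℝ) * q.factorial / (p + q + 1).factorial) := by
  induction q generalizing p with
  | zero =>
    simp only [pow_zero, mul_one, integral_pow, Nat.factorial_zero, Nat.cast_one, add_zero]
    rw [Nat.factorial_succ]
    push_cast
    have h1 : ((p.factorial : ℕ) : ℝ) ≠ 0 := by exact_mod_cast p.factorial_ne_zero
    have h2 : (p : ℝ) + 1 ≠ 0 := by positivity
    field_simp
    ring
  | succ q ih =>
    have hd : ∀ x ∈ Set.uIcc (0 : ℝ) L, HasDerivAt (fun x : ℝ => x ^ (p + 1) * (L - x) ^ (q + 1))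
        (((p : ℝ) + 1) * (x ^ p * (L - x) ^ (q + 1)) -
          ((q : ℝ) + 1) * (x ^ (p + 1) * (L - x) ^ q)) x := by
      intro x _
      have h1 : HasDerivAt (fun x : ℝ => x ^ (p + 1)) (((p + 1 : ℕ) : ℝ) * x ^ p) x := by
        simpa using hasDerivAt_pow (p + 1) x
      have h2 : HasDerivAt (fun x : ℝ => (L - x) ^ (q + 1))
          (((q + 1 : ℕ) : ℝ) * (L - x) ^ q * (-1)) x := by
        have h5 := ((hasDerivAt_id x).const_sub L).fun_pow (q + 1)
        simpa using h5
      refine (h1.mul h2).congr_deriv ?_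
      push_cast
      ring
    have hi : IntervalIntegrable (fun x : ℝ => ((p : ℝ) + 1) * (x ^ p * (L - x) ^ (q + 1)) -
          ((q : ℝ) + 1) * (x ^ (p + 1) * (L - x) ^ q)) volume 0 L := by
      apply Continuous.intervalIntegrable
      fun_prop
    have h3 := intervalIntegral.integral_eq_sub_of_hasDerivAt hd hi
    have hi1 : IntervalIntegrable (fun x : ℝ => ((p : ℝ) + 1) * (x ^ p * (L - x) ^ (q + 1)))
        volume 0 L := by
      apply Continuous.intervalIntegrable
      fun_prop
    have hi2 : IntervalIntegrable (fun x : ℝ => ((q : ℝ) + 1) * (x ^ (p + 1) * (L - x) ^ q))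
        volume 0 L := by
      apply Continuous.intervalIntegrable
      fun_prop
    rw [intervalIntegral.integral_sub hi1 hi2, intervalIntegral.integral_const_mul,
      intervalIntegral.integral_const_mul, ih (p + 1)] at h3
    simp only [sub_self, zero_pow (Nat.succ_ne_zero q), mul_zero, zero_pow (Nat.succ_ne_zero p),
      zero_mul] at h3
    have e1 : (p + 1).factorial = (p + 1) * p.factorial := Nat.factorial_succ p
    have e2 : (q + 1).factorial = (q + 1) * q.factorial := Nat.factorial_succ q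
    have e3 : p + 1 + q + 1 = p + (q + 1) + 1 := by ring
    rw [e3, e1] at h3
    rw [e2]
    push_cast at h3 ⊢
    have h2 : (p : ℝ) + 1 ≠ 0 := by positivity
    have h4 : (((p + (q + 1) + 1).factorial : ℕ) : ℝ) ≠ 0 := by
      exact_mod_cast Nat.factorial_ne_zero _
    apply mul_left_cancel₀ h2
    rw [sub_eq_zero] at h3
    rw [h3]
    ring

theorem BK_sup {m : ℕ} (hm : 0 < m) {u : ℝ} (hu : 0 ≤ u) (a b : ℝ) :
    BK m u a b ≤ ENNReal.ofReal (1 / 4 * ((u / 2) ^ (4 * m + 1) *
      (((2 * m).factorial : ℝ) ^ 2 / (4 * m + 1).factorial))) := by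
  have hu2 : 0 ≤ u / 2 := by linarith
  set g : ℝ → ENNReal := (Set.Ioc (0 : ℝ) (u / 2)).indicator
    (fun x => ENNReal.ofReal (x ^ (2 * m) * (u / 2 - x) ^ (2 * m))) with hg
  have h1 : ∀ p : ℝ, ENNReal.ofReal ((pp p * pp ((u + a) / 2 - p) * pp ((u + b) / 2 - p) *
      pp (p - (a + b) / 2)) ^ m) ≤ g (p - (a + b) / 4) := by
    intro p
    by_cases hz : (pp p * pp ((u + a) / 2 - p) * pp ((u + b) / 2 - p) * pp (p - (a + b) / 2)) = 0
    · rw [hz, zero_pow hm.ne', ENNReal.ofReal_zero]
      exact zero_le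
    · have k1 : 0 < p := by
        by_contra h
        exact hz (by unfold pp; rw [max_eq_left (not_lt.1 h)]; ring)
      have k2 : 0 < (u + a) / 2 - p := by
        by_contra h
        exact hz (by
          rw [show pp ((u + a) / 2 - p) = 0 from max_eq_left (not_lt.1 h)]; ring)
      have k3 : 0 < (u + b) / 2 - p := by
        by_contra h
        exact hz (by
          rw [show pp ((u + b) / 2 - p) = 0 from max_eq_left (not_lt.1 h)]; ring)
      have k4 : 0 < p - (a + b) / 2 := by
        by_contra h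
        exact hz (by
          rw [show pp (p - (a + b) / 2) = 0 from max_eq_left (not_lt.1 h)]; ring)
      have e1 : pp p = p := max_eq_right k1.le
      have e2 : pp ((u + a) / 2 - p) = (u + a) / 2 - p := max_eq_right k2.le
      have e3 : pp ((u + b) / 2 - p) = (u + b) / 2 - p := max_eq_right k3.le
      have e4 : pp (p - (a + b) / 2) = p - (a + b) / 2 := max_eq_right k4.le
      rw [e1, e2, e3, e4, hg, Set.indicator_of_mem (by constructor <;> linarith)]
      apply ENNReal.ofReal_le_ofReal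
      have l1 : p * (p - (a + b) / 2) ≤ (p - (a + b) / 4) ^ 2 := by nlinarith [sq_nonneg (a + b)]
      have l2 : ((u + a) / 2 - p) * ((u + b) / 2 - p) ≤ (u / 2 - (p - (a + b) / 4)) ^ 2 := by
        nlinarith [sq_nonneg (a - b)]
      calc (p * ((u + a) / 2 - p) * ((u + b) / 2 - p) * (p - (a + b) / 2)) ^ m
          = ((p * (p - (a + b) / 2)) * (((u + a) / 2 - p) * ((u + b) / 2 - p))) ^ m := by ring
        _ ≤ ((p - (a + b) / 4) ^ 2 * (u / 2 - (p - (a + b) / 4)) ^ 2) ^ m := by gcongr
        _ = (p - (a + b) / 4) ^ (2 * m) * (u / 2 - (p - (a + b) / 4)) ^ (2 * m) := by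
          rw [mul_pow, ← pow_mul, ← pow_mul]
  have h2 : ∫⁻ x, g x = ENNReal.ofReal ((u / 2) ^ (4 * m + 1) *
      (((2 * m).factorial : ℝ) ^ 2 / (4 * m + 1).factorial)) := by
    have h3 := beta_nat (2 * m) (2 * m) hu2
    rw [show 2 * m + 2 * m + 1 = 4 * m + 1 by ring, ← sq] at h3
    rw [← h3, hg, lintegral_indicator measurableSet_Ioc, intervalIntegral.integral_of_le hu2,
      ofReal_integral_eq_lintegral_ofReal]
    · have h4 : ContinuousOn (fun x : ℝ => x ^ (2 * m) * (u / 2 - x) ^ (2 * m))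
          (Set.Icc 0 (u / 2)) := by fun_prop
      exact (h4.integrableOn_Icc).mono_set Set.Ioc_subset_Icc_self
    · refine (ae_restrict_iff' measurableSet_Ioc).2 (Filter.Eventually.of_forall fun x hx => ?_)
      have k1 : 0 ≤ x := hx.1.le
      have k2 : 0 ≤ u / 2 - x := by linarith [hx.2]
      simp only [Pi.zero_apply]
      positivity
  unfold BK
  rw [ENNReal.ofReal_mul (by norm_num : (0 : ℝ) ≤ 1 / 4), ← h2]
  have h3 : ∫⁻ p : ℝ, ENNReal.ofReal ((pp p * pp ((u + a) / 2 - p) * pp ((u + b) / 2 - p) *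
      pp (p - (a + b) / 2)) ^ m) ≤ ∫⁻ x, g x :=
    (lintegral_mono h1).trans (le_of_eq (lintegral_sub_right_eq_self g ((a + b) / 4)))
  exact mul_le_mul_right h3 _

end Pool.Agent.GenMoment
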