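import Mathlib
import Pool.Agent.Lib_MP_112ba8_g.Defs
import Pool.Agent.Lib_MP_112ba8_s.LSexp

/-!
Laplace transform of the limit measure for general vertex types.
-/

namespace Pool.Agent.GenMoment

open Filter Topology MeasureTheory
open Pool.Agent.EvenMoment (cl Wgt Adm Ed cut hat)
open Pool.Agent.SixthMoment (QQ ln fr osc QS TT ob sepa oy xe JZ fc chi b2_sum_oy b2_xe_pos
  b2_one_dim b2_continuous_oy b2_oy_nonneg b2_bound)

lemma b2_ke_pos {r : ℕ} (h : Fin r → VT) (e : Ed r) : 0 < ke h e := by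
  unfold ke
  exact mul_pos (mul_pos two_pos (h e.1.1).al_pos) (h e.1.2).al_pos

lemma b2_prod {r m : ℕ} (h : Fin r → VT) (S : Fin m → Finset (Fin r)) (x : Fin m → ℝ)
    (y : Ed r → ℝ) :
    dens h y * Real.exp (-∑ κ, x κ * oy S y κ) =
      ∏ e : Ed r, (y e ^ (ke h e - 1) / Real.Gamma (ke h e) * Real.exp (-(xe S x e * y e))) := by
  unfold dens
  rw [Finset.prod_mul_distrib, ← Real.exp_sum, b2_sum_oy, ← Finset.sum_neg_distrib]

theorem LS_exp_integrable {r m : ℕ} (h : Fin r → VT) (S : Fin m → Finset (Fin r))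
    {x : Fin m → ℝ} (hx : ∀ κ, 0 < x κ) (hS : ∀ e : Ed r, ∃ κ, sepa (S κ) e) :
    IntegrableOn (fun y : Ed r → ℝ => dens h y * Real.exp (-∑ κ, x κ * oy S y κ))
      {y : Ed r → ℝ | ∀ e, 0 < y e} := by
  unfold IntegrableOn
  rw [Pool.Agent.EvenMoment.restrict_eq]
  simp_rw [b2_prod]
  exact Integrable.fintype_prod (f := fun (e : Ed r) (t : ℝ) =>
    t ^ (ke h e - 1) / Real.Gamma (ke h e) * Real.exp (-(xe S x e * t)))
    (fun e => (b2_one_dim (b2_ke_pos h e) (b2_xe_pos hx hS e)).1)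

theorem LS_exp {r m : ℕ} (h : Fin r → VT) (S : Fin m → Finset (Fin r)) {x : Fin m → ℝ}
    (hx : ∀ κ, 0 < x κ) (hS : ∀ e : Ed r, ∃ κ, sepa (S κ) e) :
    ∫ y in {y : Ed r → ℝ | ∀ e, 0 < y e}, dens h y * Real.exp (-∑ κ, x κ * oy S y κ) =
      ∏ e : Ed r, xe S x e ^ (-ke h e) := by
  rw [Pool.Agent.EvenMoment.restrict_eq]
  simp_rw [b2_prod]
  rw [integral_fintype_prod_eq_prod (fun (e : Ed r) (t : ℝ) =>
    t ^ (ke h e - 1) / Real.Gamma (ke h e) * Real.exp (-(xe S x e * t)))]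
  exact Finset.prod_congr rfl fun e _ => (b2_one_dim (b2_ke_pos h e) (b2_xe_pos hx hS e)).2

lemma b2_measurable_dens {r : ℕ} (h : Fin r → VT) : Measurable (dens h) := by
  unfold dens
  refine Finset.measurable_fun_prod _ fun e _ => ?_
  exact ((measurable_pi_apply e).pow_const _).div_const _

lemma b2_dens_nonneg {r : ℕ} (h : Fin r → VT) {y : Ed r → ℝ} (hy : ∀ e, 0 < y e) :
    0 ≤ dens h y := by
  unfold dens
  refine Finset.prod_nonneg fun e _ => ?_
  exact div_nonneg (Real.rpow_nonneg (hy e).le _) (Real.Gamma_pos_of_pos (b2_ke_pos h e)).le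

theorem LS_integrable {r m : ℕ} (h : Fin r → VT) (S : Fin m → Finset (Fin r))
    (hS : ∀ e : Ed r, ∃ κ, sepa (S κ) e) {G : (Fin m → ℝ) → ℝ} (hG : Continuous G) (B : ℝ)
    (hB : ∀ s, (∃ κ, B ≤ s κ) → G s = 0) :
    IntegrableOn (fun y : Ed r → ℝ => dens h y * G (oy S y)) {y : Ed r → ℝ | ∀ e, 0 < y e} := by
  obtain ⟨C, hC0, hC⟩ := b2_bound hG B hB
  have hmeasS : MeasurableSet {y : Ed r → ℝ | ∀ e, 0 < y e} := by
    rw [Pool.Agent.EvenMoment.set_eq_pi]
    exact MeasurableSet.univ_pi fun _ => measurableSet_Ioi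
  have hint := (LS_exp_integrable h S (x := fun _ => 1) (fun _ => one_pos) hS).const_mul C
  refine Integrable.mono' hint ?_ ?_
  · exact ((b2_measurable_dens h).mul
      (hG.comp (b2_continuous_oy S)).measurable).aestronglyMeasurable
  · refine (ae_restrict_iff' hmeasS).mpr (Eventually.of_forall fun y hy => ?_)
    rw [norm_mul, Real.norm_eq_abs, Real.norm_eq_abs, abs_of_nonneg (b2_dens_nonneg h hy)]
    have h1 := hC (oy S y) (b2_oy_nonneg S hy)
    calc dens h y * |G (oy S y)| ≤ dens h y * (C * Real.exp (-∑ κ, 1 * oy S y κ)) :=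
          mul_le_mul_of_nonneg_left h1 (b2_dens_nonneg h hy)
      _ = C * (dens h y * Real.exp (-∑ κ, 1 * oy S y κ)) := by ring

end Pool.Agent.GenMoment
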