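import Mathlib
import Pool.Agent.Lib_MP_112ba8_g.Defs
import Pool.Agent.Lib_MP_112ba8_s.Local

/-!
Local factors of the Euler products for general vertex types.
-/

namespace Pool.Agent.GenMoment

open Filter Topology MeasureTheory
open Pool.Agent.EvenMoment (cl Wgt Adm Ed cut hat)
open Pool.Agent.SixthMoment (QQ ln fr osc QS TT ob sepa oy xe JZ fc chi a4N a4_N_cast a4_geom_JZ
  a4q a4q_pos a4q_pow a4_rpow_le a4d a4phi a4phi_inj a4d_left a4d_right a4_four_le)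

/-- common constants for finitely many types -/
lemma a4_bound {r : ℕ} (h : Fin r → VT) : ∃ K : ℝ, 1 ≤ K ∧ (∀ i, (h i).al ≤ K) ∧
    ∀ p, 2 ≤ p → ∀ i, (∀ n, (h i).c p n ≤ K * (5 / 4 : ℝ) ^ n) ∧
      |(h i).c p 1 - (h i).al| ≤ K / p := by
  choose K hK hb using fun i => (h i).bound
  have hs : ∀ i, K i ≤ ∑ j, K j := fun i =>
    Finset.single_le_sum (f := K) (fun j _ => (hK j).le) (Finset.mem_univ i)
  have ha : ∀ i, (h i).al ≤ ∑ j, (h j).al := fun i =>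
    Finset.single_le_sum (f := fun j => (h j).al) (fun j _ => (h j).al_pos.le) (Finset.mem_univ i)
  have hs0 : 0 ≤ ∑ j, K j := Finset.sum_nonneg fun j _ => (hK j).le
  have ha0 : 0 ≤ ∑ j, (h j).al := Finset.sum_nonneg fun j _ => (h j).al_pos.le
  refine ⟨1 + ∑ j, K j + ∑ j, (h j).al, by linarith, fun i => by linarith [ha i], ?_⟩
  intro p hp i
  obtain ⟨h1, h2⟩ := hb i p hp
  have hle : K i ≤ 1 + ∑ j, K j + ∑ j, (h j).al := by linarith [hs i]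
  refine ⟨fun n => (h1 n).trans ?_, h2.trans ?_⟩
  · exact mul_le_mul_of_nonneg_right hle (by positivity)
  · exact div_le_div_of_nonneg_right hle (by positivity)

lemma a4_c_one {v : VT} {K : ℝ} (hK : 1 ≤ K) (ha : v.al ≤ K) {p : ℕ} (hp : 2 ≤ p)
    (h : |v.c p 1 - v.al| ≤ K / p) : v.c p 1 ≤ 2 * K := by
  have h1 := (abs_le.mp h).2
  have hp0 : (1 : ℝ) ≤ p := by exact_mod_cast (by omega : 1 ≤ p)
  have h2 : K / p ≤ K := div_le_self (by linarith) hp0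
  linarith

lemma a4_lterm_nonneg {r m : ℕ} (h : Fin r → VT) (S : Fin m → Finset (Fin r)) {p : ℕ}
    (hp : 2 ≤ p) (x : Fin m → ℝ) (j : JZ r) : 0 ≤ lterm h S p x j :=
  mul_nonneg (Finset.prod_nonneg fun i _ => (h i).nonneg p hp _)
    (Real.rpow_nonneg (by positivity) _)

/-- `5/4 * 2^{-1/2}` -/
noncomputable def a4b : ℝ := 5 / 4 * a4q

lemma a4b_pos : 0 < a4b := mul_pos (by norm_num) a4q_pos

lemma a4b_lt_one : a4b < 1 := by
  unfold a4b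
  have h1 : a4q ^ 2 = 1 / 2 := by
    rw [a4q_pow]
    norm_num
  have h2 := a4q_pos
  nlinarith

lemma a4_prod_le {r : ℕ} {h : Fin r → VT} {K : ℝ} (hK : 1 ≤ K) {p : ℕ} (hp : 2 ≤ p)
    (hb : ∀ i, ∀ n, (h i).c p n ≤ K * (5 / 4 : ℝ) ^ n) (j : Fin r → ℤ) :
    ∏ i, (h i).c p (j i).natAbs ≤ K ^ r * (5 / 4 : ℝ) ^ a4N j := by
  calc ∏ i, (h i).c p (j i).natAbs ≤ ∏ i, (K * (5 / 4 : ℝ) ^ (j i).natAbs) :=
        Finset.prod_le_prod (fun i _ => (h i).nonneg p hp _) (fun i _ => hb i _)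
    _ = K ^ r * (5 / 4 : ℝ) ^ a4N j := by
        rw [Finset.prod_mul_distrib, Finset.prod_const, Finset.card_univ, Fintype.card_fin,
          Finset.prod_pow_eq_pow_sum]
        rfl

lemma a4_lterm_le' {r m : ℕ} {h : Fin r → VT} {K : ℝ} (hK : 1 ≤ K) (S : Fin m → Finset (Fin r))
    {p : ℕ} (hp : 2 ≤ p) (hb : ∀ i, ∀ n, (h i).c p n ≤ K * (5 / 4 : ℝ) ^ n)
    {x : Fin m → ℝ} (hx : ∀ κ, 0 ≤ x κ) (j : JZ r) :
    lterm h S p x j ≤ K ^ r * ((5 / 4 : ℝ) ^ a4N j.1 * (p : ℝ) ^ (-((a4N j.1 : ℝ) / 2))) := by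
  have hp1 : (1 : ℝ) ≤ p := by exact_mod_cast (by omega : 1 ≤ p)
  have h1 := a4_prod_le hK hp hb j.1
  have h2 : 0 ≤ ∑ κ, x κ * |∑ i ∈ S κ, (j.1 i : ℝ)| :=
    Finset.sum_nonneg fun κ _ => mul_nonneg (hx κ) (abs_nonneg _)
  have hK0 : 0 < K := by linarith
  unfold lterm
  calc (∏ i, (h i).c p (j.1 i).natAbs) *
      (p : ℝ) ^ (-((∑ i, |(j.1 i : ℝ)|) / 2 + ∑ κ, x κ * |∑ i ∈ S κ, (j.1 i : ℝ)|))
      ≤ (K ^ r * (5 / 4 : ℝ) ^ a4N j.1) *
        (p : ℝ) ^ (-((∑ i, |(j.1 i : ℝ)|) / 2 + ∑ κ, x κ * |∑ i ∈ S κ, (j.1 i : ℝ)|)) :=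
        mul_le_mul_of_nonneg_right h1 (Real.rpow_nonneg (by positivity) _)
    _ ≤ (K ^ r * (5 / 4 : ℝ) ^ a4N j.1) * (p : ℝ) ^ (-((a4N j.1 : ℝ) / 2)) := by
        refine mul_le_mul_of_nonneg_left ?_ (by positivity)
        rw [a4_N_cast]
        exact Real.rpow_le_rpow_of_exponent_le hp1 (by linarith)
    _ = _ := by ring

lemma a4_b_le {p : ℕ} (hp : 2 ≤ p) (n : ℕ) :
    (5 / 4 : ℝ) ^ n * (p : ℝ) ^ (-((n : ℝ) / 2)) ≤ a4b ^ n := by
  unfold a4b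
  rw [mul_pow]
  exact mul_le_mul_of_nonneg_left (a4_rpow_le hp n) (by positivity)

lemma a4_lterm_le {r m : ℕ} {h : Fin r → VT} {K : ℝ} (hK : 1 ≤ K) (S : Fin m → Finset (Fin r))
    {p : ℕ} (hp : 2 ≤ p) (hb : ∀ i, ∀ n, (h i).c p n ≤ K * (5 / 4 : ℝ) ^ n)
    {x : Fin m → ℝ} (hx : ∀ κ, 0 ≤ x κ) (j : JZ r) :
    lterm h S p x j ≤ K ^ r * a4b ^ a4N j.1 :=
  (a4_lterm_le' hK S hp hb hx j).trans
    (mul_le_mul_of_nonneg_left (a4_b_le hp _) (by positivity))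

theorem lterm_summable {r m : ℕ} (h : Fin r → VT) (S : Fin m → Finset (Fin r)) {p : ℕ}
    (hp : 2 ≤ p) {x : Fin m → ℝ} (hx : ∀ κ, 0 ≤ x κ) : Summable (lterm h S p x) := by
  obtain ⟨K, hK, -, hb⟩ := a4_bound h
  exact Summable.of_nonneg_of_le (a4_lterm_nonneg h S hp x)
    (a4_lterm_le hK S hp (fun i => (hb p hp i).1) hx)
    ((a4_geom_JZ a4b_pos.le a4b_lt_one r).mul_left _)

theorem Fl_tendsto {r m : ℕ} (h : Fin r → VT) (S : Fin m → Finset (Fin r)) {p : ℕ}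
    (hp : 2 ≤ p) {x : Fin m → ℝ} (hx : ∀ κ, 0 ≤ x κ) :
    Tendsto (fun L : ℝ => Fl h S p (fun κ => x κ / L)) atTop (𝓝 (F0 h p)) := by
  obtain ⟨K, hK, -, hb⟩ := a4_bound h
  unfold Fl F0
  refine tendsto_tsum_of_dominated_convergence ((a4_geom_JZ a4b_pos.le a4b_lt_one r).mul_left (K ^ r))
    (fun j => ?_) ?_
  · unfold lterm
    refine Tendsto.const_mul _ ?_
    have hp0 : (0 : ℝ) < p := by exact_mod_cast (by omega : 0 < p)
    have h1 : Tendsto (fun L : ℝ => -((∑ i, |(j.1 i : ℝ)|) / 2 +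
        ∑ κ, x κ / L * |∑ i ∈ S κ, (j.1 i : ℝ)|)) atTop (𝓝 (-((∑ i, |(j.1 i : ℝ)|) / 2))) := by
      have h2 : Tendsto (fun L : ℝ => ∑ κ, x κ / L * |∑ i ∈ S κ, (j.1 i : ℝ)|) atTop
          (𝓝 (∑ κ : Fin m, 0 * |∑ i ∈ S κ, (j.1 i : ℝ)|)) :=
        tendsto_finsetSum _ fun κ _ =>
          (tendsto_const_nhds.div_atTop tendsto_id).mul_const _
      have h3 := (tendsto_const_nhds (x := (∑ i, |(j.1 i : ℝ)|) / 2)).add h2
      simp only [zero_mul, Finset.sum_const_zero, add_zero] at h3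
      exact h3.neg
    exact Tendsto.rpow tendsto_const_nhds h1 (Or.inl hp0.ne')
  · filter_upwards [eventually_ge_atTop (1 : ℝ)] with L hL j
    have hx' : ∀ κ, 0 ≤ x κ / L := fun κ => div_nonneg (hx κ) (by linarith)
    rw [Real.norm_of_nonneg (a4_lterm_nonneg h S hp _ j)]
    exact a4_lterm_le hK S hp (fun i => (hb p hp i).1) hx' j

lemma a4_lterm_zero {r m : ℕ} (h : Fin r → VT) (S : Fin m → Finset (Fin r)) {p : ℕ}
    (hp : 2 ≤ p) (x : Fin m → ℝ) : lterm h S p x ⟨0, by simp⟩ = 1 := by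
  unfold lterm
  simp [(h _).zero_eq p hp]

lemma a4_lterm_edge {r m : ℕ} (h : Fin r → VT) (S : Fin m → Finset (Fin r)) {p : ℕ}
    (hp : 2 ≤ p) (x : Fin m → ℝ) {i k : Fin r} (hik : i ≠ k) :
    lterm h S p x (a4d i k) = (h i).c p 1 * (h k).c p 1 *
      (p : ℝ) ^ (-(1 + ∑ κ, if ¬ (i ∈ S κ ↔ k ∈ S κ) then x κ else 0)) := by
  have hval : ∀ a, ((a4d i k).1 a : ℤ) = (if a = i then 1 else 0) - (if a = k then 1 else 0) :=
    fun a => rfl
  have h1 : ∏ a, (h a).c p ((a4d i k).1 a).natAbs = (h i).c p 1 * (h k).c p 1 := by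
    rw [← Finset.prod_subset (Finset.subset_univ ({i, k} : Finset (Fin r))), Finset.prod_pair hik]
    · rw [a4d_left hik, a4d_right hik]
      rfl
    · intro a _ ha
      rw [Finset.mem_insert, Finset.mem_singleton, not_or] at ha
      rw [hval, if_neg ha.1, if_neg ha.2]
      exact (h a).zero_eq p hp
  have h2 : ∑ a, |((a4d i k).1 a : ℝ)| = 2 := by
    rw [← Finset.sum_subset (Finset.subset_univ ({i, k} : Finset (Fin r))), Finset.sum_pair hik]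
    · rw [a4d_left hik, a4d_right hik]
      norm_num
    · intro a _ ha
      rw [Finset.mem_insert, Finset.mem_singleton, not_or] at ha
      rw [hval, if_neg ha.1, if_neg ha.2]
      norm_num
  have h3 : ∀ κ, ∑ a ∈ S κ, ((a4d i k).1 a : ℝ) =
      (if i ∈ S κ then 1 else 0) - (if k ∈ S κ then 1 else 0) := by
    intro κ
    simp only [hval]
    push_cast
    rw [Finset.sum_sub_distrib, Finset.sum_ite_eq', Finset.sum_ite_eq']
  have h4 : ∀ κ, x κ * |∑ a ∈ S κ, ((a4d i k).1 a : ℝ)| =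
      if ¬ (i ∈ S κ ↔ k ∈ S κ) then x κ else 0 := by
    intro κ
    rw [h3]
    by_cases hi : i ∈ S κ <;> by_cases hk : k ∈ S κ <;> simp [hi, hk]
  unfold lterm
  rw [h1, h2, Finset.sum_congr rfl fun κ _ => h4 κ]
  norm_num

theorem Fl_expand {r m : ℕ} (h : Fin r → VT) (S : Fin m → Finset (Fin r)) :
    ∃ K : ℝ, 0 < K ∧ ∀ p : ℕ, 2 ≤ p → ∀ x : Fin m → ℝ, (∀ κ, 0 ≤ x κ) →
      ∃ E : ℝ, 0 ≤ E ∧ E ≤ K / (p : ℝ) ^ 2 ∧ Fl h S p x = 1 + (∑ e : Ed r,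
        2 * (h e.1.1).c p 1 * (h e.1.2).c p 1 * (p : ℝ) ^ (-(1 + xe S x e))) + E := by
  classical
  obtain ⟨M, hM, -, hb⟩ := a4_bound h
  have hM0 : 0 < M := by linarith
  have hsum := a4_geom_JZ a4b_pos.le a4b_lt_one r
  have hnn : 0 ≤ ∑' j : JZ r, a4b ^ a4N j.1 := tsum_nonneg fun j => pow_nonneg a4b_pos.le _
  refine ⟨M ^ r * 4 * (∑' j : JZ r, a4b ^ a4N j.1) + 1, by positivity, fun p hp x hx => ?_⟩
  set s : Finset (JZ r) := Finset.univ.map ⟨a4phi, a4phi_inj⟩ with hs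
  have hls := lterm_summable h S hp hx
  refine ⟨∑' j : ↥((s : Set (JZ r))ᶜ), lterm h S p x j,
    tsum_nonneg fun j => a4_lterm_nonneg h S hp x j.1, ?_, ?_⟩
  · have hp0 : (0 : ℝ) < p := by exact_mod_cast (by omega : 0 < p)
    have hp2 : (0 : ℝ) < (p : ℝ) ^ 2 := by positivity
    have hb' : ∀ j : ↥((s : Set (JZ r))ᶜ),
        lterm h S p x j ≤ M ^ r * 4 / (p : ℝ) ^ 2 * a4b ^ a4N j.1.1 := by
      intro j
      have h4 : 4 ≤ a4N j.1.1 := by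
        refine a4_four_le j.1 fun u hu => j.2 ?_
        have hmem : (j.1 : JZ r) ∈ s := Finset.mem_map.mpr ⟨u, Finset.mem_univ u, hu⟩
        exact Finset.mem_coe.mpr hmem
      obtain ⟨n, hn⟩ := Nat.exists_eq_add_of_le h4
      refine (a4_lterm_le' hM S hp (fun i => (hb p hp i).1) hx j.1).trans ?_
      rw [hn]
      have e1 : (p : ℝ) ^ (-(((4 + n : ℕ) : ℝ) / 2)) =
          (p : ℝ) ^ (-((n : ℝ) / 2)) / (p : ℝ) ^ 2 := by
        rw [← Real.rpow_natCast (p : ℝ) 2, ← Real.rpow_sub hp0]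
        congr 1
        push_cast
        ring
      have e2 : a4q ^ (4 + n) = a4q ^ n / 4 := by
        rw [pow_add]
        have : a4q ^ 4 = 1 / 4 := by
          rw [a4q_pow]
          have : (-(((4 : ℕ) : ℝ) / 2)) = ((-2 : ℤ) : ℝ) := by norm_num
          rw [this, Real.rpow_intCast]
          norm_num
        rw [this]
        ring
      rw [e1]
      unfold a4b
      rw [mul_pow, e2]
      have := a4_rpow_le hp n
      have h54 : (0 : ℝ) ≤ (5 / 4 : ℝ) ^ (4 + n) := by positivity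
      calc M ^ r * ((5 / 4 : ℝ) ^ (4 + n) * ((p : ℝ) ^ (-((n : ℝ) / 2)) / (p : ℝ) ^ 2))
          ≤ M ^ r * ((5 / 4 : ℝ) ^ (4 + n) * (a4q ^ n / (p : ℝ) ^ 2)) := by gcongr
        _ = M ^ r * 4 / (p : ℝ) ^ 2 * ((5 / 4 : ℝ) ^ (4 + n) * (a4q ^ n / 4)) := by ring
    have hsub : Summable fun j : ↥((s : Set (JZ r))ᶜ) =>
        M ^ r * 4 / (p : ℝ) ^ 2 * a4b ^ a4N j.1.1 :=
      (hsum.subtype _).mul_left _
    calc ∑' j : ↥((s : Set (JZ r))ᶜ), lterm h S p x j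
        ≤ ∑' j : ↥((s : Set (JZ r))ᶜ), M ^ r * 4 / (p : ℝ) ^ 2 * a4b ^ a4N j.1.1 :=
          Summable.tsum_le_tsum hb' (hls.subtype _) hsub
      _ = M ^ r * 4 / (p : ℝ) ^ 2 * ∑' j : ↥((s : Set (JZ r))ᶜ), a4b ^ a4N j.1.1 :=
          tsum_mul_left
      _ ≤ M ^ r * 4 / (p : ℝ) ^ 2 * ∑' j : JZ r, a4b ^ a4N j.1 := by
          refine mul_le_mul_of_nonneg_left ?_ (by positivity)
          exact Summable.tsum_subtype_le (fun j : JZ r => a4b ^ a4N j.1) _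
            (fun j => pow_nonneg a4b_pos.le _) hsum
      _ ≤ (M ^ r * 4 * (∑' j : JZ r, a4b ^ a4N j.1) + 1) / (p : ℝ) ^ 2 := by
          rw [div_mul_eq_mul_div]
          gcongr
          linarith
  · have h1 := hls.sum_add_tsum_compl (s := s)
    unfold Fl
    rw [← h1]
    congr 1
    rw [hs, Finset.sum_map]
    change ∑ u : Option (Ed r × Bool), lterm h S p x (a4phi u) = _
    rw [Fintype.sum_option, Fintype.sum_prod_type]
    have e0 : lterm h S p x (a4phi none) = 1 := a4_lterm_zero h S hp x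
    rw [e0]
    congr 1
    refine Finset.sum_congr rfl fun e _ => ?_
    rw [Fintype.sum_bool]
    change lterm h S p x (a4d e.1.1 e.1.2) + lterm h S p x (a4d e.1.2 e.1.1) = _
    have hne : e.1.1 ≠ e.1.2 := ne_of_lt e.2
    rw [a4_lterm_edge h S hp x hne, a4_lterm_edge h S hp x hne.symm]
    have hx1 : ∑ κ, (if ¬ (e.1.1 ∈ S κ ↔ e.1.2 ∈ S κ) then x κ else 0) = xe S x e := by
      unfold xe sepa
      rfl
    have hx2 : ∑ κ, (if ¬ (e.1.2 ∈ S κ ↔ e.1.1 ∈ S κ) then x κ else 0) = xe S x e := by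
      rw [← hx1]
      refine Finset.sum_congr rfl fun κ _ => ?_
      by_cases ha : e.1.1 ∈ S κ <;> by_cases hb : e.1.2 ∈ S κ <;> simp [ha, hb]
    rw [hx1, hx2]
    ring

end Pool.Agent.GenMoment
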