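import Mathlib
import Pool.Agent.Lib_MP_112ba8_g.Defs
import Pool.Agent.Lib_MP_112ba8_g.Local
import Pool.Agent.Lib_MP_112ba8_s.Tuple

/-!
Euler product over tuples of fractions for general vertex types.
-/

namespace Pool.Agent.GenMoment

open Filter Topology MeasureTheory
open Pool.Agent.EvenMoment (cl Wgt Adm Ed cut hat)
open Pool.Agent.SixthMoment (QQ ln fr osc QS TT ob sepa oy xe JZ fc chi a5_equiv a5_vec a5_zero_val
  a5_equiv_symm_apply a5_not_mem a5_ln_sum a5_ln_one a5_zeroJZ a5_xe_pos euler_finsupp)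

lemma a5_vw {r : ℕ} (v : VT) (g : Nat.Primes →₀ JZ r) (i : Fin r) :
    vw v (((a5_equiv r).symm g).1 i) = ∏ p ∈ g.support, v.c p ((g p).1 i).natAbs := by
  classical
  unfold vw
  have hsub : (((a5_equiv r).symm g).1 i).support ⊆ g.support := by
    intro p hp
    by_contra hcon
    rw [Finsupp.mem_support_iff] at hp
    exact hp (a5_not_mem hcon i)
  rw [Finsupp.prod_of_support_subset _ hsub _ (by
    intro p _
    simpa using v.zero_eq p p.2.two_le)]
  rfl

/-- the weight is multiplicative -/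
lemma a5_term {r m : ℕ} (h : Fin r → VT) (S : Fin m → Finset (Fin r)) (x : Fin m → ℝ)
    (g : Nat.Primes →₀ JZ r) :
    wt h ((a5_equiv r).symm g) * Real.exp (-∑ κ, x κ * ob S ((a5_equiv r).symm g) κ) =
      g.prod (fun p j => lterm h S p x j) := by
  classical
  unfold wt ob Finsupp.prod lterm
  rw [Finset.prod_mul_distrib, mul_assoc]
  congr 1
  · rw [Finset.prod_comm]
    exact Finset.prod_congr rfl fun i _ => a5_vw (h i) g i
  · rw [← Real.exp_add]
    have hr : ∀ p ∈ g.support,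
        ((p : ℕ) : ℝ) ^ (-((∑ i, |((g p).1 i : ℝ)|) / 2 + ∑ κ, x κ * |∑ i ∈ S κ, ((g p).1 i : ℝ)|)) =
        Real.exp (Real.log ((p : ℕ) : ℝ) * (-((∑ i, |((g p).1 i : ℝ)|) / 2 +
          ∑ κ, x κ * |∑ i ∈ S κ, ((g p).1 i : ℝ)|))) := by
      intro p _
      rw [Real.rpow_def_of_pos (by exact_mod_cast p.2.pos)]
    rw [Finset.prod_congr rfl hr, ← Real.exp_sum]
    congr 1
    simp only [a5_ln_sum, a5_ln_one]
    rw [Finset.sum_comm]
    simp only [Finset.mul_sum]
    rw [Finset.sum_comm (s := Finset.univ) (t := g.support)]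
    rw [Finset.sum_div, ← Finset.sum_neg_distrib, ← Finset.sum_neg_distrib,
      ← Finset.sum_add_distrib]
    refine Finset.sum_congr rfl fun p _ => ?_
    rw [← Finset.sum_mul]
    have : ∑ κ, x κ * (|∑ i ∈ S κ, ((g p).1 i : ℝ)| * Real.log ((p : ℕ) : ℝ)) =
        (∑ κ, x κ * |∑ i ∈ S κ, ((g p).1 i : ℝ)|) * Real.log ((p : ℕ) : ℝ) := by
      rw [Finset.sum_mul]
      exact Finset.sum_congr rfl fun κ _ => by ring
    rw [this]
    ring

lemma a5_lterm_nonneg {r m : ℕ} (h : Fin r → VT) (S : Fin m → Finset (Fin r)) {p : ℕ}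
    (hp : 2 ≤ p) (x : Fin m → ℝ) (j : JZ r) : 0 ≤ lterm h S p x j := by
  unfold lterm
  exact mul_nonneg (Finset.prod_nonneg fun i _ => (h i).nonneg p hp _)
    (Real.rpow_nonneg (by positivity) _)

lemma a5_lterm_zero {r m : ℕ} (h : Fin r → VT) (S : Fin m → Finset (Fin r)) {p : ℕ}
    (hp : 2 ≤ p) (x : Fin m → ℝ) : lterm h S p x (0 : JZ r) = 1 := by
  unfold lterm
  simp [a5_zero_val, (h _).zero_eq p hp]

lemma a5_summable {r m : ℕ} (h : Fin r → VT) (S : Fin m → Finset (Fin r)) {x : Fin m → ℝ}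
    (hx : ∀ κ, 0 < x κ) (hS : ∀ e : Ed r, ∃ κ, sepa (S κ) e) :
    Summable fun p : Nat.Primes => Fl h S p x - 1 := by
  obtain ⟨K, hK, hexp⟩ := Fl_expand h S
  obtain ⟨M, hM, hal, hb⟩ := a4_bound h
  have hsum : Summable fun p : Nat.Primes =>
      (∑ e : Ed r, 8 * M ^ 2 * ((p : ℕ) : ℝ) ^ (-(1 + xe S x e))) +
        K * ((p : ℕ) : ℝ) ^ (-2 : ℝ) := by
    refine Summable.add ?_ ?_
    · refine summable_sum fun e _ => ?_
      refine Summable.mul_left _ ?_
      rw [Nat.Primes.summable_rpow]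
      linarith [a5_xe_pos hx hS e]
    · refine Summable.mul_left _ ?_
      rw [Nat.Primes.summable_rpow]
      norm_num
  have hc : ∀ (p : Nat.Primes) (i : Fin r), 0 ≤ (h i).c p 1 ∧ (h i).c p 1 ≤ 2 * M := fun p i =>
    ⟨(h i).nonneg p p.2.two_le 1, a4_c_one hM (hal i) p.2.two_le (hb p p.2.two_le i).2⟩
  refine Summable.of_nonneg_of_le (fun p => ?_) (fun p => ?_) hsum
  · obtain ⟨E, hE0, -, hF⟩ := hexp p p.2.two_le x (fun κ => (hx κ).le)
    rw [hF]
    have : 0 ≤ ∑ e : Ed r, 2 * (h e.1.1).c p 1 * (h e.1.2).c p 1 *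
        ((p : ℕ) : ℝ) ^ (-(1 + xe S x e)) := by
      refine Finset.sum_nonneg fun e _ => ?_
      exact mul_nonneg (mul_nonneg (mul_nonneg (by norm_num) (hc p _).1)
        (hc p _).1) (Real.rpow_nonneg (by positivity) _)
    linarith
  · obtain ⟨E, -, hE, hF⟩ := hexp p p.2.two_le x (fun κ => (hx κ).le)
    rw [hF]
    have h1 : ∑ e : Ed r, 2 * (h e.1.1).c p 1 * (h e.1.2).c p 1 *
        ((p : ℕ) : ℝ) ^ (-(1 + xe S x e)) ≤
        ∑ e : Ed r, 8 * M ^ 2 * ((p : ℕ) : ℝ) ^ (-(1 + xe S x e)) := by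
      refine Finset.sum_le_sum fun e _ => ?_
      refine mul_le_mul_of_nonneg_right ?_ (Real.rpow_nonneg (by positivity) _)
      obtain ⟨ha, ha'⟩ := hc p e.1.1
      obtain ⟨hb, hb'⟩ := hc p e.1.2
      have := mul_le_mul ha' hb' hb (by linarith)
      nlinarith
    have h2 : K * ((p : ℕ) : ℝ) ^ (-2 : ℝ) = K / ((p : ℕ) : ℝ) ^ 2 := by
      rw [Real.rpow_neg (by positivity), div_eq_mul_inv]
      norm_num
    rw [h2]
    linarith

/-- Euler product over tuples -/
theorem DT_euler {r m : ℕ} (h : Fin r → VT) (S : Fin m → Finset (Fin r)) {x : Fin m → ℝ}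
    (hx : ∀ κ, 0 < x κ) (hS : ∀ e : Ed r, ∃ κ, sepa (S κ) e) :
    (Summable fun f : TT r => wt h f * Real.exp (-∑ κ, x κ * ob S f κ)) ∧
    ∑' f : TT r, wt h f * Real.exp (-∑ κ, x κ * ob S f κ) =
      Real.exp (∑' p : Nat.Primes, Real.log (Fl h S p x)) := by
  obtain ⟨h1, h2⟩ := euler_finsupp (A := JZ r) (fun p j => lterm h S p x j)
    (fun p j => a5_lterm_nonneg h S p.2.two_le x j) (fun p => a5_lterm_zero h S p.2.two_le x)
    (fun p => lterm_summable h S p.2.two_le fun κ => (hx κ).le) (a5_summable h S hx hS)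
  have hfun : (fun f : TT r => wt h f * Real.exp (-∑ κ, x κ * ob S f κ)) ∘ (a5_equiv r).symm =
      fun g : Nat.Primes →₀ JZ r => g.prod (fun p j => lterm h S p x j) := by
    funext g
    exact a5_term h S x g
  constructor
  · rw [← Equiv.summable_iff (a5_equiv r).symm, hfun]
    exact h1
  · rw [← Equiv.tsum_eq (a5_equiv r).symm (fun f : TT r => wt h f *
      Real.exp (-∑ κ, x κ * ob S f κ))]
    have := congrArg (fun F => ∑' g, F g) hfun
    simp only [Function.comp_apply] at this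
    rw [this, h2]
    rfl

end Pool.Agent.GenMoment
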