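import Mathlib
import Pool.Agent.Lib_MP_112ba8_g.Defs
import Pool.Agent.Lib_MP_112ba8_g.Tuple
import Pool.Agent.Lib_MP_112ba8_g.Limit
import Pool.Agent.Lib_MP_112ba8_g.LSexp
import Pool.Agent.Lib_MP_112ba8_s.DSlim

/-!
Limits of the discrete functionals for general vertex types.
-/

namespace Pool.Agent.GenMoment

open Filter Topology MeasureTheory
open Pool.Agent.EvenMoment (cl Wgt Adm Ed cut hat)
open Pool.Agent.SixthMoment (QQ ln fr osc QS TT ob sepa oy xe JZ fc chi ob_nonneg measurableSet_pos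
  oy_nonneg oy_measurable box_bound weak_of_laplace)

lemma vw_nonneg (v : VT) (q : QQ) : 0 ≤ vw v q :=
  Finset.prod_nonneg fun p _ => v.nonneg p p.2.two_le _

lemma ke_pos {r : ℕ} (h : Fin r → VT) (e : Ed r) : 0 < ke h e := b2_ke_pos h e

lemma wt_nonneg {r : ℕ} (h : Fin r → VT) (f : TT r) : 0 ≤ wt h f :=
  mul_nonneg (Finset.prod_nonneg fun _ _ => vw_nonneg _ _) (Real.exp_pos _).le

lemma dens_nonneg {r : ℕ} (h : Fin r → VT) {y : Ed r → ℝ} (hy : ∀ e, 0 < y e) :
    0 ≤ dens h y :=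
  Finset.prod_nonneg fun e _ => div_nonneg (Real.rpow_nonneg (hy e).le _)
    (Real.Gamma_pos_of_pos (ke_pos h e)).le

lemma dens_measurable {r : ℕ} (h : Fin r → VT) : Measurable (dens h) := by
  unfold dens
  refine Finset.measurable_prod _ fun e _ => ?_
  exact ((measurable_pi_apply e).pow_const _).div_const _

theorem DS_summable {r m : ℕ} (h : Fin r → VT) (S : Fin m → Finset (Fin r)) (hm : 0 < m)
    (hS : ∀ e : Ed r, ∃ κ, sepa (S κ) e) {G : (Fin m → ℝ) → ℝ} (hG : Continuous G) (B : ℝ)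
    (hB : ∀ s, (∃ κ, B ≤ s κ) → G s = 0) {L : ℝ} (hL : 0 < L) :
    Summable fun f : TT r => wt h f * G (fun κ => ob S f κ / L) := by
  obtain ⟨C, hC0, hC⟩ := box_bound hG B hB
  have h1 := (DT_euler h S (x := fun _ => 1 / L) (fun _ => by positivity) hS).1
  refine Summable.of_norm_bounded (h1.mul_left C) fun f => ?_
  rw [norm_mul, Real.norm_of_nonneg (wt_nonneg h f), Real.norm_eq_abs]
  have h2 := hC (fun κ => ob S f κ / L) (fun κ => div_nonneg (ob_nonneg S f κ) hL.le)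
  have h3 : ∑ κ, ob S f κ / L = ∑ κ, 1 / L * ob S f κ :=
    Finset.sum_congr rfl fun κ _ => by ring
  rw [h3] at h2
  calc wt h f * |G fun κ => ob S f κ / L| ≤ wt h f * (C * Real.exp (-∑ κ, 1 / L * ob S f κ)) :=
        mul_le_mul_of_nonneg_left h2 (wt_nonneg h f)
    _ = _ := by ring

theorem DS_tendsto {r m : ℕ} (h : Fin r → VT) (S : Fin m → Finset (Fin r)) (hm : 0 < m)
    (hS : ∀ e : Ed r, ∃ κ, sepa (S κ) e) {G : (Fin m → ℝ) → ℝ} (hG : Continuous G) (B : ℝ)
    (hB : ∀ s, (∃ κ, B ≤ s κ) → G s = 0) :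
    Tendsto (fun L : ℝ => DS h S G L / L ^ kk h) atTop (𝓝 (AR h * LS h S G)) := by
  have hae : ∀ᵐ y ∂(volume.restrict {y : Ed r → ℝ | ∀ e, 0 < y e}), ∀ e, 0 < y e :=
    ae_restrict_mem (measurableSet_pos r)
  refine weak_of_laplace hm (wt h) (wt_nonneg h) (ob S) (ob_nonneg S)
    (volume.restrict {y : Ed r → ℝ | ∀ e, 0 < y e}) (dens h) (dens_measurable h) ?_ (oy S)
    (oy_measurable S) ?_ (AR h) (kk h) (fun x hx => (DT_euler h S hx hS).1)
    (fun x hx => LS_exp_integrable h S hx hS) (fun x hx => ?_) hG B hB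
  · filter_upwards [hae] with y hy using dens_nonneg h hy
  · filter_upwards [hae] with y hy using oy_nonneg S hy
  · rw [LS_exp h S hx hS]
    exact GL_tendsto h S hx hS

end Pool.Agent.GenMoment
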