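import Mathlib
import Pool.Agent.Lib_MP_112ba8_g.DefsB
import Pool.Agent.Lib_MP_112ba8_e.ShellD

/-!
Piece PAIRS: the autocorrelation `Psi` of the hat function and one matching edge.

Facts on `hat`: `Pool.Agent.EvenMoment.ShD.hat_nonneg`, `hat_supp` (`hat θ δ s ≠ 0` gives
`θ - δ < s < θ` or so), `hat_integral`, `hat_cont`, `hat_integrable`, see
`Lib_MP_112ba8_e/ShellD.lean`; `hat_lint` in `Lib_MP_112ba8_s/ShellZ.lean`.
`Psi_neg`: translation.  `Psi_int`: Tonelli and translation.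
`pair_le`: if both hats are nonzero then `y + x ≤ θ` and `y + x' ≤ θ`, so `y ≤ θ - (x + x')/2` and
`y ^ m ≤ pp (θ - (x+x')/2) ^ m`; the remaining integral of the two hats over `y > 0` is at most
`Psi θ δ (x' - x)` (extend to all of `ℝ`, translate by `x`).
-/

namespace Pool.Agent.GenMoment

open Filter Topology MeasureTheory
open Pool.Agent.EvenMoment (cl Wgt Adm Ed cut hat)
open Pool.Agent.SixthMoment (QQ ln fr osc QS TT ob sepa oy xe JZ fc chi)

theorem pairs_hat_meas (θ δ : ℝ) : Measurable fun x : ℝ => ENNReal.ofReal (hat θ δ x) :=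
  (Pool.Agent.EvenMoment.ShD.hat_cont θ δ).measurable.ennreal_ofReal

theorem pairs_meas2 (θ δ : ℝ) : Measurable fun p : ℝ × ℝ =>
    ENNReal.ofReal (hat θ δ p.2) * ENNReal.ofReal (hat θ δ (p.2 + p.1)) :=
  ((pairs_hat_meas θ δ).comp measurable_snd).mul
    ((pairs_hat_meas θ δ).comp (measurable_snd.add measurable_fst))

theorem pairs_lint {θ δ : ℝ} (hδ : 0 < δ) :
    ∫⁻ x : ℝ, ENNReal.ofReal (hat θ δ x) = ENNReal.ofReal (δ / 2) := by
  rw [← ofReal_integral_eq_lintegral_ofReal (Pool.Agent.EvenMoment.ShD.hat_integrable hδ)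
    (Filter.Eventually.of_forall fun x => Pool.Agent.EvenMoment.ShD.hat_nonneg θ δ x),
    Pool.Agent.EvenMoment.ShD.hat_integral hδ]

theorem Psi_meas (θ δ : ℝ) : Measurable (Psi θ δ) := by
  exact (pairs_meas2 θ δ).lintegral_prod_right'

theorem Psi_neg (θ δ z : ℝ) : Psi θ δ (-z) = Psi θ δ z := by
  unfold Psi
  rw [← lintegral_add_right_eq_self _ z]
  refine lintegral_congr fun x => ?_
  rw [add_neg_cancel_right, mul_comm]

theorem Psi_int {θ δ : ℝ} (hδ : 0 < δ) :
    ∫⁻ z : ℝ, Psi θ δ z = ENNReal.ofReal ((δ / 2) ^ 2) := by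
  have h1 : ∫⁻ z : ℝ, Psi θ δ z = ∫⁻ x : ℝ, ∫⁻ z : ℝ,
      ENNReal.ofReal (hat θ δ x) * ENNReal.ofReal (hat θ δ (x + z)) :=
    lintegral_lintegral_swap (f := fun z x =>
      ENNReal.ofReal (hat θ δ x) * ENNReal.ofReal (hat θ δ (x + z)))
      (pairs_meas2 θ δ).aemeasurable
  rw [h1]
  have h2 : ∀ x : ℝ, ∫⁻ z : ℝ, ENNReal.ofReal (hat θ δ x) * ENNReal.ofReal (hat θ δ (x + z)) =
      ENNReal.ofReal (hat θ δ x) * ENNReal.ofReal (δ / 2) := by
    intro x
    have h3 : Measurable fun z : ℝ => ENNReal.ofReal (hat θ δ (x + z)) :=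
      (pairs_hat_meas θ δ).comp (measurable_const_add x)
    rw [lintegral_const_mul _ h3,
      lintegral_add_left_eq_self (fun z => ENNReal.ofReal (hat θ δ z)) x, pairs_lint hδ]
  simp only [h2]
  rw [lintegral_mul_const _ (pairs_hat_meas θ δ), pairs_lint hδ, ← ENNReal.ofReal_mul (by positivity)]
  congr 1
  ring

theorem pair_le {θ δ : ℝ} (hδ : 0 < δ) (m : ℕ) (x x' : ℝ) :
    ∫⁻ y in Set.Ioi (0 : ℝ), ENNReal.ofReal (y ^ m) * (ENNReal.ofReal (hat θ δ (y + x)) *
      ENNReal.ofReal (hat θ δ (y + x'))) ≤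
      ENNReal.ofReal (pp (θ - (x + x') / 2) ^ m) * Psi θ δ (x - x') := by
  have h1 : ∫⁻ y in Set.Ioi (0 : ℝ), ENNReal.ofReal (y ^ m) * (ENNReal.ofReal (hat θ δ (y + x)) *
      ENNReal.ofReal (hat θ δ (y + x'))) ≤
      ∫⁻ y in Set.Ioi (0 : ℝ), ENNReal.ofReal (pp (θ - (x + x') / 2) ^ m) *
        (ENNReal.ofReal (hat θ δ (y + x)) * ENNReal.ofReal (hat θ δ (y + x'))) := by
    refine setLIntegral_mono' measurableSet_Ioi fun y hy => ?_
    rw [Set.mem_Ioi] at hy
    by_cases k1 : hat θ δ (y + x) = 0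
    · rw [k1]
      simp
    by_cases k2 : hat θ δ (y + x') = 0
    · rw [k2]
      simp
    have k3 := (Pool.Agent.EvenMoment.ShD.hat_supp hδ k1).2
    have k4 := (Pool.Agent.EvenMoment.ShD.hat_supp hδ k2).2
    gcongr
    unfold pp
    exact le_max_of_le_right (by linarith)
  refine h1.trans ?_
  refine (setLIntegral_le_lintegral _ _).trans ?_
  have h2 : Measurable fun y : ℝ => ENNReal.ofReal (hat θ δ (y + x)) *
      ENNReal.ofReal (hat θ δ (y + x')) :=
    ((pairs_hat_meas θ δ).comp (measurable_add_const x)).mul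
      ((pairs_hat_meas θ δ).comp (measurable_add_const x'))
  rw [lintegral_const_mul _ h2]
  gcongr
  have h3 : ∫⁻ y : ℝ, ENNReal.ofReal (hat θ δ (y + x)) * ENNReal.ofReal (hat θ δ (y + x')) =
      Psi θ δ (-(x - x')) := by
    unfold Psi
    rw [← lintegral_add_right_eq_self (fun y => ENNReal.ofReal (hat θ δ y) *
      ENNReal.ofReal (hat θ δ (y + -(x - x')))) x]
    refine lintegral_congr fun y => ?_
    have : y + x + -(x - x') = y + x' := by ring
    rw [this]
  rw [h3, Psi_neg]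

end Pool.Agent.GenMoment
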