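import Mathlib
import Pool.Agent.Lib_MP_112ba8_g.DefsB
import Pool.Agent.Lib_MP_112ba8_g.Pairs
import Pool.Agent.Lib_MP_112ba8_g.Block
import Pool.Agent.Lib_MP_112ba8_s.ShellP

/-!
Common lemmas of the pieces KFOUR and KSIXA: the limit functional as an iterated integral over
enumerated edges.
-/

namespace Pool.Agent.GenMoment

open Filter Topology MeasureTheory
open Pool.Agent.EvenMoment (cl Wgt Adm Ed cut hat hl)
open Pool.Agent.SixthMoment (QQ ln fr osc QS TT ob sepa oy xe JZ fc chi e1_step e1_cons e1_prod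
  e1_ofReal_integral_le)

/-- the integrand in `E` variables -/
noncomputable def ke_f {r E m : ℕ} (ed : Fin E → Ed r) (h : Fin r → VT)
    (S : Fin m → Finset (Fin r)) (G : (Fin m → ℝ) → ℝ) (x : Fin E → ℝ) : ℝ :=
  (∏ j, (x j ^ (ke h (ed j) - 1) / Real.Gamma (ke h (ed j)))) *
    G (fun i => ∑ j, if sepa (S i) (ed j) then x j else 0)

theorem ke_LS_pi {r E m : ℕ} (ed : Fin E ≃ Ed r) (h : Fin r → VT) (S : Fin m → Finset (Fin r))
    (G : (Fin m → ℝ) → ℝ) :
    LS h S G = ∫ x, ke_f ed h S G x ∂(Measure.pi (fun _ : Fin E => hl)) := by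
  have h1 : LS h S G = ∫ y, dens h y * G (oy S y) ∂(Measure.pi (fun _ : Ed r => hl)) := by
    unfold LS
    have h2 : {y : Ed r → ℝ | ∀ e, 0 < y e} = Set.univ.pi (fun _ => Set.Ioi (0 : ℝ)) := by
      ext y; simp
    rw [h2, volume_pi, Measure.restrict_pi_pi]
    rfl
  rw [h1]
  have hmp := measurePreserving_piCongrLeft (fun _ : Ed r => hl) ed
  rw [← hmp.integral_comp' (g := fun y : Ed r → ℝ => dens h y * G (oy S y))]
  refine integral_congr_ae (Eventually.of_forall fun x => ?_)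
  have h3 : ∀ j : Fin E,
      (MeasurableEquiv.piCongrLeft (fun _ : Ed r => ℝ) ed) x (ed j) = x j := by
    intro j
    exact Equiv.piCongrLeft_apply_apply (fun _ : Ed r => ℝ) ed x j
  set y : Ed r → ℝ := (MeasurableEquiv.piCongrLeft (fun _ : Ed r => ℝ) ed) x with hy
  show dens h y * G (oy S y) = ke_f ed h S G x
  unfold ke_f
  congr 1
  · unfold dens
    rw [← Equiv.prod_comp ed]
    refine Finset.prod_congr rfl fun j _ => ?_
    rw [h3 j]
  · congr 1
    funext i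
    unfold oy
    rw [← Equiv.sum_comp ed]
    refine Finset.sum_congr rfl fun j _ => ?_
    rw [h3 j]

theorem ke_factor {a m : ℕ} (ha : 0 < a) (hm : 2 * a ^ 2 = m + 1) {r : ℕ} (e : Ed r) (x : ℝ) :
    x ^ (ke (fun _ : Fin r => pn a) e - 1) / Real.Gamma (ke (fun _ : Fin r => pn a) e) =
      x ^ m / (m.factorial : ℝ) := by
  have h1 : ke (fun _ : Fin r => pn a) e = (m : ℝ) + 1 := by
    unfold ke
    rw [pn_al ha]
    have : ((2 * a ^ 2 : ℕ) : ℝ) = ((m + 1 : ℕ) : ℝ) := by rw [hm]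
    push_cast at this
    linarith
  rw [h1, add_sub_cancel_right, Real.rpow_natCast, Real.Gamma_nat_eq_factorial]

theorem ke_m_pos {a m : ℕ} (ha : 0 < a) (hm : 2 * a ^ 2 = m + 1) : 0 < m := by
  have : 1 ≤ a ^ 2 := Nat.one_le_pow _ _ ha
  omega

/-- four steps of Tonelli -/
theorem ke_step4 (n : ℕ) {g : (Fin (n + 4) → ℝ) → ENNReal} (hg : Measurable g) :
    ∫⁻ r, g r ∂(Measure.pi (fun _ : Fin (n + 4) => hl)) =
      ∫⁻ a in Set.Ioi (0 : ℝ), ∫⁻ b in Set.Ioi (0 : ℝ), ∫⁻ c in Set.Ioi (0 : ℝ),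
      ∫⁻ d in Set.Ioi (0 : ℝ), ∫⁻ r, g (Fin.cons a (Fin.cons b (Fin.cons c (Fin.cons d r : Fin (n + 1) → ℝ) : Fin (n + 2) → ℝ) : Fin (n + 3) → ℝ) : Fin (n + 4) → ℝ)
        ∂(Measure.pi (fun _ : Fin n => hl)) := by
  rw [e1_step (n + 3) hg]
  refine lintegral_congr fun a => ?_
  have hm1 := hg.comp (e1_cons (n + 3) a)
  refine (e1_step (n + 2) hm1).trans ?_
  refine lintegral_congr fun b => ?_
  have hm2 := hm1.comp (e1_cons (n + 2) b)
  refine (e1_step (n + 1) hm2).trans ?_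
  refine lintegral_congr fun c => ?_
  have hm3 := hm2.comp (e1_cons (n + 1) c)
  exact e1_step n hm3

/-- the integrand of a matching edge -/
noncomputable def ke_h (m : ℕ) (θ δ x x' y : ℝ) : ENNReal :=
  ENNReal.ofReal (y ^ m) * (ENNReal.ofReal (hat θ δ (y + x)) * ENNReal.ofReal (hat θ δ (y + x')))

theorem ke_hat_meas (θ δ : ℝ) : Measurable (hat θ δ) :=
  (Pool.Agent.EvenMoment.ShD.hat_cont θ δ).measurable

theorem ke_h_meas (m : ℕ) (θ δ : ℝ) {α : Type} [MeasurableSpace α] {x x' y : α → ℝ}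
    (hx : Measurable x) (hx' : Measurable x') (hy : Measurable y) :
    Measurable fun t => ke_h m θ δ (x t) (x' t) (y t) := by
  unfold ke_h
  have h := ke_hat_meas θ δ
  exact (ENNReal.measurable_ofReal.comp (hy.pow_const m)).mul
    ((ENNReal.measurable_ofReal.comp (h.comp (hy.add hx))).mul
      (ENNReal.measurable_ofReal.comp (h.comp (hy.add hx'))))

theorem ke_h_nonneg (m : ℕ) (θ δ x x' : ℝ) {y : ℝ} (hy : 0 ≤ y) :
    0 ≤ y ^ m * (hat θ δ (y + x) * hat θ δ (y + x')) :=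
  mul_nonneg (pow_nonneg hy m) (mul_nonneg (Pool.Agent.EvenMoment.ShD.hat_nonneg θ δ _)
    (Pool.Agent.EvenMoment.ShD.hat_nonneg θ δ _))

theorem ke_h_real (m : ℕ) (θ δ x x' : ℝ) {y : ℝ} (hy : 0 ≤ y) :
    ENNReal.ofReal (y ^ m * (hat θ δ (y + x) * hat θ δ (y + x'))) = ke_h m θ δ x x' y := by
  unfold ke_h
  rw [ENNReal.ofReal_mul (pow_nonneg hy m),
    ENNReal.ofReal_mul (Pool.Agent.EvenMoment.ShD.hat_nonneg θ δ _)]

theorem ke_pp_nonneg (x : ℝ) : 0 ≤ pp x := le_max_left _ _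

theorem ke_pp_meas : Measurable pp := by
  unfold pp
  fun_prop

/-- integration over the matching edges -/
theorem ke_match {n : ℕ} {θ δ : ℝ} (hδ : 0 < δ) (m : ℕ) (C : ENNReal) (x x' : Fin n → ℝ) :
    ∫⁻ r, C * ∏ i, ke_h m θ δ (x i) (x' i) (r i) ∂(Measure.pi (fun _ : Fin n => hl)) ≤
      C * ∏ i, (ENNReal.ofReal (pp (θ - (x i + x' i) / 2) ^ m) * Psi θ δ (x i - x' i)) := by
  have hmeas : ∀ i : Fin n, Measurable fun y => ke_h m θ δ (x i) (x' i) y := fun i =>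
    ke_h_meas m θ δ measurable_const measurable_const measurable_id
  have hmm : Measurable (fun r : Fin n → ℝ => ∏ i, ke_h m θ δ (x i) (x' i) (r i)) :=
    Finset.measurable_prod _ fun i _ => (hmeas i).comp (measurable_pi_apply i)
  rw [lintegral_const_mul _ hmm, e1_prod n (fun i y => ke_h m θ δ (x i) (x' i) y) hmeas]
  exact mul_le_mul_right (Finset.prod_le_prod' fun i _ => pair_le hδ m (x i) (x' i)) _

/-- the bound for a matching edge -/
noncomputable def ke_b (m : ℕ) (θ δ x x' : ℝ) : ENNReal :=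
  ENNReal.ofReal (pp (θ - (x + x') / 2) ^ m) * Psi θ δ (x - x')

theorem ke_h_le {θ δ : ℝ} (hδ : 0 < δ) (m : ℕ) (x x' : ℝ) :
    ∫⁻ y in Set.Ioi (0 : ℝ), ke_h m θ δ x x' y ≤ ke_b m θ δ x x' := pair_le hδ m x x'

end Pool.Agent.GenMoment
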