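import Mathlib
import Pool.Agent.Lib_MP_112ba8_g.DefsB
import Pool.Agent.Lib_MP_112ba8_s.ShellP

/-!
Piece KTWO: the norm of `R` (two vertices, one edge `y` with exponent `2a^2`) and the densities
for natural powers.

`dens_nat`: `ke = 2 a b` is a natural number, `Real.rpow_natCast`, `Real.Gamma_nat_eq_factorial`.
`LS_two_le`: `LS = ∫_{y>0} y^(2a²-1)/(2a²-1)! gR(y)^2 dy` (transport `Ed 2 → ℝ` to `ℝ`, cf.
`e1_LS_pi`), `gR(y)^2 ≤ (c-y)^2` for `y ≤ ρ`, `= 0` for `y ≥ ρ`.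
-/

namespace Pool.Agent.GenMoment

open Filter Topology MeasureTheory
open Pool.Agent.EvenMoment (cl Wgt Adm Ed cut hat)
open Pool.Agent.SixthMoment (QQ ln fr osc QS TT ob sepa oy xe JZ fc chi)

theorem dens_nat {r : ℕ} (a : Fin r → ℕ) (ha : ∀ i, 0 < a i) (y : Ed r → ℝ) :
    dens (fun i => pn (a i)) y = ∏ e : Ed r, (y e ^ (2 * a e.1.1 * a e.1.2 - 1) /
      (Nat.factorial (2 * a e.1.1 * a e.1.2 - 1) : ℝ)) := by
  unfold dens
  refine Finset.prod_congr rfl fun e _ => ?_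
  set n := 2 * a e.1.1 * a e.1.2 - 1 with hn
  have hpos : 0 < 2 * a e.1.1 * a e.1.2 :=
    Nat.mul_pos (Nat.mul_pos (by norm_num) (ha _)) (ha _)
  have h1 : ke (fun i => pn (a i)) e = (n : ℝ) + 1 := by
    unfold ke
    rw [pn_al (ha _), pn_al (ha _)]
    have h2 : 2 * a e.1.1 * a e.1.2 = n + 1 := by omega
    have h3 := congrArg (fun k : ℕ => (k : ℝ)) h2
    push_cast at h3
    exact h3
  rw [h1, add_sub_cancel_right, Real.rpow_natCast, Real.Gamma_nat_eq_factorial]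

/-- the only edge -/
def ktwo_e : Ed 2 := ⟨(0, 1), by decide⟩

theorem ktwo_all (e : Ed 2) : e = ktwo_e := by
  revert e
  decide

instance ktwo_unique : Unique (Ed 2) := ⟨⟨ktwo_e⟩, ktwo_all⟩

theorem ktwo_int {m : ℕ} (hm : 0 < m) {c ρ : ℝ} (hρ : 0 < ρ) :
    ∫ t in Set.Ioc (0 : ℝ) ρ, t ^ (m - 1) * (c - t) ^ 2 =
      c ^ 2 * ρ ^ m / (m : ℕ) - 2 * c * ρ ^ (m + 1) / (m + 1 : ℕ) +
        ρ ^ (m + 2) / (m + 2 : ℕ) := by
  rw [← intervalIntegral.integral_of_le hρ.le]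
  obtain ⟨k, rfl⟩ : ∃ k, m = k + 1 := ⟨m - 1, by omega⟩
  have h1 : ∀ t : ℝ, t ^ (k + 1 - 1) * (c - t) ^ 2 =
      c ^ 2 * t ^ k - 2 * c * t ^ (k + 1) + t ^ (k + 2) := by
    intro t
    rw [Nat.add_sub_cancel]
    ring
  simp only [h1]
  rw [intervalIntegral.integral_add, intervalIntegral.integral_sub,
    intervalIntegral.integral_const_mul, intervalIntegral.integral_const_mul,
    integral_pow, integral_pow, integral_pow]
  · push_cast
    simp only [ne_eq, Nat.add_eq_zero_iff, one_ne_zero, and_false, not_false_eq_true, zero_pow,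
      sub_zero]
    ring
  all_goals
    apply Continuous.intervalIntegrable
    fun_prop

theorem LS_two_le {a : ℕ} (ha : 0 < a) {c ρ η : ℝ} (hη : 0 < η) (hρ : 0 < ρ) (hc : ρ ≤ c) :
    LS (fun _ : Fin 2 => pn a) (SI 2) (G0 fun _ => gR c ρ η) ≤
      (c ^ 2 * ρ ^ (2 * a ^ 2) / (2 * a ^ 2 : ℕ) - 2 * c * ρ ^ (2 * a ^ 2 + 1) / (2 * a ^ 2 + 1 : ℕ) +
        ρ ^ (2 * a ^ 2 + 2) / (2 * a ^ 2 + 2 : ℕ)) / (Nat.factorial (2 * a ^ 2 - 1) : ℝ) := by
  set m := 2 * a ^ 2 with hm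
  have hmpos : 0 < m := by
    have : 0 < a ^ 2 := Nat.pow_pos ha
    omega
  set F : ℝ → ℝ := fun t => t ^ (m - 1) / (Nat.factorial (m - 1) : ℝ) *
    (gR c ρ η t * gR c ρ η t) with hF
  have h1 : ∀ y : Ed 2 → ℝ, dens (fun _ : Fin 2 => pn a) y *
      G0 (fun _ => gR c ρ η) (oy (SI 2) y) = F (MeasurableEquiv.funUnique (Ed 2) ℝ y) := by
    intro y
    have hd := dens_nat (fun _ : Fin 2 => a) (fun _ => ha) y
    rw [hd, Fintype.prod_unique]
    have ho : ∀ κ : Fin 2, oy (SI 2) y κ = y default := by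
      intro κ
      unfold oy
      rw [Fintype.sum_unique, if_pos]
      fin_cases κ <;> decide
    unfold G0
    rw [Fin.prod_univ_two, ho, ho]
    have h2 : 2 * a * a - 1 = m - 1 := by rw [hm]; congr 1; ring
    rw [h2]
    rfl
  have h2 : LS (fun _ : Fin 2 => pn a) (SI 2) (G0 fun _ => gR c ρ η) =
      ∫ t in Set.Ioi (0 : ℝ), F t := by
    unfold LS
    have hset : {y : Ed 2 → ℝ | ∀ e, 0 < y e} =
        MeasurableEquiv.funUnique (Ed 2) ℝ ⁻¹' Set.Ioi (0 : ℝ) := by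
      ext y
      simp only [Set.mem_setOf_eq, Set.mem_preimage, Set.mem_Ioi]
      constructor
      · intro h
        exact h default
      · intro h e
        rw [Unique.eq_default e]
        exact h
    simp only [h1]
    rw [hset]
    exact (volume_preserving_funUnique (Ed 2) ℝ).setIntegral_preimage_emb
      (MeasurableEquiv.measurableEmbedding _) F _
  rw [h2]
  have hchi : ∀ t, ρ ≤ t → chi ρ η t = 0 := by
    intro t ht
    unfold chi
    refine max_eq_left ((min_le_right _ _).trans ?_)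
    exact div_nonpos_of_nonpos_of_nonneg (by linarith) hη.le
  have h3 : ∫ t in Set.Ioi (0 : ℝ), F t = ∫ t in Set.Ioc (0 : ℝ) ρ, F t := by
    refine setIntegral_eq_of_subset_of_forall_diff_eq_zero measurableSet_Ioi
      (fun t ht => ht.1) ?_
    rintro t ⟨ht1, ht2⟩
    have hlt : ρ < t := by
      by_contra hcon
      exact ht2 ⟨ht1, not_lt.mp hcon⟩
    simp only [hF, gR]
    rw [hchi t hlt.le]
    ring
  rw [h3]
  have hfac : (0 : ℝ) < (Nat.factorial (m - 1) : ℝ) := by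
    exact_mod_cast Nat.factorial_pos _
  have hcc : Continuous (fun t => chi ρ η t) := by
    unfold chi
    fun_prop
  have hint : IntegrableOn F (Set.Ioc (0 : ℝ) ρ) := by
    refine (Continuous.integrableOn_Icc ?_).mono_set Set.Ioc_subset_Icc_self
    simp only [hF, gR]
    fun_prop
  have hint2 : IntegrableOn (fun t => t ^ (m - 1) * (c - t) ^ 2 / (Nat.factorial (m - 1) : ℝ))
      (Set.Ioc (0 : ℝ) ρ) := by
    refine (Continuous.integrableOn_Icc ?_).mono_set Set.Ioc_subset_Icc_self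
    fun_prop
  rw [← ktwo_int hmpos hρ, ← integral_div]
  refine setIntegral_mono_on hint hint2 measurableSet_Ioc fun t ht => ?_
  have hk0 : 0 ≤ chi ρ η t := le_max_left _ _
  have hk1 : chi ρ η t ≤ 1 := max_le zero_le_one (min_le_left _ _)
  simp only [hF, gR]
  have h5 : (c - t) * chi ρ η t * ((c - t) * chi ρ η t) ≤ (c - t) ^ 2 := by
    have h6 : chi ρ η t * chi ρ η t ≤ 1 := by nlinarith
    have h7 : 0 ≤ (c - t) ^ 2 := sq_nonneg _
    nlinarith
  calc t ^ (m - 1) / (Nat.factorial (m - 1) : ℝ) * ((c - t) * chi ρ η t * ((c - t) * chi ρ η t))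
      ≤ t ^ (m - 1) / (Nat.factorial (m - 1) : ℝ) * (c - t) ^ 2 := by
        refine mul_le_mul_of_nonneg_left h5 ?_
        exact div_nonneg (pow_nonneg ht.1.le _) hfac.le
    _ = t ^ (m - 1) * (c - t) ^ 2 / (Nat.factorial (m - 1) : ℝ) := by ring

end Pool.Agent.GenMoment
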