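import Mathlib
import Pool.Agent.Lib_MP_112ba8_g.DefsB
import Pool.Agent.Lib_MP_112ba8_g.Pairs
import Pool.Agent.Lib_MP_112ba8_g.Block
import Pool.Agent.Lib_MP_112ba8_g.BKsup
import Pool.Agent.Lib_MP_112ba8_g.KTwo
import Pool.Agent.Lib_MP_112ba8_g.KEdge
import Pool.Agent.Lib_MP_112ba8_s.ShellP

/-!
Piece KFOUR: four equal vertices with hats.

`LS_four_block`: six edges, exponents `2a²`, `m = 2a² - 1`.  Matching edges `01` and `23`, block edges
`y02, y03, y12, y13` (rows `0,1`, columns `2,3`).  Move to an iterated lintegral with the matching edges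
innermost (`e1_step`, `e1_cons`, `e1_LS_pi` in `Lib_MP_112ba8_s/ShellP.lean`; `dens_nat`), apply `pair_le`
twice: vertex 0 has `y01 + (y02+y03)`, vertex 1 has `y01 + (y12+y13)`, vertex 2 `y23 + (y02+y12)`,
vertex 3 `y23 + (y03+y13)`; then `block_cov` (`y11=y02, y12=y03, y21=y12, y22=y13`).
`LS_four_le`: `BK_sup`, `Psi_int`, `BK_nonpos`, and
`∫_0^{2θ} (θ-u/2)^(2m) (u/2)^(4m+1) du = 2 θ^(6m+2) (2m)! (4m+1)!/(6m+2)!` (`beta_nat`).
-/

namespace Pool.Agent.GenMoment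

open Filter Topology MeasureTheory
open Pool.Agent.EvenMoment (cl Wgt Adm Ed cut hat hl)
open Pool.Agent.SixthMoment (QQ ln fr osc QS TT ob sepa oy xe JZ fc chi e1_step e1_cons e1_prod
  e1_ofReal_integral_le)

/-- the edges of the complete graph on four vertices -/
def k4_edf : Fin 6 → Ed 4 :=
  ![⟨(0, 2), by decide⟩, ⟨(0, 3), by decide⟩, ⟨(1, 2), by decide⟩, ⟨(1, 3), by decide⟩,
    ⟨(0, 1), by decide⟩, ⟨(2, 3), by decide⟩]

theorem k4_edf_bij : Function.Bijective k4_edf :=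
  (Fintype.bijective_iff_injective_and_card _).2 ⟨by decide, by decide⟩

noncomputable def k4_ede : Fin 6 ≃ Ed 4 := Equiv.ofBijective k4_edf k4_edf_bij

theorem k4_obs (r : Fin 6 → ℝ) :
    (fun i => ∑ j, if sepa (SI 4 i) (k4_edf j) then r j else 0) =
      ![r 4 + (r 0 + r 1), r 4 + (r 2 + r 3), r 5 + (r 0 + r 2), r 5 + (r 1 + r 3)] := by
  funext i
  fin_cases i <;> simp [Fin.sum_univ_succ, k4_edf, sepa, SI] <;> ring

/-- the integrand in six variables -/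
noncomputable def k4_g (m : ℕ) (θ δ : ℝ) (r : Fin 6 → ℝ) : ENNReal :=
  ENNReal.ofReal (1 / (m.factorial : ℝ) ^ 6) * (ENNReal.ofReal ((r 0 * r 1 * r 2 * r 3) ^ m) *
    (ke_h m θ δ (r 0 + r 1) (r 2 + r 3) (r 4) * ke_h m θ δ (r 0 + r 2) (r 1 + r 3) (r 5)))

theorem k4_g_meas (m : ℕ) (θ δ : ℝ) : Measurable (k4_g m θ δ) := by
  unfold k4_g
  refine Measurable.const_mul ?_ _
  refine Measurable.mul (ENNReal.measurable_ofReal.comp (by fun_prop)) ?_
  exact (ke_h_meas m θ δ (by fun_prop) (by fun_prop) (by fun_prop)).mul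
    (ke_h_meas m θ δ (by fun_prop) (by fun_prop) (by fun_prop))

theorem k4_point {a m : ℕ} (ha : 0 < a) (hm : 2 * a ^ 2 = m + 1) (θ δ : ℝ) {r : Fin 6 → ℝ}
    (hr : ∀ i, 0 < r i) :
    ENNReal.ofReal (ke_f k4_ede (fun _ : Fin 4 => pn a) (SI 4) (G0 fun _ => hat θ δ) r) =
      k4_g m θ δ r := by
  have n := Pool.Agent.EvenMoment.ShD.hat_nonneg θ δ
  have h1 : ke_f k4_ede (fun _ : Fin 4 => pn a) (SI 4) (G0 fun _ => hat θ δ) r =
      1 / (m.factorial : ℝ) ^ 6 * ((r 0 * r 1 * r 2 * r 3) ^ m *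
        ((r 4 ^ m * (hat θ δ (r 4 + (r 0 + r 1)) * hat θ δ (r 4 + (r 2 + r 3)))) *
          (r 5 ^ m * (hat θ δ (r 5 + (r 0 + r 2)) * hat θ δ (r 5 + (r 1 + r 3)))))) := by
    unfold ke_f
    simp only [ke_factor ha hm]
    have e1 : (fun i => ∑ j, if sepa (SI 4 i) (k4_ede j) then r j else 0) =
      ![r 4 + (r 0 + r 1), r 4 + (r 2 + r 3), r 5 + (r 0 + r 2), r 5 + (r 1 + r 3)] := k4_obs r
    rw [e1]
    have hf : (m.factorial : ℝ) ≠ 0 := by positivity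
    simp [G0, Fin.prod_univ_succ]
    field_simp
    ring
  have p0 := (hr 0).le
  have p1 := (hr 1).le
  have p2 := (hr 2).le
  have p3 := (hr 3).le
  rw [h1]
  unfold k4_g
  rw [ENNReal.ofReal_mul (by positivity), ENNReal.ofReal_mul (by positivity),
    ENNReal.ofReal_mul (ke_h_nonneg m θ δ _ _ (hr 4).le), ke_h_real m θ δ _ _ (hr 4).le,
    ke_h_real m θ δ _ _ (hr 5).le]

/-- the function after the integration of the matching edges -/
noncomputable def k4_F (m : ℕ) (θ δ : ℝ) (x : ℝ × ℝ × ℝ) : ENNReal :=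
  ENNReal.ofReal (pp (θ - x.1 / 2) ^ (2 * m)) * (Psi θ δ x.2.1 * Psi θ δ x.2.2)

theorem k4_F_meas (m : ℕ) (θ δ : ℝ) : Measurable (k4_F m θ δ) := by
  unfold k4_F
  refine Measurable.mul (ENNReal.measurable_ofReal.comp ?_) ?_
  · exact (ke_pp_meas.comp (by fun_prop)).pow_const _
  · exact ((Psi_meas θ δ).comp (by fun_prop)).mul ((Psi_meas θ δ).comp (by fun_prop))

theorem k4_inner {θ δ : ℝ} (hδ : 0 < δ) (m : ℕ) (a b c d : ℝ) :
    ∫⁻ r, k4_g m θ δ (Fin.cons a (Fin.cons b (Fin.cons c (Fin.cons d r : Fin 3 → ℝ) :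
      Fin 4 → ℝ) : Fin 5 → ℝ) : Fin 6 → ℝ) ∂(Measure.pi (fun _ : Fin 2 => hl)) ≤
      ENNReal.ofReal (1 / (m.factorial : ℝ) ^ 6) * (ENNReal.ofReal ((a * b * c * d) ^ m) *
        k4_F m θ δ (a + b + c + d, a + b - c - d, a + c - b - d)) := by
  have h1 : ∫⁻ r, k4_g m θ δ (Fin.cons a (Fin.cons b (Fin.cons c (Fin.cons d r : Fin 3 → ℝ) :
      Fin 4 → ℝ) : Fin 5 → ℝ) : Fin 6 → ℝ) ∂(Measure.pi (fun _ : Fin 2 => hl)) =
      ∫⁻ r, (ENNReal.ofReal (1 / (m.factorial : ℝ) ^ 6) * ENNReal.ofReal ((a * b * c * d) ^ m)) *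
        ∏ i : Fin 2, ke_h m θ δ ((![a + b, a + c] : Fin 2 → ℝ) i)
          ((![c + d, b + d] : Fin 2 → ℝ) i) (r i) ∂(Measure.pi (fun _ : Fin 2 => hl)) := by
    refine lintegral_congr fun r => ?_
    rw [Fin.prod_univ_two, mul_assoc]
    rfl
  rw [h1]
  refine (ke_match hδ m _ _ _).trans ?_
  rw [Fin.prod_univ_two, mul_assoc]
  refine mul_le_mul_right (mul_le_mul_right (le_of_eq ?_) _) _
  show (ENNReal.ofReal (pp (θ - (a + b + (c + d)) / 2) ^ m) * Psi θ δ (a + b - (c + d))) *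
    (ENNReal.ofReal (pp (θ - (a + c + (b + d)) / 2) ^ m) * Psi θ δ (a + c - (b + d))) = _
  unfold k4_F
  have e1 : a + b + (c + d) = a + b + c + d := by ring
  have e2 : a + c + (b + d) = a + b + c + d := by ring
  have e3 : a + b - (c + d) = a + b - c - d := by ring
  have e4 : a + c - (b + d) = a + c - b - d := by ring
  rw [e1, e2, e3, e4]
  dsimp only
  have e5 : ENNReal.ofReal (pp (θ - (a + b + c + d) / 2) ^ (2 * m)) =
      ENNReal.ofReal (pp (θ - (a + b + c + d) / 2) ^ m) *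
        ENNReal.ofReal (pp (θ - (a + b + c + d) / 2) ^ m) := by
    rw [← ENNReal.ofReal_mul (pow_nonneg (ke_pp_nonneg _) _), ← pow_add, two_mul]
  rw [e5]
  ring

theorem LS_four_block {a m : ℕ} (ha : 0 < a) (hm : 2 * a ^ 2 = m + 1) {θ δ : ℝ} (hδ : 0 < δ)
    (hδθ : δ < θ) :
    ENNReal.ofReal (LS (fun _ : Fin 4 => pn a) (SI 4) (G0 fun _ => hat θ δ)) ≤
      ENNReal.ofReal (1 / (Nat.factorial m : ℝ) ^ 6) * ∫⁻ u : ℝ, ∫⁻ r : ℝ, ∫⁻ s : ℝ,
        BK m u r s * (ENNReal.ofReal (pp (θ - u / 2) ^ (2 * m)) * (Psi θ δ r * Psi θ δ s)) := by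
  rw [ke_LS_pi k4_ede]
  refine (e1_ofReal_integral_le _).trans ?_
  have h1 : ∫⁻ r, ENNReal.ofReal (ke_f k4_ede (fun _ : Fin 4 => pn a) (SI 4)
      (G0 fun _ => hat θ δ) r) ∂(Measure.pi (fun _ : Fin 6 => hl)) =
      ∫⁻ r, k4_g m θ δ r ∂(Measure.pi (fun _ : Fin 6 => hl)) := by
    refine lintegral_congr_ae ?_
    filter_upwards [Pool.Agent.EvenMoment.ae_hl_pos (Fin 6)] with r hr
    exact k4_point ha hm θ δ hr
  rw [h1, ke_step4 2 (k4_g_meas m θ δ)]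
  have h2 := block_cov (ke_m_pos ha hm) (k4_F_meas m θ δ)
  have h3 : ∫⁻ u : ℝ, ∫⁻ r : ℝ, ∫⁻ s : ℝ,
        BK m u r s * (ENNReal.ofReal (pp (θ - u / 2) ^ (2 * m)) * (Psi θ δ r * Psi θ δ s)) =
      ∫⁻ u : ℝ, ∫⁻ r : ℝ, ∫⁻ s : ℝ, BK m u r s * k4_F m θ δ (u, r, s) := rfl
  rw [h3, ← h2]
  simp only [← lintegral_const_mul' _ _ (ENNReal.ofReal_ne_top (r := 1 / (m.factorial : ℝ) ^ 6))]
  refine lintegral_mono fun a => ?_
  refine lintegral_mono fun b => ?_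
  refine lintegral_mono fun c => ?_
  refine lintegral_mono fun d => ?_
  exact k4_inner hδ m a b c d

theorem k4_beta (m : ℕ) {θ : ℝ} (hθ : 0 ≤ θ) :
    ∫ u in (0 : ℝ)..(2 * θ), (u / 2) ^ (4 * m + 1) * (θ - u / 2) ^ (2 * m) =
      2 * (θ ^ (6 * m + 2) * (((4 * m + 1).factorial : ℝ) * (2 * m).factorial /
        (6 * m + 2).factorial)) := by
  have h := intervalIntegral.integral_comp_div (a := 0) (b := 2 * θ)
    (fun x : ℝ => x ^ (4 * m + 1) * (θ - x) ^ (2 * m)) (c := 2) (by norm_num)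
  have e : 4 * m + 1 + 2 * m + 1 = 6 * m + 2 := by ring
  rw [h, zero_div, mul_div_cancel_left₀ _ two_ne_zero, smul_eq_mul, beta_nat _ _ hθ, e]

theorem k4_Q {m : ℕ} (hm : 0 < m) {θ : ℝ} (hθ : 0 < θ) {K : ℝ} (hK : 0 ≤ K) :
    ∫⁻ u : ℝ, (Set.Ioi (0 : ℝ)).indicator
      (fun u => ENNReal.ofReal (1 / 4 * ((u / 2) ^ (4 * m + 1) * K))) u *
        ENNReal.ofReal (pp (θ - u / 2) ^ (2 * m)) =
      ENNReal.ofReal (K / 4 * (2 * (θ ^ (6 * m + 2) * (((4 * m + 1).factorial : ℝ) *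
        (2 * m).factorial / (6 * m + 2).factorial)))) := by
  have h1 : ∀ u : ℝ, (Set.Ioi (0 : ℝ)).indicator
      (fun u => ENNReal.ofReal (1 / 4 * ((u / 2) ^ (4 * m + 1) * K))) u *
        ENNReal.ofReal (pp (θ - u / 2) ^ (2 * m)) =
      (Set.Ioc (0 : ℝ) (2 * θ)).indicator (fun u => ENNReal.ofReal
        (K / 4 * ((u / 2) ^ (4 * m + 1) * (θ - u / 2) ^ (2 * m)))) u := by
    intro u
    rcases le_or_gt u 0 with hu | hu
    · rw [Set.indicator_of_notMem (by simpa using hu), Set.indicator_of_notMem, zero_mul]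
      intro h
      exact absurd h.1 (not_lt.mpr hu)
    · rw [Set.indicator_of_mem (by simpa using hu)]
      rcases le_or_gt u (2 * θ) with hu2 | hu2
      · rw [Set.indicator_of_mem (show u ∈ Set.Ioc (0 : ℝ) (2 * θ) from ⟨hu, hu2⟩),
          ← ENNReal.ofReal_mul (by positivity)]
        have : pp (θ - u / 2) = θ - u / 2 := max_eq_right (by linarith)
        rw [this]
        congr 1
        ring
      · rw [Set.indicator_of_notMem (fun h => absurd h.2 (not_le.mpr hu2))]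
        have : pp (θ - u / 2) = 0 := max_eq_left (by linarith)
        rw [this, zero_pow (by omega), ENNReal.ofReal_zero, mul_zero]
  simp only [h1]
  rw [lintegral_indicator measurableSet_Ioc, ← ofReal_integral_eq_lintegral_ofReal,
    ← intervalIntegral.integral_of_le (by linarith), intervalIntegral.integral_const_mul,
    k4_beta m hθ.le]
  · exact Continuous.integrableOn_Ioc (by fun_prop)
  · rw [Filter.EventuallyLE, ae_restrict_iff' measurableSet_Ioc]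
    refine Eventually.of_forall fun u hu => ?_
    have h2 : 0 ≤ θ - u / 2 := by linarith [hu.2]
    have h3 : 0 < u := hu.1
    show (0 : ℝ) ≤ _
    positivity

theorem k4_slice {m : ℕ} (hm : 0 < m) {θ δ : ℝ} (hδ : 0 < δ) (u : ℝ) :
    ∫⁻ r : ℝ, ∫⁻ s : ℝ,
        BK m u r s * (ENNReal.ofReal (pp (θ - u / 2) ^ (2 * m)) * (Psi θ δ r * Psi θ δ s)) ≤
      (Set.Ioi (0 : ℝ)).indicator (fun u => ENNReal.ofReal (1 / 4 * ((u / 2) ^ (4 * m + 1) *
        (((2 * m).factorial : ℝ) ^ 2 / (4 * m + 1).factorial)))) u *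
        ENNReal.ofReal (pp (θ - u / 2) ^ (2 * m)) * ENNReal.ofReal ((δ / 2) ^ 4) := by
  set Q := (Set.Ioi (0 : ℝ)).indicator (fun u => ENNReal.ofReal (1 / 4 * ((u / 2) ^ (4 * m + 1) *
        (((2 * m).factorial : ℝ) ^ 2 / (4 * m + 1).factorial)))) u with hQ
  have hB : ∀ r s, BK m u r s ≤ Q := by
    intro r s
    rcases le_or_gt u 0 with hu | hu
    · rw [BK_nonpos hm hu]
      exact zero_le
    · rw [hQ, Set.indicator_of_mem (by simpa using hu)]
      exact BK_sup hm hu.le r s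
  have h1 : ∫⁻ r : ℝ, ∫⁻ s : ℝ,
        BK m u r s * (ENNReal.ofReal (pp (θ - u / 2) ^ (2 * m)) * (Psi θ δ r * Psi θ δ s)) ≤
      ∫⁻ r : ℝ, ∫⁻ s : ℝ,
        (Q * ENNReal.ofReal (pp (θ - u / 2) ^ (2 * m))) * (Psi θ δ r * Psi θ δ s) := by
    refine lintegral_mono fun r => lintegral_mono fun s => ?_
    dsimp only
    rw [mul_assoc]
    exact mul_le_mul_left (hB r s) _
  refine h1.trans (le_of_eq ?_)
  have hm1 := Psi_meas θ δ
  have h2 : ∀ r : ℝ, ∫⁻ s : ℝ,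
        (Q * ENNReal.ofReal (pp (θ - u / 2) ^ (2 * m))) * (Psi θ δ r * Psi θ δ s) =
      (Q * ENNReal.ofReal (pp (θ - u / 2) ^ (2 * m))) * (Psi θ δ r * ENNReal.ofReal ((δ / 2) ^ 2)) := by
    intro r
    rw [lintegral_const_mul _ (hm1.const_mul _), lintegral_const_mul _ hm1, Psi_int hδ]
  simp only [h2]
  rw [lintegral_const_mul _ (hm1.mul_const _), lintegral_mul_const _ hm1, Psi_int hδ,
    ← ENNReal.ofReal_mul (by positivity)]
  congr 2
  ring

theorem LS_four_le {a m : ℕ} (ha : 0 < a) (hm : 2 * a ^ 2 = m + 1) {θ δ : ℝ} (hδ : 0 < δ)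
    (hδθ : δ < θ) :
    LS (fun _ : Fin 4 => pn a) (SI 4) (G0 fun _ => hat θ δ) ≤
      (δ / 2) ^ 4 * (((2 * m).factorial : ℝ) ^ 3 / (2 * ((6 * m + 2).factorial : ℝ) *
        (m.factorial : ℝ) ^ 6) * θ ^ (6 * m + 2)) := by
  have hm0 := ke_m_pos ha hm
  have hθ : 0 < θ := hδ.trans hδθ
  have h1 := LS_four_block ha hm hδ hδθ
  have h2 : ∫⁻ u : ℝ, ∫⁻ r : ℝ, ∫⁻ s : ℝ,
        BK m u r s * (ENNReal.ofReal (pp (θ - u / 2) ^ (2 * m)) * (Psi θ δ r * Psi θ δ s)) ≤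
      ENNReal.ofReal ((((2 * m).factorial : ℝ) ^ 2 / (4 * m + 1).factorial) / 4 *
        (2 * (θ ^ (6 * m + 2) * (((4 * m + 1).factorial : ℝ) *
        (2 * m).factorial / (6 * m + 2).factorial)))) * ENNReal.ofReal ((δ / 2) ^ 4) := by
    refine (lintegral_mono fun u => k4_slice hm0 hδ u).trans (le_of_eq ?_)
    rw [lintegral_mul_const' _ _ ENNReal.ofReal_ne_top, k4_Q hm0 hθ (by positivity)]
  have h3 := h1.trans (mul_le_mul_right h2 (ENNReal.ofReal (1 / (Nat.factorial m : ℝ) ^ 6)))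
  rw [← ENNReal.ofReal_mul (by positivity), ← ENNReal.ofReal_mul (by positivity),
    ENNReal.ofReal_le_ofReal_iff (by positivity)] at h3
  refine h3.trans (le_of_eq ?_)
  have f1 : ((4 * m + 1).factorial : ℝ) ≠ 0 := by positivity
  have f2 : ((6 * m + 2).factorial : ℝ) ≠ 0 := by positivity
  have f3 : (m.factorial : ℝ) ≠ 0 := by positivity
  field_simp
  ring

end Pool.Agent.GenMoment
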