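import Mathlib
import Pool.Agent.Lib_MP_112ba8_g.Defs
import Pool.Agent.Lib_MP_112ba8_g.Coef
import Pool.Agent.Lib_MP_112ba8_g.Limit
import Pool.Agent.Lib_MP_112ba8_s.Ident
import Pool.Agent.Lib_MP_112ba8.Final

/-!
Piece IDENT (helper44): the arithmetic constants of the power types.

`F0 h p * ∏ i, uu (c i) p 0 = ∑_N Dc (∑ c i) N ^ 2 / p^N = uu (∑ c i) p 0`, because the power series
`∑ Dc c n X^n` is multiplicative in `c` (Chu-Vandermonde), and
`kk h = (∑ c i)^2 - ∑ (c i)^2`.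
-/

namespace Pool.Agent.GenMoment

open Filter Topology MeasureTheory
open scoped ENNReal
open Pool.Agent.EvenMoment (cl Wgt Adm Ed cut hat)
open Pool.Agent.SixthMoment (QQ ln fr osc QS TT ob sepa oy xe JZ fc chi BB main_identity)

/-- Vandermonde: the convolution of two coefficient sequences -/
theorem Dc_conv (a b : ℝ) (n : ℕ) :
    ∑ x ∈ Finset.HasAntidiagonal.antidiagonal n, Dc a x.1 * Dc b x.2 = Dc (a + b) n := by
  induction n with
  | zero => simp [Dc_zero]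
  | succ n ih =>
    have h1 : ((n : ℝ) + 1) *
        ∑ x ∈ Finset.HasAntidiagonal.antidiagonal (n + 1), Dc a x.1 * Dc b x.2 =
        ∑ x ∈ Finset.HasAntidiagonal.antidiagonal (n + 1), ((x.1 : ℝ) * Dc a x.1) * Dc b x.2 +
        ∑ x ∈ Finset.HasAntidiagonal.antidiagonal (n + 1), Dc a x.1 * ((x.2 : ℝ) * Dc b x.2) := by
      rw [Finset.mul_sum, ← Finset.sum_add_distrib]
      refine Finset.sum_congr rfl fun x hx => ?_
      rw [Finset.HasAntidiagonal.mem_antidiagonal] at hx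
      have : ((n : ℝ) + 1) = (x.1 : ℝ) + (x.2 : ℝ) := by exact_mod_cast hx.symm
      rw [this]
      ring
    have h2 : ∑ x ∈ Finset.HasAntidiagonal.antidiagonal (n + 1),
        ((x.1 : ℝ) * Dc a x.1) * Dc b x.2 =
        ∑ x ∈ Finset.HasAntidiagonal.antidiagonal n, ((a + x.1) * Dc a x.1) * Dc b x.2 := by
      rw [Finset.Nat.sum_antidiagonal_succ (f := fun x : ℕ × ℕ => ((x.1 : ℝ) * Dc a x.1) * Dc b x.2)]
      simp only [Nat.cast_zero, zero_mul, zero_add]
      refine Finset.sum_congr rfl fun x _ => ?_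
      rw [← Dc_rec]
      push_cast
      ring
    have h3 : ∑ x ∈ Finset.HasAntidiagonal.antidiagonal (n + 1),
        Dc a x.1 * ((x.2 : ℝ) * Dc b x.2) =
        ∑ x ∈ Finset.HasAntidiagonal.antidiagonal n, Dc a x.1 * ((b + x.2) * Dc b x.2) := by
      rw [Finset.Nat.sum_antidiagonal_succ' (f := fun x : ℕ × ℕ => Dc a x.1 * ((x.2 : ℝ) * Dc b x.2))]
      simp only [Nat.cast_zero, zero_mul, mul_zero, zero_add]
      refine Finset.sum_congr rfl fun x _ => ?_
      rw [← Dc_rec]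
      push_cast
      ring
    have h4 : ∑ x ∈ Finset.HasAntidiagonal.antidiagonal n, ((a + x.1) * Dc a x.1) * Dc b x.2 +
        ∑ x ∈ Finset.HasAntidiagonal.antidiagonal n, Dc a x.1 * ((b + x.2) * Dc b x.2) =
        (a + b + n) * ∑ x ∈ Finset.HasAntidiagonal.antidiagonal n, Dc a x.1 * Dc b x.2 := by
      rw [Finset.mul_sum, ← Finset.sum_add_distrib]
      refine Finset.sum_congr rfl fun x hx => ?_
      rw [Finset.HasAntidiagonal.mem_antidiagonal] at hx
      rw [← hx]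
      push_cast
      ring
    have h5 : ((n : ℝ) + 1) ≠ 0 := by positivity
    refine mul_left_cancel₀ h5 ?_
    rw [h1, h2, h3, h4, ih, Dc_rec]

theorem mk_zero : PowerSeries.mk (Dc 0) = 1 := by
  ext n
  rw [PowerSeries.coeff_mk, PowerSeries.coeff_one]
  cases n with
  | zero => simp [Dc_zero]
  | succ n => simp [Dc_zero_succ]

theorem mk_mul (a b : ℝ) :
    PowerSeries.mk (Dc a) * PowerSeries.mk (Dc b) = PowerSeries.mk (Dc (a + b)) := by
  ext n
  rw [PowerSeries.coeff_mul, PowerSeries.coeff_mk, ← Dc_conv]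
  simp only [PowerSeries.coeff_mk]

theorem mk_prod {r : ℕ} (c : Fin r → ℝ) :
    ∏ i, PowerSeries.mk (Dc (c i)) = PowerSeries.mk (Dc (∑ i, c i)) := by
  classical
  have : ∀ s : Finset (Fin r), ∏ i ∈ s, PowerSeries.mk (Dc (c i)) =
      PowerSeries.mk (Dc (∑ i ∈ s, c i)) := by
    intro s
    induction s using Finset.induction_on with
    | empty => simp [mk_zero]
    | insert a s ha ih => rw [Finset.prod_insert ha, Finset.sum_insert ha, ih, mk_mul]
  exact this Finset.univ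

theorem BB_eq {r : ℕ} (c : Fin r → ℝ) (hc : ∀ i, 0 ≤ c i) (N : ℕ) :
    BB (fun i n => ENNReal.ofReal (Dc (c i) n)) N = ENNReal.ofReal (Dc (∑ i, c i) N) := by
  classical
  unfold BB
  rw [tsum_eq_sum (s := (Finset.finsuppAntidiag Finset.univ N).image
    (fun l : Fin r →₀ ℕ => (l : Fin r → ℕ)))]
  · rw [Finset.sum_image (fun l₁ _ l₂ _ h => DFunLike.coe_injective h)]
    have hco : Dc (∑ i, c i) N = PowerSeries.coeff N (∏ i, PowerSeries.mk (Dc (c i))) := by
      rw [mk_prod, PowerSeries.coeff_mk]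
    rw [hco, PowerSeries.coeff_prod, ENNReal.ofReal_sum_of_nonneg]
    · refine Finset.sum_congr rfl fun l hl => ?_
      have h1 : ∑ i, l i = N := (Finset.mem_finsuppAntidiag.mp hl).1
      rw [if_pos h1, ENNReal.ofReal_prod_of_nonneg (fun i _ => by
        rw [PowerSeries.coeff_mk]; exact Dc_nonneg (hc i) _)]
      refine Finset.prod_congr rfl fun i _ => ?_
      rw [PowerSeries.coeff_mk]
    · intro l _
      refine Finset.prod_nonneg fun i _ => ?_
      rw [PowerSeries.coeff_mk]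
      exact Dc_nonneg (hc i) _
  · intro m hm
    refine if_neg fun h1 => hm ?_
    rw [Finset.mem_image]
    refine ⟨Finsupp.equivFunOnFinite.symm m, ?_, rfl⟩
    rw [Finset.mem_finsuppAntidiag]
    exact ⟨h1, Finset.subset_univ _⟩

/-- the local factor at one vertex -/
theorem vertex_identity {p : ℕ} (hp : p.Prime) {c : ℝ} (hc : 0 ≤ c) (n : ℕ) :
    ENNReal.ofReal (uu c p 0 * cc c p n * (p : ℝ) ^ (-((n : ℝ) / 2))) =
    ∑' g : ℕ, ENNReal.ofReal (Dc c (g + n)) * ENNReal.ofReal (Dc c g) *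
      ENNReal.ofReal ((p : ℝ) ^ (-(1 / 2 : ℝ))) ^ (2 * g + n) := by
  have hp2 : 2 ≤ p := hp.two_le
  have hp0 : (0 : ℝ) < p := by exact_mod_cast hp.pos
  have hy0 : 0 ≤ (p : ℝ) ^ (-(1 / 2 : ℝ)) := Real.rpow_nonneg hp0.le _
  have hy2 : ∀ g : ℕ, ((p : ℝ) ^ (-(1 / 2 : ℝ))) ^ (2 * g + n) =
      1 / (p : ℝ) ^ g * (p : ℝ) ^ (-((n : ℝ) / 2)) := by
    intro g
    rw [← Real.rpow_natCast, ← Real.rpow_mul hp0.le, one_div ((p : ℝ) ^ g),
      ← Real.rpow_natCast (p : ℝ) g, ← Real.rpow_neg hp0.le, ← Real.rpow_add hp0]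
    congr 1
    push_cast
    ring
  have htsum : ∑' g : ℕ, Dc c (g + n) * Dc c g / (p : ℝ) ^ g = uu c p 0 * cc c p n := by
    rw [cc, mul_div_cancel₀ _ (uu_zero_pos hc hp2).ne']
    rfl
  have h1 : ∀ g : ℕ, ENNReal.ofReal (Dc c (g + n)) * ENNReal.ofReal (Dc c g) *
      ENNReal.ofReal ((p : ℝ) ^ (-(1 / 2 : ℝ))) ^ (2 * g + n) =
      ENNReal.ofReal (Dc c (g + n) * Dc c g / (p : ℝ) ^ g * (p : ℝ) ^ (-((n : ℝ) / 2))) := by
    intro g
    rw [← ENNReal.ofReal_pow hy0, ← ENNReal.ofReal_mul (Dc_nonneg hc _),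
      ← ENNReal.ofReal_mul (mul_nonneg (Dc_nonneg hc _) (Dc_nonneg hc _)), hy2]
    congr 1
    ring
  simp_rw [h1]
  rw [← ENNReal.ofReal_tsum_of_nonneg, tsum_mul_right, htsum]
  · intro g
    have := term_nonneg hc p n g
    positivity
  · exact (uu_summable' hc hp2 n).mul_right _

/-- sums over integer vectors with sum zero as a sum of squares of coefficients -/
theorem local_identity {r : ℕ} (c : Fin r → ℝ) (hc : ∀ i, 0 ≤ c i) {p : ℕ} (hp : p.Prime) :
    (∑' j : JZ r, (∏ i, cc (c i) p (j.1 i).natAbs) * (p : ℝ) ^ (-((∑ i, |(j.1 i : ℝ)|) / 2))) *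
      ∏ i, uu (c i) p 0 = uu (∑ i, c i) p 0 := by
  have hp2 : 2 ≤ p := hp.two_le
  have hp0 : (0 : ℝ) < p := by exact_mod_cast hp.pos
  have hy0 : 0 ≤ (p : ℝ) ^ (-(1 / 2 : ℝ)) := Real.rpow_nonneg hp0.le _
  have hmain := main_identity (fun i n => ENNReal.ofReal (Dc (c i) n))
    (ENNReal.ofReal ((p : ℝ) ^ (-(1 / 2 : ℝ))))
  have hu : ∀ i, 0 ≤ uu (c i) p 0 := fun i => uu_nonneg (hc i) p 0
  have hv : ∀ i n, 0 ≤ cc (c i) p n := fun i n => cc_nonneg' (hc i) p n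
  have hL : ∀ j : JZ r, ENNReal.ofReal ((∏ i, cc (c i) p (j.1 i).natAbs) *
      (p : ℝ) ^ (-((∑ i, |(j.1 i : ℝ)|) / 2)) * ∏ i, uu (c i) p 0) =
      ∏ i, (∑' g : ℕ, ENNReal.ofReal (Dc (c i) (g + (j.1 i).natAbs)) * ENNReal.ofReal (Dc (c i) g) *
        ENNReal.ofReal ((p : ℝ) ^ (-(1 / 2 : ℝ))) ^ (2 * g + (j.1 i).natAbs)) := by
    intro j
    simp_rw [← vertex_identity hp (hc _)]
    rw [← ENNReal.ofReal_prod_of_nonneg (fun i _ => mul_nonneg (mul_nonneg (hu i) (hv i _))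
      (Real.rpow_nonneg hp0.le _)), Finset.prod_mul_distrib, Finset.prod_mul_distrib,
      ← Real.rpow_sum_of_pos hp0]
    congr 1
    have h1 : -((∑ i, |(j.1 i : ℝ)|) / 2) = ∑ i, -((((j.1 i).natAbs : ℕ) : ℝ) / 2) := by
      rw [Finset.sum_neg_distrib, Finset.sum_div]
      congr 1
      refine Finset.sum_congr rfl fun i _ => ?_
      rw [Nat.cast_natAbs, Int.cast_abs]
    rw [h1]
    ring
  have hs : 0 ≤ ∑ i, c i := Finset.sum_nonneg fun i _ => hc i
  have hR : ∀ N : ℕ, BB (fun i n => ENNReal.ofReal (Dc (c i) n)) N ^ 2 *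
      (ENNReal.ofReal ((p : ℝ) ^ (-(1 / 2 : ℝ))) ^ N) ^ 2 =
      ENNReal.ofReal (Dc (∑ i, c i) (N + 0) * Dc (∑ i, c i) N / (p : ℝ) ^ N) := by
    intro N
    rw [BB_eq c hc N, ← ENNReal.ofReal_pow hy0, ← ENNReal.ofReal_pow (pow_nonneg hy0 N),
      ← ENNReal.ofReal_pow (Dc_nonneg hs _), ← ENNReal.ofReal_mul (sq_nonneg _)]
    congr 1
    have h1 : (((p : ℝ) ^ (-(1 / 2 : ℝ))) ^ N) ^ 2 = 1 / (p : ℝ) ^ N := by
      rw [← pow_mul, ← Real.rpow_natCast, ← Real.rpow_mul hp0.le, one_div ((p : ℝ) ^ N),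
        ← Real.rpow_natCast (p : ℝ) N, ← Real.rpow_neg hp0.le]
      congr 1
      push_cast
      ring
    rw [h1, Nat.add_zero]
    ring
  rw [tsum_congr fun j => (hL j).symm, tsum_congr hR] at hmain
  have h1 := congrArg ENNReal.toReal hmain
  rw [ENNReal.tsum_toReal_eq (fun _ => ENNReal.ofReal_ne_top),
    ENNReal.tsum_toReal_eq (fun _ => ENNReal.ofReal_ne_top)] at h1
  rw [← tsum_mul_right]
  refine Eq.trans ?_ (h1.trans ?_)
  · refine tsum_congr fun j => ?_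
    rw [ENNReal.toReal_ofReal]
    exact mul_nonneg (mul_nonneg (Finset.prod_nonneg fun i _ => hv _ _) (Real.rpow_nonneg hp0.le _))
      (Finset.prod_nonneg fun i _ => hu _)
  · rw [uu]
    refine tsum_congr fun N => ?_
    rw [ENNReal.toReal_ofReal (term_nonneg hs p 0 N)]

theorem AA_eq (c : ℝ) : AA c = Real.exp (∑' p : Nat.Primes, lA c (p : ℕ)) := rfl

theorem AA_pos (c : ℝ) : 0 < AA c := Real.exp_pos _

theorem uu_one {p : ℕ} (hp : 2 ≤ p) : uu 1 p 0 = (1 - 1 / (p : ℝ))⁻¹ := by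
  have h : (2 : ℝ) ≤ p := by exact_mod_cast hp
  rw [uu, ← tsum_geometric_of_lt_one (r := 1 / (p : ℝ)) (by positivity)
    (by rw [div_lt_one (by linarith)]; linarith)]
  refine tsum_congr fun g => ?_
  rw [Dc_one_left, Dc_one_left, one_div_pow, one_mul]

theorem AA_one : AA 1 = 1 := by
  have : ∀ p : Nat.Primes, lA 1 (p : ℕ) = 0 := by
    intro p
    rw [lA, uu_one p.2.two_le, Real.log_inv]
    ring
  rw [AA_eq, tsum_congr this, tsum_zero, Real.exp_zero]

theorem one_sub_pos {p : ℕ} (hp : 2 ≤ p) : 0 < 1 - 1 / (p : ℝ) := by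
  have h : (2 : ℝ) ≤ p := by exact_mod_cast hp
  rw [sub_pos, div_lt_one (by linarith)]
  linarith

theorem AA_hasProd (k : ℕ) : HasProd (fun p : Nat.Primes => (1 - 1 / ((p : ℕ) : ℝ)) ^ (k ^ 2) *
    ∑' m : ℕ, ((m + k - 1).choose m : ℝ) ^ 2 / ((p : ℕ) : ℝ) ^ m) (AA k) := by
  have h1 := (lA_summable (c := (k : ℝ)) (Nat.cast_nonneg k)).hasSum.rexp
  have h2 : (fun p : Nat.Primes => (1 - 1 / ((p : ℕ) : ℝ)) ^ (k ^ 2) *
      ∑' m : ℕ, ((m + k - 1).choose m : ℝ) ^ 2 / ((p : ℕ) : ℝ) ^ m) =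
      Real.exp ∘ fun p : Nat.Primes => lA (k : ℝ) (p : ℕ) := by
    funext p
    have hq := one_sub_pos p.2.two_le
    have e1 : ∑' m : ℕ, ((m + k - 1).choose m : ℝ) ^ 2 / ((p : ℕ) : ℝ) ^ m =
        uu (k : ℝ) (p : ℕ) 0 := by
      rw [uu]
      refine tsum_congr fun m => ?_
      rw [Nat.add_zero, Dc_natCast]
      ring
    rw [e1, Function.comp_apply, lA, Real.exp_add,
      Real.exp_log (uu_zero_pos (Nat.cast_nonneg k) p.2.two_le), mul_comm]
    congr 1
    have e2 : ((k : ℝ)) ^ 2 * Real.log (1 - 1 / ((p : ℕ) : ℝ)) =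
        ((k ^ 2 : ℕ) : ℝ) * Real.log (1 - 1 / ((p : ℕ) : ℝ)) := by push_cast; ring
    rw [e2, Real.exp_nat_mul, Real.exp_log hq]
  rw [h2]
  exact h1

/-- sum over the edges of the complete graph -/
theorem sum_edges {r : ℕ} (c : Fin r → ℝ) :
    ∑ e : Ed r, 2 * c e.1.1 * c e.1.2 = (∑ i, c i) ^ 2 - ∑ i, c i ^ 2 := by
  have h1 : ∑ e : Ed r, 2 * c e.1.1 * c e.1.2 =
      ∑ q ∈ (Finset.univ : Finset (Fin r × Fin r)).filter (fun q => q.1 < q.2),
        2 * c q.1 * c q.2 := by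
    rw [Finset.sum_subtype (p := fun q : Fin r × Fin r => q.1 < q.2)
      (Finset.univ.filter (fun q : Fin r × Fin r => q.1 < q.2)) (fun q => by simp)
      (fun q => 2 * c q.1 * c q.2)]
  have h2 : ∑ q ∈ (Finset.univ : Finset (Fin r × Fin r)).filter (fun q => q.1 < q.2),
      c q.1 * c q.2 =
      ∑ q ∈ (Finset.univ : Finset (Fin r × Fin r)).filter (fun q => q.2 < q.1),
        c q.1 * c q.2 := by
    refine Finset.sum_bij (fun q _ => (q.2, q.1)) ?_ ?_ ?_ ?_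
    · intro q hq; simpa using hq
    · rintro ⟨a, b⟩ _ ⟨a', b'⟩ _ h
      simp only [Prod.mk.injEq] at h ⊢
      exact ⟨h.2, h.1⟩
    · rintro ⟨a, b⟩ hq
      exact ⟨(b, a), by simpa using hq, rfl⟩
    · intro q _; ring
  have h3 : (∑ i, c i) ^ 2 = ∑ q : Fin r × Fin r, c q.1 * c q.2 := by
    rw [sq, Finset.sum_mul_sum, Fintype.sum_prod_type]
  have h4 : ∑ q : Fin r × Fin r, c q.1 * c q.2 =
      ∑ q ∈ (Finset.univ : Finset (Fin r × Fin r)).filter (fun q => q.1 < q.2), c q.1 * c q.2 +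
      (∑ q ∈ (Finset.univ : Finset (Fin r × Fin r)).filter (fun q => q.2 < q.1), c q.1 * c q.2 +
      ∑ i, c i ^ 2) := by
    rw [← Finset.sum_filter_add_sum_filter_not Finset.univ (fun q : Fin r × Fin r => q.1 < q.2)]
    congr 1
    rw [← Finset.sum_filter_add_sum_filter_not
      (Finset.univ.filter (fun q : Fin r × Fin r => ¬ q.1 < q.2)) (fun q => q.2 < q.1)]
    congr 1
    · refine Finset.sum_congr ?_ fun _ _ => rfl
      ext q
      simp only [Finset.mem_filter, Finset.mem_univ, true_and]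
      constructor
      · exact fun h => h.2
      · exact fun h => ⟨h.le.not_gt, h⟩
    · refine Finset.sum_bij' (fun q _ => q.1) (fun i _ => (i, i)) ?_ ?_ ?_ ?_ ?_
      · intro q _; simp
      · intro i _; simp
      · rintro ⟨a, b⟩ hq
        simp only [Finset.mem_filter, Finset.mem_univ, true_and, not_lt] at hq
        have : a = b := le_antisymm hq.2 hq.1
        simp [this]
      · intro i _; rfl
      · rintro ⟨a, b⟩ hq
        simp only [Finset.mem_filter, Finset.mem_univ, true_and, not_lt] at hq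
        have : a = b := le_antisymm hq.2 hq.1
        rw [this]; ring
  rw [h1, h3, h4, ← h2]
  have h5 : ∑ q ∈ (Finset.univ : Finset (Fin r × Fin r)).filter (fun q => q.1 < q.2),
      2 * c q.1 * c q.2 =
      2 * ∑ q ∈ (Finset.univ : Finset (Fin r × Fin r)).filter (fun q => q.1 < q.2),
        c q.1 * c q.2 := by
    rw [Finset.mul_sum]
    exact Finset.sum_congr rfl fun q _ => by ring
  rw [h5]
  ring

/-- the arithmetic constant of a tuple of exponents -/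
theorem AR_eq {r : ℕ} (c : Fin r → ℝ) (hc : ∀ i, 0 ≤ c i) :
    Real.exp (∑' p : Nat.Primes, (Real.log (∑' j : JZ r, (∏ i, cc (c i) (p : ℕ) (j.1 i).natAbs) *
        ((p : ℕ) : ℝ) ^ (-((∑ i, |(j.1 i : ℝ)|) / 2))) +
      (∑ e : Ed r, 2 * c e.1.1 * c e.1.2) * Real.log (1 - 1 / ((p : ℕ) : ℝ)))) =
      AA (∑ i, c i) / ∏ i, AA (c i) := by
  have hs : 0 ≤ ∑ i, c i := Finset.sum_nonneg fun i _ => hc i
  have h1 : ∀ p : Nat.Primes, Real.log (∑' j : JZ r,
        (∏ i, cc (c i) (p : ℕ) (j.1 i).natAbs) *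
        ((p : ℕ) : ℝ) ^ (-((∑ i, |(j.1 i : ℝ)|) / 2))) +
      (∑ e : Ed r, 2 * c e.1.1 * c e.1.2) * Real.log (1 - 1 / ((p : ℕ) : ℝ)) =
      lA (∑ i, c i) (p : ℕ) - ∑ i, lA (c i) (p : ℕ) := by
    intro p
    have hloc := local_identity c hc p.2
    set F := ∑' j : JZ r, (∏ i, cc (c i) (p : ℕ) (j.1 i).natAbs) *
        ((p : ℕ) : ℝ) ^ (-((∑ i, |(j.1 i : ℝ)|) / 2)) with hF
    have hpr : 0 < ∏ i, uu (c i) (p : ℕ) 0 :=
      Finset.prod_pos fun i _ => uu_zero_pos (hc i) p.2.two_le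
    have hU := uu_zero_pos hs p.2.two_le
    have hFp : 0 < F := by
      rcases lt_trichotomy F 0 with h | h | h
      · nlinarith [mul_neg_of_neg_of_pos h hpr]
      · rw [h, zero_mul] at hloc
        linarith
      · exact h
    have e1 : Real.log F = Real.log (uu (∑ i, c i) (p : ℕ) 0) - ∑ i, Real.log (uu (c i) (p : ℕ) 0) := by
      rw [← hloc, Real.log_mul hFp.ne' hpr.ne', Real.log_prod (fun i _ =>
        (uu_zero_pos (hc i) p.2.two_le).ne')]
      ring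
    rw [e1, sum_edges]
    unfold lA
    rw [Finset.sum_add_distrib, ← Finset.sum_mul]
    ring
  rw [tsum_congr h1, AA_eq]
  have hsum : Summable fun p : Nat.Primes => ∑ i, lA (c i) (p : ℕ) :=
    summable_sum fun i _ => lA_summable (hc i)
  rw [(lA_summable hs).tsum_sub hsum, Real.exp_sub]
  congr 1
  rw [Summable.tsum_finsetSum (fun i _ => lA_summable (hc i)), Real.exp_sum]
  rfl

theorem AA_natCast (k : ℕ) : AA k = Pool.Agent.EvenMoment.ar k :=
  (AA_hasProd k).unique (Pool.Agent.ZetaMoment.aG_hasProd k)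

theorem AA_nat {k : ℕ} (_ : 0 < k) : AA (k : ℝ) = Pool.Agent.EvenMoment.ar k := AA_natCast k

theorem AR_pw {r : ℕ} (c : Fin r → ℝ) (hc : ∀ i, 0 < c i) :
    AR (fun i => pw (c i) (hc i)) = AA (∑ i, c i) / ∏ i, AA (c i) :=
  AR_eq c fun i => (hc i).le

end Pool.Agent.GenMoment
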