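import Mathlib
import Pool.Agent.Lib_MP_112ba8_g.DefsB
import Pool.Agent.Lib_MP_112ba8_s.QBasic
import Pool.Agent.Lib_MP_112ba8_s.Real

/-!
Piece REAL: elementary properties of the coefficients and of the polynomials.

`vw_growth`: with `v.c p n ≤ K (5/4)^n`, `1 ≤ K ≤ 2^A`, one has `v.c p n ≤ 2^((A+1) n) ≤ p^((A+1) n)`
for `n ≥ 1` (and `= 1` for `n = 0`), so `vw v q ≤ exp ((A+1) ln q)`.
`PP_real`: substitute `q -> -q` (`ln_neg`, `osc_conj`, see `Lib_MP_112ba8_s/Real.lean`,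
`c4_real`, `c4_sum_neg`).
-/

namespace Pool.Agent.GenMoment

open Filter Topology MeasureTheory
open Pool.Agent.EvenMoment (cl Wgt Adm Ed cut hat)
open Pool.Agent.SixthMoment (QQ ln fr osc QS TT ob sepa oy xe JZ fc chi)

theorem vw_zero (v : VT) : vw v 0 = 1 := by
  unfold vw
  exact Finsupp.prod_zero_index

theorem vw_neg (v : VT) (q : QQ) : vw v (-q) = vw v q := by
  unfold vw
  rw [Finsupp.prod_neg_index]
  · simp only [Int.natAbs_neg]
  · intro p
    exact v.zero_eq p p.2.two_le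

private theorem Real_vw_nonneg (v : VT) (q : QQ) : 0 ≤ vw v q :=
  Finset.prod_nonneg fun p _ => v.nonneg p p.2.two_le _

theorem vw_growth (v : VT) : ∃ C : ℝ, 0 ≤ C ∧ ∀ q : QQ, vw v q ≤ Real.exp (C * ln q) := by
  obtain ⟨K, hK, hb⟩ := v.bound
  obtain ⟨A, hA⟩ := pow_unbounded_of_one_lt K (one_lt_two : (1 : ℝ) < 2)
  refine ⟨(A : ℝ) + 1, by positivity, fun q => ?_⟩
  have hfac : ∀ p ∈ q.support, v.c (p : ℕ) (q p).natAbs ≤
      Real.exp (((A : ℝ) + 1) * (|((q p : ℤ) : ℝ)| * Real.log ((p : ℕ) : ℝ))) := by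
    intro p hp
    have hp2 := p.2.two_le
    have hq0 : q p ≠ 0 := Finsupp.mem_support_iff.mp hp
    set n : ℕ := (q p).natAbs with hn
    have hn1 : 1 ≤ n := Int.natAbs_pos.mpr hq0
    have hnabs : |((q p : ℤ) : ℝ)| = (n : ℝ) := by
      rw [hn, Nat.cast_natAbs, Int.cast_abs]
    have h1 := (hb p hp2).1 n
    have h2 : K * (5 / 4 : ℝ) ^ n ≤ 2 ^ A * 2 ^ n :=
      mul_le_mul hA.le (pow_le_pow_left₀ (by norm_num) (by norm_num) n) (by positivity)
        (by positivity)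
    have h3 : (2 : ℝ) ^ A * 2 ^ n ≤ 2 ^ ((A + 1) * n) := by
      rw [← pow_add]
      refine pow_le_pow_right₀ (by norm_num) ?_
      nlinarith
    have hlog : Real.log 2 ≤ Real.log ((p : ℕ) : ℝ) :=
      Real.log_le_log (by norm_num) (by exact_mod_cast hp2)
    have h4 : (2 : ℝ) ^ ((A + 1) * n) ≤
        Real.exp (((A : ℝ) + 1) * (|((q p : ℤ) : ℝ)| * Real.log ((p : ℕ) : ℝ))) := by
      rw [hnabs]
      have h5 : (2 : ℝ) ^ ((A + 1) * n) = Real.exp ((((A + 1) * n : ℕ) : ℝ) * Real.log 2) := by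
        rw [Real.exp_nat_mul, Real.exp_log (by norm_num)]
      rw [h5, Real.exp_le_exp]
      push_cast
      have h6 : (0 : ℝ) ≤ ((A : ℝ) + 1) * n := by positivity
      calc ((A : ℝ) + 1) * n * Real.log 2 ≤ ((A : ℝ) + 1) * n * Real.log ((p : ℕ) : ℝ) :=
            mul_le_mul_of_nonneg_left hlog h6
        _ = ((A : ℝ) + 1) * (n * Real.log ((p : ℕ) : ℝ)) := by ring
    exact h1.trans (h2.trans (h3.trans h4))
  calc vw v q ≤ ∏ p ∈ q.support,
        Real.exp (((A : ℝ) + 1) * (|((q p : ℤ) : ℝ)| * Real.log ((p : ℕ) : ℝ))) :=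
        Finset.prod_le_prod (fun p _ => v.nonneg p p.2.two_le _) hfac
    _ = Real.exp (((A : ℝ) + 1) * ln q) := by
        rw [← Real.exp_sum, ← Finset.mul_sum]
        rfl

theorem vw_pn_one (q : QQ) : vw (pn 1) q = 1 := by
  unfold vw
  refine Finset.prod_eq_one fun p _ => ?_
  show cc (max 1 ((1 : ℕ) : ℝ)) (p : ℕ) (q p).natAbs = 1
  have h1 : max 1 ((1 : ℕ) : ℝ) = 1 := by simp
  rw [h1]
  have h2 : ∀ j, uu 1 (p : ℕ) j = uu 1 (p : ℕ) 0 := by
    intro j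
    unfold uu
    simp only [Dc_one_left]
  unfold cc
  rw [h2]
  have h3 := one_le_uu one_pos p.2.two_le
  exact div_self (by linarith)

theorem PC_nonneg (v : VT) {ω : ℝ → ℝ} (hω : ∀ s, 0 ≤ ω s) (L : ℝ) (q : QQ) : 0 ≤ PC v ω L q :=
  mul_nonneg (Real_vw_nonneg v q) (mul_nonneg (hω _) (Real.exp_pos _).le)

theorem PC_neg (v : VT) (ω : ℝ → ℝ) (L : ℝ) (q : QQ) : PC v ω L (-q) = PC v ω L q := by
  unfold PC
  rw [vw_neg, SixthMoment.ln_neg]

theorem PP_real (v : VT) (ω : ℝ → ℝ) (θ L t : ℝ) : (PP v ω θ L t).im = 0 := by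
  unfold PP
  exact SixthMoment.c4_real _ _ (PC_neg v ω L) t

theorem PP_cont (v : VT) (ω : ℝ → ℝ) (θ L : ℝ) : Continuous (PP v ω θ L) := by
  unfold PP
  exact continuous_finsetSum _ fun q _ => continuous_const.mul (SixthMoment.osc_cont q)

end Pool.Agent.GenMoment
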