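import Mathlib
import Pool.Agent.Lib_MP_112ba8_g.DefsB
import Pool.Agent.Lib_MP_112ba8_g.Real

/-!
Piece SUMT: finite sums over tuples of fractions as the discrete functional `DS`
(adapt `Lib_MP_112ba8_s/SumP.lean`: there `n = 4`).

`sum_zero`: `DS h (SI n) (G0 ω) L` is a tsum over `TT n = {f // ∑ i, f i = 0}`; terms with some
`f i ∉ QS (θ i * L)` vanish because `ω i (ln (f i) / L) = 0` (`Adm.supp`); `ob (SI n) f i = ln (f i)`;
`exp (-(∑ ln)/2) = ∏ exp (-ln/2)`.
`sum_cons`: the bijection `(v : Fin n -> QQ) <-> TT (n+1)`, `v ↦ (-∑ v, v)`; `vw (pn 1) = 1`.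
-/

namespace Pool.Agent.GenMoment

open Filter Topology MeasureTheory
open Pool.Agent.EvenMoment (cl Wgt Adm Ed cut hat)
open Pool.Agent.SixthMoment (QQ ln fr osc QS TT ob sepa oy xe JZ fc chi)

theorem sumt_ln_neg (q : QQ) : ln (-q) = ln q := by
  unfold ln
  rw [Finsupp.sum_neg_index (fun p => by simp)]
  refine Finsupp.sum_congr fun p _ => ?_
  rw [Int.cast_neg, abs_neg]

theorem sumt_ob {r : ℕ} (f : TT r) (κ : Fin r) : ob (SI r) f κ = ln (f.1 κ) := by
  unfold ob SI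
  rw [Finset.sum_singleton]

theorem sumt_exp {n : ℕ} (a : Fin n → ℝ) :
    Real.exp (-((∑ i, a i) / 2)) = ∏ i, Real.exp (-(a i / 2)) := by
  rw [← Real.exp_sum, Finset.sum_neg_distrib, Finset.sum_div]

theorem sumt_zero {n : ℕ} (h : Fin n → VT) {ω : Fin n → ℝ → ℝ} {θ : Fin n → ℝ} {L : ℝ}
    (hω : ∀ i, Adm (ω i) (θ i)) (hL : 0 < L) {v : Fin n → QQ}
    (hv : v ∉ Fintype.piFinset (fun i => QS (θ i * L))) :
    ∏ i, PC (h i) (ω i) L (v i) = 0 := by
  rw [Fintype.mem_piFinset] at hv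
  push Not at hv
  obtain ⟨i, hi⟩ := hv
  rw [Pool.Agent.SixthMoment.mem_QS, not_le] at hi
  refine Finset.prod_eq_zero (Finset.mem_univ i) ?_
  unfold PC
  rw [(hω i).supp _ ((le_div_iff₀ hL).2 hi.le), zero_mul, mul_zero]

theorem sum_zero {n : ℕ} (h : Fin n → VT) {ω : Fin n → ℝ → ℝ} {θ : Fin n → ℝ} {L : ℝ}
    (hω : ∀ i, Adm (ω i) (θ i)) (hL : 0 < L) :
    ∑ v ∈ (Fintype.piFinset fun i => QS (θ i * L)).filter (fun v => ∑ i, v i = 0),
      ∏ i, PC (h i) (ω i) L (v i) = DS h (SI n) (G0 ω) L := by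
  classical
  have hterm : ∀ f : TT n, wt h f * G0 ω (fun κ => ob (SI n) f κ / L) =
      ∏ i, PC (h i) (ω i) L (f.1 i) := by
    intro f
    unfold wt G0 PC
    simp only [sumt_ob]
    rw [sumt_exp, ← Finset.prod_mul_distrib, ← Finset.prod_mul_distrib]
    refine Finset.prod_congr rfl fun i _ => ?_
    ring
  unfold DS
  rw [tsum_congr hterm]
  have h1 := tsum_subtype {f : Fin n → QQ | ∑ i, f i = 0} (fun v => ∏ i, PC (h i) (ω i) L (v i))
  refine Eq.trans ?_ h1.symm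
  rw [Finset.sum_filter]
  symm
  rw [tsum_eq_sum (s := Fintype.piFinset fun i => QS (θ i * L))]
  · refine Finset.sum_congr rfl fun v _ => ?_
    rw [Set.indicator_apply]
    rfl
  · intro v hv
    rw [Set.indicator_apply]
    split_ifs
    · exact sumt_zero h hω hL hv
    · rfl

/-- tuples are longer tuples with sum zero -/
noncomputable def sumt_equiv (n : ℕ) : (Fin n → QQ) ≃ TT (n + 1) where
  toFun v := ⟨Fin.cons (-∑ i, v i) v, by
    rw [Fin.sum_univ_succ]
    simp only [Fin.cons_zero, Fin.cons_succ]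
    exact neg_add_cancel _⟩
  invFun f := fun i => f.1 i.succ
  left_inv v := by
    funext i
    rfl
  right_inv f := by
    refine Subtype.ext (funext fun i => ?_)
    refine Fin.cases ?_ (fun j => ?_) i
    · have h := f.2
      rw [Fin.sum_univ_succ] at h
      change -∑ i : Fin n, f.1 i.succ = f.1 0
      exact (eq_neg_of_add_eq_zero_left h).symm
    · rfl

theorem sum_cons {n : ℕ} (h : Fin n → VT) {ω : Fin n → ℝ → ℝ} {θ : Fin n → ℝ} {L : ℝ}
    {φ : ℝ → ℝ} (hω : ∀ i, Adm (ω i) (θ i)) (hL : 0 < L) :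
    ∑ v ∈ Fintype.piFinset (fun i => QS (θ i * L)), (∏ i, PC (h i) (ω i) L (v i)) *
      (Real.exp (-(ln (∑ i, v i) / 2)) * φ (ln (∑ i, v i) / L)) =
      DS (hX h) (SI (n + 1)) (GX φ ω) L := by
  have hterm : ∀ v : Fin n → QQ, wt (hX h) (sumt_equiv n v) *
      GX φ ω (fun κ => ob (SI (n + 1)) (sumt_equiv n v) κ / L) =
      (∏ i, PC (h i) (ω i) L (v i)) *
      (Real.exp (-(ln (∑ i, v i) / 2)) * φ (ln (∑ i, v i) / L)) := by
    intro v
    have h0 : (sumt_equiv n v).1 0 = -∑ i, v i := rfl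
    have hs : ∀ i : Fin n, (sumt_equiv n v).1 i.succ = v i := fun i => rfl
    have hX0 : hX h 0 = pn 1 := rfl
    have hXs : ∀ i : Fin n, hX h i.succ = h i := fun i => rfl
    unfold wt GX PC
    simp only [sumt_ob]
    rw [Fin.prod_univ_succ, Fin.sum_univ_succ]
    simp only [h0, hs, hX0, hXs]
    rw [vw_pn_one, one_mul, sumt_ln_neg]
    have he : Real.exp (-((ln (∑ i, v i) + ∑ i, ln (v i)) / 2)) =
        Real.exp (-(ln (∑ i, v i) / 2)) * ∏ i, Real.exp (-(ln (v i) / 2)) := by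
      rw [← sumt_exp, ← Real.exp_add]
      congr 1
      ring
    rw [he, Finset.prod_mul_distrib, Finset.prod_mul_distrib]
    ring
  unfold DS
  rw [← (sumt_equiv n).tsum_eq]
  rw [tsum_congr hterm]
  symm
  refine tsum_eq_sum fun v hv => ?_
  rw [sumt_zero h hω hL hv, zero_mul]

end Pool.Agent.GenMoment
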