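import Mathlib
import Pool.Agent.Lib_MP_112ba8_g.DefsB
import Pool.Agent.Lib_MP_112ba8_g.Real
import Pool.Agent.Lib_MP_112ba8_g.SumT
import Pool.Agent.Lib_MP_112ba8_g.DSlim
import Pool.Agent.Lib_MP_112ba8_s.Osc
import Pool.Agent.Lib_MP_112ba8_e.Mixed

/-!
Piece MEANZERO: mean value of a product of radial polynomials.

Expand the product over `v ∈ Fintype.piFinset (fun i => QS (θ i * L))` (`Finset.prod_univ_sum`,
`PP_real`, `osc_add`, see `v4_pow`, `v4_expand` in `Lib_MP_112ba8_s/MeanV.lean`).  The tuples with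
`∑ v i = 0` give `(∫ w) * DS h (SI n) (G0 ω) L` (`osc_one`, `sum_zero`); for the others
`ln (∑ v i) ≤ (∑ θ i) L = (2 - ε) L` and `osc_small` with a large exponent `A`: the number of
tuples is `≤ ∏ exp (2 θ i L)` (`card_QS_le`) and every coefficient is `≤ W exp (C θ i L)`
(`vw_growth`, `ω i` is bounded on `[0, θ i]` by continuity), so the total error is `≤ C / T`.
Then divide by `L ^ kk h` and use `DS_tendsto` (`B = max θ i`; every edge is separated by a
one-element set) composed with `Real.tendsto_log_atTop`.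
-/

namespace Pool.Agent.GenMoment

open Filter Topology MeasureTheory
open Pool.Agent.EvenMoment (cl Wgt Adm Ed cut hat)
open Pool.Agent.SixthMoment (QQ ln fr osc QS TT ob sepa oy xe JZ fc chi)

/-- one-element sets separate all edges -/
theorem sepa_SI {r : ℕ} (e : Ed r) : ∃ κ, sepa (SI r κ) e := by
  refine ⟨e.1.1, ?_⟩
  unfold sepa SI
  have h := e.2
  intro h1
  have h2 : e.1.1 ∈ ({e.1.1} : Finset (Fin r)) := Finset.mem_singleton_self _
  have h3 := Finset.mem_singleton.mp (h1.mp h2)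
  exact absurd h3.symm (ne_of_lt h)

theorem mz_osc_sum {n : ℕ} (v : Fin n → QQ) (t : ℝ) : ∏ i, osc (v i) t = osc (∑ i, v i) t := by
  classical
  have h : ∀ s : Finset (Fin n), ∏ i ∈ s, osc (v i) t = osc (∑ i ∈ s, v i) t := by
    intro s
    induction s using Finset.induction_on with
    | empty => simp [Pool.Agent.SixthMoment.osc_zero]
    | insert a s ha ih =>
      rw [Finset.prod_insert ha, Finset.sum_insert ha, ih, Pool.Agent.SixthMoment.osc_add]
  exact h Finset.univ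

theorem mz_ln_sum_le {n : ℕ} (v : Fin n → QQ) : ln (∑ i, v i) ≤ ∑ i, ln (v i) := by
  classical
  have h : ∀ s : Finset (Fin n), ln (∑ i ∈ s, v i) ≤ ∑ i ∈ s, ln (v i) := by
    intro s
    induction s using Finset.induction_on with
    | empty => simp [Pool.Agent.SixthMoment.ln_zero]
    | insert a s ha ih =>
      rw [Finset.sum_insert ha, Finset.sum_insert ha]
      exact (Pool.Agent.SixthMoment.ln_add_le _ _).trans (by linarith)
  exact h Finset.univ

theorem mz_ln_le {n : ℕ} {θ : Fin n → ℝ} {L : ℝ} {v : Fin n → QQ}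
    (hv : v ∈ Fintype.piFinset fun i => QS (θ i * L)) : ln (∑ i, v i) ≤ (∑ i, θ i) * L := by
  rw [Fintype.mem_piFinset] at hv
  refine (mz_ln_sum_le v).trans ?_
  rw [Finset.sum_mul]
  exact Finset.sum_le_sum fun i _ => Pool.Agent.SixthMoment.mem_QS.mp (hv i)

/-- the product of the polynomials -/
theorem mz_prod {n : ℕ} (h : Fin n → VT) (ω : Fin n → ℝ → ℝ) (θ : Fin n → ℝ) (L t : ℝ) :
    ((∏ i, (PP (h i) (ω i) (θ i) L t).re : ℝ) : ℂ) =
      ∑ v ∈ Fintype.piFinset (fun i => QS (θ i * L)),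
        ((∏ i, PC (h i) (ω i) L (v i) : ℝ) : ℂ) * osc (∑ i, v i) t := by
  have h1 : ∀ i, (((PP (h i) (ω i) (θ i) L t).re : ℝ) : ℂ) = PP (h i) (ω i) (θ i) L t := by
    intro i
    apply Complex.ext
    · simp
    · simp [PP_real]
  rw [Complex.ofReal_prod, Finset.prod_congr rfl fun i _ => h1 i]
  unfold PP
  rw [Finset.prod_univ_sum]
  refine Finset.sum_congr rfl fun v _ => ?_
  rw [Finset.prod_mul_distrib, mz_osc_sum, Complex.ofReal_prod]

/-- integrability of the oscillating terms -/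
theorem mz_int {w : ℝ → ℝ} (hw : Wgt w) {T : ℝ} (hT : 0 < T) (q : QQ) :
    Integrable fun t : ℝ => (w (t / T) : ℂ) * osc q t := by
  have hwc : Continuous w := hw.smooth.continuous
  have hcont : Continuous fun t : ℝ => (w (t / T) : ℂ) * osc q t :=
    (Complex.continuous_ofReal.comp (hwc.comp (by fun_prop))).mul
      (Pool.Agent.SixthMoment.osc_cont q)
  refine hcont.integrable_of_hasCompactSupport ?_
  obtain ⟨a, ha0, ha1, ha⟩ := hw.supp
  refine HasCompactSupport.intro (isCompact_Icc : IsCompact (Set.Icc (0 : ℝ) T)) ?_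
  intro t ht
  have h1 : w (t / T) = 0 := by
    apply ha
    rw [Set.mem_Icc, not_and_or, not_le, not_le] at ht
    rcases ht with h | h
    · left
      exact (div_neg_of_neg_of_pos h hT).trans ha0
    · right
      rw [lt_div_iff₀ hT, one_mul]
      exact h
  rw [h1]
  simp

theorem mz_expand {w : ℝ → ℝ} (hw : Wgt w) {T : ℝ} (hT : 0 < T) {n : ℕ} (h : Fin n → VT)
    (ω : Fin n → ℝ → ℝ) (θ : Fin n → ℝ) (L : ℝ) :
    (((1 / T) * (∫ t : ℝ, w (t / T) * ∏ i, (PP (h i) (ω i) (θ i) L t).re) : ℝ) : ℂ) =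
      ∑ v ∈ Fintype.piFinset (fun i => QS (θ i * L)),
        ((∏ i, PC (h i) (ω i) L (v i) : ℝ) : ℂ) *
        ((1 / T : ℂ) * ∫ t : ℝ, (w (t / T) : ℂ) * osc (∑ i, v i) t) := by
  have h1 : ∀ t : ℝ, ((w (t / T) * ∏ i, (PP (h i) (ω i) (θ i) L t).re : ℝ) : ℂ) =
      ∑ v ∈ Fintype.piFinset (fun i => QS (θ i * L)),
        ((∏ i, PC (h i) (ω i) L (v i) : ℝ) : ℂ) * ((w (t / T) : ℂ) * osc (∑ i, v i) t) := by
    intro t
    rw [Complex.ofReal_mul, mz_prod, Finset.mul_sum]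
    refine Finset.sum_congr rfl fun v _ => ?_
    ring
  rw [Complex.ofReal_mul, ← integral_complex_ofReal]
  simp_rw [h1]
  rw [integral_finsetSum]
  · rw [Finset.mul_sum]
    refine Finset.sum_congr rfl fun v _ => ?_
    rw [integral_const_mul]
    push_cast
    ring
  · intro v _
    exact (mz_int hw hT _).const_mul _

theorem mz_bdd {ω : ℝ → ℝ} {θ : ℝ} (hω : Adm ω θ) : ∃ W : ℝ, 1 ≤ W ∧ ∀ s, 0 ≤ s → |ω s| ≤ W := by
  obtain ⟨W, hW⟩ := (isCompact_Icc : IsCompact (Set.Icc (0 : ℝ) θ)).exists_bound_of_continuousOn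
    hω.cont.continuousOn
  refine ⟨max W 1, le_max_right _ _, fun s hs => ?_⟩
  by_cases h : s ≤ θ
  · exact (hW s ⟨hs, h⟩).trans (le_max_left _ _)
  · rw [hω.supp s (by linarith), abs_zero]
    exact zero_le_one.trans (le_max_right _ _)

/-- size of one coefficient -/
theorem mz_PC_le (v : VT) {ω : ℝ → ℝ} {θ : ℝ} (hω : Adm ω θ) (hθ : 0 < θ) :
    ∃ W : ℝ, ∃ D : ℕ, 0 < W ∧ ∀ L : ℝ, 1 ≤ L → ∀ q ∈ QS (θ * L),
      |PC v ω L q| ≤ W * Real.exp L ^ D := by
  obtain ⟨W, hW1, hW⟩ := mz_bdd hω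
  obtain ⟨C, hC0, hC⟩ := vw_growth v
  obtain ⟨D, hD⟩ := exists_nat_ge (C * θ)
  refine ⟨W, D, by linarith, fun L hL q hq => ?_⟩
  rw [Pool.Agent.SixthMoment.mem_QS] at hq
  have hln := Pool.Agent.SixthMoment.ln_nonneg q
  unfold PC
  rw [abs_mul, abs_mul, abs_of_nonneg (vw_nonneg v q), abs_of_pos (Real.exp_pos _)]
  have h1 : vw v q ≤ Real.exp L ^ D := by
    refine (hC q).trans ?_
    rw [← Real.exp_nat_mul, Real.exp_le_exp]
    nlinarith
  have h2 : |ω (ln q / L)| ≤ W := hW _ (by positivity)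
  have h3 : Real.exp (-(ln q / 2)) ≤ 1 := by
    rw [Real.exp_le_one_iff]
    linarith
  calc vw v q * (|ω (ln q / L)| * Real.exp (-(ln q / 2))) ≤ Real.exp L ^ D * (W * 1) := by
        gcongr
    _ = W * Real.exp L ^ D := by ring

/-- size of the coefficients -/
theorem mz_coef_le {n : ℕ} (h : Fin n → VT) {ω : Fin n → ℝ → ℝ} {θ : Fin n → ℝ}
    (hθ : ∀ i, 0 < θ i) (hω : ∀ i, Adm (ω i) (θ i)) :
    ∃ W : ℝ, ∃ D : ℕ, 0 < W ∧ ∀ L : ℝ, 1 ≤ L → ∀ v ∈ Fintype.piFinset (fun i => QS (θ i * L)),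
      |∏ i, PC (h i) (ω i) L (v i)| ≤ W * Real.exp L ^ D := by
  choose W D hW hWD using fun i => mz_PC_le (h i) (hω i) (hθ i)
  refine ⟨∏ i, W i, ∑ i, D i, Finset.prod_pos fun i _ => hW i, fun L hL v hv => ?_⟩
  rw [Fintype.mem_piFinset] at hv
  rw [Finset.abs_prod, ← Finset.prod_pow_eq_pow_sum, ← Finset.prod_mul_distrib]
  exact Finset.prod_le_prod (fun i _ => abs_nonneg _) fun i _ => hWD i L hL (v i) (hv i)

/-- the number of tuples -/
theorem mz_card_le {n : ℕ} {θ : Fin n → ℝ} (hθ : ∀ i, 0 < θ i) (hθ2 : ∑ i, θ i < 2) {L : ℝ}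
    (hL : 1 ≤ L) : ((Fintype.piFinset (fun i => QS (θ i * L))).card : ℝ) ≤ Real.exp L ^ 4 := by
  rw [Fintype.card_piFinset]
  push_cast
  have h1 : ∏ i, ((QS (θ i * L)).card : ℝ) ≤ ∏ i, Real.exp (2 * (θ i * L)) :=
    Finset.prod_le_prod (fun i _ => by positivity) fun i _ =>
      Pool.Agent.SixthMoment.card_QS_le (mul_nonneg (hθ i).le (by linarith))
  refine h1.trans ?_
  rw [← Real.exp_sum, ← Real.exp_nat_mul, Real.exp_le_exp, ← Finset.mul_sum, ← Finset.sum_mul]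
  push_cast
  nlinarith

/-- comparison with the discrete functional -/
theorem mz_diff {w : ℝ → ℝ} (hw : Wgt w) {n : ℕ} (h : Fin n → VT)
    {ω : Fin n → ℝ → ℝ} {θ : Fin n → ℝ} (hθ : ∀ i, 0 < θ i) (hθ2 : ∑ i, θ i < 2)
    (hω : ∀ i, Adm (ω i) (θ i)) :
    ∃ C T₀ : ℝ, 0 ≤ C ∧ Real.exp 1 ≤ T₀ ∧ ∀ T : ℝ, T₀ ≤ T →
      |(1 / T) * (∫ t : ℝ, w (t / T) * ∏ i, (PP (h i) (ω i) (θ i) (Real.log T) t).re) -
        (∫ x, w x) * DS h (SI n) (G0 ω) (Real.log T)| ≤ C / T := by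
  classical
  obtain ⟨W, D, hW, hcoef⟩ := mz_coef_le h hθ hω
  obtain ⟨C₀, T₀, hC₀, hT₀, hosc⟩ :=
    Pool.Agent.SixthMoment.osc_small hw (ε := 2 - ∑ i, θ i) (by linarith) (D + 5)
  refine ⟨W * C₀, max T₀ (Real.exp 1), by positivity, le_max_right _ _, fun T hT => ?_⟩
  have hT1 : T₀ ≤ T := (le_max_left _ _).trans hT
  have hT2 : Real.exp 1 ≤ T := (le_max_right _ _).trans hT
  have hTge : 1 ≤ T := hT₀.trans hT1
  have hTpos : 0 < T := by linarith
  set L := Real.log T with hL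
  have hL1 : 1 ≤ L := by rw [hL, Real.le_log_iff_exp_le hTpos]; exact hT2
  have hLpos : 0 < L := by linarith
  have hexpL : Real.exp L = T := Real.exp_log hTpos
  set S := Fintype.piFinset (fun i => QS (θ i * L)) with hS
  have hmain : (((∫ x, w x) * DS h (SI n) (G0 ω) L : ℝ) : ℂ) =
      ∑ v ∈ S, ((∏ i, PC (h i) (ω i) L (v i) : ℝ) : ℂ) *
        (if ∑ i, v i = 0 then ((∫ x, w x : ℝ) : ℂ) else 0) := by
    rw [← sum_zero h hω hLpos, Complex.ofReal_mul, Complex.ofReal_sum, Finset.mul_sum,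
      Finset.sum_filter]
    refine Finset.sum_congr rfl fun v _ => ?_
    split_ifs
    · ring
    · ring
  have hterm : ∀ v ∈ S, ‖((∏ i, PC (h i) (ω i) L (v i) : ℝ) : ℂ) *
        ((1 / T : ℂ) * ∫ t : ℝ, (w (t / T) : ℂ) * osc (∑ i, v i) t) -
      ((∏ i, PC (h i) (ω i) L (v i) : ℝ) : ℂ) *
        (if ∑ i, v i = 0 then ((∫ x, w x : ℝ) : ℂ) else 0)‖ ≤
      (W * T ^ D) * (C₀ / T ^ (D + 5)) := by
    intro v hv
    rw [← mul_sub, norm_mul, Complex.norm_real, Real.norm_eq_abs]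
    have h1 := hcoef L hL1 v hv
    rw [hexpL] at h1
    refine mul_le_mul h1 ?_ (norm_nonneg _) (by positivity)
    by_cases h0 : ∑ i, v i = 0
    · rw [if_pos h0, h0, Pool.Agent.SixthMoment.osc_one hw hTpos, sub_self, norm_zero]
      positivity
    · rw [if_neg h0, sub_zero]
      refine hosc T hT1 _ h0 ?_
      have := mz_ln_le hv
      rw [← hL]
      linarith
  have hdiff : ‖(((1 / T) * (∫ t : ℝ, w (t / T) * ∏ i, (PP (h i) (ω i) (θ i) L t).re) -
        (∫ x, w x) * DS h (SI n) (G0 ω) L : ℝ) : ℂ)‖ ≤ W * C₀ / T := by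
    rw [Complex.ofReal_sub, mz_expand hw hTpos, hmain, ← Finset.sum_sub_distrib]
    refine (norm_sum_le _ _).trans ?_
    refine (Finset.sum_le_card_nsmul _ _ _ hterm).trans ?_
    rw [nsmul_eq_mul]
    have hcard := mz_card_le hθ hθ2 hL1
    rw [hexpL] at hcard
    calc ((S.card : ℕ) : ℝ) * ((W * T ^ D) * (C₀ / T ^ (D + 5)))
        ≤ T ^ 4 * ((W * T ^ D) * (C₀ / T ^ (D + 5))) := by
          gcongr
      _ = W * C₀ / T := by
          rw [pow_add]
          field_simp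
  rwa [Complex.norm_real, Real.norm_eq_abs] at hdiff

theorem mz_kk_nonneg {r : ℕ} (h : Fin r → VT) : 0 ≤ kk h :=
  Finset.sum_nonneg fun e _ => (ke_pos h e).le

theorem mean_zero_tendsto {w : ℝ → ℝ} (hw : Wgt w) {n : ℕ} (hn : 0 < n) (h : Fin n → VT)
    {ω : Fin n → ℝ → ℝ} {θ : Fin n → ℝ} (hθ : ∀ i, 0 < θ i) (hθ2 : ∑ i, θ i < 2)
    (hω : ∀ i, Adm (ω i) (θ i)) (hω0 : ∀ i s, 0 ≤ ω i s) :
    Tendsto (fun T : ℝ => (1 / T) * (∫ t : ℝ, w (t / T) *
        ∏ i, (PP (h i) (ω i) (θ i) (Real.log T) t).re) / Real.log T ^ kk h) atTop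
      (𝓝 ((∫ x, w x) * (AR h * LS h (SI n) (G0 ω)))) := by
  have _ := hω0
  obtain ⟨C, T₀, hC, hT₀, hdiff⟩ := mz_diff hw h hθ hθ2 hω
  have hcont : Continuous (G0 ω) := by
    unfold G0
    exact continuous_finsetProd _ fun i _ => (hω i).cont.comp (continuous_apply i)
  have hB : ∀ s : Fin n → ℝ, (∃ κ, ∑ i, θ i ≤ s κ) → G0 ω s = 0 := by
    rintro s ⟨κ, hκ⟩
    unfold G0
    refine Finset.prod_eq_zero (Finset.mem_univ κ) ((hω κ).supp _ (le_trans ?_ hκ))
    exact Finset.single_le_sum (fun i _ => (hθ i).le) (Finset.mem_univ κ)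
  have h1 := (DS_tendsto h (SI n) hn sepa_SI hcont _ hB).comp Real.tendsto_log_atTop
  have h2 : Tendsto (fun T : ℝ => (∫ x, w x) * (DS h (SI n) (G0 ω) (Real.log T) /
      Real.log T ^ kk h)) atTop (𝓝 ((∫ x, w x) * (AR h * LS h (SI n) (G0 ω)))) :=
    h1.const_mul _
  have h3 : Tendsto (fun T : ℝ => ((1 / T) * (∫ t : ℝ, w (t / T) *
        ∏ i, (PP (h i) (ω i) (θ i) (Real.log T) t).re) -
        (∫ x, w x) * DS h (SI n) (G0 ω) (Real.log T)) / Real.log T ^ kk h) atTop (𝓝 0) := by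
    refine squeeze_zero_norm' (a := fun T : ℝ => C / T) ?_ (tendsto_const_nhds.div_atTop tendsto_id)
    filter_upwards [eventually_ge_atTop T₀] with T hT
    have hT2 : Real.exp 1 ≤ T := hT₀.trans hT
    have hTpos : 0 < T := (Real.exp_pos 1).trans_le hT2
    have hL1 : 1 ≤ Real.log T := by rw [Real.le_log_iff_exp_le hTpos]; exact hT2
    have h4 : 1 ≤ Real.log T ^ kk h := Real.one_le_rpow hL1 (mz_kk_nonneg h)
    rw [norm_div, Real.norm_eq_abs, Real.norm_eq_abs, abs_of_pos (lt_of_lt_of_le one_pos h4)]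
    have h5 := hdiff T hT
    have h6 : 0 ≤ C / T := by positivity
    rw [div_le_iff₀ (lt_of_lt_of_le one_pos h4)]
    nlinarith
  have h7 := h2.add h3
  rw [add_zero] at h7
  refine h7.congr fun T => ?_
  rw [sub_div, mul_div_assoc (∫ x, w x)]
  ring

end Pool.Agent.GenMoment
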