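import Mathlib
import Pool.Agent.Lib_MP_112ba8_g.DefsB
import Pool.Agent.Lib_MP_112ba8_g.Real
import Pool.Agent.Lib_MP_112ba8_g.SumT
import Pool.Agent.Lib_MP_112ba8_g.DSlim
import Pool.Agent.Lib_MP_112ba8_g.MeanZero
import Pool.Agent.Lib_MP_112ba8_s.Osc
import Pool.Agent.Lib_MP_112ba8_e.Mixed

/-!
Piece MEANZETA: mean value of `|ζ|^2` times a product of radial polynomials
(adapt `mean_V4` in `Lib_MP_112ba8_s/MeanV.lean`, where the product is `V^4`).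

Expand over `v ∈ Fintype.piFinset (fun i => QS (θ i * L))` and use `zeta_osc` with
`ε = 1 - ∑ θ i`: the main term is `(∫ w) * L * DS (hX h) (SI (n+1)) (GX fc ω) L` by `sum_cons` with
`φ = fc` (`cut = 1` because `ln (∑ v)/L ≤ ∑ θ i < 1`), the error is
`≤ C * DS (hX h) (SI (n+1)) (GX cut ω) L` (all coefficients are nonnegative).  Divide by
`L ^ (kk (hX h) + 1)` and use `DS_tendsto` for both.
-/

namespace Pool.Agent.GenMoment

open Filter Topology MeasureTheory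
open Pool.Agent.EvenMoment (cl Wgt Adm Ed cut hat)
open Pool.Agent.SixthMoment (QQ ln fr osc QS TT ob sepa oy xe JZ fc chi)

theorem mzt_int {w : ℝ → ℝ} (hw : Wgt w) {T : ℝ} (hT : 0 < T) (q : QQ) :
    Integrable fun t : ℝ => ((w (t / T) * ‖riemannZeta (cl t)‖ ^ 2 : ℝ) : ℂ) * osc q t :=
  Pool.Agent.EvenMoment.mx_int hw hT (fr q)

theorem mzt_expand {w : ℝ → ℝ} (hw : Wgt w) {T : ℝ} (hT : 0 < T) {n : ℕ} (h : Fin n → VT)
    (ω : Fin n → ℝ → ℝ) (θ : Fin n → ℝ) (L : ℝ) :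
    (((1 / T) * (∫ t : ℝ, w (t / T) * (‖riemannZeta (cl t)‖ ^ 2 *
        ∏ i, (PP (h i) (ω i) (θ i) L t).re)) : ℝ) : ℂ) =
      ∑ v ∈ Fintype.piFinset (fun i => QS (θ i * L)),
        ((∏ i, PC (h i) (ω i) L (v i) : ℝ) : ℂ) *
        ((1 / T : ℂ) * ∫ t : ℝ, ((w (t / T) * ‖riemannZeta (cl t)‖ ^ 2 : ℝ) : ℂ) *
          osc (∑ i, v i) t) := by
  have h1 : ∀ t : ℝ, ((w (t / T) * (‖riemannZeta (cl t)‖ ^ 2 *
        ∏ i, (PP (h i) (ω i) (θ i) L t).re) : ℝ) : ℂ) =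
      ∑ v ∈ Fintype.piFinset (fun i => QS (θ i * L)),
        ((∏ i, PC (h i) (ω i) L (v i) : ℝ) : ℂ) *
          (((w (t / T) * ‖riemannZeta (cl t)‖ ^ 2 : ℝ) : ℂ) * osc (∑ i, v i) t) := by
    intro t
    rw [← mul_assoc, Complex.ofReal_mul, mz_prod, Finset.mul_sum]
    refine Finset.sum_congr rfl fun v _ => ?_
    ring
  rw [Complex.ofReal_mul, ← integral_complex_ofReal]
  simp_rw [h1]
  rw [integral_finsetSum]
  · rw [Finset.mul_sum]
    refine Finset.sum_congr rfl fun v _ => ?_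
    rw [integral_const_mul]
    push_cast
    ring
  · intro v _
    exact (mzt_int hw hT _).const_mul _

theorem mzt_GX_cont {φ : ℝ → ℝ} {n : ℕ} {ω : Fin n → ℝ → ℝ} {θ : Fin n → ℝ}
    (hφ : Continuous φ) (hω : ∀ i, Adm (ω i) (θ i)) : Continuous (GX φ ω) := by
  unfold GX
  exact (hφ.comp (continuous_apply 0)).mul
    (continuous_finsetProd _ fun i _ => (hω i).cont.comp (continuous_apply i.succ))

theorem mzt_GX_zero {φ : ℝ → ℝ} {n : ℕ} {ω : Fin n → ℝ → ℝ} {θ : Fin n → ℝ}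
    (hφ : ∀ s, 2 ≤ s → φ s = 0) (hθ : ∀ i, θ i ≤ 2) (hω : ∀ i, Adm (ω i) (θ i))
    (s : Fin (n + 1) → ℝ) (hs : ∃ κ, 2 ≤ s κ) : GX φ ω s = 0 := by
  obtain ⟨κ, hκ⟩ := hs
  unfold GX
  revert hκ
  refine Fin.cases ?_ (fun i => ?_) κ
  · intro hκ
    rw [hφ _ hκ, zero_mul]
  · intro hκ
    rw [Finset.prod_eq_zero (Finset.mem_univ i) ((hω i).supp _ ((hθ i).trans hκ)), mul_zero]

theorem mzt_diff {w : ℝ → ℝ} (hw : Wgt w) {n : ℕ} (h : Fin n → VT)
    {ω : Fin n → ℝ → ℝ} {θ : Fin n → ℝ} (hn : 0 < n) (hθ : ∀ i, 0 < θ i) (hθ1 : ∑ i, θ i < 1)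
    (hω : ∀ i, Adm (ω i) (θ i)) (hω0 : ∀ i s, 0 ≤ ω i s) :
    ∃ C T₀ : ℝ, 0 ≤ C ∧ Real.exp 1 ≤ T₀ ∧ ∀ T : ℝ, T₀ ≤ T →
      |(1 / T) * (∫ t : ℝ, w (t / T) * (‖riemannZeta (cl t)‖ ^ 2 *
          ∏ i, (PP (h i) (ω i) (θ i) (Real.log T) t).re)) -
        (∫ x, w x) * (Real.log T * DS (hX h) (SI (n + 1)) (GX fc ω) (Real.log T))| ≤
        C * DS (hX h) (SI (n + 1)) (GX cut ω) (Real.log T) := by
  have hs0 : 0 < ∑ i, θ i :=
    Finset.sum_pos (fun i _ => hθ i) ⟨⟨0, hn⟩, Finset.mem_univ _⟩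
  obtain ⟨C, T₀, hC, hT₀, htw⟩ :=
    Pool.Agent.SixthMoment.zeta_osc hw (ε := 1 - ∑ i, θ i) (by linarith) (by linarith)
  refine ⟨C, max T₀ (Real.exp 1), hC.le, le_max_right _ _, fun T hT => ?_⟩
  have hT1 : T₀ ≤ T := (le_max_left _ _).trans hT
  have hT2 : Real.exp 1 ≤ T := (le_max_right _ _).trans hT
  have hTpos : 0 < T := lt_of_lt_of_le (by linarith) hT1
  set L := Real.log T with hL
  have hL1 : 1 ≤ L := by rw [hL, Real.le_log_iff_exp_le hTpos]; exact hT2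
  have hLpos : 0 < L := by linarith
  set S := Fintype.piFinset (fun i => QS (θ i * L)) with hS
  have hlast : ∀ v ∈ S, ln (∑ i, v i) ≤ (∑ i, θ i) * L := fun v hv => mz_ln_le hv
  have hcut : ∀ v ∈ S, cut (ln (∑ i, v i) / L) = 1 := by
    intro v hv
    apply Pool.Agent.EvenMoment.mx_cut_one
    rw [div_le_one hLpos]
    refine (hlast v hv).trans ?_
    nlinarith
  have hprod : ∀ v : Fin n → QQ, 0 ≤ ∏ i, PC (h i) (ω i) L (v i) :=
    fun v => Finset.prod_nonneg fun i _ => PC_nonneg (h i) (hω0 i) L (v i)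
  -- the main term
  have hmain : L * DS (hX h) (SI (n + 1)) (GX fc ω) L =
      ∑ v ∈ S, (∏ i, PC (h i) (ω i) L (v i)) *
        ((L - ln (∑ i, v i)) * Real.exp (-(ln (∑ i, v i) / 2))) := by
    rw [← sum_cons h hω hLpos, Finset.mul_sum]
    refine Finset.sum_congr rfl fun v hv => ?_
    unfold fc
    rw [hcut v hv]
    field_simp
  have herr : DS (hX h) (SI (n + 1)) (GX cut ω) L =
      ∑ v ∈ S, (∏ i, PC (h i) (ω i) L (v i)) * Real.exp (-(ln (∑ i, v i) / 2)) := by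
    rw [← sum_cons h hω hLpos]
    refine Finset.sum_congr rfl fun v hv => ?_
    rw [hcut v hv, mul_one]
  -- comparison, term by term
  have hterm : ∀ v ∈ S, ‖(((∏ i, PC (h i) (ω i) L (v i) : ℝ)) : ℂ) *
      ((1 / T : ℂ) * ∫ t : ℝ, ((w (t / T) * ‖riemannZeta (cl t)‖ ^ 2 : ℝ) : ℂ) *
        osc (∑ i, v i) t) -
      (((∫ x, w x) * ((∏ i, PC (h i) (ω i) L (v i)) *
      ((L - ln (∑ i, v i)) * Real.exp (-(ln (∑ i, v i) / 2)))) : ℝ) : ℂ)‖ ≤
      C * ((∏ i, PC (h i) (ω i) L (v i)) * Real.exp (-(ln (∑ i, v i) / 2))) := by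
    intro v hv
    have hle : ln (∑ i, v i) ≤ (1 - (1 - ∑ i, θ i)) * Real.log T := by
      refine (hlast v hv).trans (le_of_eq ?_)
      rw [← hL]
      ring
    have h1 := htw T hT1 (∑ i, v i) hle
    rw [← hL] at h1
    set I := ∫ t : ℝ, ((w (t / T) * ‖riemannZeta (cl t)‖ ^ 2 : ℝ) : ℂ) * osc (∑ i, v i) t with hI
    set P := ∏ i, PC (h i) (ω i) L (v i) with hP'
    have hP0 : 0 ≤ P := hprod v
    have h2 : ((P : ℂ) * ((1 / T : ℂ) * I)) -
      (((∫ x, w x) * (P * ((L - ln (∑ i, v i)) * Real.exp (-(ln (∑ i, v i) / 2)))) : ℝ) : ℂ) =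
      (P : ℂ) * ((1 / T : ℂ) * I - (((∫ x, w x) * ((L - ln (∑ i, v i)) *
        Real.exp (-(ln (∑ i, v i) / 2))) : ℝ) : ℂ)) := by
      push_cast
      ring
    rw [h2, norm_mul, Complex.norm_real, Real.norm_of_nonneg hP0]
    calc P * ‖(1 / T : ℂ) * I - (((∫ x, w x) * ((L - ln (∑ i, v i)) *
        Real.exp (-(ln (∑ i, v i) / 2))) : ℝ) : ℂ)‖
        ≤ P * (C * Real.exp (-(ln (∑ i, v i) / 2))) := mul_le_mul_of_nonneg_left h1 hP0
      _ = C * (P * Real.exp (-(ln (∑ i, v i) / 2))) := by ring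
  -- conclusion
  rw [← Real.norm_eq_abs, ← Complex.norm_real, Complex.ofReal_sub, mzt_expand hw hTpos, hmain,
    Finset.mul_sum, Complex.ofReal_sum, ← Finset.sum_sub_distrib]
  refine (norm_sum_le _ _).trans ?_
  refine (Finset.sum_le_sum hterm).trans ?_
  rw [← Finset.mul_sum, ← herr]

theorem mean_zeta_tendsto {w : ℝ → ℝ} (hw : Wgt w) {n : ℕ} (h : Fin n → VT)
    {ω : Fin n → ℝ → ℝ} {θ : Fin n → ℝ} (hn : 0 < n) (hθ : ∀ i, 0 < θ i) (hθ1 : ∑ i, θ i < 1)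
    (hω : ∀ i, Adm (ω i) (θ i)) (hω0 : ∀ i s, 0 ≤ ω i s) :
    Tendsto (fun T : ℝ => (1 / T) * (∫ t : ℝ, w (t / T) * (‖riemannZeta (cl t)‖ ^ 2 *
        ∏ i, (PP (h i) (ω i) (θ i) (Real.log T) t).re)) / Real.log T ^ (kk (hX h) + 1)) atTop
      (𝓝 ((∫ x, w x) * (AR (hX h) * LS (hX h) (SI (n + 1)) (GX fc ω)))) := by
  obtain ⟨C, T₀, hC, hT₀, hdiff⟩ := mzt_diff hw h hn hθ hθ1 hω hω0
  have hθ2 : ∀ i, θ i ≤ 2 := fun i =>
    (Finset.single_le_sum (f := θ) (fun i _ => (hθ i).le) (Finset.mem_univ i)).trans (by linarith)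
  have hcutc : Continuous cut := Pool.Agent.EvenMoment.mx_cut_cont
  have hfcc : Continuous fc := by
    unfold fc
    fun_prop
  have hfc0 : ∀ s, 2 ≤ s → fc s = 0 := fun s hs => by
    unfold fc
    rw [Pool.Agent.EvenMoment.mx_cut_zero hs, mul_zero]
  have h1 := (DS_tendsto (hX h) (SI (n + 1)) (Nat.succ_pos n) sepa_SI (mzt_GX_cont hfcc hω) 2
    (mzt_GX_zero hfc0 hθ2 hω)).comp Real.tendsto_log_atTop
  have h1' := (DS_tendsto (hX h) (SI (n + 1)) (Nat.succ_pos n) sepa_SI (mzt_GX_cont hcutc hω) 2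
    (mzt_GX_zero (fun s hs => Pool.Agent.EvenMoment.mx_cut_zero hs) hθ2 hω)).comp
    Real.tendsto_log_atTop
  have h2 : Tendsto (fun T : ℝ => (∫ x, w x) * (DS (hX h) (SI (n + 1)) (GX fc ω) (Real.log T) /
      Real.log T ^ kk (hX h))) atTop
      (𝓝 ((∫ x, w x) * (AR (hX h) * LS (hX h) (SI (n + 1)) (GX fc ω)))) :=
    h1.const_mul _
  have hz : Tendsto (fun T : ℝ => C * (DS (hX h) (SI (n + 1)) (GX cut ω) (Real.log T) /
      Real.log T ^ kk (hX h)) * (Real.log T)⁻¹) atTop (𝓝 0) := by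
    have h3 := (h1'.const_mul C).mul (tendsto_inv_atTop_zero.comp Real.tendsto_log_atTop)
    rw [mul_zero] at h3
    exact h3
  have h3 : Tendsto (fun T : ℝ => ((1 / T) * (∫ t : ℝ, w (t / T) * (‖riemannZeta (cl t)‖ ^ 2 *
        ∏ i, (PP (h i) (ω i) (θ i) (Real.log T) t).re)) -
        (∫ x, w x) * (Real.log T * DS (hX h) (SI (n + 1)) (GX fc ω) (Real.log T))) /
        Real.log T ^ (kk (hX h) + 1)) atTop (𝓝 0) := by
    refine squeeze_zero_norm' ?_ hz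
    filter_upwards [eventually_ge_atTop T₀] with T hT
    have hT2 : Real.exp 1 ≤ T := hT₀.trans hT
    have hTpos : 0 < T := (Real.exp_pos 1).trans_le hT2
    have hL1 : 1 ≤ Real.log T := by rw [Real.le_log_iff_exp_le hTpos]; exact hT2
    have hLpos : 0 < Real.log T := by linarith
    have h4 : 0 < Real.log T ^ kk (hX h) := Real.rpow_pos_of_pos hLpos _
    have h5 := hdiff T hT
    rw [norm_div, Real.norm_eq_abs, Real.norm_eq_abs, abs_of_pos (Real.rpow_pos_of_pos hLpos _),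
      Real.rpow_add_one hLpos.ne']
    calc |(1 / T) * (∫ t : ℝ, w (t / T) * (‖riemannZeta (cl t)‖ ^ 2 *
          ∏ i, (PP (h i) (ω i) (θ i) (Real.log T) t).re)) -
        (∫ x, w x) * (Real.log T * DS (hX h) (SI (n + 1)) (GX fc ω) (Real.log T))| /
          (Real.log T ^ kk (hX h) * Real.log T)
        ≤ C * DS (hX h) (SI (n + 1)) (GX cut ω) (Real.log T) /
          (Real.log T ^ kk (hX h) * Real.log T) := by
          gcongr
      _ = _ := by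
          field_simp
  have h7 := h2.add h3
  rw [add_zero] at h7
  refine h7.congr' ?_
  filter_upwards [eventually_gt_atTop (1 : ℝ)] with T hT
  have hLpos : 0 < Real.log T := Real.log_pos hT
  have h4 : 0 < Real.log T ^ kk (hX h) := Real.rpow_pos_of_pos hLpos _
  rw [Real.rpow_add_one hLpos.ne', sub_div]
  have h8 : (∫ x, w x) * (Real.log T * DS (hX h) (SI (n + 1)) (GX fc ω) (Real.log T)) /
      (Real.log T ^ kk (hX h) * Real.log T) =
      (∫ x, w x) * (DS (hX h) (SI (n + 1)) (GX fc ω) (Real.log T) / Real.log T ^ kk (hX h)) := by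
    field_simp
  rw [h8]
  ring

end Pool.Agent.GenMoment
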