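import Mathlib
import Pool.Agent.Lib_MP_112ba8_g.DefsB
import Pool.Agent.Lib_MP_112ba8_g.Real
import Pool.Agent.Lib_MP_112ba8_g.MeanZero
import Pool.Agent.Lib_MP_112ba8_g.MeanZeta
import Pool.Agent.Lib_MP_112ba8_g.Amgm
import Pool.Agent.Lib_MP_112ba8_g.Ident
import Pool.Agent.Lib_MP_112ba8_e.Even

/-!
Piece MOMENT (helper69): the lower bound of the `2k`-th moment in terms of the limit functionals.
-/

namespace Pool.Agent.GenMoment

open Filter Topology MeasureTheory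
open Pool.Agent.EvenMoment (cl Wgt Adm Ed cut hat zeta_cl_cont integrable_wt weight_le wK wK_wgt
  wK_mass)
open Pool.Agent.SixthMoment (QQ ln fr osc QS TT ob sepa oy xe JZ fc chi)

lemma mo_AR_pos {r : ℕ} (h : Fin r → VT) : 0 < AR h := Real.exp_pos _

/-- the arithmetic constants for natural powers -/
lemma mo_AR {r : ℕ} (a : Fin r → ℕ) (ha : ∀ i, 0 < a i) :
    AR (fun i => pn (a i)) = AA ((∑ i, a i : ℕ) : ℝ) / ∏ i, AA (a i) := by
  have h1 := AR_pw (fun i => max 1 (a i : ℝ)) (fun i => lt_of_lt_of_le one_pos (le_max_left _ _))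
  have h2 : ∀ i, max 1 (a i : ℝ) = a i := fun i => max_eq_right (by exact_mod_cast ha i)
  have h3 : AR (fun i => pn (a i)) =
      AA (∑ i, max 1 (a i : ℝ)) / ∏ i, AA (max 1 (a i : ℝ)) := h1
  rw [h3]
  simp only [h2]
  rw [Nat.cast_sum]

lemma mo_hX {n : ℕ} (a : Fin n → ℕ) :
    hX (fun i => pn (a i)) = fun i => pn ((Fin.cons 1 a : Fin (n + 1) → ℕ) i) := by
  funext i
  refine Fin.cases ?_ (fun j => ?_) i
  · simp [hX]
  · simp [hX]

lemma mo_cons_pos {n : ℕ} (a : Fin n → ℕ) (ha : ∀ i, 0 < a i) (i : Fin (n + 1)) :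
    0 < (Fin.cons 1 a : Fin (n + 1) → ℕ) i := by
  refine Fin.cases ?_ (fun j => ?_) i
  · simp
  · simpa using ha j

lemma mo_AR_X {n : ℕ} (a : Fin n → ℕ) (ha : ∀ i, 0 < a i) {k : ℕ} (hsum : ∑ i, a i + 1 = k) :
    AR (hX fun i => pn (a i)) = AA (k : ℝ) / ∏ i, AA (a i) := by
  rw [mo_hX, mo_AR _ (mo_cons_pos a ha), Fin.sum_univ_succ, Fin.prod_univ_succ]
  simp only [Fin.cons_zero, Fin.cons_succ, Nat.cast_one, AA_one, one_mul]
  rw [add_comm 1, hsum]

lemma mo_AR_const {a m k : ℕ} (ha : 0 < a) (hk : a * (2 * m) = k) :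
    AR (fun _ : Fin (2 * m) => pn a) = AA (k : ℝ) / AA a ^ (2 * m) := by
  rw [mo_AR (fun _ : Fin (2 * m) => a) (fun _ => ha)]
  simp only [Finset.sum_const, Finset.card_univ, Fintype.card_fin, Finset.prod_const, smul_eq_mul]
  rw [mul_comm (2 * m) a, hk]

/-- the identity of the arithmetic constants -/
lemma mo_identity {n : ℕ} (a m : Fin n → ℕ) {k : ℕ} (ha : ∀ i, 0 < a i)
    (hk : ∀ i, a i * (2 * m i) = k) (hsum : ∑ i, a i + 1 = k) :
    AR (hX fun i => pn (a i)) ^ k = AA (k : ℝ) *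
      ∏ i, AR (fun _ : Fin (2 * m i) => pn (a i)) ^ a i := by
  have h1 : ∀ i, AR (fun _ : Fin (2 * m i) => pn (a i)) ^ a i =
      AA (k : ℝ) ^ a i / AA (a i) ^ k := by
    intro i
    rw [mo_AR_const (ha i) (hk i), div_pow, ← pow_mul, mul_comm (2 * m i), hk i]
  rw [Finset.prod_congr rfl fun i _ => h1 i, Finset.prod_div_distrib, Finset.prod_pow_eq_pow_sum,
    mo_AR_X a ha hsum, div_pow, Finset.prod_pow]
  have h2 : AA (k : ℝ) ^ k = AA (k : ℝ) * AA (k : ℝ) ^ (∑ i, a i) := by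
    rw [← pow_succ', hsum]
  rw [h2]
  ring

/-! ### exponents -/

lemma mo_al_X {n : ℕ} (a : Fin n → ℕ) (ha : ∀ i, 0 < a i) (i : Fin (n + 1)) :
    (hX (fun i => pn (a i)) i).al = ((Fin.cons 1 a : Fin (n + 1) → ℕ) i : ℝ) := by
  rw [mo_hX]
  exact pn_al (mo_cons_pos a ha i)

lemma mo_kk_X {n : ℕ} (a : Fin n → ℕ) (ha : ∀ i, 0 < a i) {k : ℕ} (hsum : ∑ i, a i + 1 = k) :
    kk (hX fun i => pn (a i)) + 1 + ((∑ i, a i ^ 2 : ℕ) : ℝ) = ((k ^ 2 : ℕ) : ℝ) := by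
  rw [kk_eq, Finset.sum_congr rfl fun i _ => mo_al_X a ha i,
    Finset.sum_congr rfl fun i _ => congrArg (fun x : ℝ => x ^ 2) (mo_al_X a ha i)]
  rw [Fin.sum_univ_succ, Fin.sum_univ_succ]
  simp only [Fin.cons_zero, Fin.cons_succ]
  rw [← hsum]
  push_cast
  ring

lemma mo_kk_const {a m k : ℕ} (ha : 0 < a) (hk : a * (2 * m) = k) :
    kk (fun _ : Fin (2 * m) => pn a) + ((k * a : ℕ) : ℝ) = ((k ^ 2 : ℕ) : ℝ) := by
  rw [kk_eq]
  simp only [pn_al ha, Finset.sum_const, Finset.card_univ, Fintype.card_fin, nsmul_eq_mul]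
  rw [← hk]
  push_cast
  ring

/-! ### the weighted version -/

lemma moment_weight {n : ℕ} (hn : 0 < n) (a m : Fin n → ℕ) {k : ℕ} (ha : ∀ i, 0 < a i)
    (hm : ∀ i, 0 < m i) (hk : ∀ i, a i * (2 * m i) = k) (hsum : ∑ i, a i + 1 = k)
    {θ : Fin n → ℝ} (hθ : ∀ i, 0 < θ i) (hθ1 : ∑ i, θ i < 1)
    (hθ2 : ∀ i, ((2 * m i : ℕ) : ℝ) * θ i < 2) {ω : Fin n → ℝ → ℝ} (hω : ∀ i, Adm (ω i) (θ i))
    (hω0 : ∀ i s, 0 ≤ ω i s) {μ : Fin n → ℝ} {w : ℝ → ℝ} (hw : Wgt w) {A : ℝ}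
    (hA : A < (k : ℝ) * (∏ i, μ i) * ((∫ x, w x) * (AR (hX fun i => pn (a i)) *
        LS (hX fun i => pn (a i)) (SI (n + 1)) (GX fc ω))) -
      ∑ i, (a i : ℝ) * μ i ^ (2 * m i) * ((∫ x, w x) * (AR (fun _ : Fin (2 * m i) => pn (a i)) *
        LS (fun _ : Fin (2 * m i) => pn (a i)) (SI (2 * m i)) (G0 fun _ => ω i)))) :
    ∀ᶠ T : ℝ in atTop, A * Real.log T ^ (k ^ 2) ≤
      (1 / T) * ∫ t : ℝ, w (t / T) * ‖riemannZeta (cl t)‖ ^ (2 * k) := by
  have hlog : Tendsto Real.log atTop atTop := Real.tendsto_log_atTop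
  set h : Fin n → VT := fun i => pn (a i) with hh
  set EX : ℝ → ℝ := fun T => (1 / T) * (∫ t : ℝ, w (t / T) * (‖riemannZeta (cl t)‖ ^ 2 *
        ∏ i, (PP (h i) (ω i) (θ i) (Real.log T) t).re)) with hEX
  set EI : Fin n → ℝ → ℝ := fun i T => (1 / T) * (∫ t : ℝ, w (t / T) *
        (PP (h i) (ω i) (θ i) (Real.log T) t).re ^ (2 * m i)) with hEI
  have tX := mean_zeta_tendsto hw h hn hθ hθ1 hω hω0
  have tI : ∀ i, Tendsto (fun T : ℝ => EI i T / Real.log T ^ kk (fun _ : Fin (2 * m i) => h i)) atTop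
      (𝓝 ((∫ x, w x) * (AR (fun _ : Fin (2 * m i) => h i) *
        LS (fun _ : Fin (2 * m i) => h i) (SI (2 * m i)) (G0 fun _ => ω i)))) := by
    intro i
    have h1 := mean_zero_tendsto hw (n := 2 * m i) (by have := hm i; omega) (fun _ => h i)
      (ω := fun _ => ω i) (θ := fun _ => θ i) (fun _ => hθ i)
      (by
        rw [Finset.sum_const, Finset.card_univ, Fintype.card_fin, nsmul_eq_mul]
        exact hθ2 i) (fun _ => hω i) (fun _ => hω0 i)
    refine h1.congr fun T => ?_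
    simp only [hEI, Finset.prod_const, Finset.card_univ, Fintype.card_fin]
  have tlim : Tendsto (fun T : ℝ => (k : ℝ) * (∏ i, μ i) * (EX T / Real.log T ^ (kk (hX h) + 1)) -
      ∑ i, (a i : ℝ) * μ i ^ (2 * m i) *
        (EI i T / Real.log T ^ kk (fun _ : Fin (2 * m i) => h i))) atTop
      (𝓝 ((k : ℝ) * (∏ i, μ i) * ((∫ x, w x) * (AR (hX h) *
        LS (hX h) (SI (n + 1)) (GX fc ω))) -
      ∑ i, (a i : ℝ) * μ i ^ (2 * m i) * ((∫ x, w x) * (AR (fun _ : Fin (2 * m i) => h i) *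
        LS (fun _ : Fin (2 * m i) => h i) (SI (2 * m i)) (G0 fun _ => ω i))))) :=
    (tX.const_mul _).sub (tendsto_finsetSum _ fun i _ => (tI i).const_mul _)
  filter_upwards [tlim.eventually_const_lt hA, hlog.eventually_ge_atTop 1,
    eventually_gt_atTop (0 : ℝ)] with T h1 hL1 hT
  have hL0 : 0 < Real.log T := by linarith
  set L := Real.log T with hL
  have hzc : Continuous fun t : ℝ => ‖riemannZeta (cl t)‖ := zeta_cl_cont.norm
  have hPc : ∀ i, Continuous fun t : ℝ => (PP (h i) (ω i) (θ i) L t).re := fun i =>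
    Complex.continuous_re.comp (PP_cont _ _ _ _)
  have hPprod : Continuous fun t : ℝ => ∏ i, (PP (h i) (ω i) (θ i) L t).re :=
    continuous_finsetProd _ fun i _ => hPc i
  set lam : Fin n → ℝ := fun i => μ i * L ^ (a i ^ 2) with hlam
  -- the pointwise inequality
  have hpt : ∀ t : ℝ, w (t / T) * ((k : ℝ) * (∏ i, lam i) * (‖riemannZeta (cl t)‖ ^ 2 *
      ∏ i, (PP (h i) (ω i) (θ i) L t).re) - ∑ i, (a i : ℝ) * lam i ^ (2 * m i) *
        (PP (h i) (ω i) (θ i) L t).re ^ (2 * m i)) ≤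
      w (t / T) * ‖riemannZeta (cl t)‖ ^ (2 * k) := by
    intro t
    refine mul_le_mul_of_nonneg_left ?_ (hw.nonneg _)
    have h2 := amgm a m hm hk hsum (x := ‖riemannZeta (cl t)‖ ^ 2) (by positivity)
      (fun i => lam i * (PP (h i) (ω i) (θ i) L t).re)
    rw [← pow_mul] at h2
    refine le_trans (le_of_eq ?_) h2
    have e1 : ∏ i, lam i * (PP (h i) (ω i) (θ i) L t).re =
        (∏ i, lam i) * ∏ i, (PP (h i) (ω i) (θ i) L t).re := Finset.prod_mul_distrib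
    rw [e1]
    have e2 : ∑ i, (a i : ℝ) * lam i ^ (2 * m i) * (PP (h i) (ω i) (θ i) L t).re ^ (2 * m i) =
        ∑ i, (a i : ℝ) * (lam i * (PP (h i) (ω i) (θ i) L t).re) ^ (2 * m i) := by
      refine Finset.sum_congr rfl fun i _ => ?_
      rw [mul_pow]
      ring
    rw [e2]
    ring
  have hi1 := integrable_wt hw hT (f := fun t => ‖riemannZeta (cl t)‖ ^ 2 *
        ∏ i, (PP (h i) (ω i) (θ i) L t).re) ((hzc.pow 2).mul hPprod)
  have hi2 : ∀ i, Integrable fun t => w (t / T) *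
      (PP (h i) (ω i) (θ i) L t).re ^ (2 * m i) := fun i =>
    integrable_wt hw hT ((hPc i).pow _)
  have hint : ∫ t : ℝ, w (t / T) * ((k : ℝ) * (∏ i, lam i) * (‖riemannZeta (cl t)‖ ^ 2 *
      ∏ i, (PP (h i) (ω i) (θ i) L t).re) - ∑ i, (a i : ℝ) * lam i ^ (2 * m i) *
        (PP (h i) (ω i) (θ i) L t).re ^ (2 * m i)) =
      (k : ℝ) * (∏ i, lam i) * (∫ t : ℝ, w (t / T) * (‖riemannZeta (cl t)‖ ^ 2 *
        ∏ i, (PP (h i) (ω i) (θ i) L t).re)) -
      ∑ i, (a i : ℝ) * lam i ^ (2 * m i) * ∫ t : ℝ, w (t / T) *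
        (PP (h i) (ω i) (θ i) L t).re ^ (2 * m i) := by
    rw [← integral_const_mul]
    simp_rw [← integral_const_mul]
    rw [← integral_finsetSum _ fun i _ => (hi2 i).const_mul _,
      ← integral_sub (hi1.const_mul _) (integrable_finsetSum _ fun i _ => (hi2 i).const_mul _)]
    refine integral_congr_ae (ae_of_all _ fun t => ?_)
    simp only
    rw [mul_sub, Finset.mul_sum]
    congr 1
    · ring
    · exact Finset.sum_congr rfl fun i _ => by ring
  have hfin : (1 / T) * (∫ t : ℝ, w (t / T) * ((k : ℝ) * (∏ i, lam i) *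
      (‖riemannZeta (cl t)‖ ^ 2 * ∏ i, (PP (h i) (ω i) (θ i) L t).re) -
      ∑ i, (a i : ℝ) * lam i ^ (2 * m i) * (PP (h i) (ω i) (θ i) L t).re ^ (2 * m i))) ≤
      (1 / T) * ∫ t : ℝ, w (t / T) * ‖riemannZeta (cl t)‖ ^ (2 * k) := by
    refine mul_le_mul_of_nonneg_left ?_ (by positivity)
    refine integral_mono ?_ (integrable_wt hw hT (hzc.pow _)) hpt
    refine integrable_wt hw hT ?_
    exact (continuous_const.mul ((hzc.pow 2).mul hPprod)).sub
      (continuous_finsetSum _ fun i _ => continuous_const.mul ((hPc i).pow _))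
  refine le_trans ?_ hfin
  rw [hint]
  have e1 : (1 / T) * ((k : ℝ) * (∏ i, lam i) * (∫ t : ℝ, w (t / T) *
      (‖riemannZeta (cl t)‖ ^ 2 * ∏ i, (PP (h i) (ω i) (θ i) L t).re)) -
      ∑ i, (a i : ℝ) * lam i ^ (2 * m i) * ∫ t : ℝ, w (t / T) *
        (PP (h i) (ω i) (θ i) L t).re ^ (2 * m i)) =
      (k : ℝ) * (∏ i, lam i) * EX T - ∑ i, (a i : ℝ) * lam i ^ (2 * m i) * EI i T := by
    simp only [hEX, hEI, ← hL]
    rw [mul_sub, Finset.mul_sum]
    congr 1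
    · ring
    · exact Finset.sum_congr rfl fun i _ => by ring
  rw [e1]
  -- powers of the logarithm
  have hLk : (0 : ℝ) < L ^ (k ^ 2) := by positivity
  refine (mul_le_mul_of_nonneg_right h1.le hLk.le).trans (le_of_eq ?_)
  rw [sub_mul, Finset.sum_mul]
  have p1 : ∀ x : ℝ, x / L ^ (kk (hX h) + 1) * L ^ (k ^ 2) = x * L ^ (∑ i, a i ^ 2) := by
    intro x
    have hk1 := mo_kk_X a ha hsum
    rw [← hh] at hk1
    have h2 : L ^ (k ^ 2) = L ^ (kk (hX h) + 1) * L ^ (∑ i, a i ^ 2) := by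
      rw [← Real.rpow_natCast L (k ^ 2), ← hk1, Real.rpow_add hL0, Real.rpow_natCast]
    rw [h2]
    have h3 : L ^ (kk (hX h) + 1) ≠ 0 := (Real.rpow_pos_of_pos hL0 _).ne'
    field_simp
  have p2 : ∀ (i : Fin n) (x : ℝ), x / L ^ kk (fun _ : Fin (2 * m i) => h i) * L ^ (k ^ 2) =
      x * L ^ (k * a i) := by
    intro i x
    have hk1 := mo_kk_const (ha i) (hk i)
    have h2 : L ^ (k ^ 2) = L ^ kk (fun _ : Fin (2 * m i) => h i) * L ^ (k * a i) := by
      rw [← Real.rpow_natCast L (k ^ 2), ← hk1, Real.rpow_add hL0, Real.rpow_natCast]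
    rw [h2]
    have h3 : L ^ kk (fun _ : Fin (2 * m i) => h i) ≠ 0 := (Real.rpow_pos_of_pos hL0 _).ne'
    field_simp
  congr 1
  · rw [mul_assoc, p1, hlam]
    simp only [Finset.prod_mul_distrib, Finset.prod_pow_eq_pow_sum]
    ring
  · refine Finset.sum_congr rfl fun i _ => ?_
    rw [mul_assoc, p2, hlam]
    simp only [mul_pow]
    rw [← pow_mul, show a i ^ 2 * (2 * m i) = k * a i by rw [← hk i]; ring]
    ring

/-- **lower bound of the `2k`-th moment in terms of the limit functionals** -/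
theorem moment_lower {n : ℕ} (hn : 0 < n) (a m : Fin n → ℕ) {k : ℕ} (ha : ∀ i, 0 < a i)
    (hm : ∀ i, 0 < m i) (hk : ∀ i, a i * (2 * m i) = k) (hsum : ∑ i, a i + 1 = k)
    {θ : Fin n → ℝ} (hθ : ∀ i, 0 < θ i) (hθ1 : ∑ i, θ i < 1)
    (hθ2 : ∀ i, ((2 * m i : ℕ) : ℝ) * θ i < 2) {ω : Fin n → ℝ → ℝ} (hω : ∀ i, Adm (ω i) (θ i))
    (hω0 : ∀ i s, 0 ≤ ω i s) {z : ℝ} (hz : 0 < z) {D : Fin n → ℝ} (hD : ∀ i, 0 < D i)
    (hzl : z ≤ LS (hX fun i => pn (a i)) (SI (n + 1)) (GX fc ω))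
    (hDl : ∀ i, LS (fun _ : Fin (2 * m i) => pn (a i)) (SI (2 * m i)) (G0 fun _ => ω i) ≤ D i)
    {A : ℝ} (hA : A < Pool.Agent.EvenMoment.ar k * (z ^ k / ∏ i, D i ^ a i)) :
    ∀ᶠ T : ℝ in atTop, A * Real.log T ^ (k ^ 2) ≤
      (1 / T) * ∫ t in (0 : ℝ)..T, ‖riemannZeta (cl t)‖ ^ (2 * k) := by
  have hk0 : 0 < k := by omega
  rw [← AA_nat hk0] at hA
  set ARX := AR (hX fun i => pn (a i)) with hARX
  set ARI : Fin n → ℝ := fun i => AR (fun _ : Fin (2 * m i) => pn (a i)) with hARI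
  have hARX0 : 0 < ARX := mo_AR_pos _
  have hARI0 : ∀ i, 0 < ARI i := fun i => mo_AR_pos _
  set X := AA (k : ℝ) * (z ^ k / ∏ i, D i ^ a i) with hX'
  have hD0 : 0 < ∏ i, D i ^ a i := Finset.prod_pos fun i _ => pow_pos (hD i) _
  have hX0 : 0 < X := by
    have := AA_pos (k : ℝ)
    positivity
  -- X = (ARX z)^k / prod (ARI D)^a
  have hXid : X * ∏ i, (ARI i * D i) ^ a i = (ARX * z) ^ k := by
    have hid := mo_identity a m ha hk hsum
    rw [← hARX] at hid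
    have hid' : ARX ^ k = AA (k : ℝ) * ∏ i, ARI i ^ a i := hid
    rw [mul_pow, hid', hX', Finset.prod_congr rfl fun i _ => mul_pow (ARI i) (D i) (a i),
      Finset.prod_mul_distrib]
    field_simp
  -- choice of the scaling factors
  set μ : Fin n → ℝ := fun i => (X / (ARI i * D i)) ^ (1 / ((2 * m i : ℕ) : ℝ)) with hμ
  have hP0 : ∀ i, 0 < ARI i * D i := fun i => mul_pos (hARI0 i) (hD i)
  have hμ0 : ∀ i, 0 < μ i := fun i => Real.rpow_pos_of_pos (div_pos hX0 (hP0 i)) _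
  have hμp : ∀ i, μ i ^ (2 * m i) = X / (ARI i * D i) := by
    intro i
    have h2m : ((2 * m i : ℕ) : ℝ) ≠ 0 := by
      have := hm i
      positivity
    rw [hμ]
    simp only
    rw [← Real.rpow_natCast, ← Real.rpow_mul (div_pos hX0 (hP0 i)).le, one_div,
      inv_mul_cancel₀ h2m, Real.rpow_one]
  have hprod : ARX * z * ∏ i, μ i = X := by
    have h1 : (ARX * z * ∏ i, μ i) ^ k = X ^ k := by
      rw [mul_pow, ← hXid, ← Finset.prod_pow, mul_assoc, ← Finset.prod_mul_distrib]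
      have h2 : ∀ i, (ARI i * D i) ^ a i * μ i ^ k = X ^ a i := by
        intro i
        have h3 : μ i ^ k = (μ i ^ (2 * m i)) ^ a i := by
          rw [← pow_mul, mul_comm (2 * m i), hk i]
        rw [h3, hμp, ← mul_pow, mul_div_cancel₀ _ (hP0 i).ne']
      rw [Finset.prod_congr rfl fun i _ => h2 i, Finset.prod_pow_eq_pow_sum, ← pow_succ', hsum]
    have h4 : 0 < ARX * z * ∏ i, μ i :=
      mul_pos (mul_pos hARX0 hz) (Finset.prod_pos fun i _ => hμ0 i)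
    exact (pow_left_inj₀ h4.le hX0.le hk0.ne').mp h1
  -- the value
  set V := (k : ℝ) * (∏ i, μ i) * (ARX * LS (hX fun i => pn (a i)) (SI (n + 1)) (GX fc ω)) -
      ∑ i, (a i : ℝ) * μ i ^ (2 * m i) * (ARI i *
        LS (fun _ : Fin (2 * m i) => pn (a i)) (SI (2 * m i)) (G0 fun _ => ω i)) with hV
  have hval : X ≤ V := by
    have h1 : (k : ℝ) * X ≤ (k : ℝ) * (∏ i, μ i) *
        (ARX * LS (hX fun i => pn (a i)) (SI (n + 1)) (GX fc ω)) := by
      have h2 : (k : ℝ) * X = (k : ℝ) * (∏ i, μ i) * (ARX * z) := by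
        rw [← hprod]; ring
      rw [h2]
      have h3 : 0 ≤ (k : ℝ) * (∏ i, μ i) :=
        mul_nonneg (Nat.cast_nonneg _) (Finset.prod_pos fun i _ => hμ0 i).le
      exact mul_le_mul_of_nonneg_left (mul_le_mul_of_nonneg_left hzl hARX0.le) h3
    have h2 : ∑ i, (a i : ℝ) * μ i ^ (2 * m i) * (ARI i *
        LS (fun _ : Fin (2 * m i) => pn (a i)) (SI (2 * m i)) (G0 fun _ => ω i)) ≤
        ∑ i, (a i : ℝ) * X := by
      refine Finset.sum_le_sum fun i _ => ?_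
      have h3 : (a i : ℝ) * X = (a i : ℝ) * μ i ^ (2 * m i) * (ARI i * D i) := by
        rw [hμp, mul_assoc, div_mul_cancel₀ _ (hP0 i).ne']
      rw [h3]
      refine mul_le_mul_of_nonneg_left (mul_le_mul_of_nonneg_left (hDl i) (hARI0 i).le) ?_
      exact mul_nonneg (Nat.cast_nonneg _) (pow_nonneg (hμ0 i).le _)
    rw [← Finset.sum_mul] at h2
    have h3 : (k : ℝ) = ∑ i, (a i : ℝ) + 1 := by
      rw [← hsum]; push_cast; ring
    have h4 : (k : ℝ) * X - (∑ i, (a i : ℝ)) * X = X := by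
      rw [h3]; ring
    rw [hV]
    linarith
  -- choice of the smoothing
  obtain ⟨κ, hκ0, hκ1, hκ2⟩ : ∃ κ : ℝ, 0 < κ ∧ κ < 1 / 2 ∧ A < (1 - 2 * κ) * X := by
    refine ⟨min (1 / 4) ((X - A) / (4 * (X + 1))), ?_, ?_, ?_⟩
    · have : 0 < (X - A) / (4 * (X + 1)) := by
        apply div_pos <;> linarith
      positivity
    · exact lt_of_le_of_lt (min_le_left _ _) (by norm_num)
    · have h1 : min (1 / 4) ((X - A) / (4 * (X + 1))) ≤ (X - A) / (4 * (X + 1)) := min_le_right _ _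
      have h2 : (X - A) / (4 * (X + 1)) * (X + 1) = (X - A) / 4 := by field_simp
      have h3 : 0 ≤ min (1 / 4) ((X - A) / (4 * (X + 1))) := by
        have : 0 < (X - A) / (4 * (X + 1)) := by apply div_pos <;> linarith
        positivity
      nlinarith
  have hw := wK_wgt κ ⟨hκ0, hκ1⟩
  have hmass := wK_mass κ ⟨hκ0, hκ1⟩
  have hA' : A < (∫ x, wK κ ⟨hκ0, hκ1⟩ x) * V := by
    refine lt_of_lt_of_le hκ2 ?_
    have h7 : 0 ≤ 1 - 2 * κ := by linarith
    calc (1 - 2 * κ) * X ≤ (∫ x, wK κ ⟨hκ0, hκ1⟩ x) * X :=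
          mul_le_mul_of_nonneg_right hmass hX0.le
      _ ≤ _ := mul_le_mul_of_nonneg_left hval (h7.trans hmass)
  have h1 := moment_weight hn a m ha hm hk hsum hθ hθ1 hθ2 hω hω0 (μ := μ) hw (A := A) (by
    refine lt_of_lt_of_le hA' (le_of_eq ?_)
    rw [hV, mul_sub, Finset.mul_sum]
    congr 1
    · ring
    · refine Finset.sum_congr rfl fun i _ => ?_
      simp only [hARI]
      ring)
  filter_upwards [h1, eventually_gt_atTop (0 : ℝ)] with T h2 hT
  refine h2.trans ?_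
  refine mul_le_mul_of_nonneg_left ?_ (by positivity)
  exact weight_le hw (fun x => (wK κ ⟨hκ0, hκ1⟩).le_one) hT (zeta_cl_cont.norm.pow _)
    (fun t => by positivity)

end Pool.Agent.GenMoment
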