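import Mathlib
import Pool.Agent.Lib_MP_112ba8_g.DefsB
import Pool.Agent.Lib_MP_112ba8_g.KTwo
import Pool.Agent.Lib_MP_112ba8_g.LSexp
import Pool.Agent.Lib_MP_112ba8_s.ShellZ

/-!
Piece NFOUR: lower bound for the main term with four vertices `x (0), R (1), U (2), V (3)`
(adapt `Lib_MP_112ba8_s/ShellZ.lean`).

Edges `e = y01` (exponent `2 a`), `z₁ = y02` (`2 b₁`), `z₂ = y03` (`2 b₂`), `b₁ = y12` (`2 a b₁`),
`b₂ = y13` (`2 a b₂`), `a = y23` (`2 b₁ b₂`); observables `s0 = e+z₁+z₂`, `s1 = e+b₁+b₂`,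
`s2 = z₁+b₁+a`, `s3 = z₂+b₂+a`.  Restrict to `a₀ < a ≤ lam₂`, `0 < b₁ ≤ lam₁ - a`, `0 < b₂ ≤ lam₂ - a`,
`0 < e ≤ r - b₁ - b₂` (nonnegative because `lam₁ + lam₂ - 2a₀ ≤ r`); on the support of the hats
`z₁ ≥ lam₁ - a - b₁` etc., `1 - s0 ≥ 1 - (θ₁-a-b₁) - (θ₂-a-b₂) - e > 0`, `cut = chi = 1`,
`∫ hat = δ/2` twice.  Nonnegativity elsewhere: `s0 ≤ s1 + s2 + s3 ≤ ρ + θ₁ + θ₂ < 1`.
-/

namespace Pool.Agent.GenMoment

open Filter Topology MeasureTheory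
open Pool.Agent.EvenMoment (cl Wgt Adm Ed cut hat)
open Pool.Agent.SixthMoment (QQ ln fr osc QS TT ob sepa oy xe JZ fc chi)

namespace NFour

open Pool.Agent.SixthMoment.ShZ (ofReal_integral_le lint_mono_set lint_six forall_ed sum_ed
  prod_ed fc_eq chi_eq chi_nonneg chi_supp hat_lint)

/-- the edges of the complete graph on four vertices, in the order of integration
`a, b₁, b₂, e, z₁, z₂` -/
def edF : Fin 6 → Ed 4 :=
  ![⟨(2, 3), by decide⟩, ⟨(1, 2), by decide⟩, ⟨(1, 3), by decide⟩, ⟨(0, 1), by decide⟩,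
    ⟨(0, 2), by decide⟩, ⟨(0, 3), by decide⟩]

/-- the same as an equivalence -/
noncomputable def edE : Fin 6 ≃ Ed 4 := Equiv.ofBijective edF (by decide)

/-- the change of variables -/
noncomputable def YY : (Fin 6 → ℝ) ≃ᵐ (Ed 4 → ℝ) :=
  MeasurableEquiv.piCongrLeft (fun _ : Ed 4 => ℝ) edE

lemma YY_mp : MeasurePreserving YY volume volume :=
  volume_measurePreserving_piCongrLeft (fun _ : Ed 4 => ℝ) edE

lemma YY_ap (p : Fin 6 → ℝ) (i : Fin 6) : YY p (edE i) = p i := by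
  unfold YY
  rw [MeasurableEquiv.coe_piCongrLeft, Equiv.piCongrLeft_apply_apply]

lemma forall_ed' (P : Ed 4 → Prop) : (∀ e, P e) ↔ ∀ i, P (edE i) :=
  ⟨fun h i => h _, fun h e => by
    obtain ⟨i, rfl⟩ := edE.surjective e
    exact h i⟩

lemma sum_ed' (F : Ed 4 → ℝ) : ∑ e, F e = F (edE 0) + F (edE 1) + F (edE 2) + F (edE 3) +
    F (edE 4) + F (edE 5) := by
  rw [← Equiv.sum_comp edE, Fin.sum_univ_six]

lemma prod_ed' (F : Ed 4 → ℝ) : ∏ e, F e = F (edE 0) * F (edE 1) * F (edE 2) * F (edE 3) *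
    F (edE 4) * F (edE 5) := by
  rw [← Equiv.prod_comp edE, Fin.prod_univ_six]

lemma ed0 : (edE 0).1 = (2, 3) := rfl
lemma ed1 : (edE 1).1 = (1, 2) := rfl
lemma ed2 : (edE 2).1 = (1, 3) := rfl
lemma ed3 : (edE 3).1 = (0, 1) := rfl
lemma ed4 : (edE 4).1 = (0, 2) := rfl
lemma ed5 : (edE 5).1 = (0, 3) := rfl

/-- the observables in the new variables: `p = (a, b₁, b₂, e, z₁, z₂)` -/
lemma oy_YY (p : Fin 6 → ℝ) : oy (SI 4) (YY p) =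
    ![p 3 + p 4 + p 5, p 3 + p 1 + p 2, p 4 + p 1 + p 0, p 5 + p 2 + p 0] := by
  funext κ
  unfold oy
  rw [sum_ed']
  simp only [YY_ap]
  fin_cases κ
  · simp [sepa, SI, ed0, ed1, ed2, ed3, ed4, ed5]
  · simp [sepa, SI, ed0, ed1, ed2, ed3, ed4, ed5]
    ring
  · simp [sepa, SI, ed0, ed1, ed2, ed3, ed4, ed5]
    ring
  · simp [sepa, SI, ed0, ed1, ed2, ed3, ed4, ed5]
    ring

lemma hX_eq (a b₁ b₂ : ℕ) : (hX ![pn a, pn b₁, pn b₂] : Fin 4 → VT) =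
    fun i => pn ((![1, a, b₁, b₂] : Fin 4 → ℕ) i) := by
  funext i
  fin_cases i <;> rfl

/-- the product of the factorials -/
noncomputable def FF (a b₁ b₂ : ℕ) : ℝ := (Nat.factorial (2 * a - 1) : ℝ) * Nat.factorial (2 * a * b₁ - 1) *
        Nat.factorial (2 * a * b₂ - 1) * Nat.factorial (2 * b₁ - 1) *
        Nat.factorial (2 * b₂ - 1) * Nat.factorial (2 * b₁ * b₂ - 1)

lemma FF_pos (a b₁ b₂ : ℕ) : 0 < FF a b₁ b₂ := by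
  unfold FF
  positivity

/-- the density in the new variables -/
lemma dens_YY {a b₁ b₂ : ℕ} (ha : 0 < a) (hb₁ : 0 < b₁) (hb₂ : 0 < b₂) (p : Fin 6 → ℝ) :
    dens (hX ![pn a, pn b₁, pn b₂]) (YY p) =
      (p 0 ^ (2 * b₁ * b₂ - 1) * (p 1 ^ (2 * a * b₁ - 1) * p 4 ^ (2 * b₁ - 1)) *
        (p 2 ^ (2 * a * b₂ - 1) * p 5 ^ (2 * b₂ - 1)) * p 3 ^ (2 * a - 1)) / FF a b₁ b₂ := by
  have hpos : ∀ i, 0 < (![1, a, b₁, b₂] : Fin 4 → ℕ) i := by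
    intro i
    fin_cases i
    · exact one_pos
    · exact ha
    · exact hb₁
    · exact hb₂
  rw [hX_eq, dens_nat _ hpos, prod_ed']
  simp only [YY_ap, ed0, ed1, ed2, ed3, ed4, ed5, Matrix.cons_val_zero, Matrix.cons_val_one,
    Matrix.cons_val]
  rw [mul_one]
  unfold FF
  field_simp

/-! ### the lower bound of the integrand -/

/-- the weight of the test integrand -/
noncomputable def WW (E B₁ B₂ Z₁ Z₂ A : ℕ) (θ₁ θ₂ lam₁ lam₂ c F : ℝ) (a b₁ b₂ e : ℝ) : ℝ :=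
  (a ^ A * (b₁ ^ B₁ * (lam₁ - a - b₁) ^ Z₁) * (b₂ ^ B₂ * (lam₂ - a - b₂) ^ Z₂) *
        (e ^ E * ((1 - (θ₁ - a - b₁) - (θ₂ - a - b₂) - e) * (c - b₁ - b₂ - e)))) / F

/-- the test integrand -/
noncomputable def HH (E B₁ B₂ Z₁ Z₂ A : ℕ) (θ₁ θ₂ δ a₀ r c F : ℝ) (p : Fin 6 → ℝ) : ENNReal :=
  if a₀ < p 0 ∧ p 0 ≤ θ₂ - δ ∧ 0 < p 1 ∧ p 1 ≤ θ₁ - δ - p 0 ∧ 0 < p 2 ∧ p 2 ≤ θ₂ - δ - p 0 ∧
      0 < p 3 ∧ p 3 ≤ r - p 1 - p 2 then
    ENNReal.ofReal (WW E B₁ B₂ Z₁ Z₂ A θ₁ θ₂ (θ₁ - δ) (θ₂ - δ) c F (p 0) (p 1) (p 2) (p 3) *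
      (hat θ₁ δ (p 4 + p 1 + p 0) * hat θ₂ δ (p 5 + p 2 + p 0)))
  else 0

lemma HH_meas (E B₁ B₂ Z₁ Z₂ A : ℕ) (θ₁ θ₂ δ a₀ r c F : ℝ) :
    Measurable (HH E B₁ B₂ Z₁ Z₂ A θ₁ θ₂ δ a₀ r c F) := by
  have hm := fun i : Fin 6 => measurable_pi_apply (X := fun _ : Fin 6 => ℝ) i
  have hh : ∀ θ : ℝ, Measurable (hat θ δ) := fun θ => (Pool.Agent.EvenMoment.ShD.hat_cont θ δ).measurable
  unfold HH
  refine Measurable.ite ?_ ?_ measurable_const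
  · refine MeasurableSet.inter (measurableSet_lt measurable_const (hm 0)) ?_
    refine MeasurableSet.inter (measurableSet_le (hm 0) measurable_const) ?_
    refine MeasurableSet.inter (measurableSet_lt measurable_const (hm 1)) ?_
    refine MeasurableSet.inter (measurableSet_le (hm 1) (by fun_prop)) ?_
    refine MeasurableSet.inter (measurableSet_lt measurable_const (hm 2)) ?_
    refine MeasurableSet.inter (measurableSet_le (hm 2) (by fun_prop)) ?_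
    refine MeasurableSet.inter (measurableSet_lt measurable_const (hm 3)) ?_
    exact measurableSet_le (hm 3) (by fun_prop)
  · refine ENNReal.measurable_ofReal.comp ?_
    have h1 : Measurable fun p : Fin 6 → ℝ =>
        WW E B₁ B₂ Z₁ Z₂ A θ₁ θ₂ (θ₁ - δ) (θ₂ - δ) c F (p 0) (p 1) (p 2) (p 3) := by
      unfold WW
      fun_prop
    have h3 : Measurable fun p : Fin 6 → ℝ => hat θ₁ δ (p 4 + p 1 + p 0) :=
      (hh θ₁).comp (by fun_prop)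
    have h4 : Measurable fun p : Fin 6 → ℝ => hat θ₂ δ (p 5 + p 2 + p 0) :=
      (hh θ₂).comp (by fun_prop)
    exact h1.mul (h3.mul h4)

lemma GX_eq (s : Fin 4 → ℝ) (c ρ η θ₁ θ₂ δ : ℝ) : GX fc ![gR c ρ η, hat θ₁ δ, hat θ₂ δ] s =
    fc (s 0) * (gR c ρ η (s 1) * hat θ₁ δ (s 2) * hat θ₂ δ (s 3)) := by
  unfold GX
  rw [Fin.prod_univ_three]
  rfl

/-- the integrand is nonnegative -/
lemma G_nonneg {θ₁ θ₂ δ ρ η c : ℝ} (hδ : 0 < δ) (hη : 0 < η) (hρθ : ρ + θ₁ + θ₂ < 1) (hc : ρ ≤ c)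
    {p : Fin 6 → ℝ} (hp : ∀ i, 0 < p i) :
    0 ≤ GX fc ![gR c ρ η, hat θ₁ δ, hat θ₂ δ] (oy (SI 4) (YY p)) := by
  rw [GX_eq, oy_YY]
  simp only [Matrix.cons_val_zero, Matrix.cons_val_one, Matrix.cons_val]
  have h0 := hp 0
  have h1 := hp 1
  have h2 := hp 2
  have h3 := hp 3
  have h4 := hp 4
  have h5 := hp 5
  by_cases c1 : hat θ₁ δ (p 4 + p 1 + p 0) = 0
  · simp [c1]
  by_cases c2 : hat θ₂ δ (p 5 + p 2 + p 0) = 0
  · simp [c2]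
  by_cases c3 : chi ρ η (p 3 + p 1 + p 2) = 0
  · simp [gR, c3]
  have d1 := Pool.Agent.EvenMoment.ShD.hat_supp hδ c1
  have d2 := Pool.Agent.EvenMoment.ShD.hat_supp hδ c2
  have d3 := chi_supp hη c3
  have f1 : 0 ≤ fc (p 3 + p 4 + p 5) := by
    rw [fc_eq (by linarith)]; linarith
  have f2 : 0 ≤ gR c ρ η (p 3 + p 1 + p 2) := by
    unfold gR
    exact mul_nonneg (by linarith) (chi_nonneg _ _ _)
  have f3 := Pool.Agent.EvenMoment.ShD.hat_nonneg θ₁ δ (p 4 + p 1 + p 0)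
  have f4 := Pool.Agent.EvenMoment.ShD.hat_nonneg θ₂ δ (p 5 + p 2 + p 0)
  exact mul_nonneg f1 (mul_nonneg (mul_nonneg f2 f3) f4)

/-- pointwise comparison -/
lemma HH_le {a b₁ b₂ : ℕ} (ha : 0 < a) (hb₁ : 0 < b₁) (hb₂ : 0 < b₂)
    {θ₁ θ₂ δ ρ η c a₀ : ℝ} (hδ : 0 < δ) (hη : 0 < η)
    (hρθ : ρ + θ₁ + θ₂ < 1) (ha₀ : 0 ≤ a₀) (hc : ρ ≤ c) (p : Fin 6 → ℝ) :
    HH (2 * a - 1) (2 * a * b₁ - 1) (2 * a * b₂ - 1) (2 * b₁ - 1) (2 * b₂ - 1)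
      (2 * b₁ * b₂ - 1) θ₁ θ₂ δ a₀ (ρ - η) c (FF a b₁ b₂) p ≤
      {p : Fin 6 → ℝ | ∀ i, 0 < p i}.indicator
      (fun p => ENNReal.ofReal (dens (hX ![pn a, pn b₁, pn b₂]) (YY p) *
        GX fc ![gR c ρ η, hat θ₁ δ, hat θ₂ δ] (oy (SI 4) (YY p)))) p := by
  unfold HH
  split_ifs with hcc
  · obtain ⟨a1, a2, a3, a4, a5, a6, a7, a8⟩ := hcc
    by_cases c1 : hat θ₁ δ (p 4 + p 1 + p 0) = 0
    · simp [c1]
    by_cases c2 : hat θ₂ δ (p 5 + p 2 + p 0) = 0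
    · simp [c2]
    have d1 := Pool.Agent.EvenMoment.ShD.hat_supp hδ c1
    have d2 := Pool.Agent.EvenMoment.ShD.hat_supp hδ c2
    have q0 : 0 < p 0 := by linarith
    have q4 : 0 < p 4 := by linarith
    have q5 : 0 < p 5 := by linarith
    have hp : ∀ i, 0 < p i := by
      intro i
      fin_cases i
      · exact q0
      · exact a3
      · exact a5
      · exact a7
      · exact q4
      · exact q5
    rw [Set.indicator_of_mem (by exact hp)]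
    refine ENNReal.ofReal_le_ofReal ?_
    rw [dens_YY ha hb₁ hb₂ p, GX_eq, oy_YY]
    simp only [Matrix.cons_val_zero, Matrix.cons_val_one, Matrix.cons_val]
    unfold gR
    rw [chi_eq hη (by linarith), fc_eq (by linarith), mul_one]
    have f3 := Pool.Agent.EvenMoment.ShD.hat_nonneg θ₁ δ (p 4 + p 1 + p 0)
    have f4 := Pool.Agent.EvenMoment.ShD.hat_nonneg θ₂ δ (p 5 + p 2 + p 0)
    have hF := FF_pos a b₁ b₂
    have l1 : (θ₁ - δ - p 0 - p 1) ^ (2 * b₁ - 1) ≤ p 4 ^ (2 * b₁ - 1) :=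
      pow_le_pow_left₀ (by linarith) (by linarith) _
    have l2 : (θ₂ - δ - p 0 - p 2) ^ (2 * b₂ - 1) ≤ p 5 ^ (2 * b₂ - 1) :=
      pow_le_pow_left₀ (by linarith) (by linarith) _
    have l1' : 0 ≤ (θ₁ - δ - p 0 - p 1) ^ (2 * b₁ - 1) := pow_nonneg (by linarith) _
    have l2' : 0 ≤ (θ₂ - δ - p 0 - p 2) ^ (2 * b₂ - 1) := pow_nonneg (by linarith) _
    have e0 : 0 ≤ p 0 ^ (2 * b₁ * b₂ - 1) := pow_nonneg q0.le _
    have e1 : 0 ≤ p 1 ^ (2 * a * b₁ - 1) := pow_nonneg a3.le _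
    have e2 : 0 ≤ p 2 ^ (2 * a * b₂ - 1) := pow_nonneg a5.le _
    have e3 : 0 ≤ p 3 ^ (2 * a - 1) := pow_nonneg a7.le _
    have g1 : p 0 ^ (2 * b₁ * b₂ - 1) * (p 1 ^ (2 * a * b₁ - 1) * (θ₁ - δ - p 0 - p 1) ^ (2 * b₁ - 1)) ≤
        p 0 ^ (2 * b₁ * b₂ - 1) * (p 1 ^ (2 * a * b₁ - 1) * p 4 ^ (2 * b₁ - 1)) :=
      mul_le_mul_of_nonneg_left (mul_le_mul_of_nonneg_left l1 e1) e0
    have g2 : p 2 ^ (2 * a * b₂ - 1) * (θ₂ - δ - p 0 - p 2) ^ (2 * b₂ - 1) ≤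
        p 2 ^ (2 * a * b₂ - 1) * p 5 ^ (2 * b₂ - 1) := mul_le_mul_of_nonneg_left l2 e2
    have g3 := mul_le_mul g1 g2 (mul_nonneg e2 l2') (le_trans (mul_nonneg e0 (mul_nonneg e1 l1')) g1)
    have t1 : 0 ≤ 1 - (θ₁ - p 0 - p 1) - (θ₂ - p 0 - p 2) - p 3 := by linarith
    have t2 : 0 ≤ c - p 1 - p 2 - p 3 := by linarith
    have t3 : 1 - (θ₁ - p 0 - p 1) - (θ₂ - p 0 - p 2) - p 3 ≤ 1 - (p 3 + p 4 + p 5) := by linarith
    have g4 : p 3 ^ (2 * a - 1) * ((1 - (θ₁ - p 0 - p 1) - (θ₂ - p 0 - p 2) - p 3) *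
        (c - p 1 - p 2 - p 3)) ≤ p 3 ^ (2 * a - 1) * ((1 - (p 3 + p 4 + p 5)) *
        (c - p 1 - p 2 - p 3)) :=
      mul_le_mul_of_nonneg_left (mul_le_mul_of_nonneg_right t3 t2) e3
    have g5 := mul_le_mul g3 g4 (mul_nonneg e3 (mul_nonneg t1 t2))
      (le_trans (mul_nonneg (mul_nonneg e0 (mul_nonneg e1 l1')) (mul_nonneg e2 l2')) g3)
    have g6 := div_le_div_of_nonneg_right g5 hF.le
    have g7 := mul_le_mul_of_nonneg_right g6 (mul_nonneg f3 f4)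
    unfold WW
    calc _ ≤ _ := g7
      _ = _ := by ring
  · exact zero_le

/-! ### the integral of the test integrand -/

lemma hat2_lint {θ₁ θ₂ δ : ℝ} (hδ : 0 < δ) {A : ℝ} (hA : 0 ≤ A) (s t s' t' : ℝ) :
    ∫⁻ f : ℝ, ∫⁻ g : ℝ, ENNReal.ofReal (A * (hat θ₁ δ (f + s + t) * hat θ₂ δ (g + s' + t'))) =
      ENNReal.ofReal A * (ENNReal.ofReal (δ / 2) * ENNReal.ofReal (δ / 2)) := by
  have h1 : ∀ f g : ℝ, ENNReal.ofReal (A * (hat θ₁ δ (f + s + t) * hat θ₂ δ (g + s' + t'))) =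
      ENNReal.ofReal A * (ENNReal.ofReal (hat θ₁ δ (f + (s + t))) *
        ENNReal.ofReal (hat θ₂ δ (g + (s' + t')))) := by
    intro f g
    rw [ENNReal.ofReal_mul hA, ENNReal.ofReal_mul (Pool.Agent.EvenMoment.ShD.hat_nonneg _ _ _),
      add_assoc, add_assoc]
  simp_rw [h1]
  simp_rw [lintegral_const_mul' _ _ ENNReal.ofReal_ne_top]
  rw [hat_lint hδ, lintegral_mul_const' _ _ ENNReal.ofReal_ne_top, hat_lint hδ]

lemma lint_HH (E B₁ B₂ Z₁ Z₂ A : ℕ) {θ₁ θ₂ δ a₀ r c F : ℝ} (hδ : 0 < δ) (h21 : θ₂ ≤ θ₁)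
    (ha₀' : a₀ ≤ θ₂ - δ) (hr : (θ₁ - δ) + (θ₂ - δ) - 2 * a₀ ≤ r) :
    ENNReal.ofReal ((δ / 2) ^ 2 * (NN4 E B₁ B₂ Z₁ Z₂ A θ₁ θ₂ (θ₁ - δ) (θ₂ - δ) a₀ r c / F)) ≤
      ∫⁻ p, HH E B₁ B₂ Z₁ Z₂ A θ₁ θ₂ δ a₀ r c F p := by
  rw [lint_six (HH_meas E B₁ B₂ Z₁ Z₂ A θ₁ θ₂ δ a₀ r c F)]
  have e1 : (δ / 2) ^ 2 * (NN4 E B₁ B₂ Z₁ Z₂ A θ₁ θ₂ (θ₁ - δ) (θ₂ - δ) a₀ r c / F) =
      ((δ / 2) ^ 2 / F) * NN4 E B₁ B₂ Z₁ Z₂ A θ₁ θ₂ (θ₁ - δ) (θ₂ - δ) a₀ r c := by ring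
  rw [e1]
  unfold NN4
  rw [← intervalIntegral.integral_const_mul, intervalIntegral.integral_of_le ha₀']
  refine (ofReal_integral_le _ _).trans ?_
  refine lint_mono_set measurableSet_Ioc fun a hac => ?_
  rw [← intervalIntegral.integral_const_mul,
    intervalIntegral.integral_of_le (by linarith [hac.2])]
  refine (ofReal_integral_le _ _).trans ?_
  refine lint_mono_set measurableSet_Ioc fun b hb => ?_
  rw [← intervalIntegral.integral_const_mul,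
    intervalIntegral.integral_of_le (by linarith [hac.2])]
  refine (ofReal_integral_le _ _).trans ?_
  refine lint_mono_set measurableSet_Ioc fun b' hb' => ?_
  rw [← intervalIntegral.integral_const_mul,
    intervalIntegral.integral_of_le (by linarith [hac.1, hb.2, hb'.2])]
  refine (ofReal_integral_le _ _).trans ?_
  refine lint_mono_set measurableSet_Ioc fun y hy => ?_
  have hcond : a₀ < a ∧ a ≤ θ₂ - δ ∧ 0 < b ∧ b ≤ θ₁ - δ - a ∧ 0 < b' ∧ b' ≤ θ₂ - δ - a ∧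
      0 < y ∧ y ≤ r - b - b' := ⟨hac.1, hac.2, hb.1, hb.2, hb'.1, hb'.2, hy.1, hy.2⟩
  have hH : ∀ f g : ℝ, HH E B₁ B₂ Z₁ Z₂ A θ₁ θ₂ δ a₀ r c F ![a, b, b', y, f, g] =
      ENNReal.ofReal (WW E B₁ B₂ Z₁ Z₂ A θ₁ θ₂ (θ₁ - δ) (θ₂ - δ) c F a b b' y *
      (hat θ₁ δ (f + b + a) * hat θ₂ δ (g + b' + a))) := by
    intro f g
    unfold HH
    simp only [Matrix.cons_val_zero, Matrix.cons_val_one, Matrix.cons_val]
    rw [if_pos hcond]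
  simp_rw [hH]
  have e2 : (δ / 2) ^ 2 / F * (a ^ A * (b ^ B₁ * (θ₁ - δ - a - b) ^ Z₁) * (b' ^ B₂ * (θ₂ - δ - a - b') ^ Z₂) *
      (y ^ E * ((1 - (θ₁ - a - b) - (θ₂ - a - b') - y) * (c - b - b' - y)))) =
      WW E B₁ B₂ Z₁ Z₂ A θ₁ θ₂ (θ₁ - δ) (θ₂ - δ) c F a b b' y * ((δ / 2) * (δ / 2)) := by
    unfold WW
    ring
  rw [e2]
  by_cases hA : 0 ≤ WW E B₁ B₂ Z₁ Z₂ A θ₁ θ₂ (θ₁ - δ) (θ₂ - δ) c F a b b' y
  · rw [hat2_lint hδ hA, ← ENNReal.ofReal_mul (by linarith), ← ENNReal.ofReal_mul hA]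
  · push Not at hA
    have : WW E B₁ B₂ Z₁ Z₂ A θ₁ θ₂ (θ₁ - δ) (θ₂ - δ) c F a b b' y * ((δ / 2) * (δ / 2)) ≤ 0 :=
      mul_nonpos_of_nonpos_of_nonneg hA.le (by positivity)
    rw [ENNReal.ofReal_of_nonpos this]
    exact zero_le

theorem ge_aux {a b₁ b₂ : ℕ} (ha : 0 < a) (hb₁ : 0 < b₁) (hb₂ : 0 < b₂)
    {θ₁ θ₂ δ ρ η c a₀ : ℝ} (hδ : 0 < δ) (h21 : θ₂ ≤ θ₁) (hη : 0 < η)
    (hρθ : ρ + θ₁ + θ₂ < 1) (ha₀ : 0 ≤ a₀) (ha₀' : a₀ ≤ θ₂ - δ)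
    (hr : (θ₁ - δ) + (θ₂ - δ) - 2 * a₀ ≤ ρ - η) (hc : ρ ≤ c)
    (hint : IntegrableOn (fun y : Ed 4 → ℝ => dens (hX ![pn a, pn b₁, pn b₂]) y *
      GX fc ![gR c ρ η, hat θ₁ δ, hat θ₂ δ] (oy (SI 4) y)) {y : Ed 4 → ℝ | ∀ e, 0 < y e}) :
    (δ / 2) ^ 2 * (NN4 (2 * a - 1) (2 * a * b₁ - 1) (2 * a * b₂ - 1) (2 * b₁ - 1) (2 * b₂ - 1)
      (2 * b₁ * b₂ - 1) θ₁ θ₂ (θ₁ - δ) (θ₂ - δ) a₀ (ρ - η) c / FF a b₁ b₂) ≤
      LS (hX ![pn a, pn b₁, pn b₂]) (SI 4) (GX fc ![gR c ρ η, hat θ₁ δ, hat θ₂ δ]) := by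
  have hS : MeasurableSet {y : Ed 4 → ℝ | ∀ e, 0 < y e} := by
    rw [Set.ofPred_forall]
    exact MeasurableSet.iInter fun e => measurableSet_lt measurable_const (measurable_pi_apply e)
  have hpre : YY ⁻¹' {y : Ed 4 → ℝ | ∀ e, 0 < y e} = {p : Fin 6 → ℝ | ∀ i, 0 < p i} := by
    ext p
    simp only [Set.mem_preimage, Set.mem_ofPred_eq]
    rw [forall_ed']
    simp only [YY_ap]
  have hS' : MeasurableSet {p : Fin 6 → ℝ | ∀ i, 0 < p i} := by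
    rw [← hpre]
    exact YY.measurable hS
  have hnn : ∀ p : Fin 6 → ℝ, p ∈ {p : Fin 6 → ℝ | ∀ i, 0 < p i} →
      0 ≤ dens (hX ![pn a, pn b₁, pn b₂]) (YY p) *
        GX fc ![gR c ρ η, hat θ₁ δ, hat θ₂ δ] (oy (SI 4) (YY p)) := by
    intro p hp
    refine mul_nonneg ?_ (G_nonneg hδ hη hρθ hc hp)
    rw [dens_YY ha hb₁ hb₂]
    have h0 := hp 0
    have h1 := hp 1
    have h2 := hp 2
    have h3 := hp 3
    have h4 := hp 4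
    have h5 := hp 5
    have := FF_pos a b₁ b₂
    positivity
  have h1 : LS (hX ![pn a, pn b₁, pn b₂]) (SI 4) (GX fc ![gR c ρ η, hat θ₁ δ, hat θ₂ δ]) =
      ∫ p in {p : Fin 6 → ℝ | ∀ i, 0 < p i}, dens (hX ![pn a, pn b₁, pn b₂]) (YY p) *
        GX fc ![gR c ρ η, hat θ₁ δ, hat θ₂ δ] (oy (SI 4) (YY p)) := by
    unfold LS
    rw [← hpre, ← YY_mp.setIntegral_preimage_emb YY.measurableEmbedding]
  have hint' : IntegrableOn (fun p : Fin 6 → ℝ => dens (hX ![pn a, pn b₁, pn b₂]) (YY p) *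
        GX fc ![gR c ρ η, hat θ₁ δ, hat θ₂ δ] (oy (SI 4) (YY p)))
      {p : Fin 6 → ℝ | ∀ i, 0 < p i} := by
    rw [← hpre]
    exact (YY_mp.integrableOn_comp_preimage YY.measurableEmbedding).mpr hint
  have h2 : ENNReal.ofReal (LS (hX ![pn a, pn b₁, pn b₂]) (SI 4)
      (GX fc ![gR c ρ η, hat θ₁ δ, hat θ₂ δ])) =
      ∫⁻ p in {p : Fin 6 → ℝ | ∀ i, 0 < p i}, ENNReal.ofReal
        (dens (hX ![pn a, pn b₁, pn b₂]) (YY p) *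
        GX fc ![gR c ρ η, hat θ₁ δ, hat θ₂ δ] (oy (SI 4) (YY p))) := by
    rw [h1]
    exact ofReal_integral_eq_lintegral_ofReal hint'
      ((ae_restrict_iff' hS').mpr (Eventually.of_forall hnn))
  have h3 : 0 ≤ LS (hX ![pn a, pn b₁, pn b₂]) (SI 4) (GX fc ![gR c ρ η, hat θ₁ δ, hat θ₂ δ]) := by
    rw [h1]
    exact setIntegral_nonneg hS' hnn
  rw [← ENNReal.ofReal_le_ofReal_iff h3, h2]
  refine (lint_HH _ _ _ _ _ _ hδ h21 ha₀' hr).trans ?_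
  rw [← lintegral_indicator hS']
  exact lintegral_mono fun p => HH_le ha hb₁ hb₂ hδ hη hρθ ha₀ hc p

end NFour

open NFour in
theorem LS_four_ge {a b₁ b₂ : ℕ} (ha : 0 < a) (hb₁ : 0 < b₁) (hb₂ : 0 < b₂)
    {θ₁ θ₂ δ ρ η c a₀ : ℝ} (hδ : 0 < δ) (hδθ : δ < θ₂) (h21 : θ₂ ≤ θ₁) (hη : 0 < η)
    (hρθ : ρ + θ₁ + θ₂ < 1) (ha₀ : 0 ≤ a₀) (ha₀' : a₀ ≤ θ₂ - δ)
    (hr : (θ₁ - δ) + (θ₂ - δ) - 2 * a₀ ≤ ρ - η) (hc : ρ ≤ c) :
    (δ / 2) ^ 2 * (NN4 (2 * a - 1) (2 * a * b₁ - 1) (2 * a * b₂ - 1) (2 * b₁ - 1) (2 * b₂ - 1)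
      (2 * b₁ * b₂ - 1) θ₁ θ₂ (θ₁ - δ) (θ₂ - δ) a₀ (ρ - η) c /
      ((Nat.factorial (2 * a - 1) : ℝ) * Nat.factorial (2 * a * b₁ - 1) *
        Nat.factorial (2 * a * b₂ - 1) * Nat.factorial (2 * b₁ - 1) *
        Nat.factorial (2 * b₂ - 1) * Nat.factorial (2 * b₁ * b₂ - 1))) ≤
      LS (hX ![pn a, pn b₁, pn b₂]) (SI 4) (GX fc ![gR c ρ η, hat θ₁ δ, hat θ₂ δ]) := by
  refine ge_aux ha hb₁ hb₂ hδ h21 hη hρθ ha₀ ha₀' hr hc ?_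
  refine LS_integrable (hX ![pn a, pn b₁, pn b₂]) (SI 4) (by decide) ?_ 2 ?_
  · have h1 : Continuous fc := by unfold fc cut; fun_prop
    have h2 : Continuous (hat θ₁ δ) := Pool.Agent.EvenMoment.ShD.hat_cont θ₁ δ
    have h2' : Continuous (hat θ₂ δ) := Pool.Agent.EvenMoment.ShD.hat_cont θ₂ δ
    have h3 : Continuous (gR c ρ η) := by unfold gR chi; fun_prop
    have h4 : GX fc ![gR c ρ η, hat θ₁ δ, hat θ₂ δ] = fun s : Fin 4 → ℝ =>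
        fc (s 0) * (gR c ρ η (s 1) * hat θ₁ δ (s 2) * hat θ₂ δ (s 3)) :=
      funext fun s => GX_eq s c ρ η θ₁ θ₂ δ
    rw [h4]
    exact (h1.comp (continuous_apply 0)).mul (((h3.comp (continuous_apply 1)).mul
      (h2.comp (continuous_apply 2))).mul (h2'.comp (continuous_apply 3)))
  · rintro s ⟨κ, hκ⟩
    have f : ∀ t : ℝ, 2 ≤ t → fc t = 0 := by
      intro t ht
      unfold fc cut
      rw [max_eq_left ((min_le_right _ _).trans (by linarith)), mul_zero]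
    have g : ∀ θ : ℝ, θ ≤ 2 → ∀ t : ℝ, 2 ≤ t → hat θ δ t = 0 := by
      intro θ hθ t ht
      by_contra hcon
      have := (Pool.Agent.EvenMoment.ShD.hat_supp hδ hcon).2
      linarith
    have k : ∀ t : ℝ, 2 ≤ t → gR c ρ η t = 0 := by
      intro t ht
      unfold gR
      by_cases hcon : chi ρ η t = 0
      · rw [hcon, mul_zero]
      · have := Pool.Agent.SixthMoment.ShZ.chi_supp hη hcon
        linarith
    rw [GX_eq]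
    fin_cases κ
    · rw [f (s 0) hκ]; ring
    · rw [k (s 1) hκ]; ring
    · rw [g θ₁ (by linarith) (s 2) hκ]; ring
    · rw [g θ₂ (by linarith) (s 3) hκ]; ring

end Pool.Agent.GenMoment
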