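import Mathlib
import Pool.Agent.Lib_MP_112ba8_g.DefsB
import Pool.Agent.Lib_MP_112ba8_g.KTwo
import Pool.Agent.Lib_MP_112ba8_g.LSexp
import Pool.Agent.Lib_MP_112ba8_s.ShellZ

/-!
Piece NTHREE: lower bound for the main term with three vertices `x (0), R (1), U (2)`
(adapted from `Lib_MP_112ba8_s/ShellZ.lean`).

Edges `e = y01` (exponent `2 a`), `z = y02` (exponent `2 b`), `b = y12` (exponent `2 a b`); observables
`s0 = e + z`, `s1 = e + b`, `s2 = z + b`.  Restrict to `0 < b ≤ θ - δ`, `0 < e ≤ r - b` (`r = ρ - η`):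
on the support of `hat θ δ (z + b)` one has `θ - δ - b < z < θ - b`, so `z^(2b-1) ≥ (lam - b)^(2b-1)`,
`1 - s0 ≥ 1 - (θ - b) - e > 0`, `cut = 1`, `chi = 1`, and `∫ hat (z + b) dz = δ/2`
(`ShZ.hat_lint`).  The integrand is nonnegative everywhere: on the support of `chi` and `hat`,
`s0 ≤ s1 + s2 ≤ ρ + θ < 1`.  Integrability: `LS_integrable`, `sepa_SI`.
-/

namespace Pool.Agent.GenMoment

open Filter Topology MeasureTheory
open Pool.Agent.EvenMoment (cl Wgt Adm Ed cut hat)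
open Pool.Agent.SixthMoment (QQ ln fr osc QS TT ob sepa oy xe JZ fc chi)

namespace N3

open Pool.Agent.SixthMoment.ShZ (ofReal_integral_le lint_mono_set lint_succ lint_one fc_eq chi_eq
  chi_nonneg chi_supp hat_lint)

lemma lint_three {F : (Fin 3 → ℝ) → ENNReal} (hF : Measurable F) :
    ∫⁻ p, F p = ∫⁻ b : ℝ, ∫⁻ e : ℝ, ∫⁻ z : ℝ, F ![b, e, z] := by
  have hc : ∀ (n : ℕ) (x : ℝ), Measurable fun p : Fin n → ℝ =>
      (Fin.cons x p : Fin (n + 1) → ℝ) := by
    intro n x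
    refine measurable_pi_lambda _ fun i => ?_
    refine Fin.cases ?_ (fun j => ?_) i
    · simp only [Fin.cons_zero]; exact measurable_const
    · simp only [Fin.cons_succ]; exact measurable_pi_apply j
  rw [lint_succ hF]
  refine lintegral_congr fun b => ?_
  rw [lint_succ (F := fun p => F (Fin.cons b p)) (hF.comp (hc _ _))]
  refine lintegral_congr fun e => ?_
  rw [lint_one (F := fun p => F (Fin.cons b (Fin.cons e p)))
    (hF.comp ((hc _ _).comp (hc _ _)))]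
  rfl

/-- the edges of the complete graph on three vertices, in the order of integration -/
def edF : Fin 3 → Ed 3 :=
  ![⟨(1, 2), by decide⟩, ⟨(0, 1), by decide⟩, ⟨(0, 2), by decide⟩]

/-- the same as an equivalence -/
noncomputable def edE : Fin 3 ≃ Ed 3 := Equiv.ofBijective edF (by decide)

/-- the change of variables -/
noncomputable def YY : (Fin 3 → ℝ) ≃ᵐ (Ed 3 → ℝ) :=
  MeasurableEquiv.piCongrLeft (fun _ : Ed 3 => ℝ) edE

lemma YY_mp : MeasurePreserving YY volume volume :=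
  volume_measurePreserving_piCongrLeft (fun _ : Ed 3 => ℝ) edE

lemma YY_ap (p : Fin 3 → ℝ) (i : Fin 3) : YY p (edE i) = p i := by
  unfold YY
  rw [MeasurableEquiv.coe_piCongrLeft, Equiv.piCongrLeft_apply_apply]

lemma forall_ed (P : Ed 3 → Prop) : (∀ e, P e) ↔ ∀ i, P (edE i) :=
  ⟨fun h i => h _, fun h e => by
    obtain ⟨i, rfl⟩ := edE.surjective e
    exact h i⟩

lemma sum_ed (F : Ed 3 → ℝ) : ∑ e, F e = F (edE 0) + F (edE 1) + F (edE 2) := by
  rw [← Equiv.sum_comp edE, Fin.sum_univ_three]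

lemma prod_ed (F : Ed 3 → ℝ) : ∏ e, F e = F (edE 0) * F (edE 1) * F (edE 2) := by
  rw [← Equiv.prod_comp edE, Fin.prod_univ_three]

lemma ed0 : (edE 0).1 = (1, 2) := rfl
lemma ed1 : (edE 1).1 = (0, 1) := rfl
lemma ed2 : (edE 2).1 = (0, 2) := rfl

/-- the observables in the new variables: `p = (b, e, z)` -/
lemma oy_YY (p : Fin 3 → ℝ) : oy (SI 3) (YY p) =
    ![p 1 + p 2, p 0 + p 1, p 0 + p 2] := by
  funext κ
  unfold oy
  rw [sum_ed]
  simp only [YY_ap]
  fin_cases κ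
  · simp [sepa, SI, ed0, ed1, ed2]
  · simp [sepa, SI, ed0, ed1, ed2]
  · simp [sepa, SI, ed0, ed1, ed2]

lemma one_edge {n : ℕ} (hn : 0 < n) {k : ℝ} (hk : k = (n : ℝ)) (x : ℝ) :
    x ^ (k - 1) / Real.Gamma k = x ^ (n - 1) / (Nat.factorial (n - 1) : ℝ) := by
  obtain ⟨m, rfl⟩ : ∃ m, n = m + 1 := ⟨n - 1, by omega⟩
  subst hk
  rw [Nat.add_sub_cancel, Nat.cast_add, Nat.cast_one, Real.Gamma_nat_eq_factorial,
    add_sub_cancel_right, Real.rpow_natCast]

/-- the density in the new variables -/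
lemma dens_YY {a b : ℕ} (ha : 0 < a) (hb : 0 < b) (p : Fin 3 → ℝ) :
    dens (hX ![pn a, pn b]) (YY p) =
      (p 0 ^ (2 * a * b - 1) / (Nat.factorial (2 * a * b - 1) : ℝ)) *
      (p 1 ^ (2 * a - 1) / (Nat.factorial (2 * a - 1) : ℝ)) *
      (p 2 ^ (2 * b - 1) / (Nat.factorial (2 * b - 1) : ℝ)) := by
  have k0 : ke (hX ![pn a, pn b]) (edE 0) = ((2 * a * b : ℕ) : ℝ) := by
    have h1 : (hX ![pn a, pn b]) (edE 0).1.1 = pn a := rfl
    have h2 : (hX ![pn a, pn b]) (edE 0).1.2 = pn b := rfl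
    unfold ke
    rw [h1, h2, pn_al ha, pn_al hb]
    push_cast
    ring
  have k1 : ke (hX ![pn a, pn b]) (edE 1) = ((2 * a : ℕ) : ℝ) := by
    have h1 : (hX ![pn a, pn b]) (edE 1).1.1 = pn 1 := rfl
    have h2 : (hX ![pn a, pn b]) (edE 1).1.2 = pn a := rfl
    unfold ke
    rw [h1, h2, pn_al one_pos, pn_al ha]
    push_cast
    ring
  have k2 : ke (hX ![pn a, pn b]) (edE 2) = ((2 * b : ℕ) : ℝ) := by
    have h1 : (hX ![pn a, pn b]) (edE 2).1.1 = pn 1 := rfl
    have h2 : (hX ![pn a, pn b]) (edE 2).1.2 = pn b := rfl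
    unfold ke
    rw [h1, h2, pn_al one_pos, pn_al hb]
    push_cast
    ring
  unfold dens
  rw [prod_ed]
  simp only [YY_ap]
  rw [one_edge (by positivity) k0, one_edge (by positivity) k1, one_edge (by positivity) k2]

/-- the test function in the new variables -/
lemma G_YY (θ δ ρ η c : ℝ) (p : Fin 3 → ℝ) :
    GX fc ![gR c ρ η, hat θ δ] (oy (SI 3) (YY p)) =
      fc (p 1 + p 2) * ((c - (p 0 + p 1)) * chi ρ η (p 0 + p 1) * hat θ δ (p 0 + p 2)) := by
  rw [oy_YY]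
  unfold GX gR
  rw [Fin.prod_univ_two]
  rfl

/-- the test integrand -/
noncomputable def HH (E B Z : ℕ) (θ δ r c : ℝ) (p : Fin 3 → ℝ) : ENNReal :=
  if 0 < p 0 ∧ p 0 ≤ θ - δ ∧ 0 < p 1 ∧ p 1 ≤ r - p 0 then
    ENNReal.ofReal ((p 0 ^ B * (θ - δ - p 0) ^ Z * (p 1 ^ E *
      ((1 - (θ - p 0) - p 1) * (c - p 0 - p 1))) /
        ((Nat.factorial E : ℝ) * Nat.factorial B * Nat.factorial Z)) * hat θ δ (p 0 + p 2))
  else 0

lemma HH_meas (E B Z : ℕ) (θ δ r c : ℝ) : Measurable (HH E B Z θ δ r c) := by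
  have hm := fun i : Fin 3 => measurable_pi_apply (X := fun _ : Fin 3 => ℝ) i
  have hh : Measurable (hat θ δ) := (Pool.Agent.EvenMoment.ShD.hat_cont θ δ).measurable
  unfold HH
  refine Measurable.ite ?_ ?_ measurable_const
  · refine MeasurableSet.inter (measurableSet_lt measurable_const (hm 0)) ?_
    refine MeasurableSet.inter (measurableSet_le (hm 0) measurable_const) ?_
    refine MeasurableSet.inter (measurableSet_lt measurable_const (hm 1)) ?_
    exact measurableSet_le (hm 1) (by fun_prop)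
  · refine ENNReal.measurable_ofReal.comp ?_
    have h3 : Measurable fun p : Fin 3 → ℝ => hat θ δ (p 0 + p 2) :=
      hh.comp (by fun_prop)
    exact Measurable.mul (by fun_prop) h3

/-- the integrand is nonnegative -/
lemma G_nonneg {θ δ ρ η c : ℝ} (hδ : 0 < δ) (hη : 0 < η) (hρθ : ρ + θ < 1) (hc : ρ ≤ c)
    {p : Fin 3 → ℝ} (hp : ∀ i, 0 < p i) :
    0 ≤ GX fc ![gR c ρ η, hat θ δ] (oy (SI 3) (YY p)) := by
  rw [G_YY]
  have h0 := hp 0
  have h1 := hp 1
  have h2 := hp 2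
  by_cases c1 : hat θ δ (p 0 + p 2) = 0
  · simp [c1]
  by_cases c3 : chi ρ η (p 0 + p 1) = 0
  · simp [c3]
  have d1 := Pool.Agent.EvenMoment.ShD.hat_supp hδ c1
  have d3 := chi_supp hη c3
  have f1 : 0 ≤ fc (p 1 + p 2) := by
    rw [fc_eq (by linarith)]; linarith
  have f3 := Pool.Agent.EvenMoment.ShD.hat_nonneg θ δ (p 0 + p 2)
  have f5 := chi_nonneg ρ η (p 0 + p 1)
  exact mul_nonneg f1 (mul_nonneg (mul_nonneg (by linarith) f5) f3)

/-- pointwise comparison -/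
lemma HH_le {a b : ℕ} (ha : 0 < a) (hb : 0 < b) {θ δ ρ η c : ℝ} (hδ : 0 < δ) (hη : 0 < η)
    (hρθ : ρ + θ < 1) (hc : ρ ≤ c) (p : Fin 3 → ℝ) :
    HH (2 * a - 1) (2 * a * b - 1) (2 * b - 1) θ δ (ρ - η) c p ≤
      {p : Fin 3 → ℝ | ∀ i, 0 < p i}.indicator
      (fun p => ENNReal.ofReal (dens (hX ![pn a, pn b]) (YY p) *
        GX fc ![gR c ρ η, hat θ δ] (oy (SI 3) (YY p)))) p := by
  unfold HH
  split_ifs with hcond
  · obtain ⟨a1, a2, a3, a4⟩ := hcond
    by_cases c1 : hat θ δ (p 0 + p 2) = 0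
    · simp [c1]
    have d1 := Pool.Agent.EvenMoment.ShD.hat_supp hδ c1
    have hp : ∀ i, 0 < p i := by
      intro i
      fin_cases i
      · exact a1
      · exact a3
      · show 0 < p 2
        linarith
    rw [Set.indicator_of_mem (by exact hp)]
    refine ENNReal.ofReal_le_ofReal ?_
    rw [dens_YY ha hb, G_YY]
    rw [chi_eq hη (by linarith), fc_eq (by linarith), mul_one]
    have f3 := Pool.Agent.EvenMoment.ShD.hat_nonneg θ δ (p 0 + p 2)
    have hz : (θ - δ - p 0) ^ (2 * b - 1) ≤ p 2 ^ (2 * b - 1) :=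
      pow_le_pow_left₀ (by linarith) (by linarith) _
    have hz0 : 0 ≤ (θ - δ - p 0) ^ (2 * b - 1) := pow_nonneg (by linarith) _
    have hb0 : 0 ≤ p 0 ^ (2 * a * b - 1) := pow_nonneg a1.le _
    have he0 : 0 ≤ p 1 ^ (2 * a - 1) := pow_nonneg a3.le _
    have hF : (0 : ℝ) < (Nat.factorial (2 * a - 1) : ℝ) * Nat.factorial (2 * a * b - 1) *
        Nat.factorial (2 * b - 1) := by positivity
    have g1 : 1 - (θ - p 0) - p 1 ≤ 1 - (p 1 + p 2) := by linarith
    have g0 : 0 ≤ 1 - (θ - p 0) - p 1 := by linarith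
    have g3 : 0 ≤ c - p 0 - p 1 := by linarith
    have g4 : (θ - δ - p 0) ^ (2 * b - 1) * (1 - (θ - p 0) - p 1) ≤
        p 2 ^ (2 * b - 1) * (1 - (p 1 + p 2)) :=
      mul_le_mul hz g1 g0 (hz0.trans hz)
    have g5 : p 0 ^ (2 * a * b - 1) * (θ - δ - p 0) ^ (2 * b - 1) * (p 1 ^ (2 * a - 1) *
      ((1 - (θ - p 0) - p 1) * (c - p 0 - p 1))) ≤
        p 0 ^ (2 * a * b - 1) * p 2 ^ (2 * b - 1) * (p 1 ^ (2 * a - 1) *
      ((1 - (p 1 + p 2)) * (c - p 0 - p 1))) := by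
      have := mul_le_mul_of_nonneg_left g4 (mul_nonneg (mul_nonneg hb0 he0) g3)
      calc _ = p 0 ^ (2 * a * b - 1) * p 1 ^ (2 * a - 1) * (c - p 0 - p 1) *
            ((θ - δ - p 0) ^ (2 * b - 1) * (1 - (θ - p 0) - p 1)) := by ring
        _ ≤ _ := this
        _ = _ := by ring
    have g6 := mul_le_mul_of_nonneg_right ((div_le_div_iff_of_pos_right hF).mpr g5) f3
    refine g6.trans (le_of_eq ?_)
    have e1 : (Nat.factorial (2 * a - 1) : ℝ) ≠ 0 := by positivity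
    have e2 : (Nat.factorial (2 * a * b - 1) : ℝ) ≠ 0 := by positivity
    have e3 : (Nat.factorial (2 * b - 1) : ℝ) ≠ 0 := by positivity
    field_simp
    ring
  · exact zero_le

lemma hat1_lint {θ δ : ℝ} (hδ : 0 < δ) {A : ℝ} (hA : 0 ≤ A) (b : ℝ) :
    ∫⁻ z : ℝ, ENNReal.ofReal (A * hat θ δ (b + z)) =
      ENNReal.ofReal A * ENNReal.ofReal (δ / 2) := by
  have h1 : ∀ z : ℝ, ENNReal.ofReal (A * hat θ δ (b + z)) =
      ENNReal.ofReal A * ENNReal.ofReal (hat θ δ (z + b)) := by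
    intro z
    rw [ENNReal.ofReal_mul hA, add_comm]
  simp_rw [h1]
  rw [lintegral_const_mul' _ _ ENNReal.ofReal_ne_top, hat_lint hδ]

lemma lint_HH (E B Z : ℕ) {θ δ r c : ℝ} (hδ : 0 < δ) (hδθ : δ < θ) (hr : θ ≤ r) :
    ENNReal.ofReal ((δ / 2) * (NN3 E B Z θ (θ - δ) r c /
      ((Nat.factorial E : ℝ) * Nat.factorial B * Nat.factorial Z))) ≤
      ∫⁻ p, HH E B Z θ δ r c p := by
  rw [lint_three (HH_meas E B Z θ δ r c)]
  unfold NN3
  rw [← intervalIntegral.integral_div, ← intervalIntegral.integral_const_mul,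
    intervalIntegral.integral_of_le (by linarith)]
  refine (ofReal_integral_le _ _).trans ?_
  refine lint_mono_set measurableSet_Ioc fun b hb => ?_
  rw [← intervalIntegral.integral_div, ← intervalIntegral.integral_const_mul,
    intervalIntegral.integral_of_le (by linarith [hb.1, hb.2])]
  refine (ofReal_integral_le _ _).trans ?_
  refine lint_mono_set measurableSet_Ioc fun e he => ?_
  have hcond : 0 < b ∧ b ≤ θ - δ ∧ 0 < e ∧ e ≤ r - b := ⟨hb.1, hb.2, he.1, he.2⟩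
  have hH : ∀ z : ℝ, HH E B Z θ δ r c ![b, e, z] =
      ENNReal.ofReal ((b ^ B * (θ - δ - b) ^ Z * (e ^ E *
      ((1 - (θ - b) - e) * (c - b - e))) /
        ((Nat.factorial E : ℝ) * Nat.factorial B * Nat.factorial Z)) * hat θ δ (b + z)) := by
    intro z
    unfold HH
    simp only [Matrix.cons_val_zero, Matrix.cons_val_one, Matrix.cons_val]
    rw [if_pos hcond]
  simp_rw [hH]
  by_cases hA : 0 ≤ (b ^ B * (θ - δ - b) ^ Z * (e ^ E *
      ((1 - (θ - b) - e) * (c - b - e))) /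
        ((Nat.factorial E : ℝ) * Nat.factorial B * Nat.factorial Z))
  · rw [hat1_lint hδ hA, ← ENNReal.ofReal_mul hA]
    refine ENNReal.ofReal_le_ofReal (le_of_eq ?_)
    ring
  · push Not at hA
    rw [ENNReal.ofReal_of_nonpos (mul_nonpos_of_nonneg_of_nonpos (by positivity) hA.le)]
    exact zero_le

end N3

open N3 in
theorem LS_three_ge {a b : ℕ} (ha : 0 < a) (hb : 0 < b) {θ δ ρ η c : ℝ} (hδ : 0 < δ)
    (hδθ : δ < θ) (hη : 0 < η) (hρθ : ρ + θ < 1) (hr : θ ≤ ρ - η) (hc : ρ ≤ c) :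
    (δ / 2) * (NN3 (2 * a - 1) (2 * a * b - 1) (2 * b - 1) θ (θ - δ) (ρ - η) c /
      ((Nat.factorial (2 * a - 1) : ℝ) * Nat.factorial (2 * a * b - 1) *
        Nat.factorial (2 * b - 1))) ≤
      LS (hX ![pn a, pn b]) (SI 3) (GX fc ![gR c ρ η, hat θ δ]) := by
  have hsep : ∀ e : Ed 3, ∃ κ, sepa (SI 3 κ) e := by decide
  have hcont : Continuous (GX fc ![gR c ρ η, hat θ δ]) := by
    have h1 : Continuous fc := by unfold fc cut; fun_prop
    have h2 : Continuous (hat θ δ) := Pool.Agent.EvenMoment.ShD.hat_cont θ δ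
    have h3 : Continuous (gR c ρ η) := by unfold gR chi; fun_prop
    have h4 : GX fc ![gR c ρ η, hat θ δ] = fun s : Fin 3 → ℝ =>
        fc (s 0) * (gR c ρ η (s 1) * hat θ δ (s 2)) := by
      funext s
      unfold GX
      rw [Fin.prod_univ_two]
      rfl
    rw [h4]
    exact (h1.comp (continuous_apply 0)).mul
      ((h3.comp (continuous_apply 1)).mul (h2.comp (continuous_apply 2)))
  have hsupp : ∀ s : Fin 3 → ℝ, (∃ κ, 2 ≤ s κ) → GX fc ![gR c ρ η, hat θ δ] s = 0 := by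
    have f : ∀ t : ℝ, 2 ≤ t → fc t = 0 := by
      intro t ht
      unfold fc cut
      rw [max_eq_left ((min_le_right _ _).trans (by linarith)), mul_zero]
    have g : ∀ t : ℝ, 2 ≤ t → hat θ δ t = 0 := by
      intro t ht
      by_contra hc
      have := (Pool.Agent.EvenMoment.ShD.hat_supp hδ hc).2
      linarith
    have k : ∀ t : ℝ, 2 ≤ t → gR c ρ η t = 0 := by
      intro t ht
      unfold gR
      by_contra hc
      have h1 : chi ρ η t ≠ 0 := fun h => hc (by rw [h, mul_zero])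
      have := Pool.Agent.SixthMoment.ShZ.chi_supp hη h1
      linarith
    rintro s ⟨κ, hκ⟩
    have h4 : GX fc ![gR c ρ η, hat θ δ] s =
        fc (s 0) * (gR c ρ η (s 1) * hat θ δ (s 2)) := by
      unfold GX
      rw [Fin.prod_univ_two]
      rfl
    rw [h4]
    fin_cases κ
    · rw [f (s 0) hκ]; ring
    · rw [k (s 1) hκ]; ring
    · rw [g (s 2) hκ]; ring
  have hint := LS_integrable (hX ![pn a, pn b]) (SI 3) hsep hcont 2 hsupp
  have hS : MeasurableSet {y : Ed 3 → ℝ | ∀ e, 0 < y e} := by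
    rw [Set.ofPred_forall]
    exact MeasurableSet.iInter fun e => measurableSet_lt measurable_const (measurable_pi_apply e)
  have hpre : YY ⁻¹' {y : Ed 3 → ℝ | ∀ e, 0 < y e} = {p : Fin 3 → ℝ | ∀ i, 0 < p i} := by
    ext p
    simp only [Set.mem_preimage, Set.mem_ofPred_eq]
    rw [forall_ed]
    simp only [YY_ap]
  have hS' : MeasurableSet {p : Fin 3 → ℝ | ∀ i, 0 < p i} := by
    rw [← hpre]
    exact YY.measurable hS
  have hnn : ∀ p : Fin 3 → ℝ, p ∈ {p : Fin 3 → ℝ | ∀ i, 0 < p i} →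
      0 ≤ dens (hX ![pn a, pn b]) (YY p) *
        GX fc ![gR c ρ η, hat θ δ] (oy (SI 3) (YY p)) := by
    intro p hp
    refine mul_nonneg ?_ (G_nonneg hδ hη hρθ hc hp)
    rw [dens_YY ha hb]
    have h0 := hp 0
    have h1 := hp 1
    have h2 := hp 2
    positivity
  have h1 : LS (hX ![pn a, pn b]) (SI 3) (GX fc ![gR c ρ η, hat θ δ]) =
      ∫ p in {p : Fin 3 → ℝ | ∀ i, 0 < p i},
        dens (hX ![pn a, pn b]) (YY p) * GX fc ![gR c ρ η, hat θ δ] (oy (SI 3) (YY p)) := by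
    unfold LS
    rw [← hpre, ← YY_mp.setIntegral_preimage_emb YY.measurableEmbedding]
  have hint' : IntegrableOn (fun p : Fin 3 → ℝ =>
      dens (hX ![pn a, pn b]) (YY p) * GX fc ![gR c ρ η, hat θ δ] (oy (SI 3) (YY p)))
      {p : Fin 3 → ℝ | ∀ i, 0 < p i} := by
    rw [← hpre]
    exact (YY_mp.integrableOn_comp_preimage YY.measurableEmbedding).mpr hint
  have h2 : ENNReal.ofReal (LS (hX ![pn a, pn b]) (SI 3) (GX fc ![gR c ρ η, hat θ δ])) =
      ∫⁻ p in {p : Fin 3 → ℝ | ∀ i, 0 < p i}, ENNReal.ofReal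
        (dens (hX ![pn a, pn b]) (YY p) *
          GX fc ![gR c ρ η, hat θ δ] (oy (SI 3) (YY p))) := by
    rw [h1]
    exact ofReal_integral_eq_lintegral_ofReal hint'
      ((ae_restrict_iff' hS').mpr (Eventually.of_forall hnn))
  have h3 : 0 ≤ LS (hX ![pn a, pn b]) (SI 3) (GX fc ![gR c ρ η, hat θ δ]) := by
    rw [h1]
    exact setIntegral_nonneg hS' hnn
  rw [← ENNReal.ofReal_le_ofReal_iff h3, h2]
  refine (lint_HH _ _ _ hδ hδθ hr).trans ?_
  rw [← lintegral_indicator hS']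
  exact lintegral_mono fun p => HH_le ha hb hδ hη hρθ hc p

end Pool.Agent.GenMoment
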