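import Mathlib
import Pool.Agent.Lib_MP_112ba8_g.DefsB
import Pool.Agent.Lib_MP_112ba8_g.BKsup

/-!
Piece TINT: evaluation of `TI m 1`.

`TI_le`: by the symmetry `u <-> v` it is twice the part `v ≤ u` (`pp` vanishes unless
`u + w < 2`, `u + v < 2`); for `u ≤ 1`: `v ∈ (0,u)`; for `1 ≤ u ≤ 2`: `v ∈ (0, 2-u)`; always
`w ∈ (0, 2-u)`; there all three factors are nonnegative.
`TJ_one`: polynomial integrals, value `2 (J₁ + J₂) = 16183/1100799504` for `m = 1`.  (Or use the closed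
form of the task TSEVEN for general `m`.)
-/

namespace Pool.Agent.GenMoment

open Filter Topology MeasureTheory
open Pool.Agent.EvenMoment (cl Wgt Adm Ed cut hat)
open Pool.Agent.SixthMoment (QQ ln fr osc QS TT ob sepa oy xe JZ fc chi)

/-- the integrand for `θ = 1` -/
noncomputable def tf (m : ℕ) (u v w : ℝ) : ℝ :=
  (u * v * w) ^ (4 * m + 2) * ((1 - (u + v) / 2) * (1 - (u + w) / 2) * (1 - (v + w) / 2)) ^ m

/-- first part -/
noncomputable def TJ1 (m : ℕ) : ℝ :=
  ∫ u in (0 : ℝ)..1, ∫ v in (0 : ℝ)..u, ∫ w in (0 : ℝ)..(2 - u), tf m u v w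

/-- second part -/
noncomputable def TJ2 (m : ℕ) : ℝ :=
  ∫ u in (1 : ℝ)..2, ∫ v in (0 : ℝ)..(2 - u), ∫ w in (0 : ℝ)..(2 - u), tf m u v w

/-- integrand in `TI m 1` -/
noncomputable def ti_gI (m : ℕ) (u v w : ℝ) : ENNReal :=
  ENNReal.ofReal ((u * v * w) ^ (4 * m + 2) *
      (pp (1 - (u + v) / 2) * pp (1 - (u + w) / 2) * pp (1 - (v + w) / 2)) ^ m)

theorem ti_pp_cont : Continuous pp := continuous_const.max continuous_id

theorem ti_gI_meas (m : ℕ) : Measurable fun x : (ℝ × ℝ) × ℝ => ti_gI m x.1.1 x.1.2 x.2 := by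
  apply Measurable.ennreal_ofReal
  apply Continuous.measurable
  have := ti_pp_cont
  fun_prop

/-- the inner integral -/
noncomputable def ti_hI (m : ℕ) (u v : ℝ) : ENNReal := ∫⁻ w in Set.Ioi (0 : ℝ), ti_gI m u v w

theorem ti_hI_meas (m : ℕ) : Measurable fun x : ℝ × ℝ => ti_hI m x.1 x.2 :=
  (ti_gI_meas m).lintegral_prod_right'

theorem ti_hI_symm (m : ℕ) (u v : ℝ) : ti_hI m u v = ti_hI m v u := by
  unfold ti_hI
  refine lintegral_congr fun w => ?_
  unfold ti_gI
  congr 1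
  rw [show u * v * w = v * u * w by ring, show (u + v) / 2 = (v + u) / 2 by ring]
  ring

theorem ti_gI_zero_uv {m : ℕ} (hm : 0 < m) {u v w : ℝ} (h : 2 ≤ u + v) : ti_gI m u v w = 0 := by
  unfold ti_gI
  have : pp (1 - (u + v) / 2) = 0 := max_eq_left (by linarith)
  rw [this]
  simp [hm.ne']

theorem ti_gI_zero_uw {m : ℕ} (hm : 0 < m) {u v w : ℝ} (h : 2 ≤ u + w) : ti_gI m u v w = 0 := by
  unfold ti_gI
  have : pp (1 - (u + w) / 2) = 0 := max_eq_left (by linarith)
  rw [this]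
  simp [hm.ne']

theorem ti_hI_zero {m : ℕ} (hm : 0 < m) {u v : ℝ} (h : 2 ≤ u + v) : ti_hI m u v = 0 := by
  unfold ti_hI
  simp [ti_gI_zero_uv hm h]

/-- the inner integral, real -/
noncomputable def ti_FI (m : ℕ) (u v : ℝ) : ℝ := ∫ w in (0 : ℝ)..(2 - u), tf m u v w

theorem ti_tf_cont (m : ℕ) : Continuous fun x : (ℝ × ℝ) × ℝ => tf m x.1.1 x.1.2 x.2 := by
  unfold tf
  fun_prop

theorem ti_FI_cont (m : ℕ) : Continuous fun x : ℝ × ℝ => ti_FI m x.1 x.2 := by
  unfold ti_FI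
  exact intervalIntegral.continuous_parametric_intervalIntegral_of_continuous
    (f := fun (x : ℝ × ℝ) (w : ℝ) => tf m x.1 x.2 w) (ti_tf_cont m)
    (s := fun x : ℝ × ℝ => 2 - x.1) (by fun_prop)

theorem ti_tf_nonneg (m : ℕ) {u v w : ℝ} (hu : 0 ≤ u) (hv : 0 ≤ v) (hw : 0 ≤ w) (h1 : u + v ≤ 2)
    (h2 : u + w ≤ 2) (h3 : v + w ≤ 2) : 0 ≤ tf m u v w := by
  unfold tf
  have a1 : 0 ≤ 1 - (u + v) / 2 := by linarith
  have a2 : 0 ≤ 1 - (u + w) / 2 := by linarith
  have a3 : 0 ≤ 1 - (v + w) / 2 := by linarith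
  positivity

theorem ti_FI_nonneg (m : ℕ) {u v : ℝ} (hu : 0 ≤ u) (hv : 0 ≤ v) (h1 : u + v ≤ 2) (h2 : v ≤ u)
    (h3 : u ≤ 2) : 0 ≤ ti_FI m u v := by
  unfold ti_FI
  refine intervalIntegral.integral_nonneg (by linarith) fun w hw => ?_
  exact ti_tf_nonneg m hu hv hw.1 h1 (by linarith [hw.2]) (by linarith [hw.2])

theorem ti_hI_eq {m : ℕ} (hm : 0 < m) {u v : ℝ} (hu : 0 ≤ u) (hv : 0 ≤ v) (h1 : u + v ≤ 2)
    (h2 : v ≤ u) (h3 : u ≤ 2) : ti_hI m u v = ENNReal.ofReal (ti_FI m u v) := by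
  have e : ti_hI m u v = ∫⁻ w in Set.Ioc (0 : ℝ) (2 - u), ENNReal.ofReal (tf m u v w) := by
    unfold ti_hI
    rw [← lintegral_indicator measurableSet_Ioi, ← lintegral_indicator measurableSet_Ioc]
    refine lintegral_congr fun w => ?_
    by_cases hw : 0 < w
    · rw [Set.indicator_of_mem (show w ∈ Set.Ioi (0 : ℝ) from hw)]
      by_cases hw2 : w ≤ 2 - u
      · rw [Set.indicator_of_mem (show w ∈ Set.Ioc (0 : ℝ) (2 - u) from ⟨hw, hw2⟩)]
        unfold ti_gI tf pp
        rw [max_eq_right (show 0 ≤ 1 - (u + v) / 2 by linarith),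
          max_eq_right (show 0 ≤ 1 - (u + w) / 2 by linarith),
          max_eq_right (show 0 ≤ 1 - (v + w) / 2 by linarith)]
      · rw [Set.indicator_of_notMem (fun h : w ∈ Set.Ioc (0 : ℝ) (2 - u) => hw2 h.2)]
        exact ti_gI_zero_uw hm (by linarith)
    · rw [Set.indicator_of_notMem (show w ∉ Set.Ioi (0 : ℝ) from hw),
        Set.indicator_of_notMem (fun h : w ∈ Set.Ioc (0 : ℝ) (2 - u) => hw h.1)]
  have hc : Continuous fun w : ℝ => tf m u v w := by
    unfold tf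
    fun_prop
  rw [e, ti_FI, intervalIntegral.integral_of_le (by linarith),
    ofReal_integral_eq_lintegral_ofReal (hc.integrableOn_Icc.mono_set Set.Ioc_subset_Icc_self)]
  rw [EventuallyLE, ae_restrict_iff' measurableSet_Ioc]
  refine ae_of_all _ fun w hw => ?_
  exact ti_tf_nonneg m hu hv hw.1.le h1 (by linarith [hw.2]) (by linarith [hw.2])

/-- integral over a ti_chamber `v ∈ (0, s u)`, `u ∈ (a, b)` -/
theorem ti_chamber {m : ℕ} (hm : 0 < m) {a b : ℝ} (ha : 0 ≤ a) (hab : a ≤ b) (hb : b ≤ 2)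
    (s : ℝ → ℝ) (hs : Continuous s)
    (hs1 : ∀ u ∈ Set.Ioc a b, 0 ≤ s u ∧ s u ≤ u ∧ u + s u ≤ 2) :
    ∫⁻ u in Set.Ioc a b, ∫⁻ v in Set.Ioc (0 : ℝ) (s u), ti_hI m u v =
      ENNReal.ofReal (∫ u in a..b, ∫ v in (0 : ℝ)..(s u), ∫ w in (0 : ℝ)..(2 - u), tf m u v w) := by
  have hG : Continuous fun u => ∫ v in (0 : ℝ)..(s u), ti_FI m u v :=
    intervalIntegral.continuous_parametric_intervalIntegral_of_continuous
      (f := fun (u : ℝ) (v : ℝ) => ti_FI m u v) (ti_FI_cont m) hs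
  have e1 : ∀ u ∈ Set.Ioc a b, ∫⁻ v in Set.Ioc (0 : ℝ) (s u), ti_hI m u v =
      ENNReal.ofReal (∫ v in (0 : ℝ)..(s u), ti_FI m u v) := by
    intro u hu
    obtain ⟨h0, h1, h2⟩ := hs1 u hu
    have e2 : ∫⁻ v in Set.Ioc (0 : ℝ) (s u), ti_hI m u v =
        ∫⁻ v in Set.Ioc (0 : ℝ) (s u), ENNReal.ofReal (ti_FI m u v) := by
      refine setLIntegral_congr_fun measurableSet_Ioc fun v hv => ?_
      exact ti_hI_eq hm (ha.trans hu.1.le) hv.1.le (by linarith [hv.2]) (hv.2.trans h1)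
        (hu.2.trans hb)
    have hc : Continuous fun v : ℝ => ti_FI m u v :=
      (ti_FI_cont m).comp (Continuous.prodMk continuous_const continuous_id)
    rw [e2, intervalIntegral.integral_of_le h0,
      ofReal_integral_eq_lintegral_ofReal (hc.integrableOn_Icc.mono_set Set.Ioc_subset_Icc_self)]
    rw [EventuallyLE, ae_restrict_iff' measurableSet_Ioc]
    refine ae_of_all _ fun v hv => ?_
    exact ti_FI_nonneg m (ha.trans hu.1.le) hv.1.le (by linarith [hv.2]) (hv.2.trans h1)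
        (hu.2.trans hb)
  rw [setLIntegral_congr_fun measurableSet_Ioc e1, intervalIntegral.integral_of_le hab]
  change _ = ENNReal.ofReal (∫ u in Set.Ioc a b, ∫ v in (0 : ℝ)..(s u), ti_FI m u v)
  rw [ofReal_integral_eq_lintegral_ofReal (hG.integrableOn_Icc.mono_set Set.Ioc_subset_Icc_self)]
  rw [EventuallyLE, ae_restrict_iff' measurableSet_Ioc]
  refine ae_of_all _ fun u hu => ?_
  obtain ⟨h0, h1, h2⟩ := hs1 u hu
  refine intervalIntegral.integral_nonneg h0 fun v hv => ?_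
  exact ti_FI_nonneg m (ha.trans hu.1.le) hv.1 (by linarith [hv.2]) (hv.2.trans h1)
        (hu.2.trans hb)

theorem ti_TI_eq (m : ℕ) : TI m 1 = ∫⁻ u in Set.Ioi (0 : ℝ), ∫⁻ v in Set.Ioi (0 : ℝ), ti_hI m u v := rfl

theorem ti_half_le (m : ℕ) : TI m 1 ≤
    2 * ∫⁻ u in Set.Ioi (0 : ℝ), ∫⁻ v in Set.Ioc (0 : ℝ) u, ti_hI m u v := by
  have hM := ti_hI_meas m
  -- lower and upper halves as integrals of indicator functions
  have e1 : ∀ u : ℝ, 0 < u → ∫⁻ v in Set.Ioi (0 : ℝ), ti_hI m u v =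
      (∫⁻ v in Set.Ioi (0 : ℝ), (if v ≤ u then ti_hI m u v else 0)) +
        ∫⁻ v in Set.Ioi (0 : ℝ), (if v ≤ u then 0 else ti_hI m u v) := by
    intro u hu
    rw [← lintegral_add_left]
    · refine lintegral_congr fun v => ?_
      split_ifs <;> simp
    · refine Measurable.ite measurableSet_Iic ?_ measurable_const
      exact hM.comp (measurable_const.prodMk measurable_id)
  have m1 : Measurable fun x : ℝ × ℝ => if x.2 ≤ x.1 then ti_hI m x.1 x.2 else 0 :=
    Measurable.ite (measurableSet_le measurable_snd measurable_fst) hM measurable_const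
  have m2 : Measurable fun x : ℝ × ℝ => if x.2 ≤ x.1 then 0 else ti_hI m x.1 x.2 :=
    Measurable.ite (measurableSet_le measurable_snd measurable_fst) measurable_const hM
  have e3 : ∀ u : ℝ, 0 < u → ∫⁻ v in Set.Ioc (0 : ℝ) u, ti_hI m u v =
      ∫⁻ v in Set.Ioi (0 : ℝ), (if v ≤ u then ti_hI m u v else 0) := by
    intro u hu
    rw [← lintegral_indicator measurableSet_Ioi, ← lintegral_indicator measurableSet_Ioc]
    refine lintegral_congr fun v => ?_
    by_cases h1 : 0 < v <;> by_cases h2 : v ≤ u <;> simp [Set.indicator, h1, h2]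
  have e4 : ∫⁻ u in Set.Ioi (0 : ℝ), ∫⁻ v in Set.Ioi (0 : ℝ), (if v ≤ u then 0 else ti_hI m u v) ≤
      ∫⁻ u in Set.Ioi (0 : ℝ), ∫⁻ v in Set.Ioi (0 : ℝ), (if v ≤ u then ti_hI m u v else 0) := by
    rw [lintegral_lintegral_swap (f := fun u v => if v ≤ u then 0 else ti_hI m u v)
      m2.aemeasurable]
    refine lintegral_mono fun v => lintegral_mono fun u => ?_
    dsimp only
    by_cases h : v ≤ u
    · simp [h]
    · rw [if_neg h, if_pos (not_le.1 h).le, ti_hI_symm]
  rw [ti_TI_eq, setLIntegral_congr_fun measurableSet_Ioi (fun u hu => e1 u hu),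
    setLIntegral_congr_fun measurableSet_Ioi (fun u hu => e3 u hu), lintegral_add_left, two_mul]
  · gcongr
  · exact m1.lintegral_prod_right'

theorem TI_le {m : ℕ} (hm : 0 < m) : TI m 1 ≤ ENNReal.ofReal (2 * (TJ1 m + TJ2 m)) := by
  have c1 := ti_chamber hm (le_refl (0 : ℝ)) zero_le_one one_le_two (fun u => u) continuous_id
    (fun u hu => ⟨hu.1.le, le_rfl, by linarith [hu.2]⟩)
  have c2 := ti_chamber hm zero_le_one one_le_two (le_refl (2 : ℝ)) (fun u => 2 - u) (by fun_prop)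
    (fun u hu => ⟨by linarith [hu.2], by linarith [hu.1], by linarith⟩)
  have n1 : 0 ≤ TJ1 m := by
    unfold TJ1
    refine intervalIntegral.integral_nonneg zero_le_one fun u hu => ?_
    refine intervalIntegral.integral_nonneg hu.1 fun v hv => ?_
    exact ti_FI_nonneg m hu.1 hv.1 (by linarith [hv.2, hu.2]) hv.2 (by linarith [hu.2])
  have n2 : 0 ≤ TJ2 m := by
    unfold TJ2
    refine intervalIntegral.integral_nonneg one_le_two fun u hu => ?_
    refine intervalIntegral.integral_nonneg (by linarith [hu.2]) fun v hv => ?_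
    exact ti_FI_nonneg m (by linarith [hu.1]) hv.1 (by linarith [hv.2, hu.2])
      (by linarith [hv.2, hu.1]) hu.2
  have key : ∫⁻ u in Set.Ioi (0 : ℝ), ∫⁻ v in Set.Ioc (0 : ℝ) u, ti_hI m u v ≤
      ENNReal.ofReal (TJ1 m) + ENNReal.ofReal (TJ2 m) := by
    have hz : ∀ u : ℝ, 1 < u → ∫⁻ v in Set.Ioc (0 : ℝ) u, ti_hI m u v ≤
        ∫⁻ v in Set.Ioc (0 : ℝ) (2 - u), ti_hI m u v := by
      intro u h1
      rw [← lintegral_indicator measurableSet_Ioc, ← lintegral_indicator measurableSet_Ioc]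
      refine lintegral_mono fun v => ?_
      by_cases hv0 : 0 < v
      · by_cases hv : v ≤ 2 - u
        · by_cases hvu : v ≤ u <;> simp [Set.indicator, hv0, hv, hvu]
        · have : ti_hI m u v = 0 := ti_hI_zero hm (by linarith)
          simp [Set.indicator, this]
      · simp [Set.indicator, hv0]
    have hle : ∀ u : ℝ, (Set.Ioi (1 : ℝ)).indicator
        (fun u => ∫⁻ v in Set.Ioc (0 : ℝ) u, ti_hI m u v) u ≤
        (Set.Ioc (1 : ℝ) 2).indicator (fun u => ∫⁻ v in Set.Ioc (0 : ℝ) (2 - u), ti_hI m u v) u := by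
      intro u
      by_cases h1 : 1 < u
      · have hz1 := hz u h1
        by_cases h2 : u ≤ 2
        · simp only [Set.indicator, Set.mem_Ioi, if_true, Set.mem_Ioc, h1, h2, and_self]
          exact hz1
        · have : ∫⁻ v in Set.Ioc (0 : ℝ) (2 - u), ti_hI m u v = 0 := by
            rw [Set.Ioc_eq_empty (by linarith)]
            simp
          rw [this] at hz1
          simp only [Set.indicator, Set.mem_Ioi, h1, if_true]
          exact hz1.trans bot_le
      · simp [Set.indicator, h1]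
    have hun := Set.Ioc_union_Ioi_eq_Ioi (zero_le_one (α := ℝ))
    rw [← hun, lintegral_union measurableSet_Ioi (Set.Ioc_disjoint_Ioi le_rfl)]
    refine add_le_add c1.le ?_
    refine le_trans ?_ c2.le
    rw [← lintegral_indicator measurableSet_Ioi, ← lintegral_indicator measurableSet_Ioc]
    exact lintegral_mono hle
  refine (ti_half_le m).trans ?_
  rw [ENNReal.ofReal_mul (by norm_num), ENNReal.ofReal_add n1 n2]
  have : ENNReal.ofReal 2 = 2 := by norm_num
  rw [this]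
  gcongr

/-- integral of a polynomial given by its coefficients -/
theorem ti_int_poly (n : ℕ) (c : ℕ → ℝ) (a b : ℝ) :
    ∫ x in a..b, ∑ k ∈ Finset.range n, c k * x ^ k =
      ∑ k ∈ Finset.range n, c k * ((b ^ (k + 1) - a ^ (k + 1)) / (k + 1)) := by
  rw [intervalIntegral.integral_finsetSum]
  · refine Finset.sum_congr rfl fun k _ => ?_
    rw [intervalIntegral.integral_const_mul, integral_pow]
  · intro k _
    exact (Continuous.intervalIntegrable (by fun_prop) _ _)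

/-- integral of a sum of three monomials -/
theorem ti_int_three (p : ℕ) (A B C V : ℝ) :
    ∫ x in (0 : ℝ)..V, (A * x ^ p + B * x ^ (p + 1) + C * x ^ (p + 2)) =
      A * V ^ (p + 1) / (p + 1) + B * V ^ (p + 2) / (p + 2) + C * V ^ (p + 3) / (p + 3) := by
  rw [intervalIntegral.integral_add (Continuous.intervalIntegrable (by fun_prop) _ _)
      (Continuous.intervalIntegrable (by fun_prop) _ _),
    intervalIntegral.integral_add (Continuous.intervalIntegrable (by fun_prop) _ _)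
      (Continuous.intervalIntegrable (by fun_prop) _ _), intervalIntegral.integral_const_mul,
    intervalIntegral.integral_const_mul, intervalIntegral.integral_const_mul, integral_pow,
    integral_pow, integral_pow]
  push_cast
  rw [zero_pow (by omega), zero_pow (by omega), zero_pow (by omega)]
  have e1 : (p : ℝ) + 1 + 1 = p + 2 := by ring
  have e2 : (p : ℝ) + 2 + 1 = p + 3 := by ring
  rw [e1, e2]
  ring

theorem ti_inner_one (u v : ℝ) : ∫ w in (0 : ℝ)..(2 - u), tf 1 u v w =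
    u ^ 6 * v ^ 6 * ((2 - u - v) / 8) * ((2 - u) ^ 9 / 252 + (u - v) * (2 - u) ^ 8 / 56) := by
  have e : (fun w => tf 1 u v w) = fun w =>
      (u ^ 6 * v ^ 6 * ((2 - u - v) / 8) * ((2 - u) * (2 - v))) * w ^ 6 +
      (u ^ 6 * v ^ 6 * ((2 - u - v) / 8) * (-(4 - u - v))) * w ^ (6 + 1) +
      (u ^ 6 * v ^ 6 * ((2 - u - v) / 8)) * w ^ (6 + 2) := by
    funext w
    unfold tf
    ring
  rw [e, ti_int_three]
  push_cast
  ring

theorem ti_middle_one (u V : ℝ) :
    ∫ v in (0 : ℝ)..V, ∫ w in (0 : ℝ)..(2 - u), tf 1 u v w =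
    u ^ 6 * (2 - u) ^ 8 / 8 * ((2 - u) * ((2 - u) / 252 + u / 56) * V ^ 7 / 7 -
      ((2 - u) / 252 + u / 56 + (2 - u) / 56) * V ^ 8 / 8 + V ^ 9 / 504) := by
  have e : (fun v => ∫ w in (0 : ℝ)..(2 - u), tf 1 u v w) = fun v =>
      (u ^ 6 * (2 - u) ^ 8 / 8 * ((2 - u) * ((2 - u) / 252 + u / 56))) * v ^ 6 +
      (u ^ 6 * (2 - u) ^ 8 / 8 * (-((2 - u) / 252 + u / 56 + (2 - u) / 56))) * v ^ (6 + 1) +
      (u ^ 6 * (2 - u) ^ 8 / 8 * (1 / 56)) * v ^ (6 + 2) := by
    funext v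
    rw [ti_inner_one]
    ring
  rw [e, ti_int_three]
  push_cast
  ring

theorem TJ1_one : TJ1 1 = 2306071 / 422707009536 := by
  unfold TJ1
  have e : (fun u : ℝ => ∫ v in (0 : ℝ)..u, ∫ w in (0 : ℝ)..(2 - u), tf 1 u v w) = fun u =>
      ∑ k ∈ Finset.range 24, ([0, 0, 0, 0, 0, 0, 0, 0, 0, 0, 0, 0, 0, 32 / 441, -55 / 147, 379 / 441, -73 / 63,
        64 / 63, -305 / 504, 125 / 504, -487 / 7056, 11 / 882, -149 / 112896, 1 / 16128] : List ℝ).getD k 0 * u ^ k := by
    funext u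
    rw [ti_middle_one]
    simp only [Finset.sum_range_succ, Finset.sum_range_zero, List.getD_cons_zero,
      List.getD_cons_succ]
    ring
  rw [e, ti_int_poly]
  simp only [Finset.sum_range_succ, Finset.sum_range_zero, List.getD_cons_zero,
      List.getD_cons_succ]
  norm_num

theorem TJ2_one : TJ2 1 = 801065 / 422707009536 := by
  unfold TJ2
  have e : (fun u : ℝ => ∫ v in (0 : ℝ)..(2 - u), ∫ w in (0 : ℝ)..(2 - u), tf 1 u v w) = fun u =>
      ∑ k ∈ Finset.range 24, ([0, 0, 0, 0, 0, 0, -1280 / 441, 12032 / 441, -52736 / 441, 20480 / 63, -38720 /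
        63, 54080 / 63, -57824 / 63, 338624 / 441, -224510 / 441, 118690 / 441, -7150 /
        63, 2392 / 63, -2509 / 252, 505 / 252, -1055 / 3528, 55 / 1764, -229 / 112896, 1
        / 16128] : List ℝ).getD k 0 * u ^ k := by
    funext u
    rw [ti_middle_one]
    simp only [Finset.sum_range_succ, Finset.sum_range_zero, List.getD_cons_zero,
      List.getD_cons_succ]
    ring
  rw [e, ti_int_poly]
  simp only [Finset.sum_range_succ, Finset.sum_range_zero, List.getD_cons_zero,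
      List.getD_cons_succ]
  norm_num

theorem TJ_one : 2 * (TJ1 1 + TJ2 1) = 16183 / 1100799504 := by
  rw [TJ1_one, TJ2_one]
  norm_num

end Pool.Agent.GenMoment
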