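import Mathlib
import Pool.Agent.Lib_MP_112ba8_g.DefsB
import Pool.Agent.Lib_MP_112ba8_g.BKsup

/-!
Piece VALS: numerical values of the polynomial integrals.

With `t = r - b` (three vertices), `κ = 1 - θ + r`, `γ = c - r` the integrand in `e` is
`e^E (κ - t - e)(γ + t - e)`, so the inner integral is `t^(E+1) κγ/(E+1) + t^(E+2) ((κ-γ)/(E+1) -
(κ+γ)/(E+2)) + t^(E+3) (1/(E+3) - 1/(E+1))`; then expand `t = r - b` and use `beta_nat`.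
Four vertices: `t = r - b₁ - b₂`, `κ = 1 - θ₁ - θ₂ + r + 2a`, same inner integral; expand `t^n` by the
multinomial theorem, `beta_nat` in `b₁, b₂` (factors `(lam - a)^(B+i+Z+1)`), then in `a`.
Python check: `NN3 = 2.0016584308e-7`, `NN4 = 2.953169860e-22`.
-/

namespace Pool.Agent.GenMoment

open Filter Topology MeasureTheory
open Pool.Agent.EvenMoment (cl Wgt Adm Ed cut hat)
open Pool.Agent.SixthMoment (QQ ln fr osc QS TT ob sepa oy xe JZ fc chi)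

namespace Vals

/-- Beta function with natural arguments (over the rationals) -/
def bn (p q : ℕ) : ℚ := (p.factorial : ℚ) * q.factorial / (p + q + 1).factorial

lemma bn_cast (p q : ℕ) : ((bn p q : ℚ) : ℝ) =
    (p.factorial : ℝ) * q.factorial / (p + q + 1).factorial := by
  unfold bn
  push_cast
  rfl

lemma inner_int (E : ℕ) (t κ γ : ℝ) : ∫ e in (0 : ℝ)..t, e ^ E * ((κ - e) * (γ - e)) =
    κ * γ * t ^ (E + 1) / (E + 1 : ℕ) - (κ + γ) * t ^ (E + 2) / (E + 2 : ℕ) +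
      t ^ (E + 3) / (E + 3 : ℕ) := by
  have h1 : ∀ e : ℝ, e ^ E * ((κ - e) * (γ - e)) =
      κ * γ * e ^ E - (κ + γ) * e ^ (E + 1) + e ^ (E + 2) := by
    intro e
    ring
  simp_rw [h1]
  have i1 : IntervalIntegrable (fun e : ℝ => κ * γ * e ^ E) volume 0 t :=
    (by fun_prop : Continuous fun e : ℝ => κ * γ * e ^ E).intervalIntegrable _ _
  have i2 : IntervalIntegrable (fun e : ℝ => (κ + γ) * e ^ (E + 1)) volume 0 t :=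
    (by fun_prop : Continuous fun e : ℝ => (κ + γ) * e ^ (E + 1)).intervalIntegrable _ _
  have i3 : IntervalIntegrable (fun e : ℝ => e ^ (E + 2)) volume 0 t :=
    (by fun_prop : Continuous fun e : ℝ => e ^ (E + 2)).intervalIntegrable _ _
  rw [intervalIntegral.integral_add (i1.sub i2) i3, intervalIntegral.integral_sub i1 i2,
    intervalIntegral.integral_const_mul, intervalIntegral.integral_const_mul, integral_pow,
    integral_pow, integral_pow]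
  push_cast
  rw [zero_pow (by omega), zero_pow (by omega), zero_pow (by omega)]
  ring

/-- the inner integral in the variable `t` -/
lemma inner_t (E : ℕ) (t κ γ : ℝ) : ∫ e in (0 : ℝ)..t, e ^ E * ((κ - t - e) * (γ + t - e)) =
    κ * γ / (E + 1 : ℕ) * t ^ (E + 1) +
      ((κ - γ) / (E + 1 : ℕ) - (κ + γ) / (E + 2 : ℕ)) * t ^ (E + 2) +
      (1 / (E + 3 : ℕ) - 1 / (E + 1 : ℕ)) * t ^ (E + 3) := by
  rw [inner_int]
  push_cast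
  field_simp
  ring

/-- Beta integral with a power of `s - x` -/
lemma beta_exp (p q n : ℕ) {L : ℝ} (hL : 0 ≤ L) (s : ℝ) :
    ∫ x in (0 : ℝ)..L, x ^ p * (L - x) ^ q * (s - x) ^ n =
      ∑ j ∈ Finset.range (n + 1), (n.choose j : ℝ) * (-1) ^ j * s ^ (n - j) *
        (L ^ (p + j + q + 1) * ((bn (p + j) q : ℚ) : ℝ)) := by
  have h1 : ∀ x : ℝ, x ^ p * (L - x) ^ q * (s - x) ^ n =
      ∑ j ∈ Finset.range (n + 1), (n.choose j : ℝ) * (-1) ^ j * s ^ (n - j) *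
        (x ^ (p + j) * (L - x) ^ q) := by
    intro x
    have : (s - x) ^ n = ∑ j ∈ Finset.range (n + 1), (-x) ^ j * s ^ (n - j) * (n.choose j : ℝ) := by
      rw [← add_pow]
      ring
    rw [this, Finset.mul_sum]
    refine Finset.sum_congr rfl fun j _ => ?_
    rw [neg_pow, pow_add]
    ring
  simp_rw [h1]
  rw [intervalIntegral.integral_finsetSum]
  · refine Finset.sum_congr rfl fun j _ => ?_
    rw [intervalIntegral.integral_const_mul, beta_nat _ _ hL, bn_cast]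
  · intro j _
    exact (by fun_prop : Continuous fun x : ℝ => (n.choose j : ℝ) * (-1) ^ j * s ^ (n - j) *
        (x ^ (p + j) * (L - x) ^ q)).intervalIntegrable _ _

/-- rational value of the beta integral with a power -/
def bq (p q n : ℕ) (L s : ℚ) : ℚ := ∑ j ∈ Finset.range (n + 1), (n.choose j : ℚ) * (-1) ^ j * s ^ (n - j) *
        (L ^ (p + j + q + 1) * bn (p + j) q)

lemma beta_exp_q (p q n : ℕ) {L : ℚ} (hL : 0 ≤ L) (s : ℚ) :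
    ∫ x in (0 : ℝ)..(L : ℝ), x ^ p * ((L : ℝ) - x) ^ q * ((s : ℝ) - x) ^ n = ((bq p q n L s : ℚ) : ℝ) := by
  rw [beta_exp p q n (by exact_mod_cast hL)]
  unfold bq
  push_cast
  rfl

/-- rational value of `NN3` -/
def q3 (E B Z : ℕ) (θ lam r c : ℚ) : ℚ :=
  (1 - θ + r) * (c - r) / (E + 1 : ℕ) * bq B Z (E + 1) lam r +
    (((1 - θ + r) - (c - r)) / (E + 1 : ℕ) - ((1 - θ + r) + (c - r)) / (E + 2 : ℕ)) *
      bq B Z (E + 2) lam r +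
    (1 / (E + 3 : ℕ) - 1 / (E + 1 : ℕ)) * bq B Z (E + 3) lam r

lemma NN3_eq (E B Z : ℕ) (θ lam r c : ℚ) (hl : 0 ≤ lam) :
    NN3 E B Z (θ : ℝ) lam r c = ((q3 E B Z θ lam r c : ℚ) : ℝ) := by
  unfold NN3
  have h1 : ∀ b : ℝ, ∫ e in (0 : ℝ)..((r : ℝ) - b),
      b ^ B * ((lam : ℝ) - b) ^ Z * (e ^ E * ((1 - ((θ : ℝ) - b) - e) * ((c : ℝ) - b - e))) =
      (1 - θ + r) * (c - r) / (E + 1 : ℕ) * (b ^ B * ((lam : ℝ) - b) ^ Z * ((r : ℝ) - b) ^ (E + 1)) +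
      (((1 - θ + r) - (c - r)) / (E + 1 : ℕ) - ((1 - θ + r) + (c - r)) / (E + 2 : ℕ)) *
        (b ^ B * ((lam : ℝ) - b) ^ Z * ((r : ℝ) - b) ^ (E + 2)) +
      (1 / (E + 3 : ℕ) - 1 / (E + 1 : ℕ)) * (b ^ B * ((lam : ℝ) - b) ^ Z * ((r : ℝ) - b) ^ (E + 3)) := by
    intro b
    rw [intervalIntegral.integral_const_mul]
    have h2 : ∀ e : ℝ, e ^ E * ((1 - ((θ : ℝ) - b) - e) * ((c : ℝ) - b - e)) =
        e ^ E * (((1 - (θ : ℝ) + r) - ((r : ℝ) - b) - e) * (((c : ℝ) - r) + ((r : ℝ) - b) - e)) := by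
      intro e
      ring
    simp_rw [h2]
    rw [inner_t]
    ring
  simp_rw [h1]
  have i : ∀ (C : ℝ) (n : ℕ), IntervalIntegrable (fun b : ℝ =>
      C * (b ^ B * ((lam : ℝ) - b) ^ Z * ((r : ℝ) - b) ^ n)) volume 0 lam := fun C n =>
    (by fun_prop : Continuous fun b : ℝ =>
      C * (b ^ B * ((lam : ℝ) - b) ^ Z * ((r : ℝ) - b) ^ n)).intervalIntegrable _ _
  rw [intervalIntegral.integral_add ((i _ _).add (i _ _)) (i _ _),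
    intervalIntegral.integral_add (i _ _) (i _ _), intervalIntegral.integral_const_mul,
    intervalIntegral.integral_const_mul, intervalIntegral.integral_const_mul,
    beta_exp_q _ _ _ hl, beta_exp_q _ _ _ hl, beta_exp_q _ _ _ hl]
  unfold q3
  push_cast
  rfl

/-! ### four vertices -/

/-- the integral over the last variable -/
noncomputable def R2 (B Z m : ℕ) (L s : ℝ) : ℝ := ∑ j ∈ Finset.range (m + 1), (m.choose j : ℝ) * (-1) ^ j *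
  s ^ (m - j) * (L ^ (B + j + Z + 1) * ((bn (B + j) Z : ℚ) : ℝ))

/-- the integral over the last two variables -/
noncomputable def R1 (B₁ Z₁ B₂ Z₂ m : ℕ) (L s : ℝ) : ℝ := ∑ j ∈ Finset.range (m + 1),
  (m.choose j : ℝ) * (-1) ^ j * (L ^ (B₂ + j + Z₂ + 1) * ((bn (B₂ + j) Z₂ : ℚ) : ℝ)) *
    ∑ i ∈ Finset.range (m - j + 1), ((m - j).choose i : ℝ) * (-1) ^ i * s ^ (m - j - i) *
        (L ^ (B₁ + i + Z₁ + 1) * ((bn (B₁ + i) Z₁ : ℚ) : ℝ))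

lemma R1_int (B₁ Z₁ B₂ Z₂ m : ℕ) {L : ℝ} (hL : 0 ≤ L) (s C : ℝ) :
    ∫ b in (0 : ℝ)..L, C * (b ^ B₁ * (L - b) ^ Z₁) * R2 B₂ Z₂ m L (s - b) =
      C * R1 B₁ Z₁ B₂ Z₂ m L s := by
  have h1 : ∀ b : ℝ, C * (b ^ B₁ * (L - b) ^ Z₁) * R2 B₂ Z₂ m L (s - b) =
      C * ∑ j ∈ Finset.range (m + 1), (m.choose j : ℝ) * (-1) ^ j *
        (L ^ (B₂ + j + Z₂ + 1) * ((bn (B₂ + j) Z₂ : ℚ) : ℝ)) *
          (b ^ B₁ * (L - b) ^ Z₁ * (s - b) ^ (m - j)) := by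
    intro b
    unfold R2
    rw [mul_assoc, Finset.mul_sum]
    congr 1
    refine Finset.sum_congr rfl fun j _ => ?_
    ring
  simp_rw [h1]
  rw [intervalIntegral.integral_const_mul, intervalIntegral.integral_finsetSum]
  · unfold R1
    congr 1
    refine Finset.sum_congr rfl fun j _ => ?_
    rw [intervalIntegral.integral_const_mul, beta_exp _ _ _ hL]
  · intro j _
    exact (by fun_prop : Continuous fun b : ℝ => (m.choose j : ℝ) * (-1) ^ j *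
        (L ^ (B₂ + j + Z₂ + 1) * ((bn (B₂ + j) Z₂ : ℚ) : ℝ)) *
          (b ^ B₁ * (L - b) ^ Z₁ * (s - b) ^ (m - j))).intervalIntegrable _ _

/-- the rational value of the integral over the last three variables -/
def w4 (A B₁ Z₁ B₂ Z₂ m : ℕ) (u v lam r : ℚ) : ℚ := ∑ j ∈ Finset.range (m + 1),
    ∑ i ∈ Finset.range (m - j + 1), (m.choose j : ℚ) * (-1) ^ j * bn (B₂ + j) Z₂ *
      (((m - j).choose i : ℚ) * (-1) ^ i * r ^ (m - j - i) * bn (B₁ + i) Z₁) *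
      (u * (lam ^ (A + (B₂ + j + Z₂ + 1 + (B₁ + i + Z₁ + 1)) + 1) * bn A (B₂ + j + Z₂ + 1 + (B₁ + i + Z₁ + 1))) +
        v * (lam ^ (A + 1 + (B₂ + j + Z₂ + 1 + (B₁ + i + Z₁ + 1)) + 1) *
          bn (A + 1) (B₂ + j + Z₂ + 1 + (B₁ + i + Z₁ + 1))))

lemma w4_int (A B₁ Z₁ B₂ Z₂ m : ℕ) (u v lam r : ℚ) (hl : 0 ≤ lam) :
    ∫ a in (0 : ℝ)..(lam : ℝ), ((u : ℝ) + v * a) * a ^ A * R1 B₁ Z₁ B₂ Z₂ m ((lam : ℝ) - a) r =
      ((w4 A B₁ Z₁ B₂ Z₂ m u v lam r : ℚ) : ℝ) := by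
  have h1 : ∀ a : ℝ, ((u : ℝ) + v * a) * a ^ A * R1 B₁ Z₁ B₂ Z₂ m ((lam : ℝ) - a) r =
      ∑ j ∈ Finset.range (m + 1), ∑ i ∈ Finset.range (m - j + 1),
        ((m.choose j : ℝ) * (-1) ^ j * ((bn (B₂ + j) Z₂ : ℚ) : ℝ) *
          (((m - j).choose i : ℝ) * (-1) ^ i * (r : ℝ) ^ (m - j - i) * ((bn (B₁ + i) Z₁ : ℚ) : ℝ))) *
        ((u : ℝ) * (a ^ A * ((lam : ℝ) - a) ^ (B₂ + j + Z₂ + 1 + (B₁ + i + Z₁ + 1))) +
          (v : ℝ) * (a ^ (A + 1) * ((lam : ℝ) - a) ^ (B₂ + j + Z₂ + 1 + (B₁ + i + Z₁ + 1)))) := by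
    intro a
    unfold R1
    rw [Finset.mul_sum]
    refine Finset.sum_congr rfl fun j _ => ?_
    rw [Finset.mul_sum, Finset.mul_sum]
    refine Finset.sum_congr rfl fun i _ => ?_
    rw [pow_add ((lam : ℝ) - a) (B₂ + j + Z₂ + 1) (B₁ + i + Z₁ + 1), pow_succ a A]
    ring
  have hl' : (0 : ℝ) ≤ lam := by exact_mod_cast hl
  have c : ∀ (K : ℝ) (k : ℕ), Continuous fun a : ℝ =>
      K * ((u : ℝ) * (a ^ A * ((lam : ℝ) - a) ^ k) + (v : ℝ) * (a ^ (A + 1) * ((lam : ℝ) - a) ^ k)) := by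
    intro K k
    fun_prop
  simp_rw [h1]
  rw [intervalIntegral.integral_finsetSum]
  · unfold w4
    rw [Rat.cast_sum]
    refine Finset.sum_congr rfl fun j _ => ?_
    rw [intervalIntegral.integral_finsetSum, Rat.cast_sum]
    · refine Finset.sum_congr rfl fun i _ => ?_
      rw [intervalIntegral.integral_const_mul, intervalIntegral.integral_add,
        intervalIntegral.integral_const_mul, intervalIntegral.integral_const_mul,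
        beta_nat _ _ hl', beta_nat _ _ hl', ← bn_cast, ← bn_cast]
      · push_cast
        ring
      · exact (by fun_prop : Continuous fun a : ℝ =>
          (u : ℝ) * (a ^ A * ((lam : ℝ) - a) ^ (B₂ + j + Z₂ + 1 + (B₁ + i + Z₁ + 1)))).intervalIntegrable _ _
      · exact (by fun_prop : Continuous fun a : ℝ =>
          (v : ℝ) * (a ^ (A + 1) * ((lam : ℝ) - a) ^ (B₂ + j + Z₂ + 1 + (B₁ + i + Z₁ + 1)))).intervalIntegrable _ _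
    · intro i _
      exact (c _ _).intervalIntegrable _ _
  · intro j _
    exact (continuous_finsetSum _ fun i _ => c _ _).intervalIntegrable _ _

/-- rational value of `NN4` (`lam₁ = lam₂`, `a₀ = 0`) -/
def q4 (E B₁ B₂ Z₁ Z₂ A : ℕ) (θ₁ θ₂ lam r c : ℚ) : ℚ :=
  w4 A B₁ Z₁ B₂ Z₂ (E + 1) ((1 - θ₁ - θ₂ + r) * (c - r) / (E + 1 : ℕ)) (2 * (c - r) / (E + 1 : ℕ)) lam r +
  w4 A B₁ Z₁ B₂ Z₂ (E + 2) (((1 - θ₁ - θ₂ + r) - (c - r)) / (E + 1 : ℕ) -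
    ((1 - θ₁ - θ₂ + r) + (c - r)) / (E + 2 : ℕ)) (2 / (E + 1 : ℕ) - 2 / (E + 2 : ℕ)) lam r +
  w4 A B₁ Z₁ B₂ Z₂ (E + 3) (1 / (E + 3 : ℕ) - 1 / (E + 1 : ℕ)) 0 lam r

lemma R2_cont (B Z m : ℕ) (L : ℝ) : Continuous (R2 B Z m L) := by
  unfold R2
  fun_prop

lemma R1_cont (B₁ Z₁ B₂ Z₂ m : ℕ) (s : ℝ) : Continuous fun L => R1 B₁ Z₁ B₂ Z₂ m L s := by
  unfold R1
  fun_prop

lemma NN4_eq (E B₁ B₂ Z₁ Z₂ A : ℕ) (θ₁ θ₂ lam r c : ℚ) (hl : 0 ≤ lam) :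
    NN4 E B₁ B₂ Z₁ Z₂ A (θ₁ : ℝ) θ₂ lam lam 0 r c = ((q4 E B₁ B₂ Z₁ Z₂ A θ₁ θ₂ lam r c : ℚ) : ℝ) := by
  have hl' : (0 : ℝ) ≤ lam := by exact_mod_cast hl
  unfold NN4
  -- coefficients
  set u₁ : ℝ := (1 - θ₁ - θ₂ + r) * (c - r) / (E + 1 : ℕ) with hu₁
  set v₁ : ℝ := 2 * (c - r) / (E + 1 : ℕ) with hv₁
  set u₂ : ℝ := ((1 - θ₁ - θ₂ + r) - (c - r)) / (E + 1 : ℕ) -
    ((1 - θ₁ - θ₂ + r) + (c - r)) / (E + 2 : ℕ) with hu₂
  set v₂ : ℝ := 2 / (E + 1 : ℕ) - 2 / (E + 2 : ℕ) with hv₂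
  set u₃ : ℝ := 1 / (E + 3 : ℕ) - 1 / (E + 1 : ℕ) with hu₃
  have h1 : ∀ a b₁ b₂ : ℝ, ∫ e in (0 : ℝ)..((r : ℝ) - b₁ - b₂),
      a ^ A * (b₁ ^ B₁ * ((lam : ℝ) - a - b₁) ^ Z₁) * (b₂ ^ B₂ * ((lam : ℝ) - a - b₂) ^ Z₂) *
        (e ^ E * ((1 - ((θ₁ : ℝ) - a - b₁) - ((θ₂ : ℝ) - a - b₂) - e) * ((c : ℝ) - b₁ - b₂ - e))) =
      ((u₁ + v₁ * a) * a ^ A * (b₁ ^ B₁ * ((lam : ℝ) - a - b₁) ^ Z₁)) *
        (b₂ ^ B₂ * ((lam : ℝ) - a - b₂) ^ Z₂ * (((r : ℝ) - b₁) - b₂) ^ (E + 1)) +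
      ((u₂ + v₂ * a) * a ^ A * (b₁ ^ B₁ * ((lam : ℝ) - a - b₁) ^ Z₁)) *
        (b₂ ^ B₂ * ((lam : ℝ) - a - b₂) ^ Z₂ * (((r : ℝ) - b₁) - b₂) ^ (E + 2)) +
      (u₃ * a ^ A * (b₁ ^ B₁ * ((lam : ℝ) - a - b₁) ^ Z₁)) *
        (b₂ ^ B₂ * ((lam : ℝ) - a - b₂) ^ Z₂ * (((r : ℝ) - b₁) - b₂) ^ (E + 3)) := by
    intro a b₁ b₂
    rw [intervalIntegral.integral_const_mul]
    have h2 : ∀ e : ℝ, e ^ E * ((1 - ((θ₁ : ℝ) - a - b₁) - ((θ₂ : ℝ) - a - b₂) - e) *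
        ((c : ℝ) - b₁ - b₂ - e)) =
        e ^ E * (((1 - (θ₁ : ℝ) - θ₂ + r + 2 * a) - ((r : ℝ) - b₁ - b₂) - e) *
          (((c : ℝ) - r) + ((r : ℝ) - b₁ - b₂) - e)) := by
      intro e
      ring
    simp_rw [h2]
    rw [inner_t, hu₁, hu₂, hu₃, hv₁, hv₂]
    ring
  have h2 : ∀ a ∈ Set.uIcc (0 : ℝ) lam, (∫ b₁ in (0 : ℝ)..((lam : ℝ) - a), ∫ b₂ in (0 : ℝ)..((lam : ℝ) - a),
      ∫ e in (0 : ℝ)..((r : ℝ) - b₁ - b₂),
      a ^ A * (b₁ ^ B₁ * ((lam : ℝ) - a - b₁) ^ Z₁) * (b₂ ^ B₂ * ((lam : ℝ) - a - b₂) ^ Z₂) *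
        (e ^ E * ((1 - ((θ₁ : ℝ) - a - b₁) - ((θ₂ : ℝ) - a - b₂) - e) * ((c : ℝ) - b₁ - b₂ - e)))) =
      (u₁ + v₁ * a) * a ^ A * R1 B₁ Z₁ B₂ Z₂ (E + 1) ((lam : ℝ) - a) r +
      (u₂ + v₂ * a) * a ^ A * R1 B₁ Z₁ B₂ Z₂ (E + 2) ((lam : ℝ) - a) r +
      (u₃ + 0 * a) * a ^ A * R1 B₁ Z₁ B₂ Z₂ (E + 3) ((lam : ℝ) - a) r := by
    intro a ha
    rw [Set.uIcc_of_le hl'] at ha
    have hL : 0 ≤ (lam : ℝ) - a := by linarith [ha.2]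
    simp_rw [h1]
    have i2 : ∀ (C b₁ : ℝ) (n : ℕ), IntervalIntegrable (fun b₂ : ℝ =>
        C * (b₂ ^ B₂ * ((lam : ℝ) - a - b₂) ^ Z₂ * (((r : ℝ) - b₁) - b₂) ^ n)) volume 0 ((lam : ℝ) - a) :=
      fun C b₁ n => (by fun_prop : Continuous fun b₂ : ℝ =>
        C * (b₂ ^ B₂ * ((lam : ℝ) - a - b₂) ^ Z₂ * (((r : ℝ) - b₁) - b₂) ^ n)).intervalIntegrable _ _
    have h3 : ∀ b₁ : ℝ, (∫ b₂ in (0 : ℝ)..((lam : ℝ) - a),
      (((u₁ + v₁ * a) * a ^ A * (b₁ ^ B₁ * ((lam : ℝ) - a - b₁) ^ Z₁)) *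
        (b₂ ^ B₂ * ((lam : ℝ) - a - b₂) ^ Z₂ * (((r : ℝ) - b₁) - b₂) ^ (E + 1)) +
      ((u₂ + v₂ * a) * a ^ A * (b₁ ^ B₁ * ((lam : ℝ) - a - b₁) ^ Z₁)) *
        (b₂ ^ B₂ * ((lam : ℝ) - a - b₂) ^ Z₂ * (((r : ℝ) - b₁) - b₂) ^ (E + 2)) +
      (u₃ * a ^ A * (b₁ ^ B₁ * ((lam : ℝ) - a - b₁) ^ Z₁)) *
        (b₂ ^ B₂ * ((lam : ℝ) - a - b₂) ^ Z₂ * (((r : ℝ) - b₁) - b₂) ^ (E + 3)))) =
      (u₁ + v₁ * a) * a ^ A * (b₁ ^ B₁ * ((lam : ℝ) - a - b₁) ^ Z₁) *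
        R2 B₂ Z₂ (E + 1) ((lam : ℝ) - a) ((r : ℝ) - b₁) +
      (u₂ + v₂ * a) * a ^ A * (b₁ ^ B₁ * ((lam : ℝ) - a - b₁) ^ Z₁) *
        R2 B₂ Z₂ (E + 2) ((lam : ℝ) - a) ((r : ℝ) - b₁) +
      u₃ * a ^ A * (b₁ ^ B₁ * ((lam : ℝ) - a - b₁) ^ Z₁) *
        R2 B₂ Z₂ (E + 3) ((lam : ℝ) - a) ((r : ℝ) - b₁) := by
      intro b₁
      rw [intervalIntegral.integral_add ((i2 _ _ _).add (i2 _ _ _)) (i2 _ _ _),
        intervalIntegral.integral_add (i2 _ _ _) (i2 _ _ _), intervalIntegral.integral_const_mul,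
        intervalIntegral.integral_const_mul, intervalIntegral.integral_const_mul,
        beta_exp _ _ _ hL, beta_exp _ _ _ hL, beta_exp _ _ _ hL]
      rfl
    simp_rw [h3]
    have i1 : ∀ (C : ℝ) (n : ℕ), IntervalIntegrable (fun b₁ : ℝ =>
        C * (b₁ ^ B₁ * ((lam : ℝ) - a - b₁) ^ Z₁) * R2 B₂ Z₂ n ((lam : ℝ) - a) ((r : ℝ) - b₁))
        volume 0 ((lam : ℝ) - a) := by
      intro C n
      have c1 : Continuous fun b₁ : ℝ => R2 B₂ Z₂ n ((lam : ℝ) - a) ((r : ℝ) - b₁) :=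
        (R2_cont B₂ Z₂ n _).comp (by fun_prop)
      have c2 : Continuous fun b₁ : ℝ => C * (b₁ ^ B₁ * ((lam : ℝ) - a - b₁) ^ Z₁) := by fun_prop
      exact (c2.mul c1).intervalIntegrable _ _
    rw [intervalIntegral.integral_add ((i1 _ _).add (i1 _ _)) (i1 _ _),
      intervalIntegral.integral_add (i1 _ _) (i1 _ _), R1_int _ _ _ _ _ hL, R1_int _ _ _ _ _ hL,
      R1_int _ _ _ _ _ hL]
    ring
  rw [intervalIntegral.integral_congr h2]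
  have i0 : ∀ (u v : ℝ) (n : ℕ), IntervalIntegrable (fun a : ℝ =>
      (u + v * a) * a ^ A * R1 B₁ Z₁ B₂ Z₂ n ((lam : ℝ) - a) r) volume 0 lam := by
    intro u v n
    have c1 : Continuous fun a : ℝ => R1 B₁ Z₁ B₂ Z₂ n ((lam : ℝ) - a) r :=
      (R1_cont B₁ Z₁ B₂ Z₂ n r).comp (by fun_prop)
    have c2 : Continuous fun a : ℝ => (u + v * a) * a ^ A := by fun_prop
    exact (c2.mul c1).intervalIntegrable _ _
  rw [intervalIntegral.integral_add ((i0 _ _ _).add (i0 _ _ _)) (i0 _ _ _),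
    intervalIntegral.integral_add (i0 _ _ _) (i0 _ _ _)]
  have e1 := w4_int A B₁ Z₁ B₂ Z₂ (E + 1) ((1 - θ₁ - θ₂ + r) * (c - r) / (E + 1 : ℕ))
    (2 * (c - r) / (E + 1 : ℕ)) lam r hl
  have e2 := w4_int A B₁ Z₁ B₂ Z₂ (E + 2) (((1 - θ₁ - θ₂ + r) - (c - r)) / (E + 1 : ℕ) -
    ((1 - θ₁ - θ₂ + r) + (c - r)) / (E + 2 : ℕ)) (2 / (E + 1 : ℕ) - 2 / (E + 2 : ℕ)) lam r hl
  have e3 := w4_int A B₁ Z₁ B₂ Z₂ (E + 3) (1 / (E + 3 : ℕ) - 1 / (E + 1 : ℕ)) 0 lam r hl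
  unfold q4
  rw [Rat.cast_add, Rat.cast_add, ← e1, ← e2, ← e3]
  rw [hu₁, hu₂, hu₃, hv₁, hv₂]
  push_cast
  rfl

end Vals

open Vals in
theorem NN3_val : 20016 / 10 ^ 11 ≤
    NN3 3 3 1 (352 / 1000) (351999 / 1000000) (647998 / 1000000) (733 / 1000) := by
  have h := NN3_eq 3 3 1 (352 / 1000) (351999 / 1000000) (647998 / 1000000) (733 / 1000) (by norm_num)
  have h2 : (20016 / 10 ^ 11 : ℚ) ≤ q3 3 3 1 (352 / 1000) (351999 / 1000000) (647998 / 1000000) (733 / 1000) := by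
    decide +kernel
  have h3 : ((20016 / 10 ^ 11 : ℚ) : ℝ) ≤ _ := Rat.cast_le.2 h2
  rw [← h] at h3
  push_cast at h3
  exact h3

open Vals in
theorem NN4_val : 29531 / 10 ^ 26 ≤
    NN4 5 5 5 1 1 1 (23 / 100) (23 / 100) (229999 / 1000000) (229999 / 1000000) 0
      (539998 / 1000000) (562 / 1000) := by
  have h := NN4_eq 5 5 5 1 1 1 (23 / 100) (23 / 100) (229999 / 1000000) (539998 / 1000000)
    (562 / 1000) (by norm_num)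
  have h2 : (29531 / 10 ^ 26 : ℚ) ≤ q4 5 5 5 1 1 1 (23 / 100) (23 / 100) (229999 / 1000000)
      (539998 / 1000000) (562 / 1000) := by
    decide +kernel
  have h3 : ((29531 / 10 ^ 26 : ℚ) : ℝ) ≤ _ := Rat.cast_le.2 h2
  rw [← h] at h3
  push_cast at h3
  exact h3

end Pool.Agent.GenMoment
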