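import Mathlib
import Pool.Agent.Lib_MP_112ba8_g.DefsB
import Pool.Agent.Lib_MP_112ba8_g.Moment
import Pool.Agent.Lib_MP_112ba8_g.KTwo
import Pool.Agent.Lib_MP_112ba8_g.KFour
import Pool.Agent.Lib_MP_112ba8_g.TInt
import Pool.Agent.Lib_MP_112ba8_g.NThree
import Pool.Agent.Lib_MP_112ba8_g.NFour
import Pool.Agent.Lib_MP_112ba8_g.Vals
import Pool.Agent.Lib_MP_112ba8_s.Final6

/-!
The numerical constants for `k = 4` and `k = 6` (helper69).
-/

namespace Pool.Agent.GenMoment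

open Filter Topology MeasureTheory
open Pool.Agent.EvenMoment (cl Wgt Adm Ed cut hat)
open Pool.Agent.SixthMoment (QQ ln fr osc QS TT ob sepa oy xe JZ fc chi d1_hat_adm d1_hat_nonneg)

lemma fi_gR_adm {c ρ η : ℝ} (hη : 0 < η) : Adm (gR c ρ η) ρ := by
  have h := Pool.Agent.SixthMoment.d1_chi_adm (ρ := ρ) hη
  constructor
  · unfold gR
    exact (continuous_const.sub continuous_id).mul h.cont
  · intro s hs
    unfold gR
    rw [h.supp s hs, mul_zero]

lemma fi_gR_nonneg {c ρ η : ℝ} (hη : 0 < η) (hc : ρ ≤ c) (s : ℝ) : 0 ≤ gR c ρ η s := by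
  unfold gR
  rcases le_or_gt ρ s with h | h
  · rw [(Pool.Agent.SixthMoment.d1_chi_adm (ρ := ρ) hη).supp s h, mul_zero]
  · exact mul_nonneg (by linarith) (Pool.Agent.SixthMoment.d1_chi_nonneg _ _ _)

theorem const4 {A : ℝ} (hA : A < 1734) : ∀ᶠ T : ℝ in atTop,
    A * (Pool.Agent.EvenMoment.ar 4 / (Nat.factorial 16)) * Real.log T ^ 16 ≤
      (1 / T) * ∫ t in (0 : ℝ)..T, ‖riemannZeta (cl t)‖ ^ 8 := by
  set θ : ℝ := 352 / 1000 with hθ
  set δ : ℝ := 1 / 1000000 with hδ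
  set ρ : ℝ := 647999 / 1000000 with hρ
  set η : ℝ := 1 / 1000000 with hη
  set c : ℝ := 733 / 1000 with hc
  have har : 0 < Pool.Agent.EvenMoment.ar 4 := Real.exp_pos _
  have hδ0 : 0 < δ := by norm_num [hδ]
  have hη0 : 0 < η := by norm_num [hη]
  have hθ0 : 0 < θ := by norm_num [hθ]
  have e1 : θ - δ = 351999 / 1000000 := by norm_num [hθ, hδ]
  have e2 : ρ - η = 647998 / 1000000 := by norm_num [hρ, hη]
  set N : ℝ := 20016 / 10 ^ 11 / (6 * 6 * 1) with hN
  have hNle : (δ / 2) * N ≤ LS (hX ![pn 2, pn 1]) (SI 3) (GX fc ![gR c ρ η, hat θ δ]) := by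
    have h1 := LS_three_ge (a := 2) (b := 1) (by norm_num) (by norm_num) (θ := θ) (δ := δ)
      (ρ := ρ) (η := η) (c := c) hδ0 (by norm_num [hθ, hδ]) hη0 (by norm_num [hθ, hρ])
      (by norm_num [hθ, hρ, hη]) (by norm_num [hρ, hc])
    refine le_trans (mul_le_mul_of_nonneg_left ?_ (by positivity)) h1
    rw [e1, e2, hN]
    norm_num [Nat.factorial]
    have := NN3_val
    norm_num at this ⊢
    linarith
  set D0 : ℝ := (c ^ 2 * ρ ^ 8 / 8 - 2 * c * ρ ^ 9 / 9 + ρ ^ 10 / 10) / 5040 with hD0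
  set K : ℝ := 1 / 10080 * θ ^ 8 with hK
  have hD0le : LS (fun _ : Fin 2 => pn 2) (SI 2) (G0 fun _ => gR c ρ η) ≤ D0 := by
    have h1 := LS_two_le (a := 2) (by norm_num) (c := c) (ρ := ρ) hη0 (by norm_num [hρ])
      (by norm_num [hρ, hc])
    refine h1.trans (le_of_eq ?_)
    rw [hD0]
    norm_num [Nat.factorial]
  have hKle : LS (fun _ : Fin 4 => pn 1) (SI 4) (G0 fun _ => hat θ δ) ≤ (δ / 2) ^ 4 * K := by
    have h1 := LS_four_le (a := 1) (m := 1) (by norm_num) (by norm_num) (θ := θ) hδ0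
      (by norm_num [hθ, hδ])
    refine h1.trans (le_of_eq ?_)
    rw [hK]
    norm_num [Nat.factorial]
  have hD0p : 0 < D0 := by norm_num [hD0, hc, hρ]
  have hKp : 0 < K := by positivity
  have hNp : 0 < N := by norm_num [hN]
  have key := moment_lower (n := 2) (by norm_num) ![2, 1] ![1, 2] (k := 4)
    (by intro i; fin_cases i <;> norm_num) (by intro i; fin_cases i <;> norm_num)
    (by intro i; fin_cases i <;> norm_num) (by simp [Fin.sum_univ_two])
    (θ := ![ρ, θ]) (by intro i; fin_cases i <;> norm_num [hρ, hθ])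
    (by rw [Fin.sum_univ_two]; norm_num [hρ, hθ])
    (by intro i; fin_cases i <;> norm_num [hρ, hθ])
    (ω := ![gR c ρ η, hat θ δ])
    (by
      intro i
      fin_cases i
      · exact fi_gR_adm hη0
      · exact d1_hat_adm hδ0)
    (by
      intro i
      fin_cases i
      · exact fi_gR_nonneg hη0 (by norm_num [hρ, hc])
      · exact d1_hat_nonneg θ δ)
    (z := (δ / 2) * N) (by positivity) (D := ![D0, (δ / 2) ^ 4 * K])
    (by
      intro i
      fin_cases i
      · exact hD0p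
      · show 0 < (δ / 2) ^ 4 * K
        positivity)
    (by
      refine hNle.trans (le_of_eq ?_)
      congr 2
      funext i
      fin_cases i <;> rfl)
    (by
      intro i
      fin_cases i
      · exact hD0le
      · exact hKle)
    (A := A * (Pool.Agent.EvenMoment.ar 4 / (Nat.factorial 16))) ?_
  · exact key
  · rw [Fin.prod_univ_two]
    have e3 : (δ / 2 * N) ^ 4 / ((![D0, (δ / 2) ^ 4 * K] : Fin 2 → ℝ) 0 ^ (![2, 1] : Fin 2 → ℕ) 0 *
        (![D0, (δ / 2) ^ 4 * K] : Fin 2 → ℝ) 1 ^ (![2, 1] : Fin 2 → ℕ) 1) =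
        N ^ 4 / (D0 ^ 2 * K) := by
      change (δ / 2 * N) ^ 4 / (D0 ^ 2 * ((δ / 2) ^ 4 * K) ^ 1) = N ^ 4 / (D0 ^ 2 * K)
      have h0 : δ / 2 ≠ 0 := by positivity
      have h1 : D0 ≠ 0 := hD0p.ne'
      have h2 : K ≠ 0 := hKp.ne'
      rw [mul_pow, pow_one, div_eq_div_iff (by positivity) (by positivity)]
      ring
    rw [e3]
    have hnum : 1734 / (Nat.factorial 16 : ℝ) ≤ N ^ 4 / (D0 ^ 2 * K) := by
      rw [hN, hD0, hK, hc, hρ, hθ]
      norm_num [Nat.factorial]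
    calc A * (Pool.Agent.EvenMoment.ar 4 / (Nat.factorial 16)) =
          Pool.Agent.EvenMoment.ar 4 * (A / (Nat.factorial 16)) := by ring
      _ < Pool.Agent.EvenMoment.ar 4 * (1734 / (Nat.factorial 16)) := by gcongr
      _ ≤ _ := mul_le_mul_of_nonneg_left hnum har.le

end Pool.Agent.GenMoment
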