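import Mathlib
import Pool.Agent.Lib_MP_112ba8_g.DefsB
import Pool.Agent.Lib_MP_112ba8_g.Block
import Pool.Agent.Lib_MP_112ba8_g.BKsup

/-!
Piece HS: the Hilbert-Schmidt norm of the block kernel.

`BK m u a b ^ 2 = (1/16) ∫∫ P(p) P(p + ω) dp dω` where `P(p)` is the integrand.  Integrate over
`a, b` and substitute back `y11 = p`, `y12 = (u+a)/2-p`, `y21 = (u+b)/2-p` (`da db = 4 dy12 dy21`),
`y22 = u - y11 - y12 - y21`: the second copy has the entries `y11+ω, y12-ω, y21-ω, y22+ω`, total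
`(1/4) ∫ dy11 dy12 dy21 ∫ dω`.  The parts `ω > 0` and `ω < 0` are equal (exchange the two copies, or
the rows), so the norm is
`(1/2) ∫_{ω > 0} ∫ (y11 (y11+ω) y22 (y22+ω) r (r+ω) s (s+ω))^m` with `r = y12 - ω`, `s = y21 - ω`,
`y11 + y22 + r + s = u - 2ω`, all positive.  Expand `(x(x+ω))^m = ∑_i C(m,i) x^(2m-i) ω^i` and use the
Dirichlet integral over the simplex (iterate `beta_nat`; `ω = v/2`):
`∫_{ω>0} ∫ = (1/2) u^(8m+4)/(8m+4)! ∑ (i+j+k+l)! 2^-(i+j+k+l) ∏ C(m,i) (2m-i)!`, total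
`be2 m * u^(8m+4)`.  Check: `be2 1 = 103/3832012800`.
-/

namespace Pool.Agent.GenMoment

open Filter Topology MeasureTheory
open Pool.Agent.EvenMoment (cl Wgt Adm Ed cut hat)
open Pool.Agent.SixthMoment (QQ ln fr osc QS TT ob sepa oy xe JZ fc chi)

/-- truncated power -/
noncomputable def hsg (m : ℕ) (x : ℝ) : ENNReal := ENNReal.ofReal (pp x ^ m)

theorem hsg_meas (m : ℕ) : Measurable (hsg m) := by
  unfold hsg pp
  fun_prop

theorem hs_pp_nn (x : ℝ) : 0 ≤ pp x := le_max_left _ _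

theorem hs_pp_neg {x : ℝ} (hx : x ≤ 0) : pp x = 0 := max_eq_left hx

theorem hs_pp_pos {x : ℝ} (hx : 0 ≤ x) : pp x = x := max_eq_right hx

theorem hsg_zero {m : ℕ} (hm : 0 < m) {x : ℝ} (hx : x ≤ 0) : hsg m x = 0 := by
  unfold hsg
  rw [hs_pp_neg hx, zero_pow hm.ne', ENNReal.ofReal_zero]

theorem hsg_conv {a b : ℕ} (ha : 0 < a) (hb : 0 < b) (L : ℝ) :
    ∫⁻ x : ℝ, hsg a x * hsg b (L - x) =
      ENNReal.ofReal ((a.factorial : ℝ) * b.factorial / (a + b + 1).factorial) *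
        hsg (a + b + 1) L := by
  rcases le_or_gt L 0 with hL | hL
  · rw [hsg_zero (by omega) hL, mul_zero]
    have : ∀ x : ℝ, hsg a x * hsg b (L - x) = 0 := by
      intro x
      rcases le_or_gt x 0 with hx | hx
      · rw [hsg_zero ha hx, zero_mul]
      · rw [hsg_zero hb (by linarith), mul_zero]
    simp only [this, lintegral_zero]
  · have h1 : ∀ x : ℝ, hsg a x * hsg b (L - x) =
        (Set.Ioc 0 L).indicator (fun x => ENNReal.ofReal (x ^ a * (L - x) ^ b)) x := by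
      intro x
      by_cases hx : x ∈ Set.Ioc 0 L
      · rw [Set.indicator_of_mem hx]
        unfold hsg
        rw [hs_pp_pos hx.1.le, hs_pp_pos (by linarith [hx.2]), ENNReal.ofReal_mul (by have := hx.1.le; positivity)]
      · rw [Set.indicator_of_notMem hx]
        simp only [Set.mem_Ioc, not_and_or, not_lt, not_le] at hx
        rcases hx with hx | hx
        · rw [hsg_zero ha hx, zero_mul]
        · rw [hsg_zero hb (by linarith), mul_zero]
    simp only [h1]
    rw [lintegral_indicator measurableSet_Ioc]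
    have hcont : Continuous fun x : ℝ => x ^ a * (L - x) ^ b := by fun_prop
    rw [← ofReal_integral_eq_lintegral_ofReal]
    · rw [← intervalIntegral.integral_of_le hL.le, beta_nat a b hL.le]
      unfold hsg
      rw [hs_pp_pos hL.le, ← ENNReal.ofReal_mul (by positivity), mul_comm]
    · exact (hcont.integrableOn_Ioc)
    · rw [Filter.EventuallyLE, ae_restrict_iff' measurableSet_Ioc]
      refine Filter.Eventually.of_forall fun x hx => ?_
      have h2 := hx.1.le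
      have h3 : 0 ≤ L - x := by linarith [hx.2]
      simp only [Pi.zero_apply]
      positivity

theorem hs_conv_sum {ι κ : Type*} (s : Finset ι) (t : Finset κ) (c : ι → ℝ) (d : κ → ℝ)
    (a : ι → ℕ) (b : κ → ℕ) (ha : ∀ i ∈ s, 0 < a i) (hb : ∀ j ∈ t, 0 < b j)
    (hc : ∀ i ∈ s, 0 ≤ c i) (hd : ∀ j ∈ t, 0 ≤ d j) (L : ℝ) :
    ∫⁻ x : ℝ, (∑ i ∈ s, ENNReal.ofReal (c i) * hsg (a i) x) *
        (∑ j ∈ t, ENNReal.ofReal (d j) * hsg (b j) (L - x)) =
      ∑ q ∈ s ×ˢ t, ENNReal.ofReal (c q.1 * d q.2 *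
        (((a q.1).factorial : ℝ) * (b q.2).factorial / (a q.1 + b q.2 + 1).factorial)) *
          hsg (a q.1 + b q.2 + 1) L := by
  have h1 : ∀ x : ℝ, (∑ i ∈ s, ENNReal.ofReal (c i) * hsg (a i) x) *
        (∑ j ∈ t, ENNReal.ofReal (d j) * hsg (b j) (L - x)) =
      ∑ q ∈ s ×ˢ t, (ENNReal.ofReal (c q.1) * ENNReal.ofReal (d q.2)) *
        (hsg (a q.1) x * hsg (b q.2) (L - x)) := by
    intro x
    rw [Finset.sum_mul_sum, Finset.sum_product]
    refine Finset.sum_congr rfl fun i _ => Finset.sum_congr rfl fun j _ => ?_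
    ring
  simp only [h1]
  rw [lintegral_finsetSum]
  · refine Finset.sum_congr rfl fun q hq => ?_
    rw [Finset.mem_product] at hq
    have hme : Measurable fun x : ℝ => hsg (a q.1) x * hsg (b q.2) (L - x) :=
      (hsg_meas _).mul ((hsg_meas _).comp (measurable_const.sub measurable_id))
    rw [lintegral_const_mul _ hme,
      hsg_conv (ha _ hq.1) (hb _ hq.2), ← mul_assoc, ← ENNReal.ofReal_mul (hc _ hq.1),
      ← ENNReal.ofReal_mul (mul_nonneg (hc _ hq.1) (hd _ hq.2))]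
  · intro q _
    exact ((hsg_meas _).mul ((hsg_meas _).comp (measurable_const.sub measurable_id))).const_mul _

/-- one factor of the two copies -/
noncomputable def hsh (m : ℕ) (w x : ℝ) : ENNReal := hsg m x * hsg m (x + w)

theorem hsh_exp {m : ℕ} (hm : 0 < m) {w : ℝ} (hw : 0 ≤ w) (x : ℝ) :
    hsh m w x = ∑ i ∈ Finset.range (m + 1),
      ENNReal.ofReal ((m.choose i : ℝ) * w ^ i) * hsg (2 * m - i) x := by
  rcases le_or_gt x 0 with hx | hx
  · rw [hsh, hsg_zero hm hx, zero_mul]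
    symm
    refine Finset.sum_eq_zero fun i hi => ?_
    rw [Finset.mem_range] at hi
    rw [hsg_zero (by omega) hx, mul_zero]
  · have h1 : hsh m w x = ENNReal.ofReal (x ^ m * (w + x) ^ m) := by
      unfold hsh hsg
      rw [hs_pp_pos hx.le, hs_pp_pos (by linarith), ENNReal.ofReal_mul (by positivity), add_comm w x]
    rw [h1, add_pow, Finset.mul_sum, ENNReal.ofReal_sum_of_nonneg (fun i _ => by positivity)]
    refine Finset.sum_congr rfl fun i hi => ?_
    rw [Finset.mem_range] at hi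
    unfold hsg
    rw [hs_pp_pos hx.le, ← ENNReal.ofReal_mul (by positivity)]
    congr 1
    have h2 : 2 * m - i = m + (m - i) := by omega
    rw [h2, pow_add]
    ring

/-- the fourfold convolution -/
noncomputable def hsJ (m : ℕ) (w L : ℝ) : ENNReal :=
  ∫⁻ p : ℝ, ∫⁻ y : ℝ, ∫⁻ z : ℝ, hsh m w p * (hsh m w y * (hsh m w z * hsh m w (L - p - y - z)))

theorem hsh_meas (m : ℕ) (w : ℝ) : Measurable (hsh m w) := by
  unfold hsh
  exact (hsg_meas m).mul ((hsg_meas m).comp (measurable_id.add measurable_const))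

theorem hsJ_exp {m : ℕ} (hm : 0 < m) {w : ℝ} (hw : 0 ≤ w) (L : ℝ) :
    hsJ m w L = ∑ i ∈ Finset.range (m + 1), ∑ j ∈ Finset.range (m + 1),
      ∑ k ∈ Finset.range (m + 1), ∑ l ∈ Finset.range (m + 1),
        ENNReal.ofReal ((((m.choose i : ℝ) * (2 * m - i).factorial) *
          ((m.choose j : ℝ) * (2 * m - j).factorial) * ((m.choose k : ℝ) * (2 * m - k).factorial) *
          ((m.choose l : ℝ) * (2 * m - l).factorial)) / (8 * m - (i + j + k + l) + 3).factorial *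
            w ^ (i + j + k + l)) * hsg (8 * m - (i + j + k + l) + 3) L := by
  set r := Finset.range (m + 1) with hr
  set c : ℕ → ℝ := fun i => (m.choose i : ℝ) * w ^ i with hcdef
  set a : ℕ → ℕ := fun i => 2 * m - i with hadef
  have hc : ∀ i ∈ r, 0 ≤ c i := fun i _ => by rw [hcdef]; positivity
  have ha : ∀ i ∈ r, 0 < a i := fun i hi => by
    rw [hr, Finset.mem_range] at hi
    simp only [hadef]
    omega
  have hexp : ∀ x, hsh m w x = ∑ i ∈ r, ENNReal.ofReal (c i) * hsg (a i) x := hsh_exp hm hw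
  -- twofold convolution
  set D2 : ℕ × ℕ → ℝ := fun q => c q.1 * c q.2 *
    (((a q.1).factorial : ℝ) * (a q.2).factorial / (a q.1 + a q.2 + 1).factorial) with hD2
  set b2 : ℕ × ℕ → ℕ := fun q => a q.1 + a q.2 + 1 with hb2
  have hC2 : ∀ L, ∫⁻ z : ℝ, hsh m w z * hsh m w (L - z) =
      ∑ q ∈ r ×ˢ r, ENNReal.ofReal (D2 q) * hsg (b2 q) L := by
    intro L
    simp only [hexp]
    exact hs_conv_sum r r c c a a ha ha hc hc L
  have hD2p : ∀ q ∈ r ×ˢ r, 0 ≤ D2 q := fun q hq => by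
    rw [Finset.mem_product] at hq
    have := hc _ hq.1
    have := hc _ hq.2
    simp only [hD2]
    positivity
  have hb2p : ∀ q ∈ r ×ˢ r, 0 < b2 q := fun q _ => by simp only [hb2]; omega
  set D3 : ℕ × ℕ × ℕ → ℝ := fun q => c q.1 * D2 q.2 *
    (((a q.1).factorial : ℝ) * (b2 q.2).factorial / (a q.1 + b2 q.2 + 1).factorial) with hD3
  set b3 : ℕ × ℕ × ℕ → ℕ := fun q => a q.1 + b2 q.2 + 1 with hb3
  have hC3 : ∀ L, ∫⁻ y : ℝ, hsh m w y * (∫⁻ z : ℝ, hsh m w z * hsh m w (L - y - z)) =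
      ∑ q ∈ r ×ˢ (r ×ˢ r), ENNReal.ofReal (D3 q) * hsg (b3 q) L := by
    intro L
    have : ∀ y, hsh m w y * (∫⁻ z : ℝ, hsh m w z * hsh m w (L - y - z)) =
        (∑ i ∈ r, ENNReal.ofReal (c i) * hsg (a i) y) *
          (∑ q ∈ r ×ˢ r, ENNReal.ofReal (D2 q) * hsg (b2 q) (L - y)) := by
      intro y
      rw [hC2, hexp]
    simp only [this]
    exact hs_conv_sum r (r ×ˢ r) c D2 a b2 ha hb2p hc hD2p L
  have hD3p : ∀ q ∈ r ×ˢ (r ×ˢ r), 0 ≤ D3 q := fun q hq => by
    rw [Finset.mem_product] at hq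
    have := hc _ hq.1
    have := hD2p _ hq.2
    simp only [hD3]
    positivity
  have hb3p : ∀ q ∈ r ×ˢ (r ×ˢ r), 0 < b3 q := fun q _ => by simp only [hb3]; omega
  have hJ : hsJ m w L = ∫⁻ p : ℝ, (∑ i ∈ r, ENNReal.ofReal (c i) * hsg (a i) p) *
      (∑ q ∈ r ×ˢ (r ×ˢ r), ENNReal.ofReal (D3 q) * hsg (b3 q) (L - p)) := by
    unfold hsJ
    refine lintegral_congr fun p => ?_
    rw [← hC3, ← hexp, ← lintegral_const_mul]
    · refine lintegral_congr fun y => ?_
      rw [← lintegral_const_mul, ← lintegral_const_mul]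
      · have := hsh_meas m w
        fun_prop
      · have := hsh_meas m w
        fun_prop
    · have h1 := hsh_meas m w
      refine h1.mul ?_
      refine Measurable.lintegral_prod_right' (f := fun x : ℝ × ℝ =>
        hsh m w x.2 * hsh m w (L - p - x.1 - x.2)) ?_
      fun_prop
  rw [hJ, hs_conv_sum r (r ×ˢ (r ×ˢ r)) c D3 a b3 ha hb3p hc hD3p L, Finset.sum_product]
  refine Finset.sum_congr rfl fun i hi => ?_
  rw [Finset.sum_product]
  refine Finset.sum_congr rfl fun j hj => ?_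
  rw [Finset.sum_product]
  refine Finset.sum_congr rfl fun k hk => Finset.sum_congr rfl fun l hl => ?_
  rw [hr, Finset.mem_range] at hi hj hk hl
  have hN : a i + b3 (j, k, l) + 1 = 8 * m - (i + j + k + l) + 3 := by
    simp only [hb3, hb2, hadef]
    omega
  simp only [hN]
  congr 2
  simp only [hD3, hD2]
  have e2 : ((b2 (k, l)).factorial : ℝ) ≠ 0 := by positivity
  have e3 : ((b3 (j, k, l)).factorial : ℝ) ≠ 0 := by positivity
  have e2' : (((a k + a l + 1 : ℕ).factorial : ℕ) : ℝ) = (b2 (k, l)).factorial := rfl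
  have e3' : (((a j + b2 (k, l) + 1 : ℕ).factorial : ℕ) : ℝ) = (b3 (j, k, l)).factorial := rfl
  have e4 : ((8 * m - (i + j + k + l) + 3).factorial : ℝ) ≠ 0 := by positivity
  rw [e2', e3']
  simp only [hcdef, hadef]
  field_simp
  ring

theorem hs_scale {f : ℝ → ENNReal} (hf : Measurable f) (c : ℝ) :
    ∫⁻ a : ℝ, f a = 2 * ∫⁻ y : ℝ, f (2 * y + 2 * c) := by
  have h1 := lintegral_add_right_eq_self (μ := (volume : Measure ℝ)) (fun y => f (2 * y)) c
  simp only [mul_add] at h1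
  rw [h1]
  have h2 := Real.smul_map_volume_mul_left (a := 2) (by norm_num)
  conv_lhs => rw [← h2]
  rw [lintegral_smul_measure, lintegral_map hf (measurable_const_mul 2)]
  norm_num

theorem hs_term {t N : ℕ} (hN : 0 < N) {C u : ℝ} (hC : 0 ≤ C) (hu : 0 < u) :
    ∫⁻ w in Set.Ioi (0 : ℝ), ENNReal.ofReal (C * w ^ t) * hsg N (u - 2 * w) =
      ENNReal.ofReal (C * ((t.factorial : ℝ) * N.factorial / (t + N + 1).factorial / 2 ^ (t + 1)) *
        u ^ (t + N + 1)) := by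
  have h1 : ∫⁻ w in Set.Ioi (0 : ℝ), ENNReal.ofReal (C * w ^ t) * hsg N (u - 2 * w) =
      ∫⁻ w in Set.Ioc (0 : ℝ) (u / 2), ENNReal.ofReal (C * 2 ^ N * (w ^ t * (u / 2 - w) ^ N)) := by
    rw [← lintegral_indicator measurableSet_Ioi, ← lintegral_indicator measurableSet_Ioc]
    refine lintegral_congr fun w => ?_
    by_cases hw : w ∈ Set.Ioi (0 : ℝ)
    · rw [Set.indicator_of_mem hw]
      rw [Set.mem_Ioi] at hw
      by_cases hw2 : w ≤ u / 2
      · rw [Set.indicator_of_mem (Set.mem_Ioc.mpr ⟨hw, hw2⟩)]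
        unfold hsg
        rw [hs_pp_pos (by linarith), ← ENNReal.ofReal_mul (by positivity)]
        congr 1
        have : u - 2 * w = 2 * (u / 2 - w) := by ring
        rw [this, mul_pow]
        ring
      · rw [Set.indicator_of_notMem (fun h => hw2 h.2), hsg_zero hN (by linarith), mul_zero]
    · rw [Set.indicator_of_notMem hw, Set.indicator_of_notMem (fun h => hw h.1)]
  rw [h1]
  have hcont : Continuous fun w : ℝ => C * 2 ^ N * (w ^ t * (u / 2 - w) ^ N) := by fun_prop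
  rw [← ofReal_integral_eq_lintegral_ofReal]
  · rw [← intervalIntegral.integral_of_le (by positivity), intervalIntegral.integral_const_mul,
      beta_nat t N (by positivity)]
    congr 1
    rw [div_pow]
    have h2 : (2 : ℝ) ^ (t + N + 1) = 2 ^ N * 2 ^ (t + 1) := by rw [← pow_add]; congr 1; omega
    rw [h2]
    field_simp
  · exact (hcont.integrableOn_Ioc)
  · rw [Filter.EventuallyLE, ae_restrict_iff' measurableSet_Ioc]
    refine Filter.Eventually.of_forall fun x hx => ?_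
    have h2 := hx.1.le
    have h3 : 0 ≤ u / 2 - x := by linarith [hx.2]
    simp only [Pi.zero_apply]
    positivity

theorem hs_swap4 {F : ℝ → ℝ → ℝ → ℝ → ENNReal}
    (hF : Measurable fun x : (ℝ × ℝ) × (ℝ × ℝ) => F x.1.1 x.1.2 x.2.1 x.2.2) :
    ∫⁻ a : ℝ, ∫⁻ b : ℝ, ∫⁻ p : ℝ, ∫⁻ w : ℝ, F a b p w =
      ∫⁻ w : ℝ, ∫⁻ p : ℝ, ∫⁻ a : ℝ, ∫⁻ b : ℝ, F a b p w := by
  have h1 : ∀ a b, ∫⁻ p : ℝ, ∫⁻ w : ℝ, F a b p w =
      ∫⁻ y : ℝ × ℝ, F a b y.1 y.2 ∂((volume : Measure ℝ).prod volume) := by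
    intro a b
    rw [lintegral_prod]
    exact (hF.comp (measurable_const (a := ((a, b) : ℝ × ℝ)) |>.prodMk measurable_id)).aemeasurable
  have h2 : ∀ p w, ∫⁻ a : ℝ, ∫⁻ b : ℝ, F a b p w =
      ∫⁻ x : ℝ × ℝ, F x.1 x.2 p w ∂((volume : Measure ℝ).prod volume) := by
    intro p w
    rw [lintegral_prod]
    exact (hF.comp (measurable_id.prodMk (measurable_const (a := ((p, w) : ℝ × ℝ))))).aemeasurable
  simp only [h1, h2]
  have h3 : ∫⁻ a : ℝ, ∫⁻ b : ℝ, ∫⁻ y : ℝ × ℝ, F a b y.1 y.2 ∂((volume : Measure ℝ).prod volume) =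
      ∫⁻ x : ℝ × ℝ, ∫⁻ y : ℝ × ℝ, F x.1 x.2 y.1 y.2 ∂((volume : Measure ℝ).prod volume)
        ∂((volume : Measure ℝ).prod volume) := by
    rw [lintegral_prod]
    exact hF.lintegral_prod_right'.aemeasurable
  rw [h3, lintegral_lintegral_swap hF.aemeasurable, lintegral_prod_symm]
  exact hF.lintegral_prod_left'.aemeasurable

/-- the integrand of the kernel -/
noncomputable def hsP (m : ℕ) (u a b p : ℝ) : ENNReal :=
  hsg m p * hsg m ((u + a) / 2 - p) * hsg m ((u + b) / 2 - p) * hsg m (p - (a + b) / 2)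

theorem hsP_meas (m : ℕ) (u a b : ℝ) : Measurable (hsP m u a b) := by
  have := hsg_meas m
  unfold hsP
  fun_prop

theorem hs_BK_eq (m : ℕ) (u a b : ℝ) :
    BK m u a b = ENNReal.ofReal (1 / 4) * ∫⁻ p : ℝ, hsP m u a b p := by
  unfold BK hsP hsg
  congr 1
  refine lintegral_congr fun p => ?_
  have h1 := hs_pp_nn p
  have h2 := hs_pp_nn ((u + a) / 2 - p)
  have h3 := hs_pp_nn ((u + b) / 2 - p)
  rw [mul_pow, mul_pow, mul_pow,
    ENNReal.ofReal_mul (mul_nonneg (mul_nonneg (pow_nonneg h1 _) (pow_nonneg h2 _)) (pow_nonneg h3 _)),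
    ENNReal.ofReal_mul (mul_nonneg (pow_nonneg h1 _) (pow_nonneg h2 _)),
    ENNReal.ofReal_mul (pow_nonneg h1 _)]

theorem hs_BK_sq (m : ℕ) (u a b : ℝ) :
    BK m u a b ^ 2 = ENNReal.ofReal (1 / 16) *
      ∫⁻ p : ℝ, ∫⁻ w : ℝ, hsP m u a b p * hsP m u a b (p + w) := by
  have hm := hsP_meas m u a b
  rw [hs_BK_eq, mul_pow, ← ENNReal.ofReal_pow (by norm_num)]
  congr 1
  · norm_num
  · rw [sq, ← lintegral_mul_const _ hm]
    refine lintegral_congr fun p => ?_
    rw [← lintegral_const_mul _ hm,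
      ← lintegral_add_left_eq_self (fun q => hsP m u a b p * hsP m u a b q) p]

theorem hs_inner (m : ℕ) (u p w : ℝ) :
    ∫⁻ a : ℝ, ∫⁻ b : ℝ, hsP m u a b p * hsP m u a b (p + w) =
      4 * ∫⁻ y : ℝ, ∫⁻ z : ℝ,
        hsh m w p * (hsh m w y * (hsh m w z * hsh m w (u - 2 * w - p - y - z))) := by
  have hg := hsg_meas m
  have h1 : ∀ a : ℝ, ∫⁻ b : ℝ, hsP m u a b p * hsP m u a b (p + w) =
      2 * ∫⁻ z : ℝ, hsP m u a (2 * z + 2 * (w + p - u / 2)) p *
        hsP m u a (2 * z + 2 * (w + p - u / 2)) (p + w) := by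
    intro a
    refine hs_scale (f := fun b => hsP m u a b p * hsP m u a b (p + w)) ?_ _
    unfold hsP
    fun_prop
  simp only [h1]
  rw [hs_scale (c := w + p - u / 2)]
  · rw [show (4 : ENNReal) = 2 * 2 by norm_num, mul_assoc]
    congr 1
    rw [← lintegral_const_mul]
    · refine lintegral_congr fun y => ?_
      congr 1
      refine lintegral_congr fun z => ?_
      unfold hsP hsh
      have e1 : (u + (2 * y + 2 * (w + p - u / 2))) / 2 - p = y + w := by ring
      have e2 : (u + (2 * z + 2 * (w + p - u / 2))) / 2 - p = z + w := by ring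
      have e3 : p - (2 * y + 2 * (w + p - u / 2) + (2 * z + 2 * (w + p - u / 2))) / 2 =
        u - 2 * w - p - y - z := by ring
      have e4 : (u + (2 * y + 2 * (w + p - u / 2))) / 2 - (p + w) = y := by ring
      have e5 : (u + (2 * z + 2 * (w + p - u / 2))) / 2 - (p + w) = z := by ring
      have e6 : p + w - (2 * y + 2 * (w + p - u / 2) + (2 * z + 2 * (w + p - u / 2))) / 2 =
        u - 2 * w - p - y - z + w := by ring
      rw [e1, e2, e3, e4, e5, e6]
      ring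
    · have h1 := hsh_meas m w
      refine Measurable.lintegral_prod_right' (f := fun x : ℝ × ℝ =>
        hsh m w p * (hsh m w x.1 * (hsh m w x.2 * hsh m w (u - 2 * w - p - x.1 - x.2)))) ?_
      fun_prop
  · refine Measurable.const_mul ?_ 2
    refine Measurable.lintegral_prod_right' (f := fun x : ℝ × ℝ =>
        hsP m u x.1 (2 * x.2 + 2 * (w + p - u / 2)) p *
        hsP m u x.1 (2 * x.2 + 2 * (w + p - u / 2)) (p + w)) ?_
    unfold hsP
    fun_prop

theorem hsJ_neg (m : ℕ) (u w : ℝ) : hsJ m (-w) (u + 2 * w) = hsJ m w (u - 2 * w) := by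
  have h0 : ∀ x, hsh m (-w) x = hsh m w (x - w) := by
    intro x
    unfold hsh
    rw [sub_add_cancel, mul_comm, ← sub_eq_add_neg]
  unfold hsJ
  rw [← lintegral_add_right_eq_self _ w]
  refine lintegral_congr fun p => ?_
  rw [← lintegral_add_right_eq_self _ w]
  refine lintegral_congr fun y => ?_
  rw [← lintegral_add_right_eq_self _ w]
  refine lintegral_congr fun z => ?_
  simp only [h0, add_sub_cancel_right]
  congr 4
  ring

theorem hs_even {F : ℝ → ENNReal} (hF : ∀ w, F (-w) = F w) :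
    ∫⁻ w : ℝ, F w = 2 * ∫⁻ w in Set.Ioi (0 : ℝ), F w := by
  rw [← lintegral_add_compl F (measurableSet_Ioi (a := (0 : ℝ))), two_mul]
  congr 1
  rw [Set.compl_Ioi, ← lintegral_indicator measurableSet_Iic, ← lintegral_neg_eq_self,
    ← lintegral_indicator measurableSet_Ioi]
  refine lintegral_congr_ae ?_
  have h0 : ∀ᵐ w : ℝ, w ≠ 0 := by simp [ae_iff, measure_singleton]
  filter_upwards [h0] with w hw
  by_cases hw0 : 0 < w
  · rw [Set.indicator_of_mem (by simp only [Set.mem_Iic]; linarith), Set.indicator_of_mem (by exact hw0), hF]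
  · rw [Set.indicator_of_notMem, Set.indicator_of_notMem (by exact hw0)]
    simp only [Set.mem_Iic, not_le]
    rcases lt_or_gt_of_ne hw with h | h
    · linarith
    · exact absurd h hw0

theorem hsP_meas2 (m : ℕ) (u : ℝ) : Measurable fun x : ℝ × ℝ => ∫⁻ p : ℝ, ∫⁻ w : ℝ,
      hsP m u x.1 x.2 p * hsP m u x.1 x.2 (p + w) := by
  have hg := hsg_meas m
  have h2 : Measurable fun y : (ℝ × ℝ) × ℝ => ∫⁻ w : ℝ,
      hsP m u y.1.1 y.1.2 y.2 * hsP m u y.1.1 y.1.2 (y.2 + w) := by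
    refine Measurable.lintegral_prod_right' (f := fun x : ((ℝ × ℝ) × ℝ) × ℝ =>
      hsP m u x.1.1.1 x.1.1.2 x.1.2 * hsP m u x.1.1.1 x.1.1.2 (x.1.2 + x.2)) ?_
    unfold hsP
    fun_prop
  exact h2.lintegral_prod_right'

theorem hs_pull {G : ℝ × ℝ → ENNReal} (hG : Measurable G) (c : ENNReal) :
    ∫⁻ a : ℝ, ∫⁻ b : ℝ, c * G (a, b) = c * ∫⁻ a : ℝ, ∫⁻ b : ℝ, G (a, b) := by
  have hG1 : Measurable fun a : ℝ => ∫⁻ b : ℝ, G (a, b) := hG.lintegral_prod_right'
  rw [← lintegral_const_mul _ hG1]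
  refine lintegral_congr fun a => ?_
  have hG2 : Measurable fun b : ℝ => G (a, b) := hG.comp measurable_prodMk_left
  rw [lintegral_const_mul _ hG2]

theorem hs_step1 (m : ℕ) (u : ℝ) :
    ∫⁻ a : ℝ, ∫⁻ b : ℝ, BK m u a b ^ 2 = ENNReal.ofReal (1 / 16) *
      ∫⁻ a : ℝ, ∫⁻ b : ℝ, ∫⁻ p : ℝ, ∫⁻ w : ℝ, hsP m u a b p * hsP m u a b (p + w) := by
  rw [← hs_pull (hsP_meas2 m u)]
  exact lintegral_congr fun a => lintegral_congr fun b => hs_BK_sq m u a b

theorem hsJ_meas3 (m : ℕ) (u : ℝ) : Measurable fun y : ℝ × ℝ => ∫⁻ z' : ℝ, ∫⁻ z : ℝ,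
      hsh m y.1 y.2 * (hsh m y.1 z' * (hsh m y.1 z *
        hsh m y.1 (u - 2 * y.1 - y.2 - z' - z))) := by
  have hg := hsg_meas m
  have e1 : Measurable fun y : (ℝ × ℝ) × ℝ => ∫⁻ z : ℝ,
        hsh m y.1.1 y.1.2 * (hsh m y.1.1 y.2 * (hsh m y.1.1 z *
          hsh m y.1.1 (u - 2 * y.1.1 - y.1.2 - y.2 - z))) := by
    refine Measurable.lintegral_prod_right' (f := fun x : ((ℝ × ℝ) × ℝ) × ℝ =>
        hsh m x.1.1.1 x.1.1.2 * (hsh m x.1.1.1 x.1.2 * (hsh m x.1.1.1 x.2 *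
          hsh m x.1.1.1 (u - 2 * x.1.1.1 - x.1.1.2 - x.1.2 - x.2)))) ?_
    unfold hsh
    fun_prop
  exact e1.lintegral_prod_right'

theorem hs_step2 (m : ℕ) (u : ℝ) :
    ∫⁻ a : ℝ, ∫⁻ b : ℝ, ∫⁻ p : ℝ, ∫⁻ w : ℝ, hsP m u a b p * hsP m u a b (p + w) =
      4 * ∫⁻ w : ℝ, hsJ m w (u - 2 * w) := by
  have hg := hsg_meas m
  have hFm : Measurable fun x : (ℝ × ℝ) × (ℝ × ℝ) =>
      (fun a b p w : ℝ => hsP m u a b p * hsP m u a b (p + w)) x.1.1 x.1.2 x.2.1 x.2.2 := by
    simp only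
    unfold hsP
    fun_prop
  have hJ : Measurable fun w : ℝ => hsJ m w (u - 2 * w) := (hsJ_meas3 m u).lintegral_prod_right'
  rw [hs_swap4 hFm, ← lintegral_const_mul _ hJ]
  refine lintegral_congr fun w => ?_
  simp only [hs_inner]
  have h2 : Measurable fun p : ℝ => ∫⁻ z' : ℝ, ∫⁻ z : ℝ,
      hsh m w p * (hsh m w z' * (hsh m w z *
        hsh m w (u - 2 * w - p - z' - z))) := (hsJ_meas3 m u).comp measurable_prodMk_left
  rw [lintegral_const_mul _ h2]
  rfl

theorem hs_step4 {m : ℕ} (hm : 0 < m) {u : ℝ} (hu : 0 < u) (A : ℕ → ℕ → ℕ → ℕ → ℝ)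
    (hA : ∀ i j k l, A i j k l = (((m.choose i : ℝ) * (2 * m - i).factorial) *
          ((m.choose j : ℝ) * (2 * m - j).factorial) * ((m.choose k : ℝ) * (2 * m - k).factorial) *
          ((m.choose l : ℝ) * (2 * m - l).factorial))) :
    ∫⁻ w in Set.Ioi (0 : ℝ), hsJ m w (u - 2 * w) =
      ∑ i ∈ Finset.range (m + 1), ∑ j ∈ Finset.range (m + 1),
        ∑ k ∈ Finset.range (m + 1), ∑ l ∈ Finset.range (m + 1),
        ENNReal.ofReal (A i j k l * (((i + j + k + l).factorial : ℝ) / (8 * m + 4).factorial /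
          2 ^ (i + j + k + l + 1)) * u ^ (8 * m + 4)) := by
  set r := Finset.range (m + 1) with hr
  have hA0 : ∀ i j k l, 0 ≤ A i j k l := fun i j k l => by rw [hA]; positivity
  have h5 : ∫⁻ w in Set.Ioi (0 : ℝ), hsJ m w (u - 2 * w) =
      ∫⁻ w in Set.Ioi (0 : ℝ), ∑ i ∈ r, ∑ j ∈ r, ∑ k ∈ r, ∑ l ∈ r,
        ENNReal.ofReal (A i j k l / (8 * m - (i + j + k + l) + 3).factorial *
          w ^ (i + j + k + l)) * hsg (8 * m - (i + j + k + l) + 3) (u - 2 * w) := by
    refine setLIntegral_congr_fun measurableSet_Ioi fun w hw => ?_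
    have := hsJ_exp hm (le_of_lt hw) (u - 2 * w)
    simp only [← hA] at this
    exact this
  have hmt : ∀ i j k l : ℕ, Measurable fun w : ℝ =>
      ENNReal.ofReal (A i j k l / (8 * m - (i + j + k + l) + 3).factorial *
          w ^ (i + j + k + l)) * hsg (8 * m - (i + j + k + l) + 3) (u - 2 * w) := by
    intro i j k l
    have := hsg_meas (8 * m - (i + j + k + l) + 3)
    fun_prop
  have hm3 : ∀ i j k : ℕ, Measurable fun w : ℝ => ∑ l ∈ r,
      ENNReal.ofReal (A i j k l / (8 * m - (i + j + k + l) + 3).factorial *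
          w ^ (i + j + k + l)) * hsg (8 * m - (i + j + k + l) + 3) (u - 2 * w) :=
    fun i j k => Finset.measurable_fun_sum _ fun l _ => hmt i j k l
  have hm2 : ∀ i j : ℕ, Measurable fun w : ℝ => ∑ k ∈ r, ∑ l ∈ r,
      ENNReal.ofReal (A i j k l / (8 * m - (i + j + k + l) + 3).factorial *
          w ^ (i + j + k + l)) * hsg (8 * m - (i + j + k + l) + 3) (u - 2 * w) :=
    fun i j => Finset.measurable_fun_sum _ fun k _ => hm3 i j k
  have hm1 : ∀ i : ℕ, Measurable fun w : ℝ => ∑ j ∈ r, ∑ k ∈ r, ∑ l ∈ r,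
      ENNReal.ofReal (A i j k l / (8 * m - (i + j + k + l) + 3).factorial *
          w ^ (i + j + k + l)) * hsg (8 * m - (i + j + k + l) + 3) (u - 2 * w) :=
    fun i => Finset.measurable_fun_sum _ fun j _ => hm2 i j
  rw [h5, lintegral_finsetSum _ fun i _ => hm1 i]
  refine Finset.sum_congr rfl fun i hi => ?_
  rw [lintegral_finsetSum _ fun j _ => hm2 i j]
  refine Finset.sum_congr rfl fun j hj => ?_
  rw [lintegral_finsetSum _ fun k _ => hm3 i j k]
  refine Finset.sum_congr rfl fun k hk => ?_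
  rw [lintegral_finsetSum _ fun l _ => hmt i j k l]
  refine Finset.sum_congr rfl fun l hl => ?_
  have hA1 := hA0 i j k l
  rw [hs_term (by omega) (by positivity) hu]
  rw [hr, Finset.mem_range] at hi hj hk hl
  have e1 : i + j + k + l + (8 * m - (i + j + k + l) + 3) + 1 = 8 * m + 4 := by omega
  rw [e1]
  congr 1
  have e2 : ((8 * m - (i + j + k + l) + 3).factorial : ℝ) ≠ 0 := by positivity
  field_simp

theorem hs_sum4 {r : Finset ℕ} {f : ℕ → ℕ → ℕ → ℕ → ℝ} (hf : ∀ i j k l, 0 ≤ f i j k l) :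
    ∑ i ∈ r, ∑ j ∈ r, ∑ k ∈ r, ∑ l ∈ r, ENNReal.ofReal (f i j k l) =
      ENNReal.ofReal (∑ i ∈ r, ∑ j ∈ r, ∑ k ∈ r, ∑ l ∈ r, f i j k l) := by
  rw [ENNReal.ofReal_sum_of_nonneg (fun i _ => Finset.sum_nonneg fun j _ =>
    Finset.sum_nonneg fun k _ => Finset.sum_nonneg fun l _ => hf i j k l)]
  refine Finset.sum_congr rfl fun i _ => ?_
  rw [ENNReal.ofReal_sum_of_nonneg (fun j _ =>
    Finset.sum_nonneg fun k _ => Finset.sum_nonneg fun l _ => hf i j k l)]
  refine Finset.sum_congr rfl fun j _ => ?_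
  rw [ENNReal.ofReal_sum_of_nonneg (fun k _ => Finset.sum_nonneg fun l _ => hf i j k l)]
  refine Finset.sum_congr rfl fun k _ => ?_
  rw [ENNReal.ofReal_sum_of_nonneg (fun l _ => hf i j k l)]

theorem BK_hs {m : ℕ} (hm : 0 < m) {u : ℝ} (hu : 0 < u) :
    ∫⁻ a : ℝ, ∫⁻ b : ℝ, BK m u a b ^ 2 ≤ ENNReal.ofReal (be2 m * u ^ (8 * m + 4)) := by
  have h3 : ∫⁻ w : ℝ, hsJ m w (u - 2 * w) = 2 * ∫⁻ w in Set.Ioi (0 : ℝ), hsJ m w (u - 2 * w) := by
    refine hs_even (F := fun w => hsJ m w (u - 2 * w)) fun w => ?_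
    have := hsJ_neg m u w
    simp only [mul_neg, sub_neg_eq_add]
    exact this
  set A : ℕ → ℕ → ℕ → ℕ → ℝ := fun i j k l => (((m.choose i : ℝ) * (2 * m - i).factorial) *
          ((m.choose j : ℝ) * (2 * m - j).factorial) * ((m.choose k : ℝ) * (2 * m - k).factorial) *
          ((m.choose l : ℝ) * (2 * m - l).factorial)) with hA
  have hAp : ∀ i j k l, 0 ≤ A i j k l * (((i + j + k + l).factorial : ℝ) / (8 * m + 4).factorial /
          2 ^ (i + j + k + l + 1)) * u ^ (8 * m + 4) := by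
    intro i j k l
    rw [hA]
    positivity
  rw [hs_step1, hs_step2, h3, hs_step4 hm hu A (fun i j k l => rfl), hs_sum4 hAp]
  rw [show (4 : ENNReal) = ENNReal.ofReal 4 by simp, show (2 : ENNReal) = ENNReal.ofReal 2 by simp,
    ← ENNReal.ofReal_mul (by norm_num), ← ENNReal.ofReal_mul (by norm_num),
    ← ENNReal.ofReal_mul (by norm_num)]
  refine le_of_eq ?_
  congr 1
  unfold be2
  simp only [Finset.mul_sum, Finset.sum_mul]
  refine Finset.sum_congr rfl fun i _ => Finset.sum_congr rfl fun j _ =>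
    Finset.sum_congr rfl fun k _ => Finset.sum_congr rfl fun l _ => ?_
  rw [hA, pow_succ (2 : ℝ) (i + j + k + l)]
  have e3 : ((8 * m + 4).factorial : ℝ) ≠ 0 := by positivity
  field_simp
  ring

theorem be2_pos (m : ℕ) : 0 < be2 m := by
  unfold be2
  refine mul_pos (by positivity) ?_
  refine Finset.sum_pos (fun i hi => ?_) (Finset.nonempty_range_iff.mpr (Nat.succ_ne_zero m))
  refine Finset.sum_pos (fun j hj => ?_) (Finset.nonempty_range_iff.mpr (Nat.succ_ne_zero m))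
  refine Finset.sum_pos (fun k hk => ?_) (Finset.nonempty_range_iff.mpr (Nat.succ_ne_zero m))
  refine Finset.sum_pos (fun l hl => ?_) (Finset.nonempty_range_iff.mpr (Nat.succ_ne_zero m))
  rw [Finset.mem_range] at hi hj hk hl
  have h1 : (0 : ℝ) < m.choose i := by exact_mod_cast Nat.choose_pos (by omega)
  have h2 : (0 : ℝ) < m.choose j := by exact_mod_cast Nat.choose_pos (by omega)
  have h3 : (0 : ℝ) < m.choose k := by exact_mod_cast Nat.choose_pos (by omega)
  have h4 : (0 : ℝ) < m.choose l := by exact_mod_cast Nat.choose_pos (by omega)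
  positivity

theorem be2_one : be2 1 = 103 / 3832012800 := by
  unfold be2
  norm_num [Finset.sum_range_succ, Nat.factorial]

end Pool.Agent.GenMoment
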