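import Mathlib
import Pool.Agent.Lib_MP_112ba8_g.DefsB
import Pool.Agent.Lib_MP_112ba8_g.Pairs
import Pool.Agent.Lib_MP_112ba8_g.Block
import Pool.Agent.Lib_MP_112ba8_g.KTwo
import Pool.Agent.Lib_MP_112ba8_g.KEdge
import Pool.Agent.Lib_MP_112ba8_s.ShellP

/-!
Piece KSIXA: six equal vertices with hats, reduction to three block kernels.

Fifteen edges, exponents `2a²`, `m = 2a² - 1`.  Matching edges `01, 23, 45`.  Blocks:
(1) rows 0,1, columns 2,3: `y02 y03 y12 y13`; (2) rows 2,3, columns 4,5: `y24 y25 y34 y35`;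
(3) rows 4,5, columns 0,1: `y04 y14 y05 y15` (row 4: `y04, y14`; row 5: `y05, y15`).
Order of integration: block 1, block 2, block 3, matching edges innermost; use `e1_step`, `e1_cons`
(`Lib_MP_112ba8_s/ShellP.lean`), `dens_nat`.  `pair_le` three times: vertex 0 has
`y01 + (y02+y03) + (y04+y05)`, vertex 1 has `y01 + (y12+y13) + (y14+y15)`: difference
`a₁ + b₃` (row difference of block 1, column difference of block 3), half sum `(u₁+u₃)/2`; vertices 2, 3: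
`b₁ + a₂`, `(u₁+u₂)/2`; vertices 4, 5: `b₂ + a₃`, `(u₂+u₃)/2`.  Then `block_cov` three times.
-/

namespace Pool.Agent.GenMoment

open Filter Topology MeasureTheory
open Pool.Agent.EvenMoment (cl Wgt Adm Ed cut hat hl)
open Pool.Agent.SixthMoment (QQ ln fr osc QS TT ob sepa oy xe JZ fc chi e1_step e1_cons e1_prod
  e1_ofReal_integral_le)

/-- the edges of the complete graph on six vertices -/
def k6_edf : Fin 15 → Ed 6 :=
  ![⟨(0, 2), by decide⟩, ⟨(0, 3), by decide⟩, ⟨(1, 2), by decide⟩, ⟨(1, 3), by decide⟩,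
    ⟨(2, 4), by decide⟩, ⟨(2, 5), by decide⟩, ⟨(3, 4), by decide⟩, ⟨(3, 5), by decide⟩,
    ⟨(0, 4), by decide⟩, ⟨(1, 4), by decide⟩, ⟨(0, 5), by decide⟩, ⟨(1, 5), by decide⟩,
    ⟨(0, 1), by decide⟩, ⟨(2, 3), by decide⟩, ⟨(4, 5), by decide⟩]

theorem k6_edf_bij : Function.Bijective k6_edf :=
  (Fintype.bijective_iff_injective_and_card _).2 ⟨by decide, by decide⟩

noncomputable def k6_ede : Fin 15 ≃ Ed 6 := Equiv.ofBijective k6_edf k6_edf_bij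

theorem k6_obs (r : Fin 15 → ℝ) :
    (fun i => ∑ j, if sepa (SI 6 i) (k6_edf j) then r j else 0) =
      ![r 12 + (r 0 + r 1 + r 8 + r 10), r 12 + (r 2 + r 3 + r 9 + r 11),
        r 13 + (r 0 + r 2 + r 4 + r 5), r 13 + (r 1 + r 3 + r 6 + r 7),
        r 14 + (r 4 + r 6 + r 8 + r 9), r 14 + (r 5 + r 7 + r 10 + r 11)] := by
  funext i
  fin_cases i <;> simp [Fin.sum_univ_succ, k6_edf, sepa, SI] <;> ring

/-- the integrand in fifteen variables -/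
noncomputable def k6_g (m : ℕ) (θ δ : ℝ) (r : Fin 15 → ℝ) : ENNReal :=
  ENNReal.ofReal (1 / (m.factorial : ℝ) ^ 15) * (ENNReal.ofReal ((r 0 * r 1 * r 2 * r 3) ^ m) *
    (ENNReal.ofReal ((r 4 * r 5 * r 6 * r 7) ^ m) *
      (ENNReal.ofReal ((r 8 * r 9 * r 10 * r 11) ^ m) *
    (ke_h m θ δ (r 0 + r 1 + r 8 + r 10) (r 2 + r 3 + r 9 + r 11) (r 12) *
      (ke_h m θ δ (r 0 + r 2 + r 4 + r 5) (r 1 + r 3 + r 6 + r 7) (r 13) *
      ke_h m θ δ (r 4 + r 6 + r 8 + r 9) (r 5 + r 7 + r 10 + r 11) (r 14))))))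

theorem k6_g_meas (m : ℕ) (θ δ : ℝ) : Measurable (k6_g m θ δ) := by
  unfold k6_g
  refine Measurable.const_mul ?_ _
  refine Measurable.mul (ENNReal.measurable_ofReal.comp (by fun_prop)) ?_
  refine Measurable.mul (ENNReal.measurable_ofReal.comp (by fun_prop)) ?_
  refine Measurable.mul (ENNReal.measurable_ofReal.comp (by fun_prop)) ?_
  exact (ke_h_meas m θ δ (by fun_prop) (by fun_prop) (by fun_prop)).mul
    ((ke_h_meas m θ δ (by fun_prop) (by fun_prop) (by fun_prop)).mul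
    (ke_h_meas m θ δ (by fun_prop) (by fun_prop) (by fun_prop)))

theorem k6_point {a m : ℕ} (ha : 0 < a) (hm : 2 * a ^ 2 = m + 1) (θ δ : ℝ) {r : Fin 15 → ℝ}
    (hr : ∀ i, 0 < r i) :
    ENNReal.ofReal (ke_f k6_ede (fun _ : Fin 6 => pn a) (SI 6) (G0 fun _ => hat θ δ) r) =
      k6_g m θ δ r := by
  have h1 : ke_f k6_ede (fun _ : Fin 6 => pn a) (SI 6) (G0 fun _ => hat θ δ) r =
      1 / (m.factorial : ℝ) ^ 15 * ((r 0 * r 1 * r 2 * r 3) ^ m *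
        ((r 4 * r 5 * r 6 * r 7) ^ m * ((r 8 * r 9 * r 10 * r 11) ^ m *
        ((r 12 ^ m * (hat θ δ (r 12 + (r 0 + r 1 + r 8 + r 10)) *
            hat θ δ (r 12 + (r 2 + r 3 + r 9 + r 11)))) *
          ((r 13 ^ m * (hat θ δ (r 13 + (r 0 + r 2 + r 4 + r 5)) *
            hat θ δ (r 13 + (r 1 + r 3 + r 6 + r 7)))) *
          (r 14 ^ m * (hat θ δ (r 14 + (r 4 + r 6 + r 8 + r 9)) *
            hat θ δ (r 14 + (r 5 + r 7 + r 10 + r 11)))))))) ) := by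
    unfold ke_f
    simp only [ke_factor ha hm]
    have e1 : (fun i => ∑ j, if sepa (SI 6 i) (k6_ede j) then r j else 0) =
      ![r 12 + (r 0 + r 1 + r 8 + r 10), r 12 + (r 2 + r 3 + r 9 + r 11),
        r 13 + (r 0 + r 2 + r 4 + r 5), r 13 + (r 1 + r 3 + r 6 + r 7),
        r 14 + (r 4 + r 6 + r 8 + r 9), r 14 + (r 5 + r 7 + r 10 + r 11)] := k6_obs r
    rw [e1]
    have hf : (m.factorial : ℝ) ≠ 0 := by positivity
    simp [G0, Fin.prod_univ_succ]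
    field_simp
    ring
  have p0 := (hr 0).le
  have p1 := (hr 1).le
  have p2 := (hr 2).le
  have p3 := (hr 3).le
  have p4 := (hr 4).le
  have p5 := (hr 5).le
  have p6 := (hr 6).le
  have p7 := (hr 7).le
  have p8 := (hr 8).le
  have p9 := (hr 9).le
  have p10 := (hr 10).le
  have p11 := (hr 11).le
  rw [h1]
  unfold k6_g
  rw [ENNReal.ofReal_mul (by positivity), ENNReal.ofReal_mul (by positivity),
    ENNReal.ofReal_mul (by positivity), ENNReal.ofReal_mul (by positivity),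
    ENNReal.ofReal_mul (ke_h_nonneg m θ δ _ _ (hr 12).le), ke_h_real m θ δ _ _ (hr 12).le,
    ENNReal.ofReal_mul (ke_h_nonneg m θ δ _ _ (hr 13).le), ke_h_real m θ δ _ _ (hr 13).le,
    ke_h_real m θ δ _ _ (hr 14).le]

/-- the function after the integration of the matching edges -/
noncomputable def k6_W (m : ℕ) (θ δ : ℝ) (x y z : ℝ × ℝ × ℝ) : ENNReal :=
  ENNReal.ofReal ((pp (θ - (x.1 + y.1) / 2) * pp (θ - (x.1 + z.1) / 2) *
          pp (θ - (y.1 + z.1) / 2)) ^ m) *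
        (Psi θ δ (x.2.1 + z.2.2) * Psi θ δ (x.2.2 + y.2.1) * Psi θ δ (y.2.2 + z.2.1))

theorem k6_W_meas (m : ℕ) (θ δ : ℝ) : Measurable fun p : (ℝ × ℝ × ℝ) × (ℝ × ℝ × ℝ) × (ℝ × ℝ × ℝ) =>
    k6_W m θ δ p.1 p.2.1 p.2.2 := by
  unfold k6_W
  have hp := ke_pp_meas
  have hP := Psi_meas θ δ
  refine Measurable.mul (ENNReal.measurable_ofReal.comp ?_) ?_
  · exact (((hp.comp (by fun_prop)).mul (hp.comp (by fun_prop))).mul
      (hp.comp (by fun_prop))).pow_const _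
  · exact ((hP.comp (by fun_prop)).mul (hP.comp (by fun_prop))).mul (hP.comp (by fun_prop))

/-- total, row difference, column difference of a block -/
def k6_t (a b c d : ℝ) : ℝ × ℝ × ℝ := (a + b + c + d, a + b - c - d, a + c - b - d)

theorem k6_inner {θ δ : ℝ} (hδ : 0 < δ) (m : ℕ) (a b c d a' b' c' d' a'' b'' c'' d'' : ℝ) :
    ∫⁻ r, k6_g m θ δ (Fin.cons a (Fin.cons b (Fin.cons c (Fin.cons d
      (Fin.cons a' (Fin.cons b' (Fin.cons c' (Fin.cons d'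
      (Fin.cons a'' (Fin.cons b'' (Fin.cons c'' (Fin.cons d'' r : Fin 4 → ℝ) : Fin 5 → ℝ) :
        Fin 6 → ℝ) : Fin 7 → ℝ) : Fin 8 → ℝ) : Fin 9 → ℝ) : Fin 10 → ℝ) : Fin 11 → ℝ) :
        Fin 12 → ℝ) : Fin 13 → ℝ) : Fin 14 → ℝ) : Fin 15 → ℝ) ∂(Measure.pi (fun _ : Fin 3 => hl)) ≤
      ENNReal.ofReal (1 / (m.factorial : ℝ) ^ 15) * (ENNReal.ofReal ((a * b * c * d) ^ m) *
        (ENNReal.ofReal ((a' * b' * c' * d') ^ m) * (ENNReal.ofReal ((a'' * b'' * c'' * d'') ^ m) *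
        k6_W m θ δ (k6_t a b c d) (k6_t a' b' c' d') (k6_t a'' b'' c'' d'')))) := by
  have key : ∀ A B C D x y z : ENNReal, (A * (B * (C * D))) * (x * y * z) =
      A * (B * (C * (D * (x * (y * z))))) := by
    intros
    ring
  have h1 : ∫⁻ r, k6_g m θ δ (Fin.cons a (Fin.cons b (Fin.cons c (Fin.cons d
      (Fin.cons a' (Fin.cons b' (Fin.cons c' (Fin.cons d'
      (Fin.cons a'' (Fin.cons b'' (Fin.cons c'' (Fin.cons d'' r : Fin 4 → ℝ) : Fin 5 → ℝ) :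
        Fin 6 → ℝ) : Fin 7 → ℝ) : Fin 8 → ℝ) : Fin 9 → ℝ) : Fin 10 → ℝ) : Fin 11 → ℝ) :
        Fin 12 → ℝ) : Fin 13 → ℝ) : Fin 14 → ℝ) : Fin 15 → ℝ) ∂(Measure.pi (fun _ : Fin 3 => hl)) =
      ∫⁻ r, (ENNReal.ofReal (1 / (m.factorial : ℝ) ^ 15) * (ENNReal.ofReal ((a * b * c * d) ^ m) *
        (ENNReal.ofReal ((a' * b' * c' * d') ^ m) *
          ENNReal.ofReal ((a'' * b'' * c'' * d'') ^ m)))) *
        ∏ i : Fin 3, ke_h m θ δ
          ((![a + b + a'' + c'', a + c + a' + b', a' + c' + a'' + b''] : Fin 3 → ℝ) i)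
          ((![c + d + b'' + d'', b + d + c' + d', b' + d' + c'' + d''] : Fin 3 → ℝ) i) (r i)
          ∂(Measure.pi (fun _ : Fin 3 => hl)) := by
    refine lintegral_congr fun r => ?_
    rw [Fin.prod_univ_three, key]
    rfl
  rw [h1]
  refine (ke_match hδ m _ _ _).trans ?_
  rw [Fin.prod_univ_three, key]
  refine mul_le_mul_right (mul_le_mul_right (mul_le_mul_right (mul_le_mul_right
    (le_of_eq ?_) _) _) _) _
  show ENNReal.ofReal (pp (θ - (a + b + a'' + c'' + (c + d + b'' + d'')) / 2) ^ m) *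
      Psi θ δ (a + b + a'' + c'' - (c + d + b'' + d'')) *
      (ENNReal.ofReal (pp (θ - (a + c + a' + b' + (b + d + c' + d')) / 2) ^ m) *
      Psi θ δ (a + c + a' + b' - (b + d + c' + d')) *
      (ENNReal.ofReal (pp (θ - (a' + c' + a'' + b'' + (b' + d' + c'' + d'')) / 2) ^ m) *
      Psi θ δ (a' + c' + a'' + b'' - (b' + d' + c'' + d'')))) = _
  unfold k6_W k6_t
  dsimp only
  have e1 : a + b + a'' + c'' + (c + d + b'' + d'') =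
      a + b + c + d + (a'' + b'' + c'' + d'') := by ring
  have e2 : a + c + a' + b' + (b + d + c' + d') =
      a + b + c + d + (a' + b' + c' + d') := by ring
  have e3 : a' + c' + a'' + b'' + (b' + d' + c'' + d'') =
      a' + b' + c' + d' + (a'' + b'' + c'' + d'') := by ring
  have e4 : a + b + a'' + c'' - (c + d + b'' + d'') =
      a + b - c - d + (a'' + c'' - b'' - d'') := by ring
  have e5 : a + c + a' + b' - (b + d + c' + d') =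
      a + c - b - d + (a' + b' - c' - d') := by ring
  have e6 : a' + c' + a'' + b'' - (b' + d' + c'' + d'') =
      a' + c' - b' - d' + (a'' + b'' - c'' - d'') := by ring
  rw [e1, e2, e3, e4, e5, e6, mul_pow, mul_pow,
    ENNReal.ofReal_mul (mul_nonneg (pow_nonneg (ke_pp_nonneg _) _)
      (pow_nonneg (ke_pp_nonneg _) _)), ENNReal.ofReal_mul (pow_nonneg (ke_pp_nonneg _) _)]
  ring

/-- block 3 -/
noncomputable def k6_F3 (m : ℕ) (θ δ : ℝ) (x y : ℝ × ℝ × ℝ) : ENNReal :=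
  ∫⁻ u₃ : ℝ, ∫⁻ a₃ : ℝ, ∫⁻ b₃ : ℝ, BK m u₃ a₃ b₃ * k6_W m θ δ x y (u₃, a₃, b₃)

theorem k6_F3_meas (m : ℕ) (θ δ : ℝ) :
    Measurable fun p : (ℝ × ℝ × ℝ) × (ℝ × ℝ × ℝ) => k6_F3 m θ δ p.1 p.2 := by
  unfold k6_F3
  have hB := BK_meas m
  have hW := k6_W_meas m θ δ
  refine Measurable.lintegral_prod_right' (f := fun q : ((ℝ × ℝ × ℝ) × (ℝ × ℝ × ℝ)) × ℝ =>
    ∫⁻ a₃ : ℝ, ∫⁻ b₃ : ℝ, BK m q.2 a₃ b₃ * k6_W m θ δ q.1.1 q.1.2 (q.2, a₃, b₃)) ?_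
  refine Measurable.lintegral_prod_right' (f := fun q : (((ℝ × ℝ × ℝ) × (ℝ × ℝ × ℝ)) × ℝ) × ℝ =>
    ∫⁻ b₃ : ℝ, BK m q.1.2 q.2 b₃ * k6_W m θ δ q.1.1.1 q.1.1.2 (q.1.2, q.2, b₃)) ?_
  refine Measurable.lintegral_prod_right' (f := fun q : ((((ℝ × ℝ × ℝ) × (ℝ × ℝ × ℝ)) × ℝ) × ℝ) × ℝ =>
    BK m q.1.1.2 q.1.2 q.2 * k6_W m θ δ q.1.1.1.1 q.1.1.1.2 (q.1.1.2, q.1.2, q.2)) ?_
  refine Measurable.mul ?_ ?_
  · exact hB.comp (f := fun q : ((((ℝ × ℝ × ℝ) × (ℝ × ℝ × ℝ)) × ℝ) × ℝ) × ℝ =>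
      (q.1.1.2, q.1.2, q.2)) (by fun_prop)
  · exact hW.comp (f := fun q : ((((ℝ × ℝ × ℝ) × (ℝ × ℝ × ℝ)) × ℝ) × ℝ) × ℝ =>
      (q.1.1.1.1, q.1.1.1.2, (q.1.1.2, q.1.2, q.2))) (by fun_prop)

/-- block 2 -/
noncomputable def k6_F2 (m : ℕ) (θ δ : ℝ) (x : ℝ × ℝ × ℝ) : ENNReal :=
  ∫⁻ u₂ : ℝ, ∫⁻ a₂ : ℝ, ∫⁻ b₂ : ℝ, BK m u₂ a₂ b₂ * k6_F3 m θ δ x (u₂, a₂, b₂)

theorem k6_F2_meas (m : ℕ) (θ δ : ℝ) : Measurable fun p : (ℝ × ℝ × ℝ) => k6_F2 m θ δ p := by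
  unfold k6_F2
  have hB := BK_meas m
  have hW := k6_F3_meas m θ δ
  refine Measurable.lintegral_prod_right' (f := fun q : (ℝ × ℝ × ℝ) × ℝ =>
    ∫⁻ a₃ : ℝ, ∫⁻ b₃ : ℝ, BK m q.2 a₃ b₃ * k6_F3 m θ δ q.1 (q.2, a₃, b₃)) ?_
  refine Measurable.lintegral_prod_right' (f := fun q : ((ℝ × ℝ × ℝ) × ℝ) × ℝ =>
    ∫⁻ b₃ : ℝ, BK m q.1.2 q.2 b₃ * k6_F3 m θ δ q.1.1 (q.1.2, q.2, b₃)) ?_
  refine Measurable.lintegral_prod_right' (f := fun q : (((ℝ × ℝ × ℝ) × ℝ) × ℝ) × ℝ =>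
    BK m q.1.1.2 q.1.2 q.2 * k6_F3 m θ δ q.1.1.1 (q.1.1.2, q.1.2, q.2)) ?_
  refine Measurable.mul ?_ ?_
  · exact hB.comp (f := fun q : (((ℝ × ℝ × ℝ) × ℝ) × ℝ) × ℝ =>
      (q.1.1.2, q.1.2, q.2)) (by fun_prop)
  · exact hW.comp (f := fun q : (((ℝ × ℝ × ℝ) × ℝ) × ℝ) × ℝ =>
      (q.1.1.1, (q.1.1.2, q.1.2, q.2))) (by fun_prop)

theorem LS_six_block {a m : ℕ} (ha : 0 < a) (hm : 2 * a ^ 2 = m + 1) {θ δ : ℝ} (hδ : 0 < δ)
    (hδθ : δ < θ) :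
    ENNReal.ofReal (LS (fun _ : Fin 6 => pn a) (SI 6) (G0 fun _ => hat θ δ)) ≤
      ENNReal.ofReal (1 / (Nat.factorial m : ℝ) ^ 15) *
      ∫⁻ u₁ : ℝ, ∫⁻ a₁ : ℝ, ∫⁻ b₁ : ℝ, BK m u₁ a₁ b₁ *
      ∫⁻ u₂ : ℝ, ∫⁻ a₂ : ℝ, ∫⁻ b₂ : ℝ, BK m u₂ a₂ b₂ *
      ∫⁻ u₃ : ℝ, ∫⁻ a₃ : ℝ, ∫⁻ b₃ : ℝ, BK m u₃ a₃ b₃ *
        (ENNReal.ofReal ((pp (θ - (u₁ + u₂) / 2) * pp (θ - (u₁ + u₃) / 2) *
          pp (θ - (u₂ + u₃) / 2)) ^ m) *
        (Psi θ δ (a₁ + b₃) * Psi θ δ (b₁ + a₂) * Psi θ δ (b₂ + a₃))) := by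
  have hm0 := ke_m_pos ha hm
  have hm2 := k6_F2_meas m θ δ
  have hm3 : ∀ x, Measurable fun y => k6_F3 m θ δ x y := fun x =>
    (k6_F3_meas m θ δ).comp (f := fun y : ℝ × ℝ × ℝ => (x, y)) (by fun_prop)
  have hmW : ∀ x y, Measurable fun z => k6_W m θ δ x y z := fun x y =>
    (k6_W_meas m θ δ).comp (f := fun z : ℝ × ℝ × ℝ => (x, y, z)) (by fun_prop)
  rw [ke_LS_pi k6_ede]
  refine (e1_ofReal_integral_le _).trans ?_
  have h1 : ∫⁻ r, ENNReal.ofReal (ke_f k6_ede (fun _ : Fin 6 => pn a) (SI 6)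
      (G0 fun _ => hat θ δ) r) ∂(Measure.pi (fun _ : Fin 15 => hl)) =
      ∫⁻ r, k6_g m θ δ r ∂(Measure.pi (fun _ : Fin 15 => hl)) := by
    refine lintegral_congr_ae ?_
    filter_upwards [Pool.Agent.EvenMoment.ae_hl_pos (Fin 15)] with r hr
    exact k6_point ha hm θ δ hr
  rw [h1, ke_step4 11 (k6_g_meas m θ δ)]
  show _ ≤ ENNReal.ofReal (1 / (Nat.factorial m : ℝ) ^ 15) *
      ∫⁻ u₁ : ℝ, ∫⁻ a₁ : ℝ, ∫⁻ b₁ : ℝ, BK m u₁ a₁ b₁ * k6_F2 m θ δ (u₁, a₁, b₁)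
  rw [← block_cov hm0 hm2]
  have hC : ENNReal.ofReal (1 / (m.factorial : ℝ) ^ 15) ≠ ⊤ := ENNReal.ofReal_ne_top
  simp only [← lintegral_const_mul' _ _ hC]
  refine lintegral_mono fun a => ?_
  refine lintegral_mono fun b => ?_
  refine lintegral_mono fun c => ?_
  refine lintegral_mono fun d => ?_
  have hg1 : Measurable fun r : Fin 11 → ℝ => k6_g m θ δ (Fin.cons a (Fin.cons b (Fin.cons c
      (Fin.cons d r : Fin 12 → ℝ) : Fin 13 → ℝ) : Fin 14 → ℝ) : Fin 15 → ℝ) :=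
    (((((k6_g_meas m θ δ).comp (e1_cons 14 a)).comp (e1_cons 13 b)).comp (e1_cons 12 c)).comp
      (e1_cons 11 d))
  refine (ke_step4 7 hg1).trans_le ?_
  have e2 : ENNReal.ofReal (1 / (m.factorial : ℝ) ^ 15) * (ENNReal.ofReal ((a * b * c * d) ^ m) *
      k6_F2 m θ δ (a + b + c + d, a + b - c - d, a + c - b - d)) =
      ENNReal.ofReal (1 / (m.factorial : ℝ) ^ 15) * (ENNReal.ofReal ((a * b * c * d) ^ m) *
      ∫⁻ u₂ : ℝ, ∫⁻ a₂ : ℝ, ∫⁻ b₂ : ℝ, BK m u₂ a₂ b₂ * k6_F3 m θ δ (k6_t a b c d) (u₂, a₂, b₂)) :=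
    rfl
  rw [e2, ← block_cov hm0 (hm3 _)]
  have hC2 : ENNReal.ofReal ((a * b * c * d) ^ m) ≠ ⊤ := ENNReal.ofReal_ne_top
  simp only [← lintegral_const_mul' _ _ hC2, ← lintegral_const_mul' _ _ hC]
  refine lintegral_mono fun a' => ?_
  refine lintegral_mono fun b' => ?_
  refine lintegral_mono fun c' => ?_
  refine lintegral_mono fun d' => ?_
  have hg2 : Measurable fun r : Fin 7 → ℝ => k6_g m θ δ (Fin.cons a (Fin.cons b (Fin.cons c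
      (Fin.cons d (Fin.cons a' (Fin.cons b' (Fin.cons c' (Fin.cons d' r : Fin 8 → ℝ) :
      Fin 9 → ℝ) : Fin 10 → ℝ) : Fin 11 → ℝ) : Fin 12 → ℝ) : Fin 13 → ℝ) : Fin 14 → ℝ) :
      Fin 15 → ℝ) :=
    ((((hg1.comp (e1_cons 10 a')).comp (e1_cons 9 b')).comp (e1_cons 8 c')).comp (e1_cons 7 d'))
  refine (ke_step4 3 hg2).trans_le ?_
  have e3 : ENNReal.ofReal (1 / (m.factorial : ℝ) ^ 15) * (ENNReal.ofReal ((a * b * c * d) ^ m) *
      (ENNReal.ofReal ((a' * b' * c' * d') ^ m) *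
      k6_F3 m θ δ (k6_t a b c d) (a' + b' + c' + d', a' + b' - c' - d', a' + c' - b' - d'))) =
      ENNReal.ofReal (1 / (m.factorial : ℝ) ^ 15) * (ENNReal.ofReal ((a * b * c * d) ^ m) *
      (ENNReal.ofReal ((a' * b' * c' * d') ^ m) *
      ∫⁻ u₃ : ℝ, ∫⁻ a₃ : ℝ, ∫⁻ b₃ : ℝ, BK m u₃ a₃ b₃ *
        k6_W m θ δ (k6_t a b c d) (k6_t a' b' c' d') (u₃, a₃, b₃))) :=
    rfl
  rw [e3, ← block_cov hm0 (hmW _ _)]
  have hC3 : ENNReal.ofReal ((a' * b' * c' * d') ^ m) ≠ ⊤ := ENNReal.ofReal_ne_top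
  simp only [← lintegral_const_mul' _ _ hC3, ← lintegral_const_mul' _ _ hC2,
    ← lintegral_const_mul' _ _ hC]
  refine lintegral_mono fun a'' => ?_
  refine lintegral_mono fun b'' => ?_
  refine lintegral_mono fun c'' => ?_
  refine lintegral_mono fun d'' => ?_
  exact k6_inner hδ m a b c d a' b' c' d' a'' b'' c'' d''

end Pool.Agent.GenMoment
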