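import Mathlib


/-!
Piece TRI: Cauchy-Schwarz for a triangle of kernels.  No context needed.

For fixed `α = a₁ + b₃`, `β = b₁ + a₂`, `γ = b₂ + a₃` (substitute `b₃ = α - a₁`, `a₂ = β - b₁`,
`a₃ = γ - b₂`; translations and reflections) the left side is
`∫ ψ(α) ψ(β) ψ(γ) ∫ F(a₁,b₁) G(β - b₁, b₂) H(γ - b₂, α - a₁) da₁ db₁ db₂`.  The inner integral is at
most the product of the three `L^2` norms: for `f(a,b) g(b,c) h(c,a)`, Cauchy-Schwarz in `b` for fixed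
`(a,c)` gives `(∫ f(a,b) g(b,c) db)^2 ≤ A(a) C(c)` with `A(a) = ∫ f(a,b)^2 db`, `C(c) = ∫ g(b,c)^2 db`,
then Cauchy-Schwarz in `(a,c)` (`ENNReal.lintegral_mul_le_Lp_mul_Lq` with exponents `2, 2`).
-/

namespace Pool.Agent.GenMoment

open Filter Topology MeasureTheory

theorem tri_cs {α : Type*} [MeasurableSpace α] (μ : Measure α) {f g : α → ENNReal}
    (hf : Measurable f) (hg : Measurable g) :
    ∫⁻ a, f a * g a ∂μ ≤ (∫⁻ a, f a ^ 2 ∂μ) ^ (1 / 2 : ℝ) * (∫⁻ a, g a ^ 2 ∂μ) ^ (1 / 2 : ℝ) := by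
  have h := ENNReal.lintegral_mul_le_Lp_mul_Lq μ Real.HolderConjugate.two_two hf.aemeasurable
    hg.aemeasurable
  simpa only [Pi.mul_apply, ENNReal.rpow_ofNat] using h

theorem tri_meas {f : ℝ × ℝ → ENNReal} (hf : Measurable f) :
    Measurable fun x => ∫⁻ y : ℝ, f (x, y) := hf.lintegral_prod_right'

theorem tri_three {f g h : ℝ × ℝ → ENNReal} (hf : Measurable f) (hg : Measurable g)
    (hh : Measurable h) :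
    ∫⁻ a : ℝ, ∫⁻ b : ℝ, ∫⁻ c : ℝ, f (a, b) * g (b, c) * h (c, a) ≤
      (∫⁻ a : ℝ, ∫⁻ b : ℝ, f (a, b) ^ 2) ^ (1 / 2 : ℝ) *
        (∫⁻ b : ℝ, ∫⁻ c : ℝ, g (b, c) ^ 2) ^ (1 / 2 : ℝ) *
        (∫⁻ c : ℝ, ∫⁻ a : ℝ, h (c, a) ^ 2) ^ (1 / 2 : ℝ) := by
  set A : ℝ → ENNReal := fun b => ∫⁻ c : ℝ, g (b, c) ^ 2 with hA
  set B : ℝ → ENNReal := fun a => ∫⁻ c : ℝ, h (c, a) ^ 2 with hB
  have mA : Measurable A := tri_meas (hg.pow_const 2)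
  have mB : Measurable B := tri_meas (f := fun p => h (p.2, p.1) ^ 2)
    ((hh.comp measurable_swap).pow_const 2)
  have h1 : ∀ a b, ∫⁻ c : ℝ, f (a, b) * g (b, c) * h (c, a) ≤
      f (a, b) * (A b ^ (1 / 2 : ℝ) * B a ^ (1 / 2 : ℝ)) := by
    intro a b
    have hg' : Measurable fun c : ℝ => g (b, c) := hg.comp measurable_prodMk_left
    have hh' : Measurable fun c : ℝ => h (c, a) := hh.comp measurable_prodMk_right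
    have hgh : Measurable fun c : ℝ => g (b, c) * h (c, a) := hg'.mul hh'
    simp only [mul_assoc]
    rw [lintegral_const_mul _ hgh]
    gcongr
    exact tri_cs volume hg' hh'
  have h2 : ∫⁻ a : ℝ, ∫⁻ b : ℝ, ∫⁻ c : ℝ, f (a, b) * g (b, c) * h (c, a) ≤
      ∫⁻ a : ℝ, ∫⁻ b : ℝ, f (a, b) * (A b ^ (1 / 2 : ℝ) * B a ^ (1 / 2 : ℝ)) :=
    lintegral_mono fun a => lintegral_mono fun b => h1 a b
  refine h2.trans ?_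
  have mAB : Measurable fun p : ℝ × ℝ => A p.2 ^ (1 / 2 : ℝ) * B p.1 ^ (1 / 2 : ℝ) :=
    ((mA.comp measurable_snd).pow_const _).mul ((mB.comp measurable_fst).pow_const _)
  have h3 : ∫⁻ a : ℝ, ∫⁻ b : ℝ, f (a, b) * (A b ^ (1 / 2 : ℝ) * B a ^ (1 / 2 : ℝ)) =
      ∫⁻ p : ℝ × ℝ, f p * (A p.2 ^ (1 / 2 : ℝ) * B p.1 ^ (1 / 2 : ℝ)) := by
    have h9 : Measurable fun p : ℝ × ℝ => f p * (A p.2 ^ (1 / 2 : ℝ) * B p.1 ^ (1 / 2 : ℝ)) :=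
      hf.mul mAB
    rw [Measure.volume_eq_prod, lintegral_prod _ h9.aemeasurable]
  rw [h3]
  refine (tri_cs volume hf mAB).trans ?_
  have h4 : ∫⁻ p : ℝ × ℝ, f p ^ 2 = ∫⁻ a : ℝ, ∫⁻ b : ℝ, f (a, b) ^ 2 := by
    rw [Measure.volume_eq_prod, lintegral_prod _ (hf.pow_const 2).aemeasurable]
  have h5 : ∀ x : ENNReal, (x ^ (1 / 2 : ℝ)) ^ 2 = x := by
    intro x
    rw [← ENNReal.rpow_natCast, ← ENNReal.rpow_mul]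
    norm_num
  have h6 : ∫⁻ p : ℝ × ℝ, (A p.2 ^ (1 / 2 : ℝ) * B p.1 ^ (1 / 2 : ℝ)) ^ 2 =
      (∫⁻ b, A b) * ∫⁻ a, B a := by
    have h7 : ∀ p : ℝ × ℝ, (A p.2 ^ (1 / 2 : ℝ) * B p.1 ^ (1 / 2 : ℝ)) ^ 2 = B p.1 * A p.2 := by
      intro p
      rw [mul_pow, h5, h5, mul_comm]
    simp only [h7]
    rw [Measure.volume_eq_prod, lintegral_prod_mul mB.aemeasurable mA.aemeasurable, mul_comm]
  have h8 : ∫⁻ a, B a = ∫⁻ c : ℝ, ∫⁻ a : ℝ, h (c, a) ^ 2 := by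
    rw [hB]
    exact lintegral_lintegral_swap (f := fun a c => h (c, a) ^ 2)
      ((hh.comp measurable_swap).pow_const 2).aemeasurable
  rw [h4, h6, h8, ENNReal.mul_rpow_of_nonneg _ _ (by norm_num), mul_assoc]

theorem tri_perm {Φ : (Fin 6 → ℝ) → ENNReal} (hΦ : Measurable Φ) :
    ∫⁻ a₁ : ℝ, ∫⁻ b₁ : ℝ, ∫⁻ β : ℝ, ∫⁻ b₂ : ℝ, ∫⁻ γ : ℝ, ∫⁻ α : ℝ, Φ ![a₁, b₁, β, b₂, γ, α] =
      ∫⁻ α : ℝ, ∫⁻ β : ℝ, ∫⁻ γ : ℝ, ∫⁻ a₁ : ℝ, ∫⁻ b₁ : ℝ, ∫⁻ b₂ : ℝ,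
        Φ ![a₁, b₁, β, b₂, γ, α] := by
  have h1 : (∫⋯∫⁻_(insert (0 : Fin 6) (insert 1 (insert 2 (insert 3 (insert 4 (insert 5 ∅)))))),
      Φ ∂fun _ => volume) 0 = ∫⁻ a₁ : ℝ, ∫⁻ b₁ : ℝ, ∫⁻ β : ℝ, ∫⁻ b₂ : ℝ, ∫⁻ γ : ℝ, ∫⁻ α : ℝ,
        Φ ![a₁, b₁, β, b₂, γ, α] := by
    rw [lmarginal_insert _ hΦ (by decide)]
    refine lintegral_congr fun a₁ => ?_
    rw [lmarginal_insert _ hΦ (by decide)]
    refine lintegral_congr fun b₁ => ?_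
    rw [lmarginal_insert _ hΦ (by decide)]
    refine lintegral_congr fun β => ?_
    rw [lmarginal_insert _ hΦ (by decide)]
    refine lintegral_congr fun b₂ => ?_
    rw [lmarginal_insert _ hΦ (by decide)]
    refine lintegral_congr fun γ => ?_
    rw [lmarginal_insert _ hΦ (by decide)]
    refine lintegral_congr fun α => ?_
    rw [lmarginal_empty]
    congr 1
    funext i
    fin_cases i <;> simp
  have h2 : (∫⋯∫⁻_(insert (5 : Fin 6) (insert 2 (insert 4 (insert 0 (insert 1 (insert 3 ∅)))))),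
      Φ ∂fun _ => volume) 0 = ∫⁻ α : ℝ, ∫⁻ β : ℝ, ∫⁻ γ : ℝ, ∫⁻ a₁ : ℝ, ∫⁻ b₁ : ℝ, ∫⁻ b₂ : ℝ,
        Φ ![a₁, b₁, β, b₂, γ, α] := by
    rw [lmarginal_insert _ hΦ (by decide)]
    refine lintegral_congr fun α => ?_
    rw [lmarginal_insert _ hΦ (by decide)]
    refine lintegral_congr fun β => ?_
    rw [lmarginal_insert _ hΦ (by decide)]
    refine lintegral_congr fun γ => ?_
    rw [lmarginal_insert _ hΦ (by decide)]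
    refine lintegral_congr fun a₁ => ?_
    rw [lmarginal_insert _ hΦ (by decide)]
    refine lintegral_congr fun b₁ => ?_
    rw [lmarginal_insert _ hΦ (by decide)]
    refine lintegral_congr fun b₂ => ?_
    rw [lmarginal_empty]
    congr 1
    funext i
    fin_cases i <;> simp
  rw [← h1, ← h2]
  congr 1
  decide

theorem triangle_le {F G H : ℝ × ℝ → ENNReal} (hF : Measurable F) (hG : Measurable G)
    (hH : Measurable H) {ψ : ℝ → ENNReal} (hψ : Measurable ψ) :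
    ∫⁻ a₁ : ℝ, ∫⁻ b₁ : ℝ, ∫⁻ a₂ : ℝ, ∫⁻ b₂ : ℝ, ∫⁻ a₃ : ℝ, ∫⁻ b₃ : ℝ,
      F (a₁, b₁) * G (a₂, b₂) * H (a₃, b₃) * (ψ (a₁ + b₃) * ψ (b₁ + a₂) * ψ (b₂ + a₃)) ≤
      (∫⁻ z, ψ z) ^ 3 * ((∫⁻ a : ℝ, ∫⁻ b : ℝ, F (a, b) ^ 2) ^ (1 / 2 : ℝ) *
        (∫⁻ a : ℝ, ∫⁻ b : ℝ, G (a, b) ^ 2) ^ (1 / 2 : ℝ) *
        (∫⁻ a : ℝ, ∫⁻ b : ℝ, H (a, b) ^ 2) ^ (1 / 2 : ℝ)) := by
  have e1 : ∫⁻ a₁ : ℝ, ∫⁻ b₁ : ℝ, ∫⁻ a₂ : ℝ, ∫⁻ b₂ : ℝ, ∫⁻ a₃ : ℝ, ∫⁻ b₃ : ℝ,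
      F (a₁, b₁) * G (a₂, b₂) * H (a₃, b₃) * (ψ (a₁ + b₃) * ψ (b₁ + a₂) * ψ (b₂ + a₃)) =
      ∫⁻ a₁ : ℝ, ∫⁻ b₁ : ℝ, ∫⁻ β : ℝ, ∫⁻ b₂ : ℝ, ∫⁻ γ : ℝ, ∫⁻ α : ℝ,
        F (a₁, b₁) * G (β - b₁, b₂) * H (γ - b₂, α - a₁) * (ψ α * ψ β * ψ γ) := by
    refine lintegral_congr fun a₁ => lintegral_congr fun b₁ => ?_
    rw [← lintegral_sub_right_eq_self _ b₁]
    refine lintegral_congr fun β => lintegral_congr fun b₂ => ?_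
    rw [← lintegral_sub_right_eq_self _ b₂]
    refine lintegral_congr fun γ => ?_
    rw [← lintegral_sub_right_eq_self _ a₁]
    refine lintegral_congr fun α => ?_
    rw [add_sub_cancel, add_sub_cancel, add_sub_cancel]
  rw [e1]
  have m1 : Measurable fun x : Fin 6 → ℝ => F (x 0, x 1) * G (x 2 - x 1, x 3) *
      H (x 4 - x 3, x 5 - x 0) * (ψ (x 5) * ψ (x 2) * ψ (x 4)) := by
    fun_prop
  have e2 := tri_perm m1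
  simp only [Fin.isValue, Matrix.cons_val_zero, Matrix.cons_val_one, Matrix.cons_val] at e2
  rw [e2]
  -- the inner integral
  have e3 : ∀ α β γ : ℝ, ∫⁻ a₁ : ℝ, ∫⁻ b₁ : ℝ, ∫⁻ b₂ : ℝ,
      F (a₁, b₁) * G (β - b₁, b₂) * H (γ - b₂, α - a₁) * (ψ α * ψ β * ψ γ) ≤
      ((∫⁻ a : ℝ, ∫⁻ b : ℝ, F (a, b) ^ 2) ^ (1 / 2 : ℝ) *
        (∫⁻ a : ℝ, ∫⁻ b : ℝ, G (a, b) ^ 2) ^ (1 / 2 : ℝ) *
        (∫⁻ a : ℝ, ∫⁻ b : ℝ, H (a, b) ^ 2) ^ (1 / 2 : ℝ)) * (ψ α * ψ β * ψ γ) := by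
    intro α β γ
    have k1 : ∀ a₁ b₁ : ℝ, Measurable fun b₂ : ℝ =>
        F (a₁, b₁) * G (β - b₁, b₂) * H (γ - b₂, α - a₁) := by
      intro a₁ b₁
      fun_prop
    have k2 : ∀ a₁ : ℝ, Measurable fun b₁ : ℝ => ∫⁻ b₂ : ℝ,
        F (a₁, b₁) * G (β - b₁, b₂) * H (γ - b₂, α - a₁) := by
      intro a₁
      apply tri_meas (f := fun p : ℝ × ℝ => F (a₁, p.1) * G (β - p.1, p.2) *
        H (γ - p.2, α - a₁))
      fun_prop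
    have k3 : Measurable fun a₁ : ℝ => ∫⁻ b₁ : ℝ, ∫⁻ b₂ : ℝ,
        F (a₁, b₁) * G (β - b₁, b₂) * H (γ - b₂, α - a₁) := by
      apply tri_meas (f := fun p : ℝ × ℝ => ∫⁻ b₂ : ℝ, F (p.1, p.2) * G (β - p.2, b₂) *
        H (γ - b₂, α - p.1))
      have : Measurable fun q : (ℝ × ℝ) × ℝ => F (q.1.1, q.1.2) * G (β - q.1.2, q.2) *
          H (γ - q.2, α - q.1.1) := by fun_prop
      exact this.lintegral_prod_right'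
    have k4 : ∫⁻ a₁ : ℝ, ∫⁻ b₁ : ℝ, ∫⁻ b₂ : ℝ,
        F (a₁, b₁) * G (β - b₁, b₂) * H (γ - b₂, α - a₁) * (ψ α * ψ β * ψ γ) =
        (∫⁻ a₁ : ℝ, ∫⁻ b₁ : ℝ, ∫⁻ b₂ : ℝ,
          F (a₁, b₁) * G (β - b₁, b₂) * H (γ - b₂, α - a₁)) * (ψ α * ψ β * ψ γ) := by
      rw [← lintegral_mul_const _ k3]
      refine lintegral_congr fun a₁ => ?_
      rw [← lintegral_mul_const _ (k2 a₁)]
      refine lintegral_congr fun b₁ => ?_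
      rw [← lintegral_mul_const _ (k1 a₁ b₁)]
    rw [k4]
    gcongr
    have k5 := tri_three (f := F) (g := fun p => G (β - p.1, p.2))
      (h := fun p => H (γ - p.1, α - p.2)) hF (by fun_prop) (by fun_prop)
    refine k5.trans (le_of_eq ?_)
    have k6 : ∫⁻ b : ℝ, ∫⁻ c : ℝ, G (β - b, c) ^ 2 = ∫⁻ a : ℝ, ∫⁻ b : ℝ, G (a, b) ^ 2 :=
      lintegral_sub_left_eq_self (fun x => ∫⁻ c : ℝ, G (x, c) ^ 2) β
    have k7 : ∫⁻ c : ℝ, ∫⁻ a : ℝ, H (γ - c, α - a) ^ 2 = ∫⁻ a : ℝ, ∫⁻ b : ℝ, H (a, b) ^ 2 := by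
      rw [← lintegral_sub_left_eq_self (fun x => ∫⁻ b : ℝ, H (x, b) ^ 2) γ]
      refine lintegral_congr fun c => ?_
      exact lintegral_sub_left_eq_self (fun x => H (γ - c, x) ^ 2) α
    simp only
    rw [k6, k7]
  set K : ENNReal := (∫⁻ a : ℝ, ∫⁻ b : ℝ, F (a, b) ^ 2) ^ (1 / 2 : ℝ) *
    (∫⁻ a : ℝ, ∫⁻ b : ℝ, G (a, b) ^ 2) ^ (1 / 2 : ℝ) *
    (∫⁻ a : ℝ, ∫⁻ b : ℝ, H (a, b) ^ 2) ^ (1 / 2 : ℝ) with hK
  calc ∫⁻ α : ℝ, ∫⁻ β : ℝ, ∫⁻ γ : ℝ, ∫⁻ a₁ : ℝ, ∫⁻ b₁ : ℝ, ∫⁻ b₂ : ℝ,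
        F (a₁, b₁) * G (β - b₁, b₂) * H (γ - b₂, α - a₁) * (ψ α * ψ β * ψ γ)
      ≤ ∫⁻ α : ℝ, ∫⁻ β : ℝ, ∫⁻ γ : ℝ, K * (ψ α * ψ β * ψ γ) :=
        lintegral_mono fun α => lintegral_mono fun β => lintegral_mono fun γ => e3 α β γ
    _ = (∫⁻ z, ψ z) ^ 3 * K := by
        have k1 : ∀ α β : ℝ, ∫⁻ γ : ℝ, K * (ψ α * ψ β * ψ γ) =
            (K * (∫⁻ z, ψ z)) * ψ α * ψ β := by
          intro α β
          have : ∀ γ, K * (ψ α * ψ β * ψ γ) = (K * (ψ α * ψ β)) * ψ γ := by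
            intro γ
            ring
          simp only [this]
          rw [lintegral_const_mul _ hψ]
          ring
        simp only [k1]
        have k2 : ∀ α : ℝ, ∫⁻ β : ℝ, (K * (∫⁻ z, ψ z)) * ψ α * ψ β =
            (K * (∫⁻ z, ψ z) ^ 2) * ψ α := by
          intro α
          rw [lintegral_const_mul _ hψ]
          ring
        simp only [k2]
        rw [lintegral_const_mul _ hψ]
        ring

end Pool.Agent.GenMoment
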