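import Mathlib
import Pool.Agent.Lib_MP_112ba8_g.DefsB
import Pool.Agent.Lib_MP_112ba8_g.KSixA
import Pool.Agent.Lib_MP_112ba8_g.Tri
import Pool.Agent.Lib_MP_112ba8_g.HS

/-!
Piece KSIX: upper bound for six equal vertices from `LS_six_block`, `triangle_le`, `BK_hs`,
`BK_nonpos`, `Psi_int`; scaling `TI m θ = θ^(15m+9) TI m 1`.

Interchange the integrals (Tonelli) so that `u₁, u₂, u₃` are outermost; for fixed `u`s apply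
`triangle_le` with `F = BK m u₁` etc.; `(∫∫ BK^2)^(1/2) ≤ ofReal (sqrt (be2 m) u^(4m+2))` for `u > 0`, and
`0` for `u ≤ 0`.
-/

namespace Pool.Agent.GenMoment

open Filter Topology MeasureTheory
open Pool.Agent.EvenMoment (cl Wgt Adm Ed cut hat)
open Pool.Agent.SixthMoment (QQ ln fr osc QS TT ob sepa oy xe JZ fc chi)

theorem k6_scale {θ : ℝ} (hθ : 0 < θ) (f : ℝ → ENNReal) :
    ∫⁻ x in Set.Ioi (0 : ℝ), f x = ENNReal.ofReal θ * ∫⁻ x in Set.Ioi (0 : ℝ), f (θ * x) := by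
  have h1 : ∀ g : ℝ → ENNReal, ∫⁻ x, g (θ * x) = ENNReal.ofReal θ⁻¹ * ∫⁻ x, g x := by
    intro g
    have h2 := lintegral_map_equiv (μ := volume) g (Homeomorph.mulLeft₀ θ hθ.ne').toMeasurableEquiv
    have h3 : Measure.map ((Homeomorph.mulLeft₀ θ hθ.ne').toMeasurableEquiv) volume =
        ENNReal.ofReal |θ⁻¹| • (volume : Measure ℝ) := Real.map_volume_mul_left hθ.ne'
    rw [h3, lintegral_smul_measure, abs_of_pos (inv_pos.mpr hθ)] at h2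
    exact h2.symm
  rw [← lintegral_indicator measurableSet_Ioi, ← lintegral_indicator measurableSet_Ioi]
  have h2 : ∀ x, (Set.Ioi (0 : ℝ)).indicator (fun x => f (θ * x)) x =
      (Set.Ioi (0 : ℝ)).indicator f (θ * x) := by
    intro x
    by_cases hx : 0 < x
    · rw [Set.indicator_of_mem (by exact hx), Set.indicator_of_mem (by exact mul_pos hθ hx)]
    · rw [Set.indicator_of_notMem (by exact hx), Set.indicator_of_notMem]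
      intro h
      exact hx (pos_of_mul_pos_right h hθ.le)
  simp only [h2]
  rw [h1, ← mul_assoc, ← ENNReal.ofReal_mul hθ.le, mul_inv_cancel₀ hθ.ne', ENNReal.ofReal_one,
    one_mul]

theorem k6_pp_scale {θ : ℝ} (hθ : 0 ≤ θ) (x : ℝ) : pp (θ * x) = θ * pp x := by
  unfold pp
  rw [mul_max_of_nonneg _ _ hθ, mul_zero]

theorem TI_scale (m : ℕ) {θ : ℝ} (hθ : 0 < θ) :
    TI m θ = ENNReal.ofReal (θ ^ (15 * m + 9)) * TI m 1 := by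
  unfold TI
  rw [k6_scale hθ]
  have e1 : ∀ u : ℝ, ∫⁻ v in Set.Ioi (0 : ℝ), ∫⁻ w in Set.Ioi (0 : ℝ),
      ENNReal.ofReal ((θ * u * v * w) ^ (4 * m + 2) *
      (pp (θ - (θ * u + v) / 2) * pp (θ - (θ * u + w) / 2) * pp (θ - (v + w) / 2)) ^ m) =
      ENNReal.ofReal (θ ^ (15 * m + 8)) * ∫⁻ v in Set.Ioi (0 : ℝ), ∫⁻ w in Set.Ioi (0 : ℝ),
      ENNReal.ofReal ((u * v * w) ^ (4 * m + 2) *
      (pp (1 - (u + v) / 2) * pp (1 - (u + w) / 2) * pp (1 - (v + w) / 2)) ^ m) := by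
    intro u
    rw [k6_scale hθ]
    have e2 : ∀ v : ℝ, ∫⁻ w in Set.Ioi (0 : ℝ),
      ENNReal.ofReal ((θ * u * (θ * v) * w) ^ (4 * m + 2) *
      (pp (θ - (θ * u + θ * v) / 2) * pp (θ - (θ * u + w) / 2) * pp (θ - (θ * v + w) / 2)) ^ m) =
      ENNReal.ofReal (θ ^ (15 * m + 7)) * ∫⁻ w in Set.Ioi (0 : ℝ),
      ENNReal.ofReal ((u * v * w) ^ (4 * m + 2) *
      (pp (1 - (u + v) / 2) * pp (1 - (u + w) / 2) * pp (1 - (v + w) / 2)) ^ m) := by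
      intro v
      rw [k6_scale hθ]
      have e3 : ∀ w : ℝ, ENNReal.ofReal ((θ * u * (θ * v) * (θ * w)) ^ (4 * m + 2) *
        (pp (θ - (θ * u + θ * v) / 2) * pp (θ - (θ * u + θ * w) / 2) *
          pp (θ - (θ * v + θ * w) / 2)) ^ m) =
        ENNReal.ofReal (θ ^ (15 * m + 6)) *
        ENNReal.ofReal ((u * v * w) ^ (4 * m + 2) *
        (pp (1 - (u + v) / 2) * pp (1 - (u + w) / 2) * pp (1 - (v + w) / 2)) ^ m) := by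
        intro w
        have f1 : θ - (θ * u + θ * v) / 2 = θ * (1 - (u + v) / 2) := by ring
        have f2 : θ - (θ * u + θ * w) / 2 = θ * (1 - (u + w) / 2) := by ring
        have f3 : θ - (θ * v + θ * w) / 2 = θ * (1 - (v + w) / 2) := by ring
        rw [f1, f2, f3, k6_pp_scale hθ.le, k6_pp_scale hθ.le, k6_pp_scale hθ.le,
          ← ENNReal.ofReal_mul (by positivity)]
        congr 1
        ring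
      simp only [e3]
      rw [lintegral_const_mul' _ _ ENNReal.ofReal_ne_top, ← mul_assoc,
        ← ENNReal.ofReal_mul hθ.le, ← pow_succ']
    simp only [e2]
    rw [lintegral_const_mul' _ _ ENNReal.ofReal_ne_top, ← mul_assoc,
      ← ENNReal.ofReal_mul hθ.le, ← pow_succ']
  simp only [e1]
  rw [lintegral_const_mul' _ _ ENNReal.ofReal_ne_top, ← mul_assoc,
    ← ENNReal.ofReal_mul hθ.le, ← pow_succ']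

theorem k6_BK_top {m : ℕ} (hm : 0 < m) (u a b : ℝ) : BK m u a b ≠ ⊤ := by
  rcases le_or_gt u 0 with hu | hu
  · rw [BK_nonpos hm hu]
    exact ENNReal.zero_ne_top
  · exact ne_top_of_le_ne_top ENNReal.ofReal_ne_top (BK_sup hm hu.le a b)

theorem k6_sw3 {f : ℝ × ℝ × ℝ → ENNReal} (hf : Measurable f) :
    ∫⁻ a : ℝ, ∫⁻ b : ℝ, ∫⁻ u : ℝ, f (a, b, u) = ∫⁻ u : ℝ, ∫⁻ a : ℝ, ∫⁻ b : ℝ, f (a, b, u) := by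
  have h1 : ∀ a : ℝ, ∫⁻ b : ℝ, ∫⁻ u : ℝ, f (a, b, u) = ∫⁻ u : ℝ, ∫⁻ b : ℝ, f (a, b, u) := by
    intro a
    refine lintegral_lintegral_swap (Measurable.aemeasurable ?_)
    exact hf.comp (f := fun p : ℝ × ℝ => (a, p.1, p.2)) (by fun_prop)
  simp only [h1]
  refine lintegral_lintegral_swap (Measurable.aemeasurable ?_)
  refine Measurable.lintegral_prod_right' (f := fun q : (ℝ × ℝ) × ℝ => f (q.1.1, q.2, q.1.2)) ?_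
  exact hf.comp (f := fun q : (ℝ × ℝ) × ℝ => (q.1.1, q.2, q.1.2)) (by fun_prop)

/-- the integrand in nine variables -/
noncomputable def k6_G (m : ℕ) (θ δ : ℝ) (u₁ a₁ b₁ u₂ a₂ b₂ u₃ a₃ b₃ : ℝ) : ENNReal :=
  BK m u₁ a₁ b₁ * (BK m u₂ a₂ b₂ * (BK m u₃ a₃ b₃ *
        (ENNReal.ofReal ((pp (θ - (u₁ + u₂) / 2) * pp (θ - (u₁ + u₃) / 2) *
          pp (θ - (u₂ + u₃) / 2)) ^ m) *
        (Psi θ δ (a₁ + b₃) * Psi θ δ (b₁ + a₂) * Psi θ δ (b₂ + a₃)))))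

theorem k6_G_meas (m : ℕ) (θ δ : ℝ) {α : Type} [MeasurableSpace α]
    {u₁ a₁ b₁ u₂ a₂ b₂ u₃ a₃ b₃ : α → ℝ} (h1 : Measurable u₁) (h2 : Measurable a₁)
    (h3 : Measurable b₁) (h4 : Measurable u₂) (h5 : Measurable a₂) (h6 : Measurable b₂)
    (h7 : Measurable u₃) (h8 : Measurable a₃) (h9 : Measurable b₃) :
    Measurable fun t => k6_G m θ δ (u₁ t) (a₁ t) (b₁ t) (u₂ t) (a₂ t) (b₂ t) (u₃ t) (a₃ t)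
      (b₃ t) := by
  unfold k6_G
  have hB := BK_meas m
  have hp := ke_pp_meas
  have hP := Psi_meas θ δ
  refine Measurable.mul ?_ (Measurable.mul ?_ (Measurable.mul ?_ (Measurable.mul ?_ ?_)))
  · exact hB.comp (f := fun t => (u₁ t, a₁ t, b₁ t)) (by fun_prop)
  · exact hB.comp (f := fun t => (u₂ t, a₂ t, b₂ t)) (by fun_prop)
  · exact hB.comp (f := fun t => (u₃ t, a₃ t, b₃ t)) (by fun_prop)
  · refine ENNReal.measurable_ofReal.comp ?_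
    exact (((hp.comp (by fun_prop)).mul (hp.comp (by fun_prop))).mul
      (hp.comp (by fun_prop))).pow_const _
  · exact ((hP.comp (by fun_prop)).mul (hP.comp (by fun_prop))).mul (hP.comp (by fun_prop))

theorem k6_swap (m : ℕ) (θ δ : ℝ) :
    ∫⁻ u₁ : ℝ, ∫⁻ a₁ : ℝ, ∫⁻ b₁ : ℝ, ∫⁻ u₂ : ℝ, ∫⁻ a₂ : ℝ, ∫⁻ b₂ : ℝ, ∫⁻ u₃ : ℝ, ∫⁻ a₃ : ℝ,
      ∫⁻ b₃ : ℝ, k6_G m θ δ u₁ a₁ b₁ u₂ a₂ b₂ u₃ a₃ b₃ =
    ∫⁻ u₁ : ℝ, ∫⁻ u₂ : ℝ, ∫⁻ u₃ : ℝ, ∫⁻ a₁ : ℝ, ∫⁻ b₁ : ℝ, ∫⁻ a₂ : ℝ, ∫⁻ b₂ : ℝ, ∫⁻ a₃ : ℝ,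
      ∫⁻ b₃ : ℝ, k6_G m θ δ u₁ a₁ b₁ u₂ a₂ b₂ u₃ a₃ b₃ := by
  refine lintegral_congr fun u₁ => ?_
  have h1 : ∀ a₁ b₁ u₂ : ℝ, ∫⁻ a₂ : ℝ, ∫⁻ b₂ : ℝ, ∫⁻ u₃ : ℝ, ∫⁻ a₃ : ℝ,
      ∫⁻ b₃ : ℝ, k6_G m θ δ u₁ a₁ b₁ u₂ a₂ b₂ u₃ a₃ b₃ = ∫⁻ u₃ : ℝ, ∫⁻ a₂ : ℝ, ∫⁻ b₂ : ℝ, ∫⁻ a₃ : ℝ,
      ∫⁻ b₃ : ℝ, k6_G m θ δ u₁ a₁ b₁ u₂ a₂ b₂ u₃ a₃ b₃ := by
    intro a₁ b₁ u₂
    refine k6_sw3 (f := fun x => ∫⁻ a₃ : ℝ,
      ∫⁻ b₃ : ℝ, k6_G m θ δ u₁ a₁ b₁ u₂ x.1 x.2.1 x.2.2 a₃ b₃) ?_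
    refine Measurable.lintegral_prod_right' (f := fun q : (ℝ × ℝ × ℝ) × ℝ =>
      ∫⁻ b₃ : ℝ, k6_G m θ δ u₁ a₁ b₁ u₂ q.1.1 q.1.2.1 q.1.2.2 q.2 b₃) ?_
    refine Measurable.lintegral_prod_right' (f := fun q : ((ℝ × ℝ × ℝ) × ℝ) × ℝ =>
      k6_G m θ δ u₁ a₁ b₁ u₂ q.1.1.1 q.1.1.2.1 q.1.1.2.2 q.1.2 q.2) ?_
    exact k6_G_meas m θ δ (by fun_prop) (by fun_prop) (by fun_prop) (by fun_prop) (by fun_prop)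
      (by fun_prop) (by fun_prop) (by fun_prop) (by fun_prop)
  simp only [h1]
  have h2 : ∫⁻ a₁ : ℝ, ∫⁻ b₁ : ℝ, ∫⁻ u₂ : ℝ, ∫⁻ u₃ : ℝ, ∫⁻ a₂ : ℝ, ∫⁻ b₂ : ℝ, ∫⁻ a₃ : ℝ,
      ∫⁻ b₃ : ℝ, k6_G m θ δ u₁ a₁ b₁ u₂ a₂ b₂ u₃ a₃ b₃ =
      ∫⁻ u₂ : ℝ, ∫⁻ a₁ : ℝ, ∫⁻ b₁ : ℝ, ∫⁻ u₃ : ℝ, ∫⁻ a₂ : ℝ, ∫⁻ b₂ : ℝ, ∫⁻ a₃ : ℝ,
      ∫⁻ b₃ : ℝ, k6_G m θ δ u₁ a₁ b₁ u₂ a₂ b₂ u₃ a₃ b₃ := by
    refine k6_sw3 (f := fun x => ∫⁻ u₃ : ℝ, ∫⁻ a₂ : ℝ, ∫⁻ b₂ : ℝ, ∫⁻ a₃ : ℝ,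
      ∫⁻ b₃ : ℝ, k6_G m θ δ u₁ x.1 x.2.1 x.2.2 a₂ b₂ u₃ a₃ b₃) ?_
    refine Measurable.lintegral_prod_right' (f := fun q : (ℝ × ℝ × ℝ) × ℝ =>
      ∫⁻ a₂ : ℝ, ∫⁻ b₂ : ℝ, ∫⁻ a₃ : ℝ, ∫⁻ b₃ : ℝ,
        k6_G m θ δ u₁ q.1.1 q.1.2.1 q.1.2.2 a₂ b₂ q.2 a₃ b₃) ?_
    refine Measurable.lintegral_prod_right' (f := fun q : ((ℝ × ℝ × ℝ) × ℝ) × ℝ =>
      ∫⁻ b₂ : ℝ, ∫⁻ a₃ : ℝ, ∫⁻ b₃ : ℝ,
        k6_G m θ δ u₁ q.1.1.1 q.1.1.2.1 q.1.1.2.2 q.2 b₂ q.1.2 a₃ b₃) ?_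
    refine Measurable.lintegral_prod_right' (f := fun q : (((ℝ × ℝ × ℝ) × ℝ) × ℝ) × ℝ =>
      ∫⁻ a₃ : ℝ, ∫⁻ b₃ : ℝ,
        k6_G m θ δ u₁ q.1.1.1.1 q.1.1.1.2.1 q.1.1.1.2.2 q.1.2 q.2 q.1.1.2 a₃ b₃) ?_
    refine Measurable.lintegral_prod_right' (f := fun q : ((((ℝ × ℝ × ℝ) × ℝ) × ℝ) × ℝ) × ℝ =>
      ∫⁻ b₃ : ℝ, k6_G m θ δ u₁ q.1.1.1.1.1 q.1.1.1.1.2.1 q.1.1.1.1.2.2 q.1.1.2 q.1.2 q.1.1.1.2
        q.2 b₃) ?_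
    refine Measurable.lintegral_prod_right'
      (f := fun q : (((((ℝ × ℝ × ℝ) × ℝ) × ℝ) × ℝ) × ℝ) × ℝ =>
      k6_G m θ δ u₁ q.1.1.1.1.1.1 q.1.1.1.1.1.2.1 q.1.1.1.1.1.2.2 q.1.1.1.2 q.1.1.2 q.1.1.1.1.2
        q.1.2 q.2) ?_
    exact k6_G_meas m θ δ (by fun_prop) (by fun_prop) (by fun_prop) (by fun_prop) (by fun_prop)
      (by fun_prop) (by fun_prop) (by fun_prop) (by fun_prop)
  rw [h2]
  refine lintegral_congr fun u₂ => ?_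
  refine k6_sw3 (f := fun x => ∫⁻ a₂ : ℝ, ∫⁻ b₂ : ℝ, ∫⁻ a₃ : ℝ,
      ∫⁻ b₃ : ℝ, k6_G m θ δ u₁ x.1 x.2.1 u₂ a₂ b₂ x.2.2 a₃ b₃) ?_
  refine Measurable.lintegral_prod_right' (f := fun q : (ℝ × ℝ × ℝ) × ℝ =>
      ∫⁻ b₂ : ℝ, ∫⁻ a₃ : ℝ, ∫⁻ b₃ : ℝ,
        k6_G m θ δ u₁ q.1.1 q.1.2.1 u₂ q.2 b₂ q.1.2.2 a₃ b₃) ?_
  refine Measurable.lintegral_prod_right' (f := fun q : ((ℝ × ℝ × ℝ) × ℝ) × ℝ =>
      ∫⁻ a₃ : ℝ, ∫⁻ b₃ : ℝ,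
        k6_G m θ δ u₁ q.1.1.1 q.1.1.2.1 u₂ q.1.2 q.2 q.1.1.2.2 a₃ b₃) ?_
  refine Measurable.lintegral_prod_right' (f := fun q : (((ℝ × ℝ × ℝ) × ℝ) × ℝ) × ℝ =>
      ∫⁻ b₃ : ℝ,
        k6_G m θ δ u₁ q.1.1.1.1 q.1.1.1.2.1 u₂ q.1.1.2 q.1.2 q.1.1.1.2.2 q.2 b₃) ?_
  refine Measurable.lintegral_prod_right' (f := fun q : ((((ℝ × ℝ × ℝ) × ℝ) × ℝ) × ℝ) × ℝ =>
        k6_G m θ δ u₁ q.1.1.1.1.1 q.1.1.1.1.2.1 u₂ q.1.1.1.2 q.1.1.2 q.1.1.1.1.2.2 q.1.2 q.2) ?_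
  exact k6_G_meas m θ δ (by fun_prop) (by fun_prop) (by fun_prop) (by fun_prop) (by fun_prop)
    (by fun_prop) (by fun_prop) (by fun_prop) (by fun_prop)

/-- bound of the norm of a block kernel -/
noncomputable def k6_N (m : ℕ) (u : ℝ) : ENNReal :=
  (Set.Ioi (0 : ℝ)).indicator (fun u => ENNReal.ofReal (Real.sqrt (be2 m) * u ^ (4 * m + 2))) u

theorem k6_N_le {m : ℕ} (hm : 0 < m) (u : ℝ) :
    (∫⁻ a : ℝ, ∫⁻ b : ℝ, BK m u a b ^ 2) ^ (1 / 2 : ℝ) ≤ k6_N m u := by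
  unfold k6_N
  rcases le_or_gt u 0 with hu | hu
  · rw [Set.indicator_of_notMem (by simpa using hu)]
    simp only [BK_nonpos hm hu]
    simp
  · rw [Set.indicator_of_mem (by exact hu)]
    have h1 : ENNReal.ofReal (Real.sqrt (be2 m) * u ^ (4 * m + 2)) =
        (ENNReal.ofReal (be2 m * u ^ (8 * m + 4))) ^ (1 / 2 : ℝ) := by
      rw [ENNReal.ofReal_rpow_of_nonneg (mul_nonneg (be2_pos m).le (by positivity)) (by norm_num),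
        ← Real.sqrt_eq_rpow, Real.sqrt_mul (be2_pos m).le]
      congr 2
      rw [show 8 * m + 4 = 2 * (4 * m + 2) by ring, pow_mul', Real.sqrt_sq (by positivity)]
    rw [h1]
    exact ENNReal.rpow_le_rpow (BK_hs hm hu) (by norm_num)

theorem k6_slice {m : ℕ} (hm : 0 < m) {θ δ : ℝ} (hδ : 0 < δ) (u₁ u₂ u₃ : ℝ) :
    ∫⁻ a₁ : ℝ, ∫⁻ b₁ : ℝ, ∫⁻ a₂ : ℝ, ∫⁻ b₂ : ℝ, ∫⁻ a₃ : ℝ,
      ∫⁻ b₃ : ℝ, k6_G m θ δ u₁ a₁ b₁ u₂ a₂ b₂ u₃ a₃ b₃ ≤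
      ENNReal.ofReal ((pp (θ - (u₁ + u₂) / 2) * pp (θ - (u₁ + u₃) / 2) *
          pp (θ - (u₂ + u₃) / 2)) ^ m) * (ENNReal.ofReal ((δ / 2) ^ 6) *
        (k6_N m u₁ * k6_N m u₂ * k6_N m u₃)) := by
  have hC : ENNReal.ofReal ((pp (θ - (u₁ + u₂) / 2) * pp (θ - (u₁ + u₃) / 2) *
          pp (θ - (u₂ + u₃) / 2)) ^ m) ≠ ⊤ := ENNReal.ofReal_ne_top
  have hB : ∀ u : ℝ, Measurable fun x : ℝ × ℝ => BK m u x.1 x.2 := fun u =>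
    (BK_meas m).comp (f := fun x : ℝ × ℝ => (u, x.1, x.2)) (by fun_prop)
  have h1 := triangle_le (hB u₁) (hB u₂) (hB u₃) (Psi_meas θ δ)
  have h2 : ∫⁻ a₁ : ℝ, ∫⁻ b₁ : ℝ, ∫⁻ a₂ : ℝ, ∫⁻ b₂ : ℝ, ∫⁻ a₃ : ℝ,
      ∫⁻ b₃ : ℝ, k6_G m θ δ u₁ a₁ b₁ u₂ a₂ b₂ u₃ a₃ b₃ =
      ENNReal.ofReal ((pp (θ - (u₁ + u₂) / 2) * pp (θ - (u₁ + u₃) / 2) *
          pp (θ - (u₂ + u₃) / 2)) ^ m) *
      ∫⁻ a₁ : ℝ, ∫⁻ b₁ : ℝ, ∫⁻ a₂ : ℝ, ∫⁻ b₂ : ℝ, ∫⁻ a₃ : ℝ, ∫⁻ b₃ : ℝ,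
        BK m u₁ a₁ b₁ * BK m u₂ a₂ b₂ * BK m u₃ a₃ b₃ *
          (Psi θ δ (a₁ + b₃) * Psi θ δ (b₁ + a₂) * Psi θ δ (b₂ + a₃)) := by
    simp only [← lintegral_const_mul' _ _ hC]
    refine lintegral_congr fun a₁ => ?_
    refine lintegral_congr fun b₁ => ?_
    refine lintegral_congr fun a₂ => ?_
    refine lintegral_congr fun b₂ => ?_
    refine lintegral_congr fun a₃ => ?_
    refine lintegral_congr fun b₃ => ?_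
    unfold k6_G
    ring
  rw [h2]
  refine mul_le_mul_right (h1.trans ?_) _
  rw [Psi_int hδ, ← ENNReal.ofReal_pow (by positivity)]
  have e : ((δ / 2) ^ 2) ^ 3 = (δ / 2) ^ 6 := by ring
  rw [e]
  exact mul_le_mul_right (mul_le_mul' (mul_le_mul' (k6_N_le hm u₁) (k6_N_le hm u₂))
    (k6_N_le hm u₃)) _

theorem k6_TI (m : ℕ) (θ : ℝ) :
    ∫⁻ u₁ : ℝ, ∫⁻ u₂ : ℝ, ∫⁻ u₃ : ℝ,
      ENNReal.ofReal ((pp (θ - (u₁ + u₂) / 2) * pp (θ - (u₁ + u₃) / 2) *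
          pp (θ - (u₂ + u₃) / 2)) ^ m) * (k6_N m u₁ * k6_N m u₂ * k6_N m u₃) =
      ENNReal.ofReal (Real.sqrt (be2 m) ^ 3) * TI m θ := by
  unfold TI
  have hs : 0 ≤ Real.sqrt (be2 m) := Real.sqrt_nonneg _
  simp only [← lintegral_const_mul' _ _ (ENNReal.ofReal_ne_top (r := Real.sqrt (be2 m) ^ 3))]
  rw [← lintegral_indicator measurableSet_Ioi]
  refine lintegral_congr fun u₁ => ?_
  rcases le_or_gt u₁ 0 with h1 | h1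
  · rw [Set.indicator_of_notMem (by simpa using h1)]
    have : k6_N m u₁ = 0 := Set.indicator_of_notMem (by simpa using h1) _
    simp [this]
  rw [Set.indicator_of_mem (by exact h1), ← lintegral_indicator measurableSet_Ioi]
  have n1 : k6_N m u₁ = ENNReal.ofReal (Real.sqrt (be2 m) * u₁ ^ (4 * m + 2)) :=
    Set.indicator_of_mem (by exact h1) _
  refine lintegral_congr fun u₂ => ?_
  rcases le_or_gt u₂ 0 with h2 | h2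
  · rw [Set.indicator_of_notMem (by simpa using h2)]
    have : k6_N m u₂ = 0 := Set.indicator_of_notMem (by simpa using h2) _
    simp [this]
  rw [Set.indicator_of_mem (by exact h2), ← lintegral_indicator measurableSet_Ioi]
  have n2 : k6_N m u₂ = ENNReal.ofReal (Real.sqrt (be2 m) * u₂ ^ (4 * m + 2)) :=
    Set.indicator_of_mem (by exact h2) _
  refine lintegral_congr fun u₃ => ?_
  rcases le_or_gt u₃ 0 with h3 | h3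
  · rw [Set.indicator_of_notMem (by simpa using h3)]
    have : k6_N m u₃ = 0 := Set.indicator_of_notMem (by simpa using h3) _
    simp [this]
  rw [Set.indicator_of_mem (by exact h3)]
  have n3 : k6_N m u₃ = ENNReal.ofReal (Real.sqrt (be2 m) * u₃ ^ (4 * m + 2)) :=
    Set.indicator_of_mem (by exact h3) _
  rw [n1, n2, n3, ← ENNReal.ofReal_mul (by positivity), ← ENNReal.ofReal_mul (by positivity),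
    ← ENNReal.ofReal_mul (pow_nonneg (mul_nonneg (mul_nonneg (ke_pp_nonneg _) (ke_pp_nonneg _))
      (ke_pp_nonneg _)) _), ← ENNReal.ofReal_mul (by positivity)]
  congr 1
  ring

theorem LS_six_le {a m : ℕ} (ha : 0 < a) (hm : 2 * a ^ 2 = m + 1) {θ δ τ : ℝ} (hδ : 0 < δ)
    (hδθ : δ < θ) (hτ : 0 ≤ τ) (hT : TI m 1 ≤ ENNReal.ofReal τ) :
    LS (fun _ : Fin 6 => pn a) (SI 6) (G0 fun _ => hat θ δ) ≤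
      (δ / 2) ^ 6 * (Real.sqrt (be2 m) ^ 3 * τ / (m.factorial : ℝ) ^ 15 * θ ^ (15 * m + 9)) := by
  have hm0 := ke_m_pos ha hm
  have hθ : 0 < θ := hδ.trans hδθ
  have h1 := LS_six_block ha hm hδ hδθ
  have h2 : ∫⁻ u₁ : ℝ, ∫⁻ a₁ : ℝ, ∫⁻ b₁ : ℝ, BK m u₁ a₁ b₁ *
      ∫⁻ u₂ : ℝ, ∫⁻ a₂ : ℝ, ∫⁻ b₂ : ℝ, BK m u₂ a₂ b₂ *
      ∫⁻ u₃ : ℝ, ∫⁻ a₃ : ℝ, ∫⁻ b₃ : ℝ, BK m u₃ a₃ b₃ *
        (ENNReal.ofReal ((pp (θ - (u₁ + u₂) / 2) * pp (θ - (u₁ + u₃) / 2) *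
          pp (θ - (u₂ + u₃) / 2)) ^ m) *
        (Psi θ δ (a₁ + b₃) * Psi θ δ (b₁ + a₂) * Psi θ δ (b₂ + a₃))) =
      ∫⁻ u₁ : ℝ, ∫⁻ a₁ : ℝ, ∫⁻ b₁ : ℝ, ∫⁻ u₂ : ℝ, ∫⁻ a₂ : ℝ, ∫⁻ b₂ : ℝ, ∫⁻ u₃ : ℝ, ∫⁻ a₃ : ℝ,
      ∫⁻ b₃ : ℝ, k6_G m θ δ u₁ a₁ b₁ u₂ a₂ b₂ u₃ a₃ b₃ := by
    refine lintegral_congr fun u₁ => ?_
    refine lintegral_congr fun a₁ => ?_
    refine lintegral_congr fun b₁ => ?_
    rw [← lintegral_const_mul' _ _ (k6_BK_top hm0 u₁ a₁ b₁)]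
    refine lintegral_congr fun u₂ => ?_
    rw [← lintegral_const_mul' _ _ (k6_BK_top hm0 u₁ a₁ b₁)]
    refine lintegral_congr fun a₂ => ?_
    rw [← lintegral_const_mul' _ _ (k6_BK_top hm0 u₁ a₁ b₁)]
    refine lintegral_congr fun b₂ => ?_
    rw [← lintegral_const_mul' _ _ (k6_BK_top hm0 u₂ a₂ b₂),
      ← lintegral_const_mul' _ _ (k6_BK_top hm0 u₁ a₁ b₁)]
    refine lintegral_congr fun u₃ => ?_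
    rw [← lintegral_const_mul' _ _ (k6_BK_top hm0 u₂ a₂ b₂),
      ← lintegral_const_mul' _ _ (k6_BK_top hm0 u₁ a₁ b₁)]
    refine lintegral_congr fun a₃ => ?_
    rw [← lintegral_const_mul' _ _ (k6_BK_top hm0 u₂ a₂ b₂),
      ← lintegral_const_mul' _ _ (k6_BK_top hm0 u₁ a₁ b₁)]
    rfl
  rw [h2, k6_swap] at h1
  have h3 : ∫⁻ u₁ : ℝ, ∫⁻ u₂ : ℝ, ∫⁻ u₃ : ℝ, ∫⁻ a₁ : ℝ, ∫⁻ b₁ : ℝ, ∫⁻ a₂ : ℝ, ∫⁻ b₂ : ℝ,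
      ∫⁻ a₃ : ℝ, ∫⁻ b₃ : ℝ, k6_G m θ δ u₁ a₁ b₁ u₂ a₂ b₂ u₃ a₃ b₃ ≤
      ENNReal.ofReal ((δ / 2) ^ 6) * (ENNReal.ofReal (Real.sqrt (be2 m) ^ 3) * TI m θ) := by
    rw [← k6_TI]
    simp only [← lintegral_const_mul' _ _ (ENNReal.ofReal_ne_top (r := (δ / 2) ^ 6))]
    refine lintegral_mono fun u₁ => lintegral_mono fun u₂ => lintegral_mono fun u₃ => ?_
    refine (k6_slice hm0 hδ u₁ u₂ u₃).trans (le_of_eq ?_)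
    ring
  have h4 : TI m θ ≤ ENNReal.ofReal (θ ^ (15 * m + 9)) * ENNReal.ofReal τ := by
    rw [TI_scale m hθ]
    exact mul_le_mul_right hT _
  have hs : 0 ≤ Real.sqrt (be2 m) := Real.sqrt_nonneg _
  have h5 := h1.trans (mul_le_mul_right (h3.trans (mul_le_mul_right (mul_le_mul_right h4 _) _))
    (ENNReal.ofReal (1 / (Nat.factorial m : ℝ) ^ 15)))
  rw [← ENNReal.ofReal_mul (by positivity), ← ENNReal.ofReal_mul (by positivity),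
    ← ENNReal.ofReal_mul (by positivity), ← ENNReal.ofReal_mul (by positivity),
    ENNReal.ofReal_le_ofReal_iff (by positivity)] at h5
  refine h5.trans (le_of_eq ?_)
  ring

end Pool.Agent.GenMoment
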