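import Mathlib
import Pool.Agent.Lib_MP_112ba8_g.Final
import Pool.Agent.Lib_MP_112ba8_g.KSix

/-!
The numerical constant for `k = 6` (helper69).
-/

namespace Pool.Agent.GenMoment

open Filter Topology MeasureTheory
open Pool.Agent.EvenMoment (cl Wgt Adm Ed cut hat)
open Pool.Agent.SixthMoment (QQ ln fr osc QS TT ob sepa oy xe JZ fc chi d1_hat_adm d1_hat_nonneg)

lemma fi_num6 : 20000000 / (Nat.factorial 36 : ℝ) ≤ (29531 / 10 ^ 26 / (120 * 120 * 120)) ^ 6 /
    ((((562 / 1000) ^ 2 * (539999 / 1000000) ^ 18 / 18 - 2 * (562 / 1000) *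
      (539999 / 1000000) ^ 19 / 19 + (539999 / 1000000) ^ 20 / 20) / (Nat.factorial 17 : ℝ)) ^ 3 *
      ((103 / 3832012800) ^ 3 * (16183 / 1100799504 * (23 / 100) ^ 24) ^ 2)) := by
  norm_num [Nat.factorial]

theorem const6 {A : ℝ} (hA : A < 20000000) : ∀ᶠ T : ℝ in atTop,
    A * (Pool.Agent.EvenMoment.ar 6 / (Nat.factorial 36)) * Real.log T ^ 36 ≤
      (1 / T) * ∫ t in (0 : ℝ)..T, ‖riemannZeta (cl t)‖ ^ 12 := by
  set θ : ℝ := 23 / 100 with hθ
  set δ : ℝ := 1 / 1000000 with hδ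
  set ρ : ℝ := 539999 / 1000000 with hρ
  set η : ℝ := 1 / 1000000 with hη
  set c : ℝ := 562 / 1000 with hc
  have har : 0 < Pool.Agent.EvenMoment.ar 6 := Real.exp_pos _
  have hδ0 : 0 < δ := by norm_num [hδ]
  have hη0 : 0 < η := by norm_num [hη]
  have hθ0 : 0 < θ := by norm_num [hθ]
  have e1 : θ - δ = 229999 / 1000000 := by norm_num [hθ, hδ]
  have e2 : ρ - η = 539998 / 1000000 := by norm_num [hρ, hη]
  set N : ℝ := 29531 / 10 ^ 26 / (120 * 120 * 120) with hN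
  have hNle : (δ / 2) ^ 2 * N ≤
      LS (hX ![pn 3, pn 1, pn 1]) (SI 4) (GX fc ![gR c ρ η, hat θ δ, hat θ δ]) := by
    have h1 := LS_four_ge (a := 3) (b₁ := 1) (b₂ := 1) (by norm_num) (by norm_num) (by norm_num)
      (θ₁ := θ) (θ₂ := θ) (δ := δ) (ρ := ρ) (η := η) (c := c) (a₀ := 0) hδ0
      (by norm_num [hθ, hδ]) le_rfl hη0 (by norm_num [hθ, hρ]) le_rfl (by norm_num [hθ, hδ])
      (by norm_num [hθ, hρ, hη, hδ]) (by norm_num [hρ, hc])
    refine le_trans (mul_le_mul_of_nonneg_left ?_ (by positivity)) h1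
    rw [e1, e2, hN]
    have := NN4_val
    norm_num [Nat.factorial] at this ⊢
    linarith
  set D0 : ℝ := (c ^ 2 * ρ ^ 18 / 18 - 2 * c * ρ ^ 19 / 19 + ρ ^ 20 / 20) /
    (Nat.factorial 17 : ℝ) with hD0
  set K : ℝ := Real.sqrt (be2 1) ^ 3 * (16183 / 1100799504) * θ ^ 24 with hK
  have hD0le : LS (fun _ : Fin 2 => pn 3) (SI 2) (G0 fun _ => gR c ρ η) ≤ D0 := by
    have h1 := LS_two_le (a := 3) (by norm_num) (c := c) (ρ := ρ) hη0 (by norm_num [hρ])
      (by norm_num [hρ, hc])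
    refine h1.trans (le_of_eq ?_)
    rw [hD0]
    norm_num
  have hKle : LS (fun _ : Fin 6 => pn 1) (SI 6) (G0 fun _ => hat θ δ) ≤ (δ / 2) ^ 6 * K := by
    have hT : TI 1 1 ≤ ENNReal.ofReal (16183 / 1100799504) := by
      have := TI_le (m := 1) one_pos
      rwa [TJ_one] at this
    have h1 := LS_six_le (a := 1) (m := 1) (by norm_num) (by norm_num) (θ := θ) hδ0
      (by norm_num [hθ, hδ]) (by norm_num) hT
    refine h1.trans (le_of_eq ?_)
    rw [hK]
    norm_num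
  have hD0p : 0 < D0 := by
    have : (0 : ℝ) < (Nat.factorial 17 : ℝ) := by positivity
    rw [hD0]
    refine div_pos ?_ this
    norm_num [hc, hρ]
  have hb : 0 < Real.sqrt (be2 1) := Real.sqrt_pos.mpr (be2_pos 1)
  have hKp : 0 < K := by positivity
  have hNp : 0 < N := by norm_num [hN]
  have key := moment_lower (n := 3) (by norm_num) ![3, 1, 1] ![1, 3, 3] (k := 6)
    (by intro i; fin_cases i <;> norm_num) (by intro i; fin_cases i <;> norm_num)
    (by intro i; fin_cases i <;> norm_num) (by simp [Fin.sum_univ_three])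
    (θ := ![ρ, θ, θ]) (by intro i; fin_cases i <;> norm_num [hρ, hθ])
    (by
      rw [Fin.sum_univ_three]
      change ρ + θ + θ < 1
      norm_num [hρ, hθ])
    (by intro i; fin_cases i <;> norm_num [hρ, hθ])
    (ω := ![gR c ρ η, hat θ δ, hat θ δ])
    (by
      intro i
      fin_cases i
      · exact fi_gR_adm hη0
      · exact d1_hat_adm hδ0
      · exact d1_hat_adm hδ0)
    (by
      intro i
      fin_cases i
      · exact fi_gR_nonneg hη0 (by norm_num [hρ, hc])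
      · exact d1_hat_nonneg θ δ
      · exact d1_hat_nonneg θ δ)
    (z := (δ / 2) ^ 2 * N) (by positivity) (D := ![D0, (δ / 2) ^ 6 * K, (δ / 2) ^ 6 * K])
    (by
      intro i
      fin_cases i
      · exact hD0p
      · show 0 < (δ / 2) ^ 6 * K
        positivity
      · show 0 < (δ / 2) ^ 6 * K
        positivity)
    (by
      refine hNle.trans (le_of_eq ?_)
      congr 2
      funext i
      fin_cases i <;> rfl)
    (by
      intro i
      fin_cases i
      · exact hD0le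
      · exact hKle
      · exact hKle)
    (A := A * (Pool.Agent.EvenMoment.ar 6 / (Nat.factorial 36))) ?_
  · exact key
  · rw [Fin.prod_univ_three]
    have e3 : ((δ / 2) ^ 2 * N) ^ 6 / ((![D0, (δ / 2) ^ 6 * K, (δ / 2) ^ 6 * K] : Fin 3 → ℝ) 0 ^
          (![3, 1, 1] : Fin 3 → ℕ) 0 *
        (![D0, (δ / 2) ^ 6 * K, (δ / 2) ^ 6 * K] : Fin 3 → ℝ) 1 ^ (![3, 1, 1] : Fin 3 → ℕ) 1 *
        (![D0, (δ / 2) ^ 6 * K, (δ / 2) ^ 6 * K] : Fin 3 → ℝ) 2 ^ (![3, 1, 1] : Fin 3 → ℕ) 2) =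
        N ^ 6 / (D0 ^ 3 * K ^ 2) := by
      change ((δ / 2) ^ 2 * N) ^ 6 / (D0 ^ 3 * ((δ / 2) ^ 6 * K) ^ 1 * ((δ / 2) ^ 6 * K) ^ 1) =
        N ^ 6 / (D0 ^ 3 * K ^ 2)
      have h0 : δ / 2 ≠ 0 := by positivity
      have h1 : D0 ≠ 0 := hD0p.ne'
      have h2 : K ≠ 0 := hKp.ne'
      rw [mul_pow, pow_one, div_eq_div_iff (by positivity) (by positivity)]
      ring
    rw [e3]
    have hK2 : K ^ 2 = (103 / 3832012800) ^ 3 * (16183 / 1100799504 * (23 / 100) ^ 24) ^ 2 := by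
      have h4 : Real.sqrt (be2 1) ^ 6 = (103 / 3832012800) ^ 3 := by
        rw [show Real.sqrt (be2 1) ^ 6 = (Real.sqrt (be2 1) ^ 2) ^ 3 by ring,
          Real.sq_sqrt (be2_pos 1).le, be2_one]
      rw [← h4, hK, hθ]
      ring
    have hnum : 20000000 / (Nat.factorial 36 : ℝ) ≤ N ^ 6 / (D0 ^ 3 * K ^ 2) := by
      rw [hN, hD0, hK2, hc, hρ]
      exact fi_num6
    calc A * (Pool.Agent.EvenMoment.ar 6 / (Nat.factorial 36)) =
          Pool.Agent.EvenMoment.ar 6 * (A / (Nat.factorial 36)) := by ring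
      _ < Pool.Agent.EvenMoment.ar 6 * (20000000 / (Nat.factorial 36)) := by gcongr
      _ ≤ _ := mul_le_mul_of_nonneg_left hnum har.le

end Pool.Agent.GenMoment
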