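import Mathlib

/-!
A small verified calculator for iterated integrals of polynomials with rational coefficients:
list polynomials over an arbitrary coefficient type, Beta weighted integrals, Horner evaluation.
-/

namespace Pool.Agent.PolyInt

open MeasureTheory

/-- operations of a coefficient type -/
class PR (α : Type) where
  zero : α
  cst : ℚ → α
  add : α → α → α
  mul : α → α → α
  smul : ℚ → α → α

instance instQ : PR ℚ := ⟨0, fun c => c, fun a b => a + b, fun a b => a * b, fun a b => a * b⟩

/-- sum of list polynomials -/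
def ladd {α : Type} [PR α] : List α → List α → List α
  | [], q => q
  | a :: p, [] => a :: p
  | a :: p, b :: q => PR.add a b :: ladd p q

/-- product of list polynomials -/
def lmul {α : Type} [PR α] : List α → List α → List α
  | [], _ => []
  | a :: p, q => ladd (q.map (PR.mul a)) (PR.zero :: lmul p q)

instance instL {α : Type} [PR α] : PR (List α) :=
  ⟨[], fun c => [PR.cst c], ladd, lmul, fun c p => p.map (PR.smul c)⟩

/-- powers -/
def pw {α : Type} [PR α] (a : α) : ℕ → α
  | 0 => PR.cst 1
  | n + 1 => PR.mul a (pw a n)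

/-- evaluation of a list polynomial -/
noncomputable def lev {α : Type} (φ : α → ℝ) (x : ℝ) : List α → ℝ
  | [] => 0
  | a :: p => φ a + x * lev φ x p

/-- evaluation maps -/
structure Hom {α : Type} [PR α] (φ : α → ℝ) : Prop where
  zero : φ PR.zero = 0
  cst : ∀ c : ℚ, φ (PR.cst c) = (c : ℝ)
  add : ∀ a b, φ (PR.add a b) = φ a + φ b
  mul : ∀ a b, φ (PR.mul a b) = φ a * φ b
  smul : ∀ (c : ℚ) a, φ (PR.smul c a) = (c : ℝ) * φ a

/-- the cast of rationals -/
noncomputable def qc : ℚ → ℝ := fun q => (q : ℝ)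

theorem hom_qc : Hom qc where
  zero := by show ((0 : ℚ) : ℝ) = 0; norm_num
  cst := fun c => rfl
  add := fun a b => by show ((a + b : ℚ) : ℝ) = _; rw [Rat.cast_add]; rfl
  mul := fun a b => by show ((a * b : ℚ) : ℝ) = _; rw [Rat.cast_mul]; rfl
  smul := fun a b => by show ((a * b : ℚ) : ℝ) = _; rw [Rat.cast_mul]; rfl

theorem lev_nil {α : Type} (φ : α → ℝ) (x : ℝ) : lev φ x [] = 0 := rfl

theorem lev_cons {α : Type} (φ : α → ℝ) (x : ℝ) (a : α) (p : List α) :
    lev φ x (a :: p) = φ a + x * lev φ x p := rfl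

theorem lev_ladd {α : Type} [PR α] {φ : α → ℝ} (h : Hom φ) (x : ℝ) :
    ∀ p q : List α, lev φ x (ladd p q) = lev φ x p + lev φ x q
  | [], q => by rw [ladd, lev_nil, zero_add]
  | a :: p, [] => by rw [ladd, lev_nil, add_zero]
  | a :: p, b :: q => by
      rw [ladd, lev_cons, lev_cons, lev_cons, lev_ladd h x p q, h.add]
      ring

theorem lev_map {α : Type} {φ : α → ℝ} (x : ℝ) (f : α → α) (c : ℝ)
    (hf : ∀ a, φ (f a) = c * φ a) : ∀ p : List α, lev φ x (p.map f) = c * lev φ x p
  | [] => by rw [List.map_nil, lev_nil, mul_zero]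
  | a :: p => by
      rw [List.map_cons, lev_cons, lev_cons, lev_map x f c hf p, hf]
      ring

theorem lev_lmul {α : Type} [PR α] {φ : α → ℝ} (h : Hom φ) (x : ℝ) :
    ∀ p q : List α, lev φ x (lmul p q) = lev φ x p * lev φ x q
  | [], q => by rw [lmul, lev_nil, zero_mul]
  | a :: p, q => by
      rw [lmul, lev_ladd h, lev_map x (PR.mul a) (φ a) (h.mul a), lev_cons, lev_cons,
        lev_lmul h x p q, h.zero]
      ring

theorem hom_lev {α : Type} [PR α] {φ : α → ℝ} (h : Hom φ) (x : ℝ) : Hom (lev φ x) where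
  zero := rfl
  cst := fun c => by
    show lev φ x [PR.cst c] = _
    rw [lev_cons, lev_nil, h.cst, mul_zero, add_zero]
  add := fun a b => lev_ladd h x a b
  mul := fun a b => lev_lmul h x a b
  smul := fun c a => lev_map x (PR.smul c) c (h.smul c) a

theorem Hom.pw {α : Type} [PR α] {φ : α → ℝ} (h : Hom φ) (a : α) :
    ∀ n : ℕ, φ (pw a n) = φ a ^ n
  | 0 => by rw [PolyInt.pw, h.cst, pow_zero, Rat.cast_one]
  | n + 1 => by rw [PolyInt.pw, h.mul, Hom.pw h a n, pow_succ']

/-- Horner evaluation at an element of the coefficient type -/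
def horner {α : Type} [PR α] (h : α) : List α → α
  | [] => PR.zero
  | a :: p => PR.add a (PR.mul h (horner h p))

theorem Hom.horner {α : Type} [PR α] {φ : α → ℝ} (h : Hom φ) (t : α) :
    ∀ p : List α, φ (horner t p) = lev φ (φ t) p
  | [] => by rw [PolyInt.horner, h.zero, lev_nil]
  | a :: p => by rw [PolyInt.horner, h.add, h.mul, Hom.horner h t p, lev_cons]

/-- Beta value -/
def bt (B Z : ℕ) : ℚ := (B.factorial * Z.factorial : ℕ) / ((B + Z + 1).factorial : ℕ)

/-- multiply the coefficient of index `j` by the Beta value `(B + j, Z)` -/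
def bw {α : Type} [PR α] (Z : ℕ) : ℕ → List α → List α
  | _, [] => []
  | B, a :: p => PR.smul (bt B Z) a :: bw Z (B + 1) p

theorem beta_real (p q : ℕ) (L : ℝ) :
    ∫ x in (0 : ℝ)..L, x ^ p * (L - x) ^ q = L ^ (p + q + 1) * (bt p q : ℝ) := by
  induction q generalizing p with
  | zero =>
    simp only [pow_zero, mul_one, add_zero]
    rw [integral_pow]
    have h1 : ((p.factorial : ℝ)) ≠ 0 := by positivity
    have h2 : ((p : ℝ) + 1) ≠ 0 := by positivity
    unfold bt
    rw [Nat.factorial_succ (p + 0)]
    push_cast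
    simp only [Nat.factorial_zero, add_zero]
    field_simp
    simp
  | succ q ih =>
    have e1 : ∀ x : ℝ, x ^ p * (L - x) ^ (q + 1) =
        L * (x ^ p * (L - x) ^ q) - x ^ (p + 1) * (L - x) ^ q := by
      intro x; ring
    have hc : ∀ a : ℕ, IntervalIntegrable (fun x : ℝ => x ^ a * (L - x) ^ q) volume 0 L := by
      intro a
      apply Continuous.intervalIntegrable
      fun_prop
    simp_rw [e1]
    rw [intervalIntegral.integral_sub ((hc p).const_mul L) (hc (p + 1)),
      intervalIntegral.integral_const_mul, ih p, ih (p + 1)]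
    have h3 : ((p + q + 1).factorial : ℝ) ≠ 0 := by positivity
    unfold bt
    rw [show p + 1 + q + 1 = (p + q + 1) + 1 by ring, show p + (q + 1) + 1 = (p + q + 1) + 1 by ring,
      Nat.factorial_succ (p + q + 1), Nat.factorial_succ p, Nat.factorial_succ q]
    push_cast
    have h4 : ((p : ℝ) + q + 1 + 1) ≠ 0 := by positivity
    field_simp
    ring

theorem lev_continuous {α : Type} (φ : α → ℝ) (l : List α) : Continuous (fun x => lev φ x l) := by
  induction l with
  | nil => simpa [lev] using continuous_const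
  | cons a p ih =>
    simp only [lev]
    fun_prop

theorem beta_lev {α : Type} [PR α] {φ : α → ℝ} (h : Hom φ) (Z : ℕ) (L : ℝ) (l : List α) :
    ∀ B : ℕ, ∫ x in (0 : ℝ)..L, x ^ B * (L - x) ^ Z * lev φ x l =
      L ^ (B + Z + 1) * lev φ L (bw Z B l) := by
  induction l with
  | nil =>
    intro B
    simp [lev, bw]
  | cons a p ih =>
    intro B
    have e1 : ∀ x : ℝ, x ^ B * (L - x) ^ Z * lev φ x (a :: p) =
        φ a * (x ^ B * (L - x) ^ Z) + x ^ (B + 1) * (L - x) ^ Z * lev φ x p := by
      intro x; rw [lev_cons]; ring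
    simp_rw [e1]
    have hp := lev_continuous φ p
    rw [intervalIntegral.integral_add, intervalIntegral.integral_const_mul, beta_real, ih (B + 1),
      bw, lev_cons, h.smul]
    · ring
    · apply Continuous.intervalIntegrable
      fun_prop
    · apply Continuous.intervalIntegrable
      fun_prop

/-- The main integration rule. -/
theorem beta_rule {α : Type} [PR α] {φ : α → ℝ} (h : Hom φ) (B Z : ℕ) (t : α) (l : List α) :
    ∫ x in (0 : ℝ)..φ t, x ^ B * (φ t - x) ^ Z * lev φ x l =
      φ t ^ (B + Z + 1) * φ (horner t (bw Z B l)) := by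
  rw [beta_lev h, h.horner]

/-- value of the integral of a rational polynomial from `0` to `x` -/
def int0 (x : ℚ) (l : List ℚ) : ℚ := x * horner x (bw 0 0 l)

theorem integral_qc (u v : ℚ) (l : List ℚ) :
    ∫ x in (u : ℝ)..(v : ℝ), lev qc x l = ((int0 v l - int0 u l : ℚ) : ℝ) := by
  have key : ∀ w : ℚ, ∫ x in (0 : ℝ)..(w : ℝ), lev qc x l = ((int0 w l : ℚ) : ℝ) := by
    intro w
    have h1 := beta_rule hom_qc 0 0 w l
    simp only [pow_zero, one_mul, zero_add, pow_one, mul_one, add_zero] at h1
    have h2 : ((int0 w l : ℚ) : ℝ) = qc w * qc (horner w (bw 0 0 l)) := by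
      unfold int0 qc
      push_cast
      ring
    rw [h2]
    exact h1
  have hi : ∀ a b : ℝ, IntervalIntegrable (fun x => lev qc x l) volume a b := by
    intro a b
    exact (lev_continuous qc l).intervalIntegrable a b
  rw [← intervalIntegral.integral_add_adjacent_intervals (hi (u : ℝ) 0) (hi 0 v),
    intervalIntegral.integral_symm, key, key]
  push_cast
  ring

end Pool.Agent.PolyInt
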