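import Mathlib
import Pool.Agent.Lib_MP_112ba8_g.DefsB
import Pool.Agent.Lib_MP_112ba8_g.TInt
import Pool.Agent.Lib_MP_112ba8_g.PolyInt

/-!
The integrals `TJ1 m`, `TJ2 m` as computable rationals, with `PolyInt`.
-/

namespace Pool.Agent.PolyInt

open MeasureTheory
open Pool.Agent.GenMoment (TJ1 TJ2 tf)

/-- result of the `w` integral, without the factor `2^(-m) (2-u)^(n+m+1)`, `n = 4m+2` -/
def tw (m : ℕ) : List (List ℚ) :=
  horner [[2, -1]] (bw m (4 * m + 2) (pw [[[1], [-1 / 2]], [[-1 / 2]]] m))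

/-- result of the `v` integral, first case -/
def tv1 (m : ℕ) : List ℚ :=
  horner [0, 1] (bw 0 (4 * m + 2) (PR.mul (pw [[1, -1 / 2], [-1 / 2]] m) (tw m)))

/-- result of the `v` integral, second case -/
def tv2 (m : ℕ) : List ℚ :=
  horner [2, -1] (bw m (4 * m + 2) (tw m))

/-- polynomial in `u`, first case -/
def tu1 (m : ℕ) : List ℚ :=
  PR.mul (PR.mul (pw [0, 1] (4 * m + 2 + (4 * m + 2 + 1))) (pw [2, -1] (4 * m + 2 + m + 1)))
    (tv1 m)

/-- polynomial in `u`, second case -/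
def tu2 (m : ℕ) : List ℚ :=
  PR.mul (PR.mul (pw [0, 1] (4 * m + 2)) (pw [2, -1] (2 * (4 * m + 2 + m + 1)))) (tv2 m)

/-- value of the first integral -/
def tj1 (m : ℕ) : ℚ := (int0 1 (tu1 m) - int0 0 (tu1 m)) / 2 ^ m

/-- value of the second integral -/
def tj2 (m : ℕ) : ℚ := (int0 2 (tu2 m) - int0 1 (tu2 m)) / 4 ^ m

theorem tw_eq (m : ℕ) (u v : ℝ) :
    ∫ w in (0 : ℝ)..(2 - u), tf m u v w =
      (u * v) ^ (4 * m + 2) * (1 - (u + v) / 2) ^ m *
        ((2 - u) ^ (4 * m + 2 + m + 1) * lev (lev qc u) v (tw m) / 2 ^ m) := by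
  have H1 : Hom (lev qc u) := hom_lev hom_qc u
  have H2 : Hom (lev (lev qc u) v) := hom_lev H1 v
  have h1 := beta_rule H2 (4 * m + 2) m [[2, -1]] (pw [[[1], [-1 / 2]], [[-1 / 2]]] m)
  have ht : lev (lev qc u) v [[2, -1]] = 2 - u := by
    simp [lev, qc]
    ring
  rw [ht] at h1
  have h2 : ∀ w : ℝ, tf m u v w = (u * v) ^ (4 * m + 2) * (1 - (u + v) / 2) ^ m / 2 ^ m *
      (w ^ (4 * m + 2) * ((2 - u) - w) ^ m *
        lev (lev (lev qc u) v) w (pw [[[1], [-1 / 2]], [[-1 / 2]]] m)) := by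
    intro w
    have H3 : Hom (lev (lev (lev qc u) v) w) := hom_lev H2 w
    rw [H3.pw]
    have h3 : lev (lev (lev qc u) v) w [[[1], [-1 / 2]], [[-1 / 2]]] = 1 - (v + w) / 2 := by
      simp [lev, qc]
      ring
    rw [h3]
    unfold tf
    have h4 : 1 - (u + w) / 2 = ((2 - u) - w) / 2 := by ring
    rw [h4, mul_pow, mul_pow, mul_pow, mul_pow, div_pow]
    ring
  simp_rw [h2]
  rw [intervalIntegral.integral_const_mul, h1]
  unfold tw
  ring

theorem TJ1_eq (m : ℕ) : TJ1 m = ((tj1 m : ℚ) : ℝ) := by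
  unfold TJ1 tj1
  have h0 := integral_qc 0 1 (tu1 m)
  push_cast at h0 ⊢
  rw [← h0, ← intervalIntegral.integral_div]
  apply intervalIntegral.integral_congr
  intro u _
  dsimp only
  simp_rw [tw_eq]
  have H1 : Hom (lev qc u) := hom_lev hom_qc u
  have h1 := beta_rule H1 (4 * m + 2) 0 [0, 1] (PR.mul (pw [[1, -1 / 2], [-1 / 2]] m) (tw m))
  have ht : lev qc u [0, 1] = u := by
    simp [lev, qc]
  have ht2 : lev qc u [2, -1] = 2 - u := by
    simp [lev, qc]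
    ring
  rw [ht] at h1
  have h2 : ∀ v : ℝ, (u * v) ^ (4 * m + 2) * (1 - (u + v) / 2) ^ m *
        ((2 - u) ^ (4 * m + 2 + m + 1) * lev (lev qc u) v (tw m) / 2 ^ m) =
      u ^ (4 * m + 2) * (2 - u) ^ (4 * m + 2 + m + 1) / 2 ^ m *
        (v ^ (4 * m + 2) * (u - v) ^ 0 *
          lev (lev qc u) v (PR.mul (pw [[1, -1 / 2], [-1 / 2]] m) (tw m))) := by
    intro v
    have H2 : Hom (lev (lev qc u) v) := hom_lev H1 v
    rw [H2.mul, H2.pw]
    have h3 : lev (lev qc u) v [[1, -1 / 2], [-1 / 2]] = 1 - (u + v) / 2 := by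
      simp [lev, qc]
      ring
    rw [h3, mul_pow]
    ring
  simp_rw [h2]
  rw [intervalIntegral.integral_const_mul, h1]
  unfold tu1
  rw [H1.mul, H1.mul, H1.pw, H1.pw, ht, ht2]
  unfold tv1
  ring

theorem TJ2_eq (m : ℕ) : TJ2 m = ((tj2 m : ℚ) : ℝ) := by
  unfold TJ2 tj2
  have h0 := integral_qc 1 2 (tu2 m)
  push_cast at h0 ⊢
  rw [← h0, ← intervalIntegral.integral_div]
  apply intervalIntegral.integral_congr
  intro u _
  dsimp only
  simp_rw [tw_eq]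
  have H1 : Hom (lev qc u) := hom_lev hom_qc u
  have h1 := beta_rule H1 (4 * m + 2) m [2, -1] (tw m)
  have ht : lev qc u [0, 1] = u := by
    simp [lev, qc]
  have ht2 : lev qc u [2, -1] = 2 - u := by
    simp [lev, qc]
    ring
  rw [ht2] at h1
  have h2 : ∀ v : ℝ, (u * v) ^ (4 * m + 2) * (1 - (u + v) / 2) ^ m *
        ((2 - u) ^ (4 * m + 2 + m + 1) * lev (lev qc u) v (tw m) / 2 ^ m) =
      u ^ (4 * m + 2) * (2 - u) ^ (4 * m + 2 + m + 1) / 4 ^ m *
        (v ^ (4 * m + 2) * ((2 - u) - v) ^ m * lev (lev qc u) v (tw m)) := by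
    intro v
    have h4 : 1 - (u + v) / 2 = ((2 - u) - v) / 2 := by ring
    have h5 : (4 : ℝ) ^ m = 2 ^ m * 2 ^ m := by
      rw [← mul_pow]
      norm_num
    rw [h4, mul_pow, div_pow, h5]
    field_simp
  simp_rw [h2]
  rw [intervalIntegral.integral_const_mul, h1]
  unfold tu2
  rw [H1.mul, H1.mul, H1.pw, H1.pw, ht, ht2]
  unfold tv2
  ring

end Pool.Agent.PolyInt
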