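import Mathlib
import Pool.Agent.Lib_MP_112ba8_g.DefsB
import Pool.Agent.Lib_MP_112ba8_g.BKsup
import Pool.Agent.Lib_MP_112ba8_g.TInt
import Pool.Agent.Lib_MP_112ba8_g.PolyT

/-!
Piece TSEVEN: two constants for `k = 12` (`m = 7`).

`be2_seven`: exact value `1.59340930e-38` (group the fourfold sum: coefficients of the fourth power of the
polynomial `∑_i C(7,i) (14-i)! (X/2)^i`, then `X^j -> j!`).
`TI_seven`: from `TI_le` and the closed forms (`n = 4m+2`, `B(p,q) = p! q!/(p+q+1)!`)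
`TJ1 m = ∑_{j ≤ m} ∑_{i ≤ m} ∑_{l ≤ n+m+j+1} C(m,j)/4^m B(n,m+j) * C(m,i)/2^m B(n,m-j+i) * 2^(m-i) *
C(n+m+j+1,l) B(n+e, m-i+l)`, `e = n+m-j+i+1`;
`TJ2 m = ∑_{j ≤ m} ∑_{i ≤ m-j} ∑_{l ≤ n} C(m,j)/4^m B(n,m+j) * C(m-j,i)/2^m B(n,m+i) * 2^(m-j-i) *
C(n,l) B(e', m-j-i+l)`, `e' = 2n+2m+i+j+2`.
(Inner `w`: `1-(u+w)/2 = (v'-w)/2`, `v' = 2-u`, `1-(v+w)/2 = ((v'-w)+(u-v))/2`; `v`-integral: expand
`v'-v = (v'-u)+(u-v)` for `u<1`, `u-v = (u-v')+(v'-v)` for `u>1`; then the `u`-integral.)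
Exact value `TI 7 1 = 4.2129029e-26`, checked in Python; for `m = 1` it gives `16183/1100799504`.
-/

namespace Pool.Agent.GenMoment

open Filter Topology MeasureTheory
open Pool.Agent.EvenMoment (cl Wgt Adm Ed cut hat)
open Pool.Agent.SixthMoment (QQ ln fr osc QS TT ob sepa oy xe JZ fc chi)

/-- rational version of `be2` -/
def TSEVEN_be2Q (m : ℕ) : ℚ :=
  1 / (4 * (Nat.factorial (8 * m + 4) : ℚ)) * ∑ i ∈ Finset.range (m + 1),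
    ∑ j ∈ Finset.range (m + 1), ∑ k ∈ Finset.range (m + 1), ∑ l ∈ Finset.range (m + 1),
      (Nat.factorial (i + j + k + l) : ℚ) / 2 ^ (i + j + k + l) *
        ((m.choose i * Nat.factorial (2 * m - i)) * (m.choose j * Nat.factorial (2 * m - j)) *
          (m.choose k * Nat.factorial (2 * m - k)) * (m.choose l * Nat.factorial (2 * m - l)))

theorem TSEVEN_be2_cast (m : ℕ) : be2 m = ((TSEVEN_be2Q m : ℚ) : ℝ) := by
  unfold be2 TSEVEN_be2Q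
  push_cast
  rfl

theorem TSEVEN_be2Q_le : TSEVEN_be2Q 7 ≤ 15935 / 10 ^ 42 := by
  decide +kernel

theorem TSEVEN_tj_le : 2 * (PolyInt.tj1 7 + PolyInt.tj2 7) ≤ 4213 / 10 ^ 29 := by
  decide +kernel

theorem be2_seven : be2 7 ≤ 15935 / 10 ^ 42 := by
  rw [TSEVEN_be2_cast]
  have h : ((TSEVEN_be2Q 7 : ℚ) : ℝ) ≤ ((15935 / 10 ^ 42 : ℚ) : ℝ) :=
    Rat.cast_le.mpr TSEVEN_be2Q_le
  push_cast at h
  exact h

theorem TI_seven : TI 7 1 ≤ ENNReal.ofReal (4213 / 10 ^ 29) := by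
  refine (TI_le (by norm_num)).trans (ENNReal.ofReal_le_ofReal ?_)
  rw [PolyInt.TJ1_eq, PolyInt.TJ2_eq]
  have h : ((2 * (PolyInt.tj1 7 + PolyInt.tj2 7) : ℚ) : ℝ) ≤ ((4213 / 10 ^ 29 : ℚ) : ℝ) :=
    Rat.cast_le.mpr TSEVEN_tj_le
  push_cast at h
  exact h

end Pool.Agent.GenMoment
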