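import Mathlib
import Pool.Agent.Lib_MP_112ba8_g.DefsB
import Pool.Agent.Lib_MP_112ba8_g.PolyInt

/-!
The integrals `NN3`, `NN4` as computable rationals (`nn3`, `nn4`), with `PolyInt`.  Numerical values
then follow from `decide +kernel`.
-/

namespace Pool.Agent.PolyInt

open MeasureTheory
open Pool.Agent.GenMoment (NN3 NN4)

/-- `r - b₁ - b₂` -/
def t3 (r : ℚ) : List (List (List ℚ)) := [[[r], [-1]], [[-1]]]

/-- `1 - θ₁ - θ₂ + 2 a + b₁ + b₂` -/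
def k3 (k : ℚ) : List (List (List ℚ)) := [[[k, 2], [1]], [[1]]]

/-- the polynomial in `e` -/
def e3 (k c : ℚ) : List (List (List (List ℚ))) :=
  [PR.mul (k3 k) (t3 c), PR.smul (-1) (PR.add (k3 k) (t3 c)), PR.cst 1]

/-- result of the `e` integral -/
def g3 (E : ℕ) (k c r : ℚ) : List (List (List ℚ)) :=
  PR.mul (pw (t3 r) (E + 1)) (horner (t3 r) (bw 0 E (e3 k c)))

/-- result of the `b₂` integral -/
def q2 (E B₂ Z₂ : ℕ) (k lam₂ c r : ℚ) : List (List ℚ) :=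
  horner [[lam₂, -1]] (bw Z₂ B₂ (g3 E k c r))

/-- result of the `b₁` integral -/
def q1 (E B₁ B₂ Z₁ Z₂ : ℕ) (k lam₁ lam₂ c r : ℚ) : List ℚ :=
  horner [lam₁, -1] (bw Z₁ B₁ (q2 E B₂ Z₂ k lam₂ c r))

/-- the polynomial in `a` -/
def p1 (E B₁ B₂ Z₁ Z₂ A : ℕ) (k lam₁ lam₂ c r : ℚ) : List ℚ :=
  PR.mul (PR.mul (pw [0, 1] A) (PR.mul (pw [lam₁, -1] (B₁ + Z₁ + 1)) (pw [lam₂, -1] (B₂ + Z₂ + 1))))
    (q1 E B₁ B₂ Z₁ Z₂ k lam₁ lam₂ c r)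

/-- value of the integral -/
def nn4 (E B₁ B₂ Z₁ Z₂ A : ℕ) (k lam₁ lam₂ a₀ r c : ℚ) : ℚ :=
  int0 lam₂ (p1 E B₁ B₂ Z₁ Z₂ A k lam₁ lam₂ c r) - int0 a₀ (p1 E B₁ B₂ Z₁ Z₂ A k lam₁ lam₂ c r)

theorem NN4_eq (E B₁ B₂ Z₁ Z₂ A : ℕ) (θ₁ θ₂ lam₁ lam₂ a₀ r c : ℚ) :
    NN4 E B₁ B₂ Z₁ Z₂ A θ₁ θ₂ lam₁ lam₂ a₀ r c =
      ((nn4 E B₁ B₂ Z₁ Z₂ A (1 - θ₁ - θ₂) lam₁ lam₂ a₀ r c : ℚ) : ℝ) := by
  unfold NN4 nn4
  rw [← integral_qc]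
  apply intervalIntegral.integral_congr
  intro a _
  dsimp only
  have H1 : Hom (lev qc a) := hom_lev hom_qc a
  have s1 : ∀ b₁ b₂ : ℝ, ∫ e in (0 : ℝ)..((r : ℝ) - b₁ - b₂),
      e ^ E * ((1 - (θ₁ - a - b₁) - (θ₂ - a - b₂) - e) * (c - b₁ - b₂ - e)) =
      lev (lev (lev qc a) b₁) b₂ (g3 E (1 - θ₁ - θ₂) c r) := by
    intro b₁ b₂
    have H2 : Hom (lev (lev qc a) b₁) := hom_lev H1 b₁
    have H3 : Hom (lev (lev (lev qc a) b₁) b₂) := hom_lev H2 b₂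
    have ht : ∀ x : ℚ, lev (lev (lev qc a) b₁) b₂ (t3 x) = (x : ℝ) - b₁ - b₂ := by
      intro x
      simp [t3, lev, qc]
      ring
    have hk : ∀ x : ℚ, lev (lev (lev qc a) b₁) b₂ (k3 x) = (x : ℝ) + 2 * a + b₁ + b₂ := by
      intro x
      simp [k3, lev, qc]
      ring
    have h1 := beta_rule H3 E 0 (t3 r) (e3 (1 - θ₁ - θ₂) c)
    unfold g3
    rw [H3.mul, H3.pw]
    rw [add_zero] at h1
    rw [← h1, ht]
    apply intervalIntegral.integral_congr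
    intro e _
    dsimp only
    rw [pow_zero, mul_one]
    congr 1
    unfold e3
    rw [lev_cons, lev_cons, lev_cons, lev_nil, H3.mul, H3.smul, H3.add, H3.cst, ht, hk]
    push_cast
    ring
  have s2 : ∀ b₁ : ℝ, ∫ b₂ in (0 : ℝ)..((lam₂ : ℝ) - a),
      b₂ ^ B₂ * (lam₂ - a - b₂) ^ Z₂ * lev (lev (lev qc a) b₁) b₂ (g3 E (1 - θ₁ - θ₂) c r) =
      (lam₂ - a) ^ (B₂ + Z₂ + 1) * lev (lev qc a) b₁ (q2 E B₂ Z₂ (1 - θ₁ - θ₂) lam₂ c r) := by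
    intro b₁
    have H2 : Hom (lev (lev qc a) b₁) := hom_lev H1 b₁
    have h1 := beta_rule H2 B₂ Z₂ [[lam₂, -1]] (g3 E (1 - θ₁ - θ₂) c r)
    have ht : lev (lev qc a) b₁ [[lam₂, -1]] = (lam₂ : ℝ) - a := by
      simp [lev, qc]
      ring
    rw [ht] at h1
    exact h1
  have s3 : ∫ b₁ in (0 : ℝ)..((lam₁ : ℝ) - a),
      b₁ ^ B₁ * (lam₁ - a - b₁) ^ Z₁ * lev (lev qc a) b₁ (q2 E B₂ Z₂ (1 - θ₁ - θ₂) lam₂ c r) =
      (lam₁ - a) ^ (B₁ + Z₁ + 1) * lev qc a (q1 E B₁ B₂ Z₁ Z₂ (1 - θ₁ - θ₂) lam₁ lam₂ c r) := by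
    have h1 := beta_rule H1 B₁ Z₁ [lam₁, -1] (q2 E B₂ Z₂ (1 - θ₁ - θ₂) lam₂ c r)
    have ht : lev qc a [lam₁, -1] = (lam₁ : ℝ) - a := by
      simp [lev, qc]
      ring
    rw [ht] at h1
    exact h1
  have s4 : ∀ b₁ b₂ : ℝ, ∫ e in (0 : ℝ)..((r : ℝ) - b₁ - b₂),
      a ^ A * (b₁ ^ B₁ * (lam₁ - a - b₁) ^ Z₁) * (b₂ ^ B₂ * (lam₂ - a - b₂) ^ Z₂) *
      (e ^ E * ((1 - (θ₁ - a - b₁) - (θ₂ - a - b₂) - e) * (c - b₁ - b₂ - e))) =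
      a ^ A * (b₁ ^ B₁ * (lam₁ - a - b₁) ^ Z₁) *
        (b₂ ^ B₂ * (lam₂ - a - b₂) ^ Z₂ *
          lev (lev (lev qc a) b₁) b₂ (g3 E (1 - θ₁ - θ₂) c r)) := by
    intro b₁ b₂
    rw [intervalIntegral.integral_const_mul, s1]
    ring
  simp_rw [s4]
  have s5 : ∀ b₁ : ℝ, ∫ b₂ in (0 : ℝ)..((lam₂ : ℝ) - a),
      a ^ A * (b₁ ^ B₁ * (lam₁ - a - b₁) ^ Z₁) *
        (b₂ ^ B₂ * (lam₂ - a - b₂) ^ Z₂ *
          lev (lev (lev qc a) b₁) b₂ (g3 E (1 - θ₁ - θ₂) c r)) =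
      (a ^ A * (lam₂ - a) ^ (B₂ + Z₂ + 1)) * (b₁ ^ B₁ * (lam₁ - a - b₁) ^ Z₁ *
        lev (lev qc a) b₁ (q2 E B₂ Z₂ (1 - θ₁ - θ₂) lam₂ c r)) := by
    intro b₁
    rw [intervalIntegral.integral_const_mul, s2]
    ring
  simp_rw [s5]
  rw [intervalIntegral.integral_const_mul, s3]
  have hL1 : lev qc a [lam₁, -1] = (lam₁ : ℝ) - a := by
    simp [lev, qc]
    ring
  have hL2 : lev qc a [lam₂, -1] = (lam₂ : ℝ) - a := by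
    simp [lev, qc]
    ring
  have ha : lev qc a [0, 1] = a := by
    simp [lev, qc]
  unfold p1
  rw [H1.mul, H1.mul, H1.mul, H1.pw, H1.pw, H1.pw, hL1, hL2, ha]
  ring

/-- `r - b` -/
def t2 (r : ℚ) : List ℚ := [r, -1]

/-- the polynomial in `e`, three vertices: `(k + b - e) (c - b - e)` -/
def e2 (k c : ℚ) : List (List ℚ) :=
  [PR.mul [k, 1] (t2 c), PR.smul (-1) (PR.add [k, 1] (t2 c)), PR.cst 1]

/-- result of the `e` integral -/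
def g2 (E : ℕ) (k c r : ℚ) : List ℚ :=
  PR.mul (pw (t2 r) (E + 1)) (horner (t2 r) (bw 0 E (e2 k c)))

/-- value of the integral, three vertices -/
def nn3 (E B Z : ℕ) (k lam r c : ℚ) : ℚ :=
  lam ^ (B + Z + 1) * horner lam (bw Z B (g2 E k c r))

theorem NN3_eq (E B Z : ℕ) (θ lam r c : ℚ) :
    NN3 E B Z θ lam r c = ((nn3 E B Z (1 - θ) lam r c : ℚ) : ℝ) := by
  unfold NN3 nn3
  have h0 := beta_rule hom_qc B Z lam (g2 E (1 - θ) c r)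
  have hq : ∀ x : ℚ, qc x = (x : ℝ) := fun x => rfl
  rw [hq, hq] at h0
  push_cast
  rw [← h0]
  apply intervalIntegral.integral_congr
  intro b _
  dsimp only
  have H1 : Hom (lev qc b) := hom_lev hom_qc b
  have ht : ∀ x : ℚ, lev qc b (t2 x) = (x : ℝ) - b := by
    intro x
    simp [t2, lev, qc]
    ring
  have hk : ∀ x : ℚ, lev qc b [x, 1] = (x : ℝ) + b := by
    intro x
    simp [lev, qc]
  rw [intervalIntegral.integral_const_mul]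
  congr 1
  have h1 := beta_rule H1 E 0 (t2 r) (e2 (1 - θ) c)
  unfold g2
  rw [H1.mul, H1.pw]
  rw [add_zero] at h1
  rw [← h1, ht]
  apply intervalIntegral.integral_congr
  intro e _
  dsimp only
  rw [pow_zero, mul_one]
  congr 1
  unfold e2
  rw [lev_cons, lev_cons, lev_cons, lev_nil, H1.mul, H1.smul, H1.add, H1.cst, ht, hk]
  push_cast
  ring

end Pool.Agent.PolyInt
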