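import Mathlib
import Pool.Agent.Lib_MP_112ba8_g.DefsB
import Pool.Agent.Lib_MP_112ba8_g.BKsup
import Pool.Agent.Lib_MP_112ba8_g.PolyNN

/-!
Piece VAL12: the numerical value of the main integral for `k = 12`.

Exact rational value `1.12301271e-87`.  Closed form: with `t = r - b₁ - b₂`,
`κ = 1 - θ₁ - θ₂ + r`, `γ = c - r` the inner integral over `e` is
`t^(E+1) (κ+2a)γ/(E+1) + t^(E+2) ((κ+2a-γ)/(E+1) - (κ+2a+γ)/(E+2)) + t^(E+3) (1/(E+3) - 1/(E+1))`;
expand `t^n` (multinomial), `beta_nat` in `b₁` and `b₂` gives powers of `lam₁ - a`, `lam₂ - a`; then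
`∫_{a₀}^{lam₂} a^p (lam₁-a)^M (lam₂-a)^M'`: expand `a = a₀ + (a - a₀)`,
`lam₁ - a = (lam₁ - lam₂) + (lam₂ - a)` and use `beta_nat`.  The resulting finite sum of rationals is
large; prove the closed form symbolically as a `Finset.sum`, cast it from `ℚ` and evaluate by
`decide +kernel` on a natural number inequality (or a smarter route, e.g. a lower bound with fewer terms;
there is 0.001 relative slack).
-/

namespace Pool.Agent.GenMoment

open Filter Topology MeasureTheory
open Pool.Agent.EvenMoment (cl Wgt Adm Ed cut hat)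
open Pool.Agent.SixthMoment (QQ ln fr osc QS TT ob sepa oy xe JZ fc chi)

theorem VAL12_rat : (1123 / 10 ^ 90 : ℚ) ≤
    PolyInt.nn4 11 35 23 5 3 11 (1 - 31 / 100 - 22 / 100) (309999 / 1000000) (219999 / 1000000)
      (3 / 100) (469998 / 1000000) (4725 / 10000) := by
  decide +kernel

theorem NN4_val12 : 1123 / 10 ^ 90 ≤
    NN4 11 35 23 5 3 11 (31 / 100) (22 / 100) (309999 / 1000000) (219999 / 1000000) (3 / 100)
      (469998 / 1000000) (4725 / 10000) := by
  have h := PolyInt.NN4_eq 11 35 23 5 3 11 (31 / 100) (22 / 100) (309999 / 1000000)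
    (219999 / 1000000) (3 / 100) (469998 / 1000000) (4725 / 10000)
  have h2 : ((1123 / 10 ^ 90 : ℚ) : ℝ) ≤ _ := Rat.cast_le.mpr VAL12_rat
  rw [← h] at h2
  push_cast at h2
  exact h2

end Pool.Agent.GenMoment
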