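import Mathlib
import Pool.Agent.Lib_MP_112ba8_g.Final
import Pool.Agent.Lib_MP_112ba8_g.KSix
import Pool.Agent.Lib_MP_112ba8_g.Val12
import Pool.Agent.Lib_MP_112ba8_g.TSeven

/-!
The numerical constant for `k = 12` (helper69).
-/

namespace Pool.Agent.GenMoment

open Filter Topology MeasureTheory
open Pool.Agent.EvenMoment (cl Wgt Adm Ed cut hat)
open Pool.Agent.SixthMoment (QQ ln fr osc QS TT ob sepa oy xe JZ fc chi d1_hat_adm d1_hat_nonneg)

/-- the number `N` -/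
noncomputable def fiN : ℝ := 1123 / 10 ^ 90 / ((Nat.factorial 11 : ℝ) * Nat.factorial 35 *
  Nat.factorial 23 * Nat.factorial 5 * Nat.factorial 3 * Nat.factorial 11)

/-- the number `D0` -/
noncomputable def fiD : ℝ := ((4725 / 10000) ^ 2 * (469999 / 1000000) ^ 72 / 72 -
  2 * (4725 / 10000) * (469999 / 1000000) ^ 73 / 73 + (469999 / 1000000) ^ 74 / 74) /
    (Nat.factorial 71 : ℝ)

/-- the constant for four vertices -/
noncomputable def fiH : ℝ := (Nat.factorial 34 : ℝ) ^ 3 / (2 * (Nat.factorial 104 : ℝ) *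
  (Nat.factorial 17 : ℝ) ^ 6) * (31 / 100) ^ 104

/-- the square of the constant for six vertices -/
noncomputable def fiK : ℝ := (15935 / 10 ^ 42) ^ 3 *
  (4213 / 10 ^ 29 / (Nat.factorial 7 : ℝ) ^ 15 * (22 / 100) ^ 114) ^ 2

lemma fi_num12 : 7 * 10 ^ 26 / (Nat.factorial 144 : ℝ) ≤
    fiN ^ 12 / (fiD ^ 6 * fiH ^ 3 * fiK) := by
  unfold fiN fiD fiH fiK
  norm_num [Nat.factorial]

theorem const12 {A : ℝ} (hA : A < 7 * 10 ^ 26) : ∀ᶠ T : ℝ in atTop,
    A * (Pool.Agent.EvenMoment.ar 12 / (Nat.factorial 144)) * Real.log T ^ 144 ≤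
      (1 / T) * ∫ t in (0 : ℝ)..T, ‖riemannZeta (cl t)‖ ^ 24 := by
  set θ₁ : ℝ := 31 / 100 with hθ₁
  set θ₂ : ℝ := 22 / 100 with hθ₂
  set δ : ℝ := 1 / 1000000 with hδ
  set ρ : ℝ := 469999 / 1000000 with hρ
  set η : ℝ := 1 / 1000000 with hη
  set c : ℝ := 4725 / 10000 with hc
  have har : 0 < Pool.Agent.EvenMoment.ar 12 := Real.exp_pos _
  have hδ0 : 0 < δ := by norm_num [hδ]
  have hη0 : 0 < η := by norm_num [hη]
  have e1 : θ₁ - δ = 309999 / 1000000 := by norm_num [hθ₁, hδ]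
  have e1' : θ₂ - δ = 219999 / 1000000 := by norm_num [hθ₂, hδ]
  have e2 : ρ - η = 469998 / 1000000 := by norm_num [hρ, hη]
  have hNp : 0 < fiN := by unfold fiN; positivity
  have hNle : (δ / 2) ^ 2 * fiN ≤
      LS (hX ![pn 6, pn 3, pn 2]) (SI 4) (GX fc ![gR c ρ η, hat θ₁ δ, hat θ₂ δ]) := by
    have h1 := LS_four_ge (a := 6) (b₁ := 3) (b₂ := 2) (by norm_num) (by norm_num) (by norm_num)
      (θ₁ := θ₁) (θ₂ := θ₂) (δ := δ) (ρ := ρ) (η := η) (c := c) (a₀ := 3 / 100) hδ0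
      (by norm_num [hθ₂, hδ]) (by norm_num [hθ₁, hθ₂]) hη0 (by norm_num [hθ₁, hθ₂, hρ])
      (by norm_num) (by norm_num [hθ₂, hδ])
      (by norm_num [hθ₁, hθ₂, hρ, hη, hδ]) (by norm_num [hρ, hc])
    refine le_trans (mul_le_mul_of_nonneg_left ?_ (by positivity)) h1
    rw [e1, e1', e2]
    unfold fiN
    exact div_le_div_of_nonneg_right NN4_val12 (by positivity)
  have hD0p : 0 < fiD := by
    unfold fiD
    refine div_pos ?_ (by positivity)
    norm_num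
  have hD0le : LS (fun _ : Fin 2 => pn 6) (SI 2) (G0 fun _ => gR c ρ η) ≤ fiD := by
    have h1 := LS_two_le (a := 6) (by norm_num) (c := c) (ρ := ρ) hη0 (by norm_num [hρ])
      (by norm_num [hρ, hc])
    refine h1.trans (le_of_eq ?_)
    rw [hc, hρ]
    unfold fiD
    norm_num
  have hHp : 0 < fiH := by unfold fiH; positivity
  have hHle : LS (fun _ : Fin 4 => pn 3) (SI 4) (G0 fun _ => hat θ₁ δ) ≤ (δ / 2) ^ 4 * fiH := by
    have h1 := LS_four_le (a := 3) (m := 17) (by norm_num) (by norm_num) (θ := θ₁) hδ0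
      (by norm_num [hθ₁, hδ])
    exact h1
  set K : ℝ := Real.sqrt (be2 7) ^ 3 * (4213 / 10 ^ 29) / (Nat.factorial 7 : ℝ) ^ 15 * θ₂ ^ 114
    with hK
  have hb : 0 < Real.sqrt (be2 7) := Real.sqrt_pos.mpr (be2_pos 7)
  have hθ₂0 : 0 < θ₂ := by norm_num [hθ₂]
  have hKp : 0 < K := by positivity
  have hKle : LS (fun _ : Fin 6 => pn 2) (SI 6) (G0 fun _ => hat θ₂ δ) ≤ (δ / 2) ^ 6 * K :=
    LS_six_le (a := 2) (m := 7) (by norm_num) (by norm_num) (θ := θ₂) hδ0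
      (by norm_num [hθ₂, hδ]) (by norm_num) TI_seven
  have key := moment_lower (n := 3) (by norm_num) ![6, 3, 2] ![1, 2, 3] (k := 12)
    (by intro i; fin_cases i <;> norm_num) (by intro i; fin_cases i <;> norm_num)
    (by intro i; fin_cases i <;> norm_num) (by simp [Fin.sum_univ_three])
    (θ := ![ρ, θ₁, θ₂]) (by intro i; fin_cases i <;> norm_num [hρ, hθ₁, hθ₂])
    (by
      rw [Fin.sum_univ_three]
      change ρ + θ₁ + θ₂ < 1
      norm_num [hρ, hθ₁, hθ₂])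
    (by intro i; fin_cases i <;> norm_num [hρ, hθ₁, hθ₂])
    (ω := ![gR c ρ η, hat θ₁ δ, hat θ₂ δ])
    (by
      intro i
      fin_cases i
      · exact fi_gR_adm hη0
      · exact d1_hat_adm hδ0
      · exact d1_hat_adm hδ0)
    (by
      intro i
      fin_cases i
      · exact fi_gR_nonneg hη0 (by norm_num [hρ, hc])
      · exact d1_hat_nonneg θ₁ δ
      · exact d1_hat_nonneg θ₂ δ)
    (z := (δ / 2) ^ 2 * fiN) (by positivity)
    (D := ![fiD, (δ / 2) ^ 4 * fiH, (δ / 2) ^ 6 * K])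
    (by
      intro i
      fin_cases i
      · exact hD0p
      · show 0 < (δ / 2) ^ 4 * fiH
        positivity
      · show 0 < (δ / 2) ^ 6 * K
        positivity)
    (by
      refine hNle.trans (le_of_eq ?_)
      congr 2
      funext i
      fin_cases i <;> rfl)
    (by
      intro i
      fin_cases i
      · exact hD0le
      · exact hHle
      · exact hKle)
    (A := A * (Pool.Agent.EvenMoment.ar 12 / (Nat.factorial 144))) ?_
  · exact key
  · rw [Fin.prod_univ_three]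
    have e3 : ((δ / 2) ^ 2 * fiN) ^ 12 /
        ((![fiD, (δ / 2) ^ 4 * fiH, (δ / 2) ^ 6 * K] : Fin 3 → ℝ) 0 ^
          (![6, 3, 2] : Fin 3 → ℕ) 0 *
        (![fiD, (δ / 2) ^ 4 * fiH, (δ / 2) ^ 6 * K] : Fin 3 → ℝ) 1 ^ (![6, 3, 2] : Fin 3 → ℕ) 1 *
        (![fiD, (δ / 2) ^ 4 * fiH, (δ / 2) ^ 6 * K] : Fin 3 → ℝ) 2 ^ (![6, 3, 2] : Fin 3 → ℕ) 2) =
        fiN ^ 12 / (fiD ^ 6 * fiH ^ 3 * K ^ 2) := by
      change ((δ / 2) ^ 2 * fiN) ^ 12 / (fiD ^ 6 * ((δ / 2) ^ 4 * fiH) ^ 3 *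
        ((δ / 2) ^ 6 * K) ^ 2) = fiN ^ 12 / (fiD ^ 6 * fiH ^ 3 * K ^ 2)
      have h0 : δ / 2 ≠ 0 := by positivity
      rw [div_eq_div_iff (by positivity) (by positivity)]
      ring
    rw [e3]
    have hK2 : K ^ 2 ≤ fiK := by
      have h4 : Real.sqrt (be2 7) ^ 6 ≤ (15935 / 10 ^ 42) ^ 3 := by
        rw [show Real.sqrt (be2 7) ^ 6 = (Real.sqrt (be2 7) ^ 2) ^ 3 by ring,
          Real.sq_sqrt (be2_pos 7).le]
        exact pow_le_pow_left₀ (be2_pos 7).le be2_seven 3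
      have h5 : K ^ 2 = Real.sqrt (be2 7) ^ 6 *
          (4213 / 10 ^ 29 / (Nat.factorial 7 : ℝ) ^ 15 * θ₂ ^ 114) ^ 2 := by
        rw [hK]
        ring
      rw [h5, hθ₂]
      unfold fiK
      exact mul_le_mul_of_nonneg_right h4 (sq_nonneg _)
    have hnum : 7 * 10 ^ 26 / (Nat.factorial 144 : ℝ) ≤ fiN ^ 12 / (fiD ^ 6 * fiH ^ 3 * K ^ 2) := by
      refine fi_num12.trans ?_
      refine div_le_div_of_nonneg_left (by positivity) (by positivity) ?_
      exact mul_le_mul_of_nonneg_left hK2 (by positivity)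
    calc A * (Pool.Agent.EvenMoment.ar 12 / (Nat.factorial 144)) =
          Pool.Agent.EvenMoment.ar 12 * (A / (Nat.factorial 144)) := by ring
      _ < Pool.Agent.EvenMoment.ar 12 * (7 * 10 ^ 26 / (Nat.factorial 144)) := by gcongr
      _ ≤ _ := mul_le_mul_of_nonneg_left hnum har.le

end Pool.Agent.GenMoment
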